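import Pool.Agent.P.MP_323ce2_nt.QM.St
import Pool.Agent.P.MP_26a8c3_nt.QO.All
import Pool.Agent.P.MP_26a8c3_nt.QB.Base
import Pool.Agent.P.MP_26a8c3_nt.QB.PT
import Pool.Agent.P.MP_26a8c3_nt.QB.SW
import Pool.Agent.P.MP_26a8c3_nt.QB.IIIa

/-! Poisson summation back from the dual of the detector. -/

namespace Pool.Agent.P.MP_323ce2_nt.QM

open Finset Pool.Agent.P.MP_26a8c3_nt Pool.Agent.P.MP_26a8c3_nt.QO Pool.Agent.P.MP_26a8c3_nt.QA
open Pool.Agent.P.MP_26a8c3_nt.QB
open scoped Classical ComplexConjugate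

namespace B1

/-- the coefficient of the dual double sum -/
noncomputable def FF (ν : O → ℂ) (X t P : ℝ) (m : O) (x : O × O) : ℂ :=
  sq ν x.1 * W X t (nr x.1) / (ab x.1 : ℂ) * conj (sq ν x.2 * W X t (nr x.2) / (ab x.2 : ℂ)) *
    (G (P * N m / (nr x.1 * nr x.2)) : ℝ)

variable {Q : O} {ν : O → ℂ}

lemma sq_le (h : IsNu Q ν) (c : O) : ‖sq ν c‖ ≤ 1 := by
  unfold sq; split_ifs
  · exact h.le c
  · simp

lemma vv_mul {a : O} (ha : SQO a) (k : O) :
    mu a * IIIa.vv ν a * mu a * conj (bb a) * xi k a =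
      sq (fun c => ν c * xi k c * chi c 2) a := by
  have h1 := IIIa.vv_mul (ν := ν) alg ha k
  rw [al, if_pos ha.1] at h1
  rw [sq, if_pos ha.1]
  linear_combination mu a * h1 + (ν a * xi k a * chi a 2) * mu_sq ha.1.2

lemma FF_sq {X t P : ℝ} {m : O} {x : O × O} (h : FF ν X t P m x ≠ 0) : SQ x.1 ∧ SQ x.2 := by
  by_contra hc
  rcases not_and_or.1 hc with e | e <;> simp [FF, sq, e] at h

lemma norm_div_ab (X t : ℝ) (c : O) :
    ‖sq ν c * W X t (nr c) / (ab c : ℂ)‖ ≤ ‖sq ν c * W X t (nr c)‖ := by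
  rcases eq_or_ne c 0 with rfl | hc
  · simp [sq, not_sq_zero]
  · rw [norm_div, Complex.norm_real, Real.norm_of_nonneg (ab_nonneg c)]
    refine div_le_self (norm_nonneg _) ?_
    rw [ab_eq]; exact Real.one_le_sqrt.2 (one_le_N hc)

lemma summable_FF (h : IsNu Q ν) {X P : ℝ} (hX : 0 < X) (hP : 0 < P) (t : ℝ) (m : O) :
    Summable fun x : O × O => ‖FF ν X t P m x‖ * (N x.1 : ℝ) ^ 4 := by
  have h1 := (summable_Wn (sq_le h) hX t 4).mul_of_nonneg (summable_W1 (sq_le h) hX t)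
    (fun _ => by positivity) (fun _ => by positivity)
  refine Summable.of_nonneg_of_le (fun _ => by positivity) (fun x => ?_) h1
  have h2 := norm_div_ab (ν := ν) X t x.1
  have h3 := norm_div_ab (ν := ν) X t x.2
  have h4 : G (P * N m / (nr x.1 * nr x.2)) ≤ 1 :=
    QB.G_le_one (by have := nr_pos x.1; have := nr_pos x.2; positivity)
  rw [FF, norm_mul, norm_mul, Complex.norm_conj, Complex.norm_real,
    Real.norm_of_nonneg (QB.G_pos _).le]
  have h5 := (QB.G_pos (P * N m / (nr x.1 * nr x.2))).le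
  calc _ ≤ ‖sq ν x.1 * W X t (nr x.1)‖ * ‖sq ν x.2 * W X t (nr x.2)‖ * 1 * (N x.1 : ℝ) ^ 4 := by
        gcongr
    _ = _ := by ring

lemma summable_FK (h : IsNu Q ν) {X P : ℝ} (hX : 0 < X) (hP : 0 < P) (t : ℝ) (m : O) :
    Summable fun x : O × O => FF ν X t P m x * KK x.1 x.2 m := by
  refine Summable.of_norm_bounded (summable_FF h hX hP t m) fun x => ?_
  by_cases e : FF ν X t P m x = 0
  · simp [e]
  obtain ⟨h1, h2⟩ := FF_sq e
  rw [norm_mul]
  refine mul_le_mul_of_nonneg_left ((alg.k.2.2.2.2.1 _ _ m h1 h2).trans ?_) (norm_nonneg _)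
  exact le_self_pow₀ (one_le_N h1.ne_zero) (by norm_num)

/-- the nonzero frequencies, for one class -/
lemma main (h : IsNu Q ν) {X P b : ℝ} (hX : 0 < X) (hP : 0 < P)
    (t : ℝ) (s : Finset O) (H : ∀ T : Finset O, (∀ e ∈ T, SQ e) → ∑ m ∈ s, ∑ e ∈ T,
      ‖jj e m‖ * ‖KD (fun c => sq ν c * ps e c m) X t (P * N m)‖ ≤ b) :
    ∑ m ∈ s, ‖∑' x : O × O, FF ν X t P m x * KK x.1 x.2 m‖ ≤ b := by
  obtain ⟨C, hC, hd⟩ := (base alg).dv_le
  have := sw (base alg) s (fun _ => 1) (FF ν X t P) (fun m e => mu e * jj e m) C b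
    (fun _ _ => zero_le_one) (fun m _ => summable_FF h hX hP t m) (fun m _ x => FF_sq)
    (fun m _ e he => ?_) fun T hT => ?_
  · refine le_trans (le_of_eq (sum_congr rfl fun m _ => ?_)) this
    rw [one_mul]
    congr 1
    refine tsum_congr fun x => ?_
    by_cases e : FF ν X t P m x = 0
    · simp [e]
    obtain ⟨h1, h2⟩ := FF_sq e
    rw [alg.k.2.1 _ _ m h1 h2, cd]
  · have h1 := one_le_N he.ne_zero
    rw [norm_mul]
    calc _ ≤ 1 * (dv e * N e) :=
          mul_le_mul (norm_mu_le e) (norm_jj_le' he.ne_zero m) (norm_nonneg _) zero_le_one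
      _ ≤ 1 * (C * N e * N e) := by gcongr; exact hd e he.ne_zero
      _ ≤ _ := by nlinarith [mul_pos hC (mul_pos (zero_lt_one.trans_le h1) (zero_lt_one.trans_le h1))]
  · refine le_trans (sum_le_sum fun m _ => sum_le_sum fun e _ => ?_) (H T hT)
    have e1 : ∑' x : O × O, FF ν X t P m x * (ps e x.1 m * conj (ps e x.2 m)) =
        KD (fun c => sq ν c * ps e c m) X t (P * N m) := by
      refine tsum_congr fun x => ?_
      simp only [FF, map_mul, map_div₀]
      ring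
    rw [e1, one_mul, norm_mul]
    exact mul_le_mul_of_nonneg_right (mul_le_of_le_one_left (norm_nonneg _) (norm_mu_le e))
      (norm_nonneg _)

/-- the zero frequency, for one class -/
lemma zero (h : IsNu Q ν) {X P : ℝ} (hX : 0 < X) (t : ℝ) :
    ‖∑' x : O × O, FF ν X t P 0 x * KK x.1 x.2 0‖ ≤ ∑' c : O, ‖1 * W X t (nr c)‖ := by
  have h1 := (summable_W1 (u := fun _ => 1) (fun _ => by simp) hX t).hasSum
  have h2 : HasSum (fun x : O × O => if x.1 = x.2 then ‖1 * W X t (nr x.1)‖ else 0)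
      (∑' c : O, ‖1 * W X t (nr c)‖) := by
    refine (Function.Injective.hasSum_iff (g := fun c : O => (c, c))
      (fun a b e => congrArg Prod.fst e) fun x hx => if_neg fun e => hx ⟨x.1, Prod.ext rfl e⟩).1 ?_
    simpa [Function.comp_def] using h1
  refine tsum_of_norm_bounded h2 fun x => ?_
  by_cases e : FF ν X t P 0 x = 0
  · rw [e, zero_mul, norm_zero]; positivity
  obtain ⟨a, c⟩ := x
  obtain ⟨h3, h4⟩ := FF_sq e
  by_cases hac : a = c
  · subst hac
    have h5 := alg.k.2.2.2.2.1 a a 0 h3 h3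
    have h6 := ab_pos h3.ne_zero
    have h7 := sq_le h a
    have h8 := norm_W_le_one X t (nr a)
    have h9 : G 0 = 1 := by simp [G]
    simp only [FF, if_true, one_mul, map_zero, Nat.cast_zero, mul_zero, zero_div, h9, norm_mul,
      Complex.norm_conj, norm_div, Complex.norm_real, Real.norm_of_nonneg h6.le, norm_one, mul_one]
    rw [← ab_sq] at h5
    calc _ ≤ 1 * ‖W X t (nr a)‖ / ab a * (1 * 1 / ab a) * ab a ^ 2 := by gcongr
      _ = _ := by field_simp
  · rw [alg.k.2.2.1 a c h3 h4, if_neg hac, if_neg hac]; simp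

lemma mass {X : ℝ} (hX : 0 < X) (t : ℝ) : ∑' c : O, ‖1 * W X t (nr c)‖ ≤ 13 * 16 * X := by
  refine (summable_W1 (u := fun _ => 1) (fun _ => by simp) hX t).tsum_le_of_sum_le fun s => ?_
  simp only [one_mul]
  refine sum_W_le nr_pos (fun Y s hY hs => ?_) hX t s
  rcases s.eq_empty_or_nonempty with rfl | ⟨c, hc⟩
  · simp [hY.le]
  have h1 := (one_le_nr c).trans (hs c hc)
  have h2 : (s.card : ℝ) ≤ (ball Y).card :=
    Nat.cast_le.2 (card_le_card fun i hi => mem_ball.2 ((N_le_nr i).trans (hs i hi)))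
  linarith [card_ball_le hY.le]

lemma sq_zero {a : O} (h1 : IIIa.vv ν a = 0) (k : O) :
    sq (fun c => ν c * xi k c * chi c 2) a = 0 := by
  by_cases h : SQ a
  · have h2 := alg.r4.2.1 _ h
    have h3 := norm_ang h.ne_zero
    have : ν a = 0 := by
      rw [IIIa.vv, if_pos h] at h1
      rcases mul_eq_zero.1 h1 with h1 | h1
      · rcases mul_eq_zero.1 h1 with h1 | h1
        · simp [h1] at h2
        · simp [h1] at h3
      · exact h1
    simp [sq, this]
  · simp [sq, h]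

end B1

open B1 in
theorem pB1 : S_B1 := by
  obtain ⟨κ, hκ, hg⟩ := alg.gam.2.2.2.2.2.2.2.2.2.2.2
  refine ⟨2 * (13 * 16), by positivity, fun Q ν P X t b hQ hν hP hX H => ?_⟩
  have hb0 : 0 ≤ b := by simpa using H ν hν ∅ ∅ (by simp) (by simp)
  have hsq : ∀ a, mu a * IIIa.vv ν a * W X t (nr a) ≠ 0 → SQO a := fun a ha =>
    IIIa.sqo_of_vv hQ hν (right_ne_zero_of_mul (left_ne_zero_of_mul ha))
  have hk : ∀ k ∈ cls, IsNu Q fun c => ν c * xi k c * chi c 2 := fun k hk =>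
    ((base alg).nu Q ν k hQ hν hk).2
  have key := pt (base alg) (fun c => mu c * IIIa.vv ν c * W X t (nr c))
    (fun a c m => conj (psi a m) * psi c m) KK IIIa.ph P
    (2 * b) hP (by simp [IIIa.vv, not_sq_zero])
    (summable_Wn (fun c => norm_mul_le_one (norm_mu_le c) (IIIa.vv_le alg hν c)) hX t 3)
    (fun a c m ha hc => ⟨(norm_mul_le_one (by rw [Complex.norm_conj]; exact norm_psi_le _ _)
      (norm_psi_le _ _)).trans (one_le_N (hsq a ha).1.ne_zero),
      alg.k.2.2.2.2.1 a c m (hsq a ha).1 (hsq c hc).1, IIIa.norm_ph alg (hsq a ha) (hsq c hc)⟩)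
    (fun a c ha hc => IIIa.poi alg (hsq a ha) (hsq c hc) hP)
    (fun m => ∑ k ∈ cls, conj (κ k) *
      ∑' x : O × O, FF (fun c => ν c * xi k c * chi c 2) X t P m x * KK x.1 x.2 m)
    (fun m => ?_) fun s h0 => ?_
  · obtain ⟨k1, k2⟩ := key
    have e : ∀ m : O, ((G (N m / P) : ℝ) : ℂ) * ∑' x : O × O,
        mu x.1 * IIIa.vv ν x.1 * W X t (nr x.1) * conj (mu x.2 * IIIa.vv ν x.2 * W X t (nr x.2)) *
          (conj (psi x.1 m) * psi x.2 m) = ((G (N m / P) * ‖Bm ν m X t‖ ^ 2 : ℝ) : ℂ) := fun m => by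
      rw [Complex.ofReal_mul, Bm, Wsum, norm_sq_tsum (summable_W1
        (fun c => norm_mul_le_one (norm_mu_le c) ((bd1_uB alg hν m).2 c)) hX t)]
      congr 1
      refine tsum_congr fun x => ?_
      by_cases h1 : SQ x.1 <;> by_cases h2 : SQ x.2 <;> simp [IIIa.vv, uB, Phi, h1, h2]
      ring
    simp only [e] at k1 k2
    rw [← Complex.ofReal_tsum, Complex.norm_real] at k2
    have k3 := Complex.summable_ofReal.1 k1
    intro s
    refine (k3.sum_le_tsum s fun m _ => mul_nonneg (QB.G_pos _).le (by positivity)).trans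
      ((le_abs_self _).trans (k2.trans ?_))
    have k6 : ‖∑ k ∈ cls, conj (κ k) * ∑' x : O × O,
        FF (fun c => ν c * xi k c * chi c 2) X t P 0 x * KK x.1 x.2 0‖ ≤ 2 * (13 * 16 * X) := by
      refine (norm_sum_le_of_le (n := fun k => ‖κ k‖ * (13 * 16 * X)) _ fun k h => ?_).trans ?_
      · rw [norm_mul, Complex.norm_conj]
        exact mul_le_mul_of_nonneg_left ((zero (hk k h) hX t).trans (mass hX t)) (norm_nonneg _)
      · rw [← sum_mul]; gcongr
    calc _ ≤ P * (2 * (13 * 16 * X) + 2 * b) := by gcongr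
      _ ≤ _ := by nlinarith [mul_nonneg hP.le hb0]
  · simp only [← tsum_mul_left]
    rw [← Summable.tsum_finsetSum fun k h => (summable_FK (hk k h) hX hP t m).mul_left _]
    refine tsum_congr fun x => ?_
    by_cases h1 : IIIa.vv ν x.1 = 0
    · simp [FF, h1, sq_zero h1]
    by_cases h2 : IIIa.vv ν x.2 = 0
    · simp [FF, h2, sq_zero h2]
    have s1 := IIIa.sqo_of_vv hQ hν h1
    have s2 := IIIa.sqo_of_vv hQ hν h2
    rw [IIIa.ph, hg _ (od_mul.2 ⟨s1.2, s2.2⟩), map_sum]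
    simp only [mul_sum, sum_mul]
    refine sum_congr rfl fun k h => ?_
    have hko := alg.gam.2.2.2.2.2.2.2.1 k h
    rw [FF, ← vv_mul s1, ← vv_mul s2, (alg.gam.2.2.2.2.2.2.1 k hko).mul, nr_eq s1.1.ne_zero,
      nr_eq s2.1.ne_zero]
    simp only [map_mul, map_div₀, Complex.conj_conj, conj_mu, IIIa.conj_xi alg hko s1.2,
      IIIa.conj_xi alg hko s2.2]
    ring
  · calc _ ≤ ∑ m ∈ s, ∑ k ∈ cls, ‖κ k‖ * ‖∑' x : O × O,
          FF (fun c => ν c * xi k c * chi c 2) X t P m x * KK x.1 x.2 m‖ :=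
          sum_le_sum fun m _ => norm_sum_le_of_le _ fun k _ => by rw [norm_mul, Complex.norm_conj]
      _ ≤ ∑ k ∈ cls, ‖κ k‖ * b := by
          rw [sum_comm]
          refine sum_le_sum fun k h => ?_
          rw [← mul_sum]
          exact mul_le_mul_of_nonneg_left
            (main (hk k h) hX hP t s fun T hT => H _ (hk k h) s T h0 hT) (norm_nonneg _)
      _ ≤ _ := by rw [← sum_mul]; gcongr

end Pool.Agent.P.MP_323ce2_nt.QM
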