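import Pool.Agent.P.MP_323ce2_nt.QM.St
import Pool.Agent.P.MP_323ce2_nt.QR.Cnt
import Pool.Agent.P.MP_26a8c3_nt.QB.DL
import Pool.Agent.P.MP_26a8c3_nt.QO.Cnt

/-! The short family on the dual side of the detector. -/

namespace Pool.Agent.P.MP_323ce2_nt.QM

open Finset Pool.Agent.P.MP_26a8c3_nt Pool.Agent.P.MP_26a8c3_nt.QO Pool.Agent.P.MP_26a8c3_nt.QA
open Pool.Agent.P.MP_323ce2_nt.QF Pool.Agent.P.MP_323ce2_nt.QX
open scoped Classical ComplexConjugate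

namespace B2

lemma bd1 {Q : O} {ν : O → ℂ} (hν : IsNu Q ν) (e m : O) :
    QB.Bd1 fun c => sq ν c * QB.ps e c m := by
  refine ⟨by simp [sq, QB.not_sq_zero], fun c => QB.norm_mul_le_one ?_ (QB.norm_ps_le _ _ _)⟩
  unfold sq
  split_ifs
  · exact hν.le c
  · simp

/-- the second moment of the short family -/
lemma mom (h2 : S_Sf) (h3 : S_Lam) {Q : O} (hQ : Q ≠ 0) (h36 : 36 ∣ Q) {δ : ℝ} (h0 : 0 < δ)
    (h1 : δ ≤ 1) : ∃ (C : ℝ) (k : ℕ), 0 < C ∧ ∀ (ν : O → ℂ) (X t y : ℝ) (s T : Finset O),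
    IsNu Q ν → 0 < X → 1 ≤ y → (∀ m ∈ s, m ≠ 0 ∧ (N m : ℝ) ≤ y) → (∀ e ∈ T, SQ e) →
    ∑ m ∈ s, ∑ e ∈ T, ‖jj e m‖ * ‖Wsum (fun c => sq ν c * QB.ps e c m) X t‖ ^ 2 ≤
      C * (1 + |t|) ^ k * (y ^ δ * (X ^ 2 * y ^ (1 / 6 : ℝ) + X ^ (1 + δ) * y ^ (9 / 4 : ℝ))) := by
  obtain ⟨⟨C₁, hC₁, l1⟩, l2, l3⟩ := h3
  obtain ⟨C₂, k, hC₂, l2⟩ := l2 Q hQ h36
  obtain ⟨C₃, hC₃, l3⟩ := l3 δ δ h0 h0
  obtain ⟨-, s2, -, s4⟩ := h2
  obtain ⟨C₄, hC₄, s4⟩ := s4 δ h0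
  obtain ⟨C₅, hC₅, c5⟩ := QR.pCnt Q hQ h36
  refine ⟨C₃ * (C₁ ^ 2 * C₅ + (C₄ * C₂) ^ 2 * 16), 2 * k, by positivity,
    fun ν X t y s T hν hX hy hs hT => ?_⟩
  have hy0 : 0 < y := by linarith
  have ht : 1 ≤ (1 + |t|) ^ (2 * k) := one_le_pow₀ (by linarith [abs_nonneg t])
  set a₁ := C₁ ^ 2 * X ^ 2 with ha₁
  set a₂ := (C₄ * C₂) ^ 2 * (1 + |t|) ^ (2 * k) * (y ^ (5 / 4 : ℝ) * X ^ (1 + δ)) with ha₂
  have p₁ : 0 ≤ a₁ := by positivity
  have p₂ : 0 ≤ a₂ := by positivity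
  set g : O → ℝ := fun m => (if Exc Q ν m then a₁ else 0) + a₂ with hg
  have pg : ∀ m, 0 ≤ g m := fun m => add_nonneg (by split_ifs; exacts [p₁, le_rfl]) p₂
  have pt : ∀ m ∈ s, ∀ e ∈ T, ‖Wsum (fun c => sq ν c * QB.ps e c m) X t‖ ^ 2 ≤
      dv e ^ 4 * (N e : ℝ) ^ (-(1 + δ)) * g m := fun m hm e he => by
    have e0 := (hT e he).ne_zero
    have e1 := one_le_N e0
    have e2 : (0 : ℝ) < N e := by linarith
    have d1 := one_le_dv e0
    have hY : 0 < X / N e := by positivity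
    have q0 : 0 ≤ (N e : ℝ) ^ (-(1 + δ)) := by positivity
    refine (pow_le_pow_left₀ (norm_nonneg _) (s2 Q ν e m X t hν (hT e he) hX) 2).trans ?_
    by_cases hE : Exc Q ν m
    · have b1 : ‖Ls ν e m (X / N e) t‖ ≤ C₁ * (X / N e) := l1 _ _ t (fun c => by
        split_ifs
        · exact (mul1_ph hν m).le c
        · simp) hY
      have b2 : ((N e : ℝ) ^ 2)⁻¹ ≤ (N e : ℝ) ^ (-(1 + δ)) := by
        rw [← Real.rpow_two, ← Real.rpow_neg e2.le]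
        exact Real.rpow_le_rpow_of_exponent_le e1 (by linarith)
      calc _ ≤ (C₁ * (X / N e)) ^ 2 := by gcongr
        _ = 1 * ((N e : ℝ) ^ 2)⁻¹ * (a₁ + 0) := by rw [ha₁]; ring
        _ ≤ _ := by
          simp only [hg, if_pos hE]
          gcongr
          exact one_le_pow₀ d1
    · have b1 := s4 Q ν e m (X / N e) t (C₂ * (1 + |t|) ^ k * y ^ (5 / 8 : ℝ)) hν e0 hY
        fun Y hY0 _ => l2 ν m y Y t δ hν (hs m hm).1 (rad_self (hs m hm).1 (hs m hm).2) hE hY0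
          h0.le h1
      have b2 : ((X / N e) ^ ((1 + δ) / 2)) ^ 2 = X ^ (1 + δ) * (N e : ℝ) ^ (-(1 + δ)) := by
        rw [← Real.rpow_mul_natCast hY.le, Real.rpow_neg e2.le, ← div_eq_mul_inv,
          ← Real.div_rpow hX.le e2.le]
        congr 1
        push_cast
        ring
      have b3 : (y ^ (5 / 8 : ℝ)) ^ 2 = y ^ (5 / 4 : ℝ) := by
        rw [← Real.rpow_mul_natCast hy0.le]; norm_num
      calc _ ≤ (C₄ * dv e * (C₂ * (1 + |t|) ^ k * y ^ (5 / 8 : ℝ)) *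
            (X / N e) ^ ((1 + δ) / 2)) ^ 2 := by gcongr
        _ = dv e ^ 2 * (N e : ℝ) ^ (-(1 + δ)) * (0 + a₂) := by
          rw [mul_pow, b2, ha₂, ← b3]; ring
        _ ≤ _ := by
          simp only [hg, if_neg hE]
          gcongr
          norm_num
  have b1 : ∑ m ∈ s, g m ≤ C₅ * y ^ (1 / 6 : ℝ) * a₁ + 16 * y * a₂ := by
    simp only [hg, sum_add_distrib, ← sum_filter, sum_const, nsmul_eq_mul]
    gcongr
    · exact c5 y _ hy fun m hm => ⟨(hs m (mem_filter.1 hm).1).1, (hs m (mem_filter.1 hm).1).2,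
        ν, hν, (mem_filter.1 hm).2⟩
    · exact card_le_of_N_le hy0.le hs
  have b2 : y * y ^ (5 / 4 : ℝ) = y ^ (9 / 4 : ℝ) := by
    rw [← Real.rpow_one_add' hy0.le (by norm_num)]; norm_num
  calc _ ≤ ∑ m ∈ s, C₃ * y ^ δ * g m := by
        refine sum_le_sum fun m hm => ?_
        have b3 := (l3 m T (hs m hm).1 hT).trans (mul_le_mul_of_nonneg_left
          (Real.rpow_le_rpow (Nat.cast_nonneg _) (hs m hm).2 h0.le) hC₃.le)
        refine le_trans ?_ (mul_le_mul_of_nonneg_right b3 (pg m))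
        rw [sum_mul]
        refine sum_le_sum fun e he => ?_
        rw [mul_assoc, mul_assoc, ← mul_assoc (dv e ^ 4)]
        exact mul_le_mul_of_nonneg_left (pt m hm e he) (norm_nonneg _)
    _ ≤ C₃ * y ^ δ * (C₅ * y ^ (1 / 6 : ℝ) * a₁ + 16 * y * a₂) := by
        rw [← mul_sum]; gcongr
    _ = C₃ * y ^ δ * (C₁ ^ 2 * C₅ * 1 * (X ^ 2 * y ^ (1 / 6 : ℝ)) +
          (C₄ * C₂) ^ 2 * 16 * (1 + |t|) ^ (2 * k) * (X ^ (1 + δ) * y ^ (9 / 4 : ℝ))) := by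
        rw [ha₁, ha₂, ← b2]; ring
    _ ≤ C₃ * y ^ δ * ((C₁ ^ 2 * C₅ + (C₄ * C₂) ^ 2 * 16) * (1 + |t|) ^ (2 * k) *
          (X ^ 2 * y ^ (1 / 6 : ℝ)) + (C₁ ^ 2 * C₅ + (C₄ * C₂) ^ 2 * 16) * (1 + |t|) ^ (2 * k) *
          (X ^ (1 + δ) * y ^ (9 / 4 : ℝ))) := by
        gcongr
        · exact le_add_of_nonneg_right (by positivity)
        · exact le_add_of_nonneg_left (by positivity)
    _ = _ := by ring

lemma scale {z V a : ℝ} (hz : 1 ≤ z) (hV : 0 ≤ V) (ha : a ≤ 4) : (z * V) ^ a ≤ z ^ 4 * V ^ a := by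
  rw [Real.mul_rpow (by linarith) hV, ← Real.rpow_ofNat]
  exact mul_le_mul_of_nonneg_right (Real.rpow_le_rpow_of_exponent_le hz ha) (by positivity)

/-- the size of the moment at a shifted scale -/
lemma size {X X' V z δ : ℝ} (hX : 0 < X) (hX' : 0 < X') (h : X' ≤ Real.exp 7 * X) (hV : 1 ≤ V)
    (hz : 1 ≤ z) (h0 : 0 < δ) (h1 : δ ≤ 1) :
    (z * V) ^ δ * (X' ^ 2 * (z * V) ^ (1 / 6 : ℝ) + X' ^ (1 + δ) * (z * V) ^ (9 / 4 : ℝ)) ≤
      Real.exp 7 ^ 2 * X * z ^ 11 *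
        (((X + V) ^ δ) ^ 2 * (X * V ^ (1 / 6 : ℝ) + V ^ (9 / 4 : ℝ))) := by
  have hV0 : 0 ≤ V := by linarith
  have e1 : 1 ≤ Real.exp 7 := Real.one_le_exp (by norm_num)
  have w1 : 1 ≤ (X + V) ^ δ := Real.one_le_rpow (by linarith) h0.le
  have w2 : V ^ δ ≤ (X + V) ^ δ := Real.rpow_le_rpow hV0 (by linarith) h0.le
  have w3 : X ^ δ ≤ (X + V) ^ δ := Real.rpow_le_rpow hX.le (by linarith) h0.le
  have a1 : (z * V) ^ δ ≤ z ^ 4 * (X + V) ^ δ :=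
    (scale hz hV0 (by linarith)).trans (by gcongr)
  have a2 := scale (a := 1 / 6) hz hV0 (by norm_num)
  have a3 := scale (a := 9 / 4) hz hV0 (by norm_num)
  have a4 : X' ^ 2 ≤ Real.exp 7 ^ 2 * X * X * (X + V) ^ δ :=
    calc X' ^ 2 ≤ (Real.exp 7 * X) ^ 2 := by gcongr
      _ = Real.exp 7 ^ 2 * X * X * 1 := by ring
      _ ≤ _ := by gcongr
  have a5 : X' ^ (1 + δ) ≤ Real.exp 7 ^ 2 * X * (X + V) ^ δ := by
    refine (Real.rpow_le_rpow hX'.le h (by linarith)).trans ?_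
    rw [Real.mul_rpow (by linarith) hX.le, Real.rpow_add hX, Real.rpow_one, ← mul_assoc,
      ← Real.rpow_two]
    have := Real.rpow_le_rpow_of_exponent_le e1 (show 1 + δ ≤ 2 by linarith)
    gcongr
  have a6 : z ^ 8 ≤ z ^ 11 := pow_le_pow_right₀ hz (by norm_num)
  generalize (X + V) ^ δ = w at *
  calc _ ≤ z ^ 4 * w * (Real.exp 7 ^ 2 * X * X * w * (z ^ 4 * V ^ (1 / 6 : ℝ)) +
        Real.exp 7 ^ 2 * X * w * (z ^ 4 * V ^ (9 / 4 : ℝ))) := by gcongr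
    _ = Real.exp 7 ^ 2 * X * z ^ 8 * (w ^ 2 * (X * V ^ (1 / 6 : ℝ) + V ^ (9 / 4 : ℝ))) := by ring
    _ ≤ _ := by gcongr

end B2

open B2 QB.DL in
theorem pB2 (h1 : S_Sep) (h2 : S_Sf) (h3 : S_Lam) : S_B2 := by
  intro Q hQ h36 ε hε
  set δ := min (ε / 3) 1 with hδ
  have d0 : 0 < δ := lt_min (by positivity) one_pos
  have d1 : δ ≤ 1 := min_le_right _ _
  obtain ⟨C₁, k, hC₁, hm⟩ := mom h2 h3 hQ h36 d0 d1
  obtain ⟨C₂, hC₂, h1⟩ := h1 δ k d0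
  refine ⟨C₂ * 2 * (Real.exp 79 * Real.exp 7 ^ 2 * C₁), k, by positivity,
    fun ν P X t V s T hν hP hX hV hXV hs hT => ?_⟩
  have ha := QB.one_le_a0
  have hV0 : 0 < V := by linarith
  set R := X * V ^ (1 / 6 : ℝ) + V ^ (9 / 4 : ℝ) with hR
  have hR0 : 0 ≤ R := by positivity
  set w := (X + V) ^ δ with hw
  have w0 : 0 ≤ w := by positivity
  set u : O × O → O → ℂ := fun j c => sq ν c * QB.ps j.2 c j.1 with hu
  have hb : ∀ j, QB.Bd1 (u j) := fun j => bd1 hν _ _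
  have main := h1 (O × O) O O (s ×ˢ T) (fun j => N j.1)
    (fun j c => ((‖jj j.2 j.1‖ : ℝ) : ℂ) * ga (u j) X t c) (fun j c => conj (ga (u j) X t c)) nr nr
    (a0 * P) V (X ^ 2) (Real.exp 79 * Real.exp 7 ^ 2 * C₁ * (1 + |t|) ^ k * (w ^ 2 * R))
    nr_pos nr_pos (by positivity) hV0 (by positivity)
    (hXV.trans (by rw [mul_assoc]; exact le_mul_of_one_le_left (by positivity) ha))
    (by positivity)
    (fun j hj => ⟨one_le_N fun e0 : j.1 = 0 => hs (e0 ▸ (mem_product.1 hj).1), fun σ =>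
      ⟨by simpa only [norm_mul, mul_assoc] using
        (summable_ga (hb j) hX t σ).mul_left ‖((‖jj j.2 j.1‖ : ℝ) : ℂ)‖,
      by simpa only [Complex.norm_conj] using summable_ga (hb j) hX t σ⟩⟩)
    fun σ z v J s0 s1 hz hJ hn => by
      set K := X ^ (σ - 1 / 2) * Real.exp ((σ - 1 / 2) ^ 2 / 4) with hK
      set X' := X * Real.exp ((σ - 1 / 2) / 2) with hX'
      have a1 : 0 < X' := by positivity
      have a2 : X' ≤ Real.exp 7 * X := by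
        rw [hX', mul_comm]; gcongr; linarith
      have hy : 1 ≤ z * V := one_le_mul_of_one_le_of_one_le hz hV
      set B := C₁ * ((1 + |t|) ^ k * (1 + |v|) ^ k) *
        (Real.exp 7 ^ 2 * X * z ^ 11 * (w ^ 2 * R)) with hB
      have key : ∀ r : ℝ, |r| = |v| →
          ∑ j ∈ J, ‖jj j.2 j.1‖ * ‖Wsum (u j) X' (t + r)‖ ^ 2 ≤ B := fun r hr => by
        have b1 := hm ν X' (t + r) (z * V) (s.filter fun m => (N m : ℝ) ≤ z * V) T hν a1 hy
          (fun m hm => ⟨fun e0 => hs (e0 ▸ (mem_filter.1 hm).1), (mem_filter.1 hm).2⟩) hT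
        rw [← sum_product'] at b1
        refine le_trans (sum_le_sum_of_subset_of_nonneg (fun j hj => mem_product.2
          ⟨mem_filter.2 ⟨(mem_product.1 (hJ hj)).1, hn j hj⟩, (mem_product.1 (hJ hj)).2⟩)
          fun j _ _ => by positivity) (b1.trans ?_)
        have b2 := size hX a1 a2 hV hz d0 d1
        have b3 := one_add_le t r
        rw [hB, ← mul_pow, ← hr]
        gcongr
      have k1 := key v rfl
      have k2 := key (-v) (abs_neg v)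
      have e2 : Real.exp ((σ - 1 / 2) ^ 2 / 2) ≤ Real.exp 79 := Real.exp_le_exp.2 (by nlinarith)
      have hB0 : 0 ≤ B := by positivity
      calc _ ≤ ∑ j ∈ J, K ^ 2 * ((‖jj j.2 j.1‖ * ‖Wsum (u j) X' (t + v)‖ ^ 2 +
            ‖jj j.2 j.1‖ * ‖Wsum (u j) X' (t + -v)‖ ^ 2) / 2) := by
            refine sum_le_sum fun j _ => ?_
            rw [DS_mul, norm_mul, Complex.norm_real, norm_norm, norm_DS_conj,
              DS_ga (hb j).1, DS_ga (hb j).1, norm_DS_W _ nr_pos hX, norm_DS_W _ nr_pos hX]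
            exact amgm (norm_nonneg _) K _ _
        _ = K ^ 2 * ((∑ j ∈ J, ‖jj j.2 j.1‖ * ‖Wsum (u j) X' (t + v)‖ ^ 2 +
            ∑ j ∈ J, ‖jj j.2 j.1‖ * ‖Wsum (u j) X' (t + -v)‖ ^ 2) / 2) := by
            rw [← mul_sum, ← sum_div, sum_add_distrib]
        _ ≤ K ^ 2 * B := mul_le_mul_of_nonneg_left (by linarith) (sq_nonneg K)
        _ ≤ (X ^ 2) ^ σ * X⁻¹ * Real.exp 79 * B := by
            rw [hK, sq_K hX]; gcongr
        _ = _ := by rw [hB]; field_simp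
  rw [← sum_product', sum_congr rfl fun j _ => KD_eq (u j) X t P (N j.1) _ (norm_nonneg _)]
  refine main.trans ?_
  have v1 : (1 + V) ^ δ ≤ 2 * w := by
    refine (Real.rpow_le_rpow (by linarith) (show 1 + V ≤ 2 * (X + V) by linarith) d0.le).trans ?_
    rw [Real.mul_rpow (by norm_num) (by linarith)]
    have := Real.rpow_le_rpow_of_exponent_le (show (1 : ℝ) ≤ 2 by norm_num) d1
    rw [Real.rpow_one] at this
    gcongr
  have v2 : w ^ 3 ≤ (X + V) ^ ε := by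
    rw [hw, ← Real.rpow_mul_natCast (by linarith)]
    refine Real.rpow_le_rpow_of_exponent_le (by linarith) ?_
    have := min_le_left (ε / 3) 1
    push_cast
    linarith
  calc _ ≤ C₂ * (2 * w) * (Real.exp 79 * Real.exp 7 ^ 2 * C₁ * (1 + |t|) ^ k * (w ^ 2 * R)) := by
        gcongr
    _ = C₂ * 2 * (Real.exp 79 * Real.exp 7 ^ 2 * C₁) * (1 + |t|) ^ k * w ^ 3 * R := by ring
    _ ≤ _ := by gcongr

end Pool.Agent.P.MP_323ce2_nt.QM
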