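import Pool.Agent.P.MP_323ce2_nt.QM.St
import Pool.Agent.P.MP_323ce2_nt.QR.Cnt

/-! The sum over the rows that are not principal. -/

namespace Pool.Agent.P.MP_323ce2_nt.QM

open Finset Pool.Agent.P.MP_26a8c3_nt Pool.Agent.P.MP_26a8c3_nt.QO Pool.Agent.P.MP_26a8c3_nt.QA
open Pool.Agent.P.MP_323ce2_nt.QF Pool.Agent.P.MP_323ce2_nt.QX
open scoped Classical ComplexConjugate

namespace BE

lemma exc_mul {Q m : O} {ν : O → ℂ} (h : Exc Q ν m) (k : O) : Exc Q ν (m * k ^ 6) := by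
  intro n hn hc
  have c1 : IsCoprime n (Q * m) :=
    hc.of_isCoprime_of_dvd_right (mul_dvd_mul_left Q (dvd_mul_right m _))
  have c2 : IsCoprime k n := (hc.of_isCoprime_of_dvd_right
    (((dvd_pow_self k (by norm_num)).mul_left m).mul_left Q)).symm
  have e := h n hn c1
  rw [ph] at e ⊢
  rw [psi_mul, psi_pow, psi_six hn.ne_zero, cop_of c2, mul_one, e]

lemma F1_le {Q : O} {lo P : ℝ} {I : Finset ℕ} {S : ℕ → Finset O} {φ : O → ℝ}
    (h : Pc Q lo P I S φ) (hP : 0 ≤ P) {i : ℕ} (hi : i ∈ I) (m : O) :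
    ‖F1 (S i) φ m‖ ≤ 16 * P := by
  refine le_trans ?_ (card_le_of_N_le (S := S i) hP fun p hp =>
    ⟨(h.pr i hi p hp).1.ne_zero, (h.pr i hi p hp).2.2.2.2⟩)
  refine (norm_sum_le_of_le (n := fun _ => 1) _ fun p _ => ?_).trans (by simp)
  refine QB.norm_mul_le_one ?_ (norm_psi_le _ _)
  rw [Complex.norm_real, Real.norm_of_nonneg (h.w0 p)]
  exact h.w1 p

lemma G_le (A : ℕ) {y : ℝ} (hy : 0 < y) : G y ≤ A.factorial / y ^ A := by
  have h := Real.pow_div_factorial_le_exp y hy.le A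
  have h1 : G y ≤ (Real.exp y)⁻¹ := by
    rw [G, ← Real.exp_neg, Real.exp_le_exp]
    nlinarith [QB.one_le_a0]
  refine h1.trans ?_
  rw [← inv_div]
  exact inv_anti₀ (by positivity) h

lemma rad_ex {Q m : O} {Z : ℝ} (hQ : Q ≠ 0) (h36 : 36 ∣ Q) (hm : m ≠ 0) (hE : EX Q m)
    (hZ : (N m : ℝ) ≤ Z) : Rad m (N Q * Z ^ (1 / 6 : ℝ)) := by
  obtain ⟨a, k, rfl, hd⟩ := QR.cnt_dec hQ h36 hm hE
  have hk : k ≠ 0 := by rintro rfl; simp at hm
  refine ⟨Q * k, mul_ne_zero hQ hk, ?_, fun p hp h => ?_⟩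
  · have h1 : (N k : ℝ) ^ 6 ≤ Z := by
      refine le_trans ?_ hZ
      have := N_le_of_dvd (dvd_mul_left (k ^ 6) a) hm
      rw [map_pow] at this
      exact_mod_cast this
    have h2 : (N k : ℝ) = ((N k : ℝ) ^ 6) ^ (1 / 6 : ℝ) := by
      rw [← Real.rpow_natCast, ← Real.rpow_mul (by positivity)]; norm_num
    rw [map_mul, Nat.cast_mul, h2]
    exact mul_le_mul_of_nonneg_left (Real.rpow_le_rpow (by positivity) h1 (by norm_num))
      (Nat.cast_nonneg _)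
  · exact (hp.dvd_or_dvd h).elim (fun e => (hp.dvd_of_dvd_pow (e.trans hd)).mul_right k)
      fun e => (hp.dvd_of_dvd_pow e).mul_left Q

lemma reix (Q : O) {Z : ℝ} (s : Finset O) (hs : ∀ m ∈ s, m ∈ Rows Q Z) (f : O → O → ℝ)
    (hf : ∀ k, ∀ m ∈ Rows Q Z, 0 ≤ f k m) :
    ∑ m ∈ s, ∑ k ∈ (pdiv m).filter (fun k => k ^ 6 ∣ m), f k (quo m (k ^ 6)) ≤
      ∑ k ∈ (ball Z).erase 0, ∑ m ∈ Rows Q (Z / (N k : ℝ) ^ 6), f k m := by
  rw [sum_comm' (t' := (ball Z).erase 0) (s' := fun k => s.filter fun m => Primary k ∧ k ^ 6 ∣ m)]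
  · refine sum_le_sum fun k hk => ?_
    have k0 := (mem_erase.1 hk).1
    have k1 := one_le_N k0
    rw [← sum_image (g := fun m => quo m (k ^ 6)) fun a ha b hb e => by
      rw [← mul_quo (mem_filter.1 ha).2.2, ← mul_quo (mem_filter.1 hb).2.2,
        show quo a (k ^ 6) = quo b (k ^ 6) from e]]
    refine sum_le_sum_of_subset_of_nonneg (fun x hx => ?_) fun x hx _ => hf k x ?_
    · obtain ⟨m, hm, rfl⟩ := mem_image.1 hx
      obtain ⟨h1, h2, h3⟩ := mem_Rows.1 (hs m (mem_filter.1 hm).1)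
      have e := mul_quo (mem_filter.1 hm).2.2
      generalize quo m (k ^ 6) = x at e
      subst e
      refine mem_Rows.2 ⟨?_, right_ne_zero_of_mul h2, fun ⟨ν, a, b⟩ =>
        h3 ⟨ν, a, mul_comm x _ ▸ exc_mul b k⟩⟩
      rw [le_div_iff₀ (by positivity)]
      simpa [mul_comm] using h1
    · obtain ⟨h1, h2⟩ := mem_Rows.1 hx
      refine mem_Rows.2 ⟨h1.trans (div_le_self ((Nat.cast_nonneg _).trans
        (mem_ball.1 (mem_erase.1 hk).2)) (one_le_pow₀ k1)), h2⟩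
  · intro m k
    simp only [mem_filter, mem_erase, mem_ball]
    constructor
    · rintro ⟨h1, h2, h3⟩
      obtain ⟨h4, h5, -⟩ := mem_Rows.1 (hs m h1)
      obtain ⟨h6, h7⟩ := (mem_pdiv h5).1 h2
      exact ⟨⟨h1, h6, h3⟩, h6.ne_zero, le_trans (by exact_mod_cast N_le_of_dvd h7 h5) h4⟩
    · rintro ⟨⟨h1, h2, h3⟩, -⟩
      exact ⟨h1, (mem_pdiv (mem_Rows.1 (hs m h1)).2.1).2
        ⟨h2, (dvd_pow_self k (by norm_num)).trans h3⟩, h3⟩

lemma tail {η M Z x e : ℝ} {A : ℕ} (hA : 4 ≤ η * A) (h3 : 3 ≤ A) (hZ : 1 ≤ Z) (hM : 0 < M)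
    (hM' : M ≤ Z ^ (1 - η)) (hx : Z ≤ x) (he : e ≤ 1) :
    G (x / M) * (x ^ e * √Z) ≤ A.factorial * x ^ (-2 : ℝ) := by
  have z0 : 0 < Z := by linarith
  have x1 : 1 ≤ x := hZ.trans hx
  have x0 : 0 < x := by linarith
  have a1 : x ^ e ≤ x ^ (1 : ℝ) := Real.rpow_le_rpow_of_exponent_le x1 he
  have a2 : √Z ≤ Z ^ (1 : ℝ) := by
    rw [Real.sqrt_eq_rpow]; exact Real.rpow_le_rpow_of_exponent_le hZ (by norm_num)
  have a3 : M ^ A ≤ Z ^ ((1 - η) * A) := by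
    rw [Real.rpow_mul z0.le, Real.rpow_natCast]; gcongr
  have a4 : x ^ ((3 : ℝ) - A) ≤ Z ^ ((3 : ℝ) - A) :=
    Real.rpow_le_rpow_of_nonpos z0 hx (by have : (3 : ℝ) ≤ A := by exact_mod_cast h3
                                          linarith)
  have a5 : Z ^ ((1 - η) * A) * Z ^ ((3 : ℝ) - A) * Z ^ (1 : ℝ) ≤ 1 := by
    rw [← Real.rpow_add z0, ← Real.rpow_add z0]
    exact Real.rpow_le_one_of_one_le_of_nonpos hZ (by linarith)
  have a6 : (x ^ A)⁻¹ * x ^ (1 : ℝ) = x ^ ((3 : ℝ) - A) * x ^ (-2 : ℝ) := by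
    rw [← Real.rpow_natCast, ← Real.rpow_neg x0.le, ← Real.rpow_add x0, ← Real.rpow_add x0]
    congr 1; ring
  calc _ ≤ A.factorial / (x / M) ^ A * (x ^ (1 : ℝ) * Z ^ (1 : ℝ)) := by
        gcongr
        exact G_le A (by positivity)
    _ = A.factorial * (M ^ A * ((x ^ A)⁻¹ * x ^ (1 : ℝ)) * Z ^ (1 : ℝ)) := by
        rw [div_pow]; field_simp
    _ ≤ A.factorial * (Z ^ ((1 - η) * A) * (Z ^ ((3 : ℝ) - A) * x ^ (-2 : ℝ)) * Z ^ (1 : ℝ)) := by
        rw [a6]; gcongr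
    _ = A.factorial * x ^ (-2 : ℝ) * (Z ^ ((1 - η) * A) * Z ^ ((3 : ℝ) - A) * Z ^ (1 : ℝ)) := by ring
    _ ≤ _ := mul_le_of_le_one_right (by positivity) a5

lemma fin {C3 c C2 D CL E y x b T q z ze u v w : ℝ} (h1 : 0 ≤ C3) (h2 : 0 ≤ c) (h3 : 0 ≤ C2)
    (h4 : 0 ≤ D) (h5 : 0 ≤ CL) (h6 : 0 ≤ E) (h7 : 0 ≤ y) (h8 : 0 ≤ x) (h9 : 0 ≤ b) (hT : 0 ≤ T)
    (hq : 0 ≤ q) (hz : 1 ≤ z) (hze : z * z ≤ ze) (e1 : u * v = q * w) (e2 : 1 ≤ w) :
    C3 * u * (c * z * (y * z) * x * (C2 * v)) + D * (z * (y * z)) * b * T +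
      c * CL * (y * z) * x * E ≤
      (D + C3 * c * (C2 * q) + c * CL * E) * ze * y * (w * x + b * T) := by
  have z0 : 0 ≤ z := by linarith
  have w0 : 0 ≤ w := by linarith
  have U0 : 0 ≤ w * x := by positivity
  have V0 : 0 ≤ b * T := by positivity
  have ze0 : 0 ≤ ze := (mul_self_nonneg z).trans hze
  calc _ = C3 * c * C2 * (z * z * y) * (u * v) * x + D * (z * z * y) * (b * T) +
        c * CL * E * (1 * z * y) * (1 * x) := by ring
    _ ≤ C3 * c * C2 * (z * z * y) * (q * w) * x + D * (z * z * y) * (b * T) +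
        c * CL * E * (z * z * y) * (w * x) := by rw [e1]; gcongr
    _ = D * (z * z * y) * (b * T) + C3 * c * (C2 * q) * (z * z * y) * (w * x) +
        c * CL * E * (z * z * y) * (w * x) := by ring
    _ ≤ D * (ze * y) * (w * x + b * T) + C3 * c * (C2 * q) * (ze * y) * (w * x + b * T) +
        c * CL * E * (ze * y) * (w * x + b * T) := by gcongr <;> linarith
    _ = _ := by ring

end BE

open BE

theorem pBE (hE : S_Em) (hL : S_Lam) : S_bE := by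
  intro Q hQ h36 ε η J hε hη
  set δ := min ε 1 with hδ
  have δ0 : 0 < δ := lt_min hε one_pos
  have δ1 : δ ≤ 1 := min_le_right _ _
  obtain ⟨CE, hCE, HE⟩ := hE (δ / 2) δ J (by positivity) δ0
  obtain ⟨⟨CL, hCL, HL⟩, hL2, -⟩ := hL
  obtain ⟨C2, k2, hC2, H2⟩ := hL2 Q hQ h36
  obtain ⟨C3, hC3, H3⟩ := QR.pCnt Q hQ h36
  obtain ⟨A₀, hA₀⟩ := exists_nat_ge (4 / η)
  have hz := zt_nonneg (3 / 2)
  have hz2 := zt_nonneg 2
  have hq := N_pos_real hQ
  set c := CE * 17 ^ J * zt (3 / 2) * CL with hc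
  have c0 : 0 ≤ c := by positivity
  refine ⟨CE * 2 ^ J * CL + C3 * c * (C2 * (N Q : ℝ) ^ (5 / 8 : ℝ)) +
    c * CL * ((A₀ + 3).factorial * zt 2), by positivity,
    fun Z M X Y lo P B₀ S φ β Λ Φ s hZ hM hM' hX _ hY hYZ hP _ hpc hB hR hs => ?_⟩
  have z0 : 0 < Z := by linarith
  have x0 : 0 < X := by linarith
  have y0 : 0 < Y := by linarith
  have p0 : 0 < P := by linarith
  have HE' := fun m a β lam hm => HE Q m lo P X Y (List.range J) S φ a β lam h36 hm hP x0 y0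
    List.nodup_range (by simp) (by rwa [List.toFinset_range])
  simp only [List.toFinset_range] at HE'
  set F := fun m => ‖MS (uX Q S φ (List.range J) X) (vY (cop Q) Y) m‖ with hF
  have hT : Y ^ ((1 + δ) / 2) ≤ √Y * Z ^ (δ / 2) := by
    rw [add_div, Real.rpow_add y0, Real.sqrt_eq_rpow]; gcongr
  have hZδ : Z ^ (δ / 2) * Z ^ (δ / 2) ≤ Z ^ ε := by
    rw [← Real.rpow_add z0, add_halves]
    exact Real.rpow_le_rpow_of_exponent_le hZ (min_le_left _ _)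
  have hZ1 : 1 ≤ Z ^ (δ / 2) := Real.one_le_rpow hZ (by positivity)
  have triv : ∀ m Y', 0 < Y' → ‖Lm (cop Q) m Y' 0‖ ≤ CL * Y' := fun m Y' h =>
    HL _ Y' 0 (QR.b1_L (isNu_cop Q) m) h
  have crude : ∀ m lam, m ≠ 0 → 0 ≤ lam →
      (∀ Y', 0 < Y' → Y' ≤ Y → ‖Lm (cop Q) m Y' 0‖ ≤ lam * Y' ^ ((1 + δ) / 2)) →
      F m ≤ c * (N m : ℝ) ^ (δ / 2) * (√Y * Z ^ (δ / 2)) * (X * P ^ J) * lam := by
    intro m lam hm hl h
    refine (HE' m (fun _ => CL) (fun _ => 1) (fun _ => lam) hm fun k _ _ =>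
      ⟨by norm_num, le_rfl, fun X' h1 _ => ?_, h⟩).trans ?_
    · rw [Real.rpow_one]
      exact HL _ X' 0 (QB.bd1_uA (isNu_cop Q) 1 m).2 h1
    · have b1 : ∏ i ∈ range J, (‖F1 (S i) φ m‖ + √P) ≤ (17 * P) ^ J := by
        refine (prod_le_prod (fun _ _ => by positivity) fun i hi => ?_).trans
          (by rw [prod_const, card_range])
        have := F1_le hpc p0.le hi m
        have : √P ≤ P := Real.sqrt_le_iff.2 ⟨p0.le, by nlinarith⟩
        linarith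
      have b2 := sum_le_zt (s := 3 / 2) (by norm_num) ((pdiv m).filter fun k => k ^ 6 ∣ m)
      rw [← sum_mul, show (7 / 2 - 5 * 1 : ℝ) = -(3 / 2) by norm_num, Real.rpow_one]
      calc _ ≤ CE * (N m : ℝ) ^ (δ / 2) * (√Y * Z ^ (δ / 2)) * (17 * P) ^ J *
            (zt (3 / 2) * (CL * X * lam)) := by gcongr
        _ = _ := by rw [hc, mul_pow]; ring
  set f : O → O → ℝ := fun k m => (N k : ℝ) * (X ^ β m * (∏ i ∈ range J, Φ i m) * Λ m) with hf
  have Φ0 : ∀ m ∈ Rows Q Z, ∀ i ∈ range J, 0 ≤ Φ i m := fun m hm i hi =>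
    (Real.sqrt_nonneg P).trans ((hR m hm).2.2.2.1 i (mem_range.1 hi))
  have f0 : ∀ k, ∀ m ∈ Rows Q Z, 0 ≤ f k m := fun k m hm => by
    have := prod_nonneg (Φ0 m hm)
    have := (hR m hm).2.2.1
    simp only [hf]; positivity
  have row : ∀ m ∈ Rows Q Z, F m ≤ CE * 2 ^ J * CL * (Z ^ (δ / 2) * (√Y * Z ^ (δ / 2))) *
      B₀ ^ (J + 2) * ∑ k ∈ (pdiv m).filter (fun k => k ^ 6 ∣ m), f k (quo m (k ^ 6)) := by
    intro m hm
    obtain ⟨m1, m0, m2⟩ := mem_Rows.1 hm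
    have key : ∀ k, k ^ 6 ∣ m → quo m (k ^ 6) ∈ Rows Q Z ∧ k ≠ 0 ∧ (N k : ℝ) ≤ Z ^ 10 ∧
        quo m (k ^ 6) * k ^ 6 = m := by
      intro k hk
      have e := (mul_comm _ _).trans (mul_quo hk)
      generalize quo m (k ^ 6) = x at e
      subst e
      refine ⟨mem_Rows.2 ⟨le_trans (by exact_mod_cast N_le_of_dvd (dvd_mul_right x _) m0) m1,
        left_ne_zero_of_mul m0, fun ⟨ν, a, b⟩ => m2 ⟨ν, a, exc_mul b k⟩⟩, ?_, ?_, rfl⟩
      · rintro rfl; simp at m0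
      · refine le_trans (le_trans ?_ m1) (le_self_pow₀ hZ (by norm_num))
        exact_mod_cast N_le_of_dvd ((dvd_pow_self k (by norm_num)).mul_left x) m0
    refine (HE' m (fun _ => B₀) (fun k => β (quo m (k ^ 6)))
      (fun k => CL * (B₀ * Λ (quo m (k ^ 6)))) m0 fun k _ hk => ?_).trans ?_
    · obtain ⟨r, k0, k1, e⟩ := key k hk
      obtain ⟨a1, a2, a3, -, a4⟩ := hR _ r
      obtain ⟨a5, -, a6⟩ := a4 k k0 k1
      rw [e] at a5 a6
      refine ⟨a1, a2, a5, fun Y' h1 h2 => ?_⟩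
      have b0 : 1 ≤ B₀ * Λ (quo m (k ^ 6)) := one_le_mul_of_one_le_of_one_le hB a3
      rcases le_total Y' 1 with h | h
      · have : Y' ^ (1 : ℝ) ≤ Y' ^ ((1 + δ) / 2) :=
          Real.rpow_le_rpow_of_exponent_ge h1 h (by linarith)
        rw [Real.rpow_one] at this
        refine (triv m Y' h1).trans ?_
        calc CL * Y' = CL * 1 * Y' := by ring
          _ ≤ _ := by gcongr
      · have : √Y' ≤ Y' ^ ((1 + δ) / 2) := by
          rw [Real.sqrt_eq_rpow]; exact Real.rpow_le_rpow_of_exponent_le h (by linarith)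
        refine (a6 Y' h1 (h2.trans hYZ)).trans ?_
        calc _ = 1 * (B₀ * Λ (quo m (k ^ 6))) * √Y' := by ring
          _ ≤ _ := by gcongr
    · rw [mul_sum, mul_sum]
      refine sum_le_sum fun k hk => ?_
      obtain ⟨r, k0, k1, e⟩ := key k (mem_filter.1 hk).2
      obtain ⟨a1, a2, a3, a7, a4⟩ := hR _ r
      obtain ⟨-, a5, -⟩ := a4 k k0 k1
      rw [e] at a5
      have b1 : ∏ i ∈ range J, (‖F1 (S i) φ m‖ + √P) ≤
          (2 * B₀) ^ J * ∏ i ∈ range J, Φ i (quo m (k ^ 6)) := by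
        rw [← card_range J, ← prod_const, card_range, ← prod_mul_distrib]
        refine prod_le_prod (fun _ _ => by positivity) fun i hi => ?_
        have := a5 i (mem_range.1 hi)
        have := a7 i (mem_range.1 hi)
        have := Φ0 _ r i hi
        nlinarith
      have b2 : (N k : ℝ) ^ (7 / 2 - 5 * β (quo m (k ^ 6))) ≤ (N k : ℝ) ^ (1 : ℝ) :=
        Real.rpow_le_rpow_of_exponent_le (one_le_N k0) (by linarith)
      rw [Real.rpow_one] at b2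
      have b3 := prod_nonneg (Φ0 _ r)
      calc _ ≤ CE * Z ^ (δ / 2) * (√Y * Z ^ (δ / 2)) *
            ((2 * B₀) ^ J * ∏ i ∈ range J, Φ i (quo m (k ^ 6))) * ((N k : ℝ) *
              (B₀ * X ^ β (quo m (k ^ 6)) * (CL * (B₀ * Λ (quo m (k ^ 6)))))) := by gcongr
        _ = _ := by simp only [hf]; rw [mul_pow]; ring
  have g1 : ∀ m, G (N m / M) * F m ≤ F m := fun m =>
    mul_le_of_le_one_left (norm_nonneg _) (G_le_one (by positivity))
  set T := ∑ k ∈ (ball Z).erase 0, ∑ m ∈ Rows Q (Z / (N k : ℝ) ^ 6), f k m with hTT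
  have s1 : ∑ m ∈ (s.filter fun m => (N m : ℝ) ≤ Z).filter (fun m => ¬ EX Q m),
      G (N m / M) * F m ≤ CE * 2 ^ J * CL * (Z ^ (δ / 2) * (√Y * Z ^ (δ / 2))) *
        B₀ ^ (J + 2) * T := by
    have hr : ∀ m ∈ (s.filter fun m => (N m : ℝ) ≤ Z).filter (fun m => ¬ EX Q m), m ∈ Rows Q Z :=
      fun m hm => mem_Rows.2 ⟨(mem_filter.1 (mem_filter.1 hm).1).2,
        (hs m (mem_filter.1 (mem_filter.1 hm).1).1).1, (mem_filter.1 hm).2⟩
    refine (sum_le_sum fun m hm => (g1 m).trans (row m (hr m hm))).trans ?_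
    rw [← mul_sum]
    exact mul_le_mul_of_nonneg_left (reix Q _ hr f f0) (by positivity)
  have T0 : 0 ≤ T := by simpa using reix Q (Z := Z) ∅ (by simp) f f0
  have s2 : ∑ m ∈ (s.filter fun m => (N m : ℝ) ≤ Z).filter (fun m => EX Q m),
      G (N m / M) * F m ≤ C3 * Z ^ (1 / 6 : ℝ) * (c * Z ^ (δ / 2) * (√Y * Z ^ (δ / 2)) *
        (X * P ^ J) * (C2 * (N Q * Z ^ (1 / 6 : ℝ)) ^ (5 / 8 : ℝ))) := by
    have hr : ∀ m ∈ (s.filter fun m => (N m : ℝ) ≤ Z).filter (fun m => EX Q m),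
        m ≠ 0 ∧ (N m : ℝ) ≤ Z ∧ EX Q m := fun m hm =>
      ⟨(hs m (mem_filter.1 (mem_filter.1 hm).1).1).1, (mem_filter.1 (mem_filter.1 hm).1).2,
        (mem_filter.1 hm).2⟩
    refine (sum_le_card_nsmul _ _ _ fun m hm => ?_).trans
      (by rw [nsmul_eq_mul]; exact mul_le_mul_of_nonneg_right (H3 Z _ hZ hr) (by positivity))
    obtain ⟨a1, a2, a3⟩ := hr m hm
    refine (g1 m).trans ((crude m (C2 * (N Q * Z ^ (1 / 6 : ℝ)) ^ (5 / 8 : ℝ)) a1 (by positivity)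
      fun Y' h1 _ => ?_).trans (by gcongr))
    simpa using H2 (cop Q) m _ Y' 0 δ (isNu_cop Q) a1 (rad_ex hQ h36 a1 a3 a2)
      (hs m (mem_filter.1 (mem_filter.1 hm).1).1).2 h1 δ0.le δ1
  have s3 : ∑ m ∈ s.filter (fun m => ¬ (N m : ℝ) ≤ Z), G (N m / M) * F m ≤
      c * CL * (√Y * Z ^ (δ / 2)) * (X * P ^ J) * ((A₀ + 3).factorial * zt 2) := by
    refine le_trans ?_ (mul_le_mul_of_nonneg_left (mul_le_mul_of_nonneg_left
      (sum_le_zt one_lt_two (s.filter fun m => ¬ (N m : ℝ) ≤ Z)) (by positivity)) (by positivity))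
    rw [mul_sum, mul_sum]
    refine sum_le_sum fun m hm => ?_
    have a1 := crude m (CL * √Z) (hs m (mem_filter.1 hm).1).1 (by positivity) fun Y' h1 h2 => by
      refine (triv m Y' h1).trans ?_
      have b1 : Y' ^ ((1 - δ) / 2) ≤ √Z := by
        rw [Real.sqrt_eq_rpow]
        exact (Real.rpow_le_rpow h1.le (h2.trans hYZ) (by linarith)).trans
          (Real.rpow_le_rpow_of_exponent_le hZ (by linarith))
      calc CL * Y' = CL * Y' ^ ((1 - δ) / 2) * Y' ^ ((1 + δ) / 2) := by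
            rw [mul_assoc, ← Real.rpow_add h1, show (1 - δ) / 2 + (1 + δ) / 2 = 1 by ring,
              Real.rpow_one]
        _ ≤ _ := by gcongr
    have a2 := tail (η := η) (A := A₀ + 3) (e := δ / 2) (by
      rw [div_le_iff₀ hη] at hA₀; push_cast; nlinarith) (by omega) hZ hM hM'
      (not_le.1 (mem_filter.1 hm).2).le (by linarith)
    have a3 := (G_pos (N m / M)).le
    calc _ ≤ G (N m / M) * (c * (N m : ℝ) ^ (δ / 2) * (√Y * Z ^ (δ / 2)) * (X * P ^ J) *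
          (CL * √Z)) := by gcongr
      _ = c * CL * (√Y * Z ^ (δ / 2)) * (X * P ^ J) *
          (G (N m / M) * ((N m : ℝ) ^ (δ / 2) * √Z)) := by ring
      _ ≤ _ := by gcongr
  have e1 : Z ^ (1 / 6 : ℝ) * (N Q * Z ^ (1 / 6 : ℝ)) ^ (5 / 8 : ℝ) =
      (N Q : ℝ) ^ (5 / 8 : ℝ) * Z ^ (13 / 48 : ℝ) := by
    rw [Real.mul_rpow hq.le (by positivity), ← Real.rpow_mul z0.le, mul_left_comm,
      ← Real.rpow_add z0]
    norm_num
  have e2 : 1 ≤ Z ^ (13 / 48 : ℝ) := Real.one_le_rpow hZ (by norm_num)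
  have e3 : T = ∑ k ∈ (ball Z).erase 0, (N k : ℝ) *
      ∑ m ∈ Rows Q (Z / (N k : ℝ) ^ 6), X ^ β m * (∏ i ∈ range J, Φ i m) * Λ m := by
    simp only [hTT, hf, mul_sum]
  rw [← e3, ← sum_filter_add_sum_filter_not s fun m => (N m : ℝ) ≤ Z,
    ← sum_filter_add_sum_filter_not (s.filter _) fun m => EX Q m]
  refine (add_le_add (add_le_add s2 s1) s3).trans ?_
  exact fin hC3.le c0 hC2.le (by positivity) (by linarith) (by positivity) (Real.sqrt_nonneg _)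
    (by positivity) (by positivity) T0 (by positivity) hZ1 hZδ e1 e2

end Pool.Agent.P.MP_323ce2_nt.QM
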