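import Pool.Agent.P.MP_323ce2_nt.QM.St
import Pool.Agent.P.MP_26a8c3_nt.QB.Bas

/-! The first moment inequality with free parameters. -/

namespace Pool.Agent.P.MP_323ce2_nt.QM

open Finset Pool.Agent.P.MP_26a8c3_nt Pool.Agent.P.MP_26a8c3_nt.QO Pool.Agent.P.MP_26a8c3_nt.QA
open Pool.Agent.P.MP_323ce2_nt.QF Pool.Agent.P.MP_323ce2_nt.QX
open scoped Classical ComplexConjugate

namespace CorP

lemma cop_zero {Q : O} (h : 36 ∣ Q) : cop Q 0 = 0 := by
  by_contra e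
  exact (QB.od_of_nu h (isNu_cop Q) e).ne_zero rfl

lemma norm_uX {Q : O} (h : 36 ∣ Q) {S : ℕ → Finset O} {φ : O → ℝ} {l : List ℕ} {X : ℝ}
    {b : O → ℝ} (h0 : ∀ x, 0 ≤ b x) (hb : ∀ x, x ≠ 0 → ‖wt S φ l X x‖ ≤ b x) (x : O) :
    ‖uX Q S φ l X x‖ ≤ b x := by
  rcases eq_or_ne x 0 with rfl | hx
  · simpa [uX, cop_zero h] using h0 0
  · rw [uX, norm_mul]
    exact (mul_le_of_le_one_left (norm_nonneg _) ((isNu_cop Q).le x)).trans (hb x hx)

lemma norm_vY (Q : O) {Y : ℝ} (hY : 0 < Y) (k : ℝ) (x : O) :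
    ‖vY (cop Q) Y x‖ ≤ Real.exp (k ^ 2 / 4) * Y ^ k * nr x ^ (-k) := by
  rw [vY, norm_mul]
  exact (mul_le_of_le_one_left (norm_nonneg _) ((isNu_cop Q).le x)).trans
    (norm_W_le hY (nr_pos x) 0 k)

lemma split {ι : Type*} {f : ι → ℂ} (hf : Summable fun i => ‖f i‖) (a : ι) {b : ℝ}
    (hb : ∀ T : Finset ι, a ∉ T → ∑ i ∈ T, ‖f i‖ ≤ b) : ‖∑' i, f i - f a‖ ≤ b := by
  have hs : Summable fun i => ‖if i = a then 0 else f i‖ :=
    Summable.of_nonneg_of_le (fun _ => norm_nonneg _) (fun i => by split_ifs <;> simp) hf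
  rw [hf.of_norm.tsum_eq_add_tsum_ite a, add_sub_cancel_left]
  refine (norm_tsum_le_tsum_norm hs).trans (hs.tsum_le_of_sum_le fun T => ?_)
  refine le_trans (le_of_eq ?_) (hb (T.erase a) (notMem_erase _ _))
  rw [← sum_erase T (a := a) (by simp)]
  exact sum_congr rfl fun i hi => by rw [if_neg (ne_of_mem_erase hi)]

/-- the abstract form of the argument -/
lemma core {g : O → ℝ} {F : O → ℂ} {p : O → Prop} {w ρ : O → ℝ} {z A₀ : ℂ} {a b e L : ℝ}
    (hg : ∀ m, 0 ≤ g m) (hg0 : g 0 ≤ 1) (hz : ‖z‖ = 1) (hp0 : ¬ p 0)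
    (hs : Summable fun m => (g m : ℂ) * F m) (ha : ‖∑' m, (g m : ℂ) * F m‖ ≤ a)
    (hb : ∀ s : Finset O, (∀ m ∈ s, m ≠ 0 ∧ ¬ p m) → ∑ m ∈ s, g m * ‖F m‖ ≤ b)
    (hw : ∀ m, p m → 0 ≤ w m ∧ ‖F m - z * w m * A₀‖ ≤ ρ m)
    (he : ∀ s : Finset O, (∀ m ∈ s, p m) → ∑ m ∈ s, g m * ρ m ≤ e)
    {s₀ : Finset O} (h₀ : ∀ m ∈ s₀, p m) (hL : L ≤ ∑ m ∈ s₀, g m * w m) :
    ‖A₀‖ * L ≤ a + 1 + ‖F 0‖ + b + e := by
  obtain ⟨s, h1, h2⟩ := ((Metric.tendsto_nhds.1 hs.hasSum 1 one_pos).and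
    (Filter.eventually_ge_atTop (insert 0 s₀))).exists
  rw [dist_eq_norm] at h1
  have h3 : ‖∑ m ∈ s, (g m : ℂ) * F m‖ ≤ a + 1 := by
    have := norm_add_le (∑ m ∈ s, (g m : ℂ) * F m - ∑' m, (g m : ℂ) * F m) (∑' m, (g m : ℂ) * F m)
    rw [sub_add_cancel] at this
    linarith
  have z0 : (0 : O) ∈ s.filter fun m => ¬ p m := mem_filter.2 ⟨h2 (mem_insert_self _ _), hp0⟩
  have h4 : ‖∑ m ∈ s.filter fun m => ¬ p m, (g m : ℂ) * F m‖ ≤ ‖F 0‖ + b := by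
    refine (norm_sum_le _ _).trans ?_
    simp only [norm_mul, Complex.norm_real, Real.norm_of_nonneg (hg _)]
    rw [← add_sum_erase _ _ z0]
    exact add_le_add (mul_le_of_le_one_left (norm_nonneg _) hg0)
      (hb _ fun m hm => ⟨ne_of_mem_erase hm, (mem_filter.1 (mem_of_mem_erase hm)).2⟩)
  have h5 : ‖∑ m ∈ s.filter p, (g m : ℂ) * (F m - z * w m * A₀)‖ ≤ e := by
    refine (norm_sum_le_of_le _ fun m hm => ?_).trans (he _ fun m hm => (mem_filter.1 hm).2)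
    rw [norm_mul, Complex.norm_real, Real.norm_of_nonneg (hg _)]
    exact mul_le_mul_of_nonneg_left (hw m (mem_filter.1 hm).2).2 (hg m)
  have h6 : L ≤ ∑ m ∈ s.filter p, g m * w m :=
    hL.trans (sum_le_sum_of_subset_of_nonneg
      (fun m hm => mem_filter.2 ⟨h2 (mem_insert_of_mem hm), h₀ m hm⟩)
      fun m hm _ => mul_nonneg (hg m) (hw m (mem_filter.1 hm).2).1)
  have h7 : z * A₀ * ((∑ m ∈ s.filter p, g m * w m : ℝ) : ℂ) =
      ∑ m ∈ s, (g m : ℂ) * F m - ∑ m ∈ s.filter fun m => ¬ p m, (g m : ℂ) * F m -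
        ∑ m ∈ s.filter p, (g m : ℂ) * (F m - z * w m * A₀) := by
    rw [← sum_filter_add_sum_filter_not s p, add_sub_cancel_right, ← sum_sub_distrib]
    push_cast
    rw [mul_sum]
    exact sum_congr rfl fun m _ => by ring
  have h8 : ‖A₀‖ * ∑ m ∈ s.filter p, g m * w m ≤ a + 1 + (‖F 0‖ + b) + e := by
    have := congrArg norm h7
    rw [norm_mul, norm_mul, hz, one_mul, Complex.norm_real] at this
    refine (mul_le_mul_of_nonneg_left (le_abs_self _) (norm_nonneg _)).trans (this.le.trans ?_)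
    exact norm_sub_le_of_le (norm_sub_le_of_le h3 h4) h5
  have := mul_le_mul_of_nonneg_left h6 (norm_nonneg A₀)
  linarith

end CorP

open CorP

theorem pCor (hI : S_Id) (hR : S_Reix) (hL : S_Lev) (hM : S_M0) (hD : S_D) (hT : S_Trv)
    (h0 : S_L0) (hE0 : S_E0) (hE1 : S_E1) : S_Cor := by
  intro J
  obtain ⟨c, CT, hc, hCT, hT⟩ := hT
  obtain ⟨η, hη, hη1, hη2⟩ : ∃ η : ℝ, 0 < η ∧ η ≤ 1 ∧ 20 * (CT + 2) * η ≤ c :=
    ⟨min 1 (c / (20 * (CT + 2))), by positivity, min_le_left _ _, by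
      rw [← le_div_iff₀' (by positivity)]; exact min_le_right _ _⟩
  obtain ⟨C1, hT⟩ := hT η hη
  obtain ⟨C2, l2, hE0⟩ := hE0 η J hη
  obtain ⟨C3, l3, hE1⟩ := hE1 η J hη
  refine ⟨max C1 (max C2 C3), max l2 l3, fun Q hQ h36 hB ε hε => ?_⟩
  have b1 : Big Q C1 := fun p hp h => hB p hp (h.trans (le_max_left _ _))
  have b2 : Big Q C2 := fun p hp h => hB p hp (h.trans ((le_max_left _ _).trans (le_max_right _ _)))
  have b3 : Big Q C3 := fun p hp h => hB p hp (h.trans ((le_max_right _ _).trans (le_max_right _ _)))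
  obtain ⟨cQ, Y₀, hcQ, h0⟩ := h0 Q hQ h36
  obtain ⟨CD, hCD, hD⟩ := hD Q hQ h36 ε hε
  obtain ⟨CM, hCM, hM⟩ := hM (ε / 4) (by positivity)
  obtain ⟨Cd, hCd, hd⟩ := dv_le (ε := ε / 4) (by positivity)
  set C4 : ℝ := CM * (Cd * Real.exp ((1 + ε / 2) ^ 2 / 4)) * Real.exp (1 ^ 2 / 4) with hC4
  have hC4' : 0 < C4 := by positivity
  refine ⟨(2 + CD + C4) * (2 / (c * cQ)), Y₀, by positivity,
    fun θ M X Y H lo P B b l S φ t0 t1 nd hl pc hlo p1 ms hM1 hY rg rc hb => ?_⟩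
  obtain ⟨⟨T, F, hT1, hT2⟩, hW⟩ := hL Q lo P l S φ p1 nd pc
  rw [hl] at hT1 hW
  have hDb := fun s hs => hD T s F (wt S φ l X) M X Y (P ^ J) H rg hT1 (hT2 X) hs
  obtain ⟨M0, X1, Y1, D1, eH, H1, -, -, r4, r5, -⟩ := rg
  set D := P ^ J with hDd
  have X0 : 0 < X := by linarith
  have Y0 : 0 < Y := by linarith
  have H0 : 0 < H := by linarith
  have D0 : 0 < D := by linarith
  set R := (X * Y) ^ ε * (M * H * (Y ^ 2 / H) ^ (1 / 12 : ℝ)) with hRd
  have XY : 1 ≤ X * Y := one_le_mul_of_one_le_of_one_le X1 Y1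
  have V1 : 1 ≤ (Y ^ 2 / H) ^ (1 / 12 : ℝ) :=
    Real.one_le_rpow ((one_le_div H0).2 r5) (by norm_num)
  have R1 : (X * Y) ^ ε * (M * H) ≤ R := by
    exact mul_le_mul_of_nonneg_left (le_mul_of_one_le_right (by positivity) V1) (by positivity)
  have R2 : M ≤ R := le_trans ((le_mul_of_one_le_right M0.le H1).trans
    (le_mul_of_one_le_left (by positivity) (Real.one_le_rpow XY hε.le))) R1
  have du : Dec (uX Q S φ l X) := by
    refine ⟨16 * (Real.exp (11 ^ 2 / 4) * (X * D) ^ (11 : ℝ)), norm_uX h36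
      (fun x => by have := nr_pos x; positivity) fun x hx => (hW X 11 x X0 (by norm_num) hx).trans ?_⟩
    have e1 := nr_pos x
    have e2 : dv x ≤ 16 * nr x := (dv_le_N hx).trans (by rw [nr_eq hx])
    rw [show (-10 : ℝ) = 1 + -11 by norm_num, Real.rpow_add e1, Real.rpow_one]
    calc _ ≤ 16 * nr x * (Real.exp (11 ^ 2 / 4) * (X * D) ^ (11 : ℝ) * nr x ^ (-11 : ℝ)) := by
          gcongr
      _ = _ := by ring
  have dv' : Dec (vY (cop Q) Y) := ⟨_, norm_vY Q Y0 10⟩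
  obtain ⟨hs, ha⟩ := hI (uX Q S φ l X) (vY (cop Q) Y) M (CD * (X * Y) ^ ε *
    (M * H * (Y ^ 2 / H) ^ (1 / 12 : ℝ))) du dv'
    (fun x hx => QB.od_of_nu h36 (isNu_cop Q) (left_ne_zero_of_mul hx))
    (fun x hx => QB.od_of_nu h36 (isNu_cop Q) (left_ne_zero_of_mul hx)) M0 hDb
  have u1 : ‖uX Q S φ l X 1‖ ≤ 1 := by
    have := hW X 0 1 X0 le_rfl one_ne_zero
    rw [uX, cop_of isCoprime_one_left, one_mul]
    simpa [dv, pdiv_one] using this
  have v1 : ‖vY (cop Q) Y 1‖ ≤ 1 := by simpa using norm_vY Q Y0 0 1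
  have ha' : M * (‖uX Q S φ l X 1‖ * ‖vY (cop Q) Y 1‖) ≤ R :=
    (mul_le_of_le_one_right M0.le (mul_le_one₀ u1 (norm_nonneg _) v1)).trans R2
  have m0 : ‖MS (uX Q S φ l X) (vY (cop Q) Y) 0‖ ≤ C4 * R := by
    have k1 := hM (uX Q S φ l X) (vY (cop Q) Y)
      (Cd * Real.exp ((1 + ε / 2) ^ 2 / 4) * (X * D) ^ (1 + ε / 2)) (Real.exp (1 ^ 2 / 4) * Y)
      (norm_uX h36 (fun x => by have := nr_pos x; positivity) fun x hx => by
        refine (hW X (1 + ε / 2) x X0 (by positivity) hx).trans ?_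
        have e1 := nr_pos x
        have e2 := hd x hx
        rw [← nr_eq hx] at e2
        rw [show -(1 + ε / 4) = ε / 4 + -(1 + ε / 2) by ring, Real.rpow_add e1]
        calc _ ≤ Cd * nr x ^ (ε / 4) * (Real.exp ((1 + ε / 2) ^ 2 / 4) * (X * D) ^ (1 + ε / 2) *
              nr x ^ (-(1 + ε / 2))) := by gcongr
          _ = _ := by ring)
      fun x => by simpa only [Real.rpow_one, Real.rpow_neg_one] using norm_vY Q Y0 1 x
    have k2 : (X * D) ^ (ε / 2) ≤ (X * Y) ^ ε := by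
      have : X * D ≤ (X * Y) ^ (2 : ℝ) := by
        have : D ≤ X := (le_self_pow₀ D1 (by norm_num)).trans r4
        rw [Real.rpow_two]
        nlinarith [mul_le_mul_of_nonneg_left this X0.le, mul_le_mul_of_nonneg_left Y1 X0.le]
      refine (Real.rpow_le_rpow (by positivity) this (by positivity)).trans (le_of_eq ?_)
      rw [← Real.rpow_mul (by positivity)]; congr 1; ring
    have k3 : M * H = X * D * Y := by rw [eH]; field_simp
    refine k1.trans (le_trans ?_ (mul_le_mul_of_nonneg_left R1 hC4'.le))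
    rw [Real.rpow_add (by positivity), Real.rpow_one, k3, hC4]
    calc _ = CM * (Cd * Real.exp ((1 + ε / 2) ^ 2 / 4)) * Real.exp (1 ^ 2 / 4) *
          ((X * D) ^ (ε / 2) * (X * D * Y)) := by ring
      _ ≤ _ := by gcongr
  set f := ∏ i ∈ l.toFinset, ∑ p ∈ S i, φ p with hf
  have f0 : 0 < f := prod_pos fun i hi =>
    (Real.rpow_pos_of_pos (by linarith) θ).trans_le (ms i (List.mem_toFinset.1 hi))
  obtain ⟨l0, rat⟩ := h0 Y hY
  set W₀ := f * L0 Q Y with hW₀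
  have W1 : cQ * (Y * f) ≤ W₀ := by rw [hW₀]; nlinarith
  have W0 : 0 < W₀ := lt_of_lt_of_le (by positivity) W1
  have Xθ : 0 < X ^ θ := by positivity
  have B0 : 0 ≤ B := nonneg_of_mul_nonneg_left ((norm_nonneg _).trans (rc X X0 le_rfl)) Xθ
  have b0 : 0 ≤ b := by simpa using hb ∅ (by simp)
  have ht : ∀ m, Tv Q m → HT Q m θ lo P X Y B l S φ := fun m hm =>
    ⟨h36, hm, t0, t1, nd, pc, p1, ms, X0, Y0, rat, rc⟩
  choose! w hw0 hw1 hw2 hw3 using fun m hm => hE0 Q m θ lo P X Y B W₀ l S φ (ht m hm) b2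
    ((le_max_left _ _).trans hlo) hl.le rfl
  obtain ⟨⟨s₀, hs₀, hs₁⟩, hT⟩ := hT Q M hQ h36 b1 hM1
  set μ := M ^ (1 / 6 : ℝ) with hμ
  have μ0 : 0 < μ := by positivity
  have key := core (g := fun m => G (N m / M)) (F := MS (uX Q S φ l X) (vY (cop Q) Y)) (p := Tv Q)
    (w := w) (ρ := fun m => 5 * (B * X ^ θ * W₀) * (η + (1 + η) * (Ep Q 1 (1 / 5) m - 1)))
    (z := (-1) ^ l.length) (A₀ := A (cop Q) 1 1 X 0) (b := b)
    (e := B / 2 * X ^ θ * (W₀ * (c / 2) * μ)) (L := W₀ * (c / 2) * μ)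
    (fun m => (QB.G_pos _).le) (QB.G_le_one (by positivity)) (by simp) (fun h => h.1 rfl) hs ha
    (fun s h => hb s fun m hm => ⟨(h m hm).1, fun e => (h m hm).2 ⟨(h m hm).1, e⟩⟩)
    (fun m hm => ⟨hw0 m hm, by
      have e1 := split (hR _ _ m du dv').1 (1, 1, 1, 1) fun T hT => hE1 Q m θ lo P X Y B W₀ l S φ T
        (ht m hm) b3 ((le_max_right _ _).trans hlo) hl.le rfl hT
      have e2 := norm_add_le_of_le e1 (hw3 m hm)
      rw [sub_add_sub_cancel] at e2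
      exact e2.trans (le_of_eq (by ring))⟩)
    (fun s h => by
      obtain ⟨e1, e2⟩ := hT s h
      have e3 : ∑ m ∈ s, G (N m / M) *
          (5 * (B * X ^ θ * W₀) * (η + (1 + η) * (Ep Q 1 (1 / 5) m - 1))) =
          5 * (B * X ^ θ * W₀) * (η * ∑ m ∈ s, G (N m / M) +
            (1 + η) * ∑ m ∈ s, G (N m / M) * (Ep Q 1 (1 / 5) m - 1)) := by
        simp only [mul_sum, ← sum_add_distrib]
        exact sum_congr rfl fun m _ => by ring
      rw [e3]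
      calc _ ≤ 5 * (B * X ^ θ * W₀) * (η * (CT * μ) + 2 * (η * μ)) := by
            refine mul_le_mul_of_nonneg_left (add_le_add (by gcongr) ?_) (by positivity)
            exact (mul_le_mul_of_nonneg_left e2 (by positivity)).trans (by gcongr; linarith)
        _ = B * X ^ θ * W₀ * μ * (20 * (CT + 2) * η) / 4 := by ring
        _ ≤ B * X ^ θ * W₀ * μ * c / 4 := by gcongr
        _ = _ := by ring) hs₀
    (by
      obtain ⟨-, e2⟩ := hT s₀ hs₀
      have e3 : ∑ m ∈ s₀, G (N m / M) * (W₀ * (2 - Ep Q 1 (1 / 5) m)) = W₀ *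
          (∑ m ∈ s₀, G (N m / M) - ∑ m ∈ s₀, G (N m / M) * (Ep Q 1 (1 / 5) m - 1)) := by
        rw [← sum_sub_distrib, mul_sum]
        exact sum_congr rfl fun m _ => by ring
      refine le_trans ?_ (sum_le_sum fun m hm =>
        mul_le_mul_of_nonneg_left (hw1 m (hs₀ m hm)) (QB.G_pos _).le)
      rw [e3, mul_assoc]
      refine mul_le_mul_of_nonneg_left ?_ W0.le
      have : η * μ ≤ c / 2 * μ := by gcongr; nlinarith
      linarith)
  have L0' : 0 < W₀ * (c / 2) * μ := by positivity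
  have R0 : 0 < R := by linarith
  have k1 : (‖A (cop Q) 1 1 X 0‖ - B / 2 * X ^ θ) * (W₀ * (c / 2) * μ) ≤
      (2 + CD + C4) * (R + b) := by
    have : CD * (X * Y) ^ ε * (M * H * (Y ^ 2 / H) ^ (1 / 12 : ℝ)) = CD * R := by rw [hRd]; ring
    have : 0 ≤ (1 + CD + C4) * b := by positivity
    nlinarith
  rw [← sub_le_iff_le_add']
  refine ((le_div_iff₀ L0').2 k1).trans ?_
  calc _ ≤ (2 + CD + C4) * (R + b) / (cQ * (Y * f) * (c / 2) * μ) := by gcongr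
    _ = _ := by field_simp

end Pool.Agent.P.MP_323ce2_nt.QM
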