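import Pool.Agent.P.MP_323ce2_nt.QM.St
import Pool.Agent.P.MP_26a8c3_nt.QB.Rx

/-! Pointwise removal of a coprimality condition from the Moebius side sum. -/

namespace Pool.Agent.P.MP_323ce2_nt.QM

open Finset Pool.Agent.P.MP_26a8c3_nt Pool.Agent.P.MP_26a8c3_nt.QO Pool.Agent.P.MP_26a8c3_nt.QA
open scoped Classical

namespace Cp

variable {Q : O} {ν : O → ℂ}

lemma step (hν : IsNu Q ν) {p r : O} (hp : Prime p) (h1 : Primary p) (hr : ¬ p ∣ r) (m : O)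
    {B β X₀ t : ℝ} (b0 : 1 / 2 ≤ β) (b1 : β ≤ 1)
    (h0 : ∀ X, 0 < X → X ≤ X₀ → ‖A ν r m X t‖ ≤ B * X ^ β) {X : ℝ} (hX : 0 < X) (hX₀ : X ≤ X₀) :
    ‖A ν (p * r) m X t - A ν r m X t‖ ≤ 2 * (N p : ℝ) ^ (-β) * B * X ^ β := by
  have h4 : (4 : ℝ) ≤ N p := by
    have e1 := two_le_N hp
    have e2 := h1.N_mod
    exact_mod_cast (by omega : 4 ≤ N p)
  obtain ⟨C, hC, hb⟩ := QB.norm_Wsum_le (σ := 2) one_lt_two
  have hz : ∀ X : ℝ, ∃ z : ℂ, ‖z‖ ≤ 1 ∧ (0 < X →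
      A ν r m X t = A ν (p * r) m X t + z * A ν (p * r) m (X / N p) t) := fun X => by
    by_cases h : 0 < X
    · obtain ⟨z, a1, a2⟩ := QB.Rx.two hν hp h1 hr m h t
      exact ⟨z, a1, fun _ => a2⟩
    · exact ⟨0, by simp, fun e => absurd e h⟩
  choose z z1 z2 using hz
  refine geo (V₀ := fun X => A ν r m X t) (V₁ := fun X => A ν (p * r) m X t)
    (K := C * X₀ ^ (2 - β)) z1 (by linarith) ?_ (fun X h _ => z2 X h) h0 (fun X h h' => ?_) hX hX₀
  · have a1 : (N p : ℝ) ^ (-β) ≤ (N p : ℝ) ^ (-(1 / 2) : ℝ) :=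
      Real.rpow_le_rpow_of_exponent_le (by linarith) (by linarith)
    have a2 : (N p : ℝ) ^ (-(1 / 2) : ℝ) ≤ (4 : ℝ) ^ (-(1 / 2) : ℝ) :=
      Real.rpow_le_rpow_of_nonpos (by norm_num) h4 (by norm_num)
    have a3 : (4 : ℝ) ^ (-(1 / 2) : ℝ) = 1 / 2 := by
      rw [show (4 : ℝ) = 2 ^ (2 : ℝ) by norm_num, ← Real.rpow_mul (by norm_num)]
      norm_num
    linarith
  · refine (hb _ X t (QB.bd1_uA hν _ m).2 h).trans ?_
    rw [show (2 : ℝ) = 2 - β + β by ring, Real.rpow_add h, add_sub_cancel_right, ← mul_assoc]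
    gcongr
    linarith

lemma ind (hν : IsNu Q ν) (m : O) {a β X₀ t : ℝ} (b0 : 1 / 2 ≤ β) (b1 : β ≤ 1)
    (h0 : ∀ X, 0 < X → X ≤ X₀ → ‖A ν 1 m X t‖ ≤ a * X ^ β) (E : Finset O)
    (hE : ∀ p ∈ E, Prime p ∧ Primary p) : ∀ X : ℝ, 0 < X → X ≤ X₀ →
      ‖A ν (∏ p ∈ E, p) m X t - A ν 1 m X t‖ ≤
        a * X ^ β * (∏ p ∈ E, (1 + 2 * (N p : ℝ) ^ (-β)) - 1) := by
  induction E using Finset.induction_on with
  | empty => intro X _ _; simp
  | insert p E hp ih =>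
    intro X hX hX₀
    have ih := ih fun q hq => hE q (mem_insert_of_mem hq)
    obtain ⟨p1, p2⟩ := hE p (mem_insert_self p E)
    have hr : ¬ p ∣ ∏ q ∈ E, q := fun h => by
      obtain ⟨q, q1, q2⟩ := (p1.dvd_finsetProd_iff _).1 h
      obtain ⟨q3, q4⟩ := hE q (mem_insert_of_mem q1)
      exact hp (p2.eq_of_associated q4 (p1.associated_of_dvd q3 q2) ▸ q1)
    have a1 := step hν p1 p2 hr m (B := a * ∏ p ∈ E, (1 + 2 * (N p : ℝ) ^ (-β))) (t := t) b0 b1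
      (fun X h h' => by
        have := (norm_le_insert' _ (A ν 1 m X t)).trans (add_le_add (h0 X h h') (ih X h h'))
        linarith) hX hX₀
    rw [prod_insert hp, prod_insert hp]
    have a2 := (norm_sub_le_norm_sub_add_norm_sub _ _ _).trans (add_le_add a1 (ih X hX hX₀))
    linarith

end Cp

theorem pCp (h : S_Eul) : S_Cp := by
  intro Q ν r m a β X₀ t hQ hν hr b0 b1 h0 X hX hX₀
  have hm := fun p => h.1 Q r p hQ hr
  have e : A ν r m X t = A ν (∏ p ∈ pf Q r, p) m X t := by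
    unfold A
    congr 1
    funext c
    unfold uA
    by_cases hc : IsCoprime c Q
    · refine if_congr (and_congr_right fun hs => ⟨fun h1 => ?_, fun h1 => ?_⟩) rfl rfl
      · exact IsCoprime.prod_right fun p hp => h1.of_isCoprime_of_dvd_right ((hm p).1 hp).2.2.1
      · by_contra hn
        obtain ⟨p, p1, p2, p3, p4⟩ := (not_coprime_iff hr).1 hn
        refine p1.not_isUnit (h1.isUnit_of_dvd' p4 (dvd_prod_of_mem _ ((hm p).2 ⟨p1, ?_, p3, ?_⟩)))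
        · exact p2.primary fun e => hs.1.not_lam_dvd (e.trans p4)
        · exact fun e => p1.not_isUnit (hc.isUnit_of_dvd' p4 e)
    · simp [hν.zero c hc]
  rw [e]
  exact Cp.ind hν m b0 b1 h0 _ (fun p hp => ⟨((hm p).1 hp).1, ((hm p).1 hp).2.1⟩) X hX hX₀

end Pool.Agent.P.MP_323ce2_nt.QM
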