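import Pool.Agent.P.MP_323ce2_nt.QM.St
import Pool.Agent.P.MP_26a8c3_nt.QB.DL
import Pool.Agent.P.MP_26a8c3_nt.QB.Base
import Pool.Agent.P.MP_26a8c3_nt.QO.All

/-! The bound for the dual sum of the first moment. -/

namespace Pool.Agent.P.MP_323ce2_nt.QM

open Finset Pool.Agent.P.MP_26a8c3_nt Pool.Agent.P.MP_26a8c3_nt.QO Pool.Agent.P.MP_26a8c3_nt.QA
open Pool.Agent.P.MP_323ce2_nt.QF Pool.Agent.P.MP_323ce2_nt.QX
open scoped Classical ComplexConjugate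

namespace DP

/-- the norm of the argument `c * E ^ 3` -/
noncomputable def xx (x : O × O) : ℝ := nr (x.1 * x.2 ^ 3)

/-- the normalised theta coefficient -/
noncomputable def th (ν : O → ℂ) (h : O) (x : O × O) : ℂ :=
  if SQ x.1 ∧ Primary x.2 then
    (ab x.2 : ℂ) * tau x.1 * Phi ν h (x.1 * x.2 ^ 3) / (ab (x.1 * x.2 ^ 3) : ℂ) else 0

/-- the normalised coefficient of the detector -/
noncomputable def be (ν : O → ℂ) (h : O) (Y : ℝ) (n : O) : ℂ :=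
  conj (QB.DL.ga (fun n => mu n * uB ν h n) Y 0 n)

/-- the character of one class -/
noncomputable def nk (Q k c : O) : ℂ := cop Q c * xi k c * conj (chi c 2)

lemma xx_pos (x : O × O) : 0 < xx x := nr_pos _

lemma norm_th {Q : O} {ν : O → ℂ} (hν : IsNu Q ν) (h : O) (x : O × O) : ‖th ν h x‖ ≤ 1 := by
  unfold th
  split_ifs with hx
  · have h1 := hx.1.ne_zero
    have h2 := hx.2.ne_zero
    have a1 : 1 ≤ ab x.1 := by rw [ab_eq]; exact Real.one_le_sqrt.2 (one_le_N h1)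
    have a2 : 1 ≤ ab x.2 := by rw [ab_eq]; exact Real.one_le_sqrt.2 (one_le_N h2)
    have a3 : ab x.2 ≤ ab (x.1 * x.2 ^ 3) := by
      rw [ab_mul, ab_pow]
      exact (le_self_pow₀ a2 three_ne_zero).trans (le_mul_of_one_le_left (by positivity) a1)
    rw [norm_div, norm_mul, norm_mul, alg.r4.2.1 _ hx.1, mul_one, Complex.norm_real,
      Complex.norm_real, Real.norm_of_nonneg (ab_nonneg _), Real.norm_of_nonneg (ab_nonneg _),
      div_le_one (by linarith)]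
    exact (mul_le_of_le_one_right (ab_nonneg _) (QB.norm_Phi_le hν _ _)).trans a3
  · simp

lemma summable_th {Q : O} {ν : O → ℂ} (hν : IsNu Q ν) (h : O) {c : O × O → ℂ}
    (hc : ∀ x, ‖c x‖ ≤ 1) {Z : ℝ} (hZ : 0 < Z) (σ : ℝ) :
    Summable fun x => ‖th ν h x * c x * W Z 0 (xx x)‖ * xx x ^ σ := by
  refine summable_W xx_pos (k := 2) ?_ hZ 0 σ
  have s := QB.summable_nr one_lt_two
  have p : ∀ c : O, 0 ≤ nr c ^ (-(2 : ℝ)) := fun c => Real.rpow_nonneg (nr_pos c).le _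
  refine Summable.of_nonneg_of_le (fun x => by have := xx_pos x; positivity) (fun x => ?_)
    (s.mul_of_nonneg s p p)
  by_cases hx : SQ x.1 ∧ Primary x.2
  · have h1 := hx.1.ne_zero
    have h2 := hx.2.ne_zero
    refine (mul_le_of_le_one_left (Real.rpow_nonneg (xx_pos x).le _)
      (QB.norm_mul_le_one (norm_th hν h x) (hc x))).trans ?_
    rw [← Real.mul_rpow (nr_pos _).le (nr_pos _).le]
    refine Real.rpow_le_rpow_of_nonpos (mul_pos (nr_pos _) (nr_pos _)) ?_ (by norm_num)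
    rw [xx, QB.nr_mul h1 (pow_ne_zero 3 h2), nr_eq h1, nr_eq h2, nr_eq (pow_ne_zero 3 h2), map_pow,
      Nat.cast_pow]
    exact mul_le_mul_of_nonneg_left (le_self_pow₀ (one_le_N h2) three_ne_zero) (Nat.cast_nonneg _)
  · rw [th, if_neg hx, zero_mul, norm_zero, zero_mul]
    exact mul_nonneg (p _) (p _)

lemma term {a : O} (ha : a ≠ 0) {Z : ℝ} (hZ : 0 < Z) (σ u : ℝ) :
    W Z 0 (nr a) / (ab a : ℂ) * ((nr a : ℝ) : ℂ) ^ ((σ : ℂ) + u * Complex.I) =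
      ((Z ^ (σ - 1 / 2) * Real.exp ((σ - 1 / 2) ^ 2 / 4) : ℝ) : ℂ) *
        W (Z * Real.exp ((σ - 1 / 2) / 2)) u (nr a) := by
  have h0 : ((nr a : ℝ) : ℂ) ≠ 0 := by exact_mod_cast (nr_pos a).ne'
  have e : ((σ - 1 / 2 : ℝ) : ℂ) + u * Complex.I = (σ + u * Complex.I) - ((1 / 2 : ℝ) : ℂ) := by
    push_cast; ring
  have e2 : ((nr a : ℝ) : ℂ) ^ ((1 / 2 : ℝ) : ℂ) = (ab a : ℂ) := by
    rw [← Complex.ofReal_cpow (nr_pos a).le, ab_eq, Real.sqrt_eq_rpow, nr_eq ha]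
  have := W_mul_cpow hZ (nr_pos a) 0 (σ - 1 / 2) u
  rw [zero_add] at this
  rw [← this, e, Complex.cpow_sub _ _ h0, e2]
  ring

section
variable {Q : O} {ν : O → ℂ} {T : Finset O} {F w : O → ℂ} {X D : ℝ}

lemma al_eq (hw : ∀ x, w x = ∑ d ∈ T, if d ∣ x then F d * W (X * N d) 0 (nr x) else 0) (h : O)
    (x : O × O) : th ν h x * w (x.1 * x.2 ^ 3) = ∑ d ∈ T,
      th ν h x * (if d ∣ x.1 * x.2 ^ 3 then F d else 0) * W (X * N d) 0 (xx x) := by
  rw [hw, mul_sum]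
  refine sum_congr rfl fun d _ => ?_
  split_ifs
  · rw [xx]; ring
  · simp

lemma sm_d (hν : IsNu Q ν) (hX : 0 < X) (hT : ∀ d ∈ T, SQ d ∧ (N d : ℝ) ≤ D ∧ ‖F d‖ ≤ 1) (h : O)
    (σ : ℝ) : ∀ d ∈ T, Summable fun x : O × O =>
      ‖th ν h x * (if d ∣ x.1 * x.2 ^ 3 then F d else 0) * W (X * N d) 0 (xx x)‖ * xx x ^ σ :=
  fun d hd => summable_th hν h (fun x => by split_ifs; exacts [(hT d hd).2.2, by simp])
    (mul_pos hX (N_pos_real (hT d hd).1.ne_zero)) σ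

lemma sm_al (hν : IsNu Q ν) (hX : 0 < X) (hT : ∀ d ∈ T, SQ d ∧ (N d : ℝ) ≤ D ∧ ‖F d‖ ≤ 1)
    (hw : ∀ x, w x = ∑ d ∈ T, if d ∣ x then F d * W (X * N d) 0 (nr x) else 0) (h : O) (σ : ℝ) :
    Summable fun x : O × O => ‖th ν h x * w (x.1 * x.2 ^ 3)‖ * xx x ^ σ := by
  refine Summable.of_nonneg_of_le (fun x => by have := xx_pos x; positivity) (fun x => ?_)
    (summable_sum (sm_d hν hX hT h σ))
  rw [al_eq hw, ← sum_mul]
  exact mul_le_mul_of_nonneg_right (norm_sum_le _ _) (Real.rpow_nonneg (xx_pos x).le _)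

lemma DS_al (hν : IsNu Q ν) (hX : 0 < X) (hT : ∀ d ∈ T, SQ d ∧ (N d : ℝ) ≤ D ∧ ‖F d‖ ≤ 1)
    (hw : ∀ x, w x = ∑ d ∈ T, if d ∣ x then F d * W (X * N d) 0 (nr x) else 0) (h : O)
    (σ u : ℝ) : DS (fun x : O × O => th ν h x * w (x.1 * x.2 ^ 3)) xx σ u =
      ((X ^ (σ - 1 / 2) * Real.exp ((σ - 1 / 2) ^ 2 / 4) : ℝ) : ℂ) *
        QW.Bd ν h T (fun d => F d * (((N d : ℝ) ^ (σ - 1 / 2) : ℝ) : ℂ))
          (X * Real.exp ((σ - 1 / 2) / 2)) u := by
  simp only [DS, al_eq hw, sum_mul]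
  rw [Summable.tsum_finsetSum fun d hd => Summable.of_norm (by
    simpa only [norm_term (xx_pos _)] using sm_d hν hX hT h σ d hd), QW.Bd, mul_sum]
  refine sum_congr rfl fun d hd => ?_
  have hd0 := N_pos_real (hT d hd).1.ne_zero
  rw [← tsum_mul_left, ← tsum_mul_left]
  refine tsum_congr fun x => ?_
  by_cases hx : SQ x.1 ∧ Primary x.2
  · by_cases h2 : d ∣ x.1 * x.2 ^ 3
    · have := term (mul_ne_zero hx.1.ne_zero (pow_ne_zero 3 hx.2.ne_zero)) (mul_pos hX hd0) σ u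
      rw [Real.mul_rpow hX.le hd0.le, mul_right_comm X] at this
      rw [th, if_pos hx, if_pos h2, if_pos ⟨hx.1, hx.2, h2⟩, xx]
      push_cast at this ⊢
      linear_combination (ab x.2 : ℂ) * tau x.1 * Phi ν h (x.1 * x.2 ^ 3) * F d * this
    · simp [h2]
  · have : ¬ (SQ x.1 ∧ Primary x.2 ∧ d ∣ x.1 * x.2 ^ 3) := fun e => hx ⟨e.1, e.2.1⟩
    rw [th, if_neg hx, if_neg this]
    simp

end

lemma bd1 {Q : O} {ν : O → ℂ} (hν : IsNu Q ν) (h : O) : QB.Bd1 fun n => mu n * uB ν h n :=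
  ⟨by simp only [(QB.bd1_uB alg hν h).1, mul_zero],
    fun n => QB.norm_mul_le_one (norm_mu_le n) ((QB.bd1_uB alg hν h).2 n)⟩

lemma sm_be {Q : O} {ν : O → ℂ} (hν : IsNu Q ν) (h : O) {Y : ℝ} (hY : 0 < Y) (σ : ℝ) :
    Summable fun n => ‖be ν h Y n‖ * nr n ^ σ := by
  simpa only [be, Complex.norm_conj] using QB.DL.summable_ga (bd1 hν h) hY 0 σ

lemma DS_be {Q : O} {ν : O → ℂ} (hν : IsNu Q ν) (h : O) {Y : ℝ} (hY : 0 < Y) (σ u : ℝ) :
    ‖DS (be ν h Y) nr σ u‖ = Y ^ (σ - 1 / 2) * Real.exp ((σ - 1 / 2) ^ 2 / 4) *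
      ‖Bm ν h (Y * Real.exp ((σ - 1 / 2) / 2)) (-u)‖ := by
  unfold be
  rw [QB.DL.norm_DS_conj, QB.DL.DS_ga (bd1 hν h).1, norm_DS_W _ nr_pos hY, zero_add]
  rfl

lemma conj_xi {k : O} (hk : Od k) (c : O) : conj (xi k c) = xi k c := by
  by_cases hc : Od c
  · rcases alg.gam.2.2.2.2.2.1 k c hk hc with h | h <;> simp [h]
  · have : xi k c = 0 := if_neg fun h => hc (od_mul.1 h).2
    simp [this]

lemma od_of {Q c : O} (hQ : 36 ∣ Q) (h : IsCoprime c Q) : Od c :=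
  h.of_isCoprime_of_dvd_right (Dvd.dvd.trans ⟨18, by norm_num⟩ hQ)

/-- the dual sum, class by class -/
lemma DH_eq {Q : O} (hQ : 36 ∣ Q) {κ : O → ℂ}
    (hκ : ∀ a, Od a → gam a = ∑ k ∈ cls, κ k * xi k a) (w : O → ℂ) {M Y : ℝ} (hM : 0 < M)
    (hY : 0 < Y) (h : O) (hs : ∀ k ∈ cls, Summable fun x : O × O =>
      ‖th (nk Q k) h x * w (x.1 * x.2 ^ 3)‖) :
    DH (fun x => cop Q x * w x) (vY (cop Q) Y) M h = M * ∑ k ∈ cls, κ k *
      KS (fun x : O × O => th (nk Q k) h x * w (x.1 * x.2 ^ 3)) (be (nk Q k) h Y) xx nr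
        (a0 * M * N h) := by
  have hk : ∀ k ∈ cls, IsNu Q (nk Q k) := fun k hk =>
    ((QB.base alg).nu Q (cop Q) k hQ (isNu_cop Q) hk).1
  simp only [KS, ← tsum_mul_left]
  rw [← Summable.tsum_finsetSum fun k hk' => Summable.mul_left _ ?_, ← tsum_mul_left, DH]
  · refine tsum_congr fun y => ?_
    obtain ⟨⟨c, E⟩, n⟩ := y
    simp only [be, QB.DL.ga, th, uB, Phi, nk, vY, xx]
    by_cases h1 : SQ c ∧ Primary E
    swap
    · rw [if_neg fun e => h1 ⟨e.1, e.2.1⟩]; simp [h1]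
    by_cases h2 : SQ n
    swap
    · simp [h2]
    by_cases h3 : IsCoprime (c * E ^ 3) Q
    swap
    · simp [cop_of_not h3]
    by_cases h4 : IsCoprime n Q
    swap
    · simp [cop_of_not h4]
    have o1 := od_of hQ h3
    have o2 := od_of hQ h4
    have hE := h1.2.ne_zero
    have hx := mul_ne_zero h1.1.ne_zero (pow_ne_zero 3 hE)
    have oE : Od E := (IsCoprime.pow_left_iff three_pos).1 (od_mul.1 o1).2
    have e1 : chi (c * E ^ 3) 2 = chi c 2 := by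
      rw [chi_mul_left h1.1.ne_zero (pow_ne_zero 3 hE), chi_pow_left, chi_cube hE,
        cop_of (IsCoprime.symm oE), mul_one]
    rw [if_pos ⟨h1.1, h1.2, h2⟩, hκ _ (od_mul.2 ⟨o1, o2⟩), nr_eq hx,
      nr_eq h2.ne_zero, G, e1, ang_mul, ang_pow, bb, bb]
    simp only [if_pos h1, if_pos h2, mul_sum, sum_mul]
    refine sum_congr rfl fun k hk => ?_
    have hk' := alg.gam.2.2.2.2.2.2.2.1 k hk
    rw [(alg.gam.2.2.2.2.2.2.1 k hk').mul,
      show a0 * (M * N h / (N (c * E ^ 3) * N n)) = a0 * M * N h / (N (c * E ^ 3) * N n) by ring]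
    simp only [map_mul, map_div₀, conj_xi hk', Complex.conj_ofReal]
    push_cast
    ring
  · have s2 := sm_be (hk k hk') h hY 0
    simp only [Real.rpow_zero, mul_one] at s2
    refine Summable.of_norm_bounded ((hs k hk').mul_of_nonneg s2 (fun _ => norm_nonneg _)
      fun _ => norm_nonneg _) fun y => ?_
    have a := QB.one_le_a0
    have b := xx_pos y.1
    have c := nr_pos y.2
    rw [norm_mul, norm_mul, Complex.norm_real, Real.norm_of_nonneg (Real.exp_pos _).le]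
    refine mul_le_of_le_one_right (by positivity) (Real.exp_le_one_iff.2 (neg_nonpos.2 ?_))
    positivity

lemma r_bd {σ : ℝ} (h0 : 0 ≤ σ) (h1 : σ ≤ 13) : 1 / 2 ≤ Real.exp ((σ - 1 / 2) / 2) ∧
    Real.exp ((σ - 1 / 2) / 2) ≤ Real.exp 7 ∧ Real.exp ((σ - 1 / 2) ^ 2 / 2) ≤ Real.exp 79 :=
  ⟨by linarith [Real.add_one_le_exp ((σ - 1 / 2) / 2)], Real.exp_le_exp.2 (by linarith),
    Real.exp_le_exp.2 (by nlinarith)⟩

lemma sqp {X : ℝ} (hX : 0 < X) (σ : ℝ) : (X ^ 2) ^ σ = (X ^ σ) ^ 2 := by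
  rw [← Real.rpow_natCast, ← Real.rpow_natCast, ← Real.rpow_mul hX.le, ← Real.rpow_mul hX.le,
    mul_comm]

lemma pw {a b x e : ℝ} (h0 : 0 ≤ x) (ha : 1 ≤ a) (hb : 0 ≤ b) (h : x ≤ a * b) (he : 0 < e)
    (he1 : e ≤ 1) : x ^ e ≤ a * b ^ e := by
  refine (Real.rpow_le_rpow h0 h he.le).trans ?_
  rw [Real.mul_rpow (by linarith) hb]
  exact mul_le_mul_of_nonneg_right (Real.rpow_le_self_of_one_le ha he1) (by positivity)

lemma shape {M X Y D H z r R : ℝ} (h : Rg M X Y D H) (hz : 1 ≤ z) (r0 : 1 / 2 ≤ r) (r1 : r ≤ R)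
    (hR : 1 ≤ R) : QW.BB (z * H) (X * r) D ≤ (5 + R) * z ^ 2 * H ∧
      QW.ZZ (z * H) (X * r) D ≤ 6 * z ^ 2 * (X * Y) := by
  obtain ⟨-, hX, hY, hD, -, hH, a1, a2, a3, -⟩ := h
  have z2 : z ≤ z ^ 2 := le_self_pow₀ hz two_ne_zero
  have hr : 0 < r := by linarith
  have b0 : z * H ≤ z ^ 2 * H := by gcongr
  have b1 : (z * H) ^ 2 * D / (X * r) ≤ 2 * (z ^ 2 * H) := by
    rw [div_le_iff₀ (by positivity)]
    calc _ = z ^ 2 * H * (2 * (H * D * (1 / 2))) := by ring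
      _ ≤ z ^ 2 * H * (2 * (X * r)) := by gcongr
      _ = _ := by ring
  have b2 : D * (z * H * (X * r)) ^ (1 / 3 : ℝ) ≤ R * (z ^ 2 * H) := by
    refine le_of_pow_le_pow_left₀ three_ne_zero (by positivity) ?_
    rw [mul_pow, ← Real.rpow_natCast (_ ^ _), ← Real.rpow_mul (by positivity)]
    norm_num
    have c1 : z ≤ (z ^ 2) ^ 3 := z2.trans (le_self_pow₀ (hz.trans z2) three_ne_zero)
    have c2 : r ≤ R ^ 3 := r1.trans (le_self_pow₀ hR three_ne_zero)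
    calc _ = r * (z * (D ^ 3 * X * H)) := by ring
      _ ≤ R ^ 3 * ((z ^ 2) ^ 3 * (H ^ 2 * H)) := by gcongr
      _ = _ := by ring
  have b3 : z * H * D ^ 2 / √(X * r) ≤ 2 * (z ^ 2 * H) := by
    have : D ^ 2 / 2 ≤ √(X * r) := Real.le_sqrt_of_sq_le (by nlinarith)
    rw [div_le_iff₀ (by positivity)]
    calc _ = 2 * (z * H) * (D ^ 2 / 2) := by ring
      _ ≤ _ := by gcongr
  refine ⟨by rw [QW.BB]; nlinarith, ?_⟩
  have c0 : X ≤ X * Y := le_mul_of_one_le_right (by linarith) hY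
  have c1 : H ≤ X * Y := ((le_mul_of_one_le_right (by linarith) hD).trans a1).trans c0
  have c2 : D ≤ X * Y := ((le_mul_of_one_le_left (by linarith) hH).trans a1).trans c0
  have c3 : z ^ 2 * H ≤ z ^ 2 * (X * Y) := by gcongr
  have c4 : X * Y ≤ z ^ 2 * (X * Y) := le_mul_of_one_le_left (by linarith) (hz.trans z2)
  rw [QW.ZZ]; linarith

lemma momA (hV : QW.S_VD) {Q : O} (h0 : Q ≠ 0) (hQ : 36 ∣ Q) {e : ℝ} (he : 0 < e) (he1 : e ≤ 1) :
    ∃ C : ℝ, 0 < C ∧ ∀ (ν : O → ℂ) (T t : Finset O) (F w : O → ℂ) (M X Y D H σ z u : ℝ),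
      IsNu Q ν → Rg M X Y D H → (∀ d ∈ T, SQ d ∧ (N d : ℝ) ≤ D ∧ ‖F d‖ ≤ 1) →
      (∀ x, w x = ∑ d ∈ T, if d ∣ x then F d * W (X * N d) 0 (nr x) else 0) → 0 ∉ t →
      0 ≤ σ → σ ≤ 13 → 1 ≤ z → (∀ h ∈ t, (N h : ℝ) ≤ z * H) →
      ∑ h ∈ t, ‖DS (fun x : O × O => th ν h x * w (x.1 * x.2 ^ 3)) xx σ u‖ ^ 2 ≤
        C * ((X ^ σ * D ^ σ) ^ 2 * (1 + |u|) ^ 16 * z ^ 4 * ((X * Y) ^ e) ^ 2 * H) := by
  obtain ⟨C, hC, h⟩ := hV Q h0 hQ e he
  have hz := one_le_zt (s := 1 + e) (by linarith)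
  refine ⟨Real.exp 79 * Real.exp a0 * C * 6 * Real.exp 7 * (5 + Real.exp 7) * zt (1 + e),
    by positivity, fun ν T t F w M X Y D H σ z u hν hR hT hw ht s0 s1 z1 hn => ?_⟩
  obtain ⟨r0, r1, r2⟩ := r_bd s0 s1
  obtain ⟨b1, b2⟩ := shape hR z1 r0 r1 (Real.one_le_exp (by norm_num))
  obtain ⟨-, hX, hY, hD, -, hH, a1, -⟩ := hR
  have X0 : 0 < X := by linarith
  set r := Real.exp ((σ - 1 / 2) / 2) with hr
  set F' : O → ℂ := fun d => F d * (((N d : ℝ) ^ (σ - 1 / 2) : ℝ) : ℂ) with hF'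
  have m := QB.ML0.sharp (F := fun h => QW.Bd ν h T F' (X * r) u) (P := z * H)
    (fun s hs => h ν hν (z * H) (X * r) D u T s F' (by positivity) (by positivity) hD
      (fun d hd => ⟨(hT d hd).1, (hT d hd).2.1⟩) hs) (by positivity) t ht hn
  have c2 : D ≤ X * Y := ((le_mul_of_one_le_left (by linarith) hH).trans a1).trans
    (le_mul_of_one_le_right X0.le hY)
  have n2 : QW.n2 T F' ≤ (D ^ σ) ^ 2 * (zt (1 + e) * (X * Y) ^ e) := by
    calc _ ≤ ∑ d ∈ T, (D ^ σ) ^ 2 * (N d : ℝ)⁻¹ := by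
          refine sum_le_sum fun d hd => ?_
          obtain ⟨d1, d2, d3⟩ := hT d hd
          have d0 := N_pos_real d1.ne_zero
          have e1 : ((N d : ℝ) ^ (σ - 1 / 2)) ^ 2 = ((N d : ℝ) ^ σ) ^ 2 * (N d : ℝ)⁻¹ := by
            rw [Real.rpow_sub d0, div_pow, ← Real.sqrt_eq_rpow, Real.sq_sqrt d0.le, div_eq_mul_inv]
          rw [hF', norm_mul, Complex.norm_real, Real.norm_of_nonneg (by positivity), mul_pow, e1]
          refine (mul_le_of_le_one_left (by positivity)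
            (pow_le_one₀ (norm_nonneg _) d3)).trans ?_
          gcongr
      _ ≤ (D ^ σ) ^ 2 * ∑ d ∈ ball D, (N d : ℝ)⁻¹ := by
          rw [← mul_sum]
          exact mul_le_mul_of_nonneg_left (sum_le_sum_of_subset_of_nonneg
            (fun d hd => mem_ball.2 (hT d hd).2.1) fun _ _ _ => by positivity) (by positivity)
      _ ≤ _ := by
          refine mul_le_mul_of_nonneg_left ((sum_inv_le he (by linarith)).trans ?_) (by positivity)
          gcongr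
  have zz : QW.ZZ (z * H) (X * r) D ^ e ≤ 6 * z ^ 2 * (X * Y) ^ e :=
    pw (by unfold QW.ZZ; positivity) (by nlinarith) (by positivity) b2 he he1
  have n0 : 0 ≤ QW.n2 T F' := sum_nonneg fun _ _ => by positivity
  have bb0 : 0 ≤ QW.BB (z * H) (X * r) D := by unfold QW.BB; positivity
  simp only [DS_al hν X0 hT hw, norm_mul, mul_pow, Complex.norm_real, ← hr, ← hF']
  rw [← mul_sum, ← mul_pow, ← norm_mul, Real.norm_of_nonneg (by positivity), QB.DL.sq_K X0, sqp X0]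
  rw [QW.RH] at m
  calc _ ≤ (X ^ σ) ^ 2 * X⁻¹ * Real.exp 79 * (Real.exp a0 * (C * (1 + |u|) ^ 16 *
        (6 * z ^ 2 * (X * Y) ^ e) * (X * Real.exp 7) * ((5 + Real.exp 7) * z ^ 2 * H) *
        ((D ^ σ) ^ 2 * (zt (1 + e) * (X * Y) ^ e)))) := by
        refine mul_le_mul (by gcongr) (m.trans (by gcongr)) (by positivity) (by positivity)
    _ = _ := by field_simp

lemma momB (h2 : S_B1) (h3 : S_B2) {Q : O} (h0 : Q ≠ 0) (hQ : 36 ∣ Q) {e : ℝ} (he : 0 < e)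
    (he1 : e ≤ 1) : ∃ (C : ℝ) (k : ℕ), 0 < C ∧ ∀ (ν : O → ℂ) (t : Finset O)
      (M X Y D H σ z u : ℝ), IsNu Q ν → Rg M X Y D H → 0 ≤ σ → σ ≤ 13 → 1 ≤ z →
      (∀ h ∈ t, (N h : ℝ) ≤ z * H) → ∑ h ∈ t, ‖DS (be ν h Y) nr σ u‖ ^ 2 ≤
        C * ((Y ^ σ) ^ 2 * (1 + |u|) ^ k * z * (X * Y) ^ e * H * (Y ^ 2 / H) ^ (1 / 6 : ℝ)) := by
  obtain ⟨C₁, hC₁, h2⟩ := h2
  obtain ⟨C₂, k, hC₂, h3⟩ := h3 Q h0 hQ e he
  set R := Real.exp 7 with hR
  have R1 : 1 ≤ R := Real.one_le_exp (by norm_num)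
  refine ⟨Real.exp 79 * Real.exp a0 * C₁ * (R + 4 * C₂ * R ^ 8), k, by positivity,
    fun ν t M X Y D H σ z u hν hg s0 s1 z1 hn => ?_⟩
  obtain ⟨r0, r1, r2⟩ := r_bd s0 s1
  obtain ⟨-, hX, hY, -, -, hH, -, -, -, a1, a2⟩ := hg
  have Y0 : 0 < Y := by linarith
  set r := Real.exp ((σ - 1 / 2) / 2) with hr
  set V := Y ^ 2 / H with hV
  have V1 : 1 ≤ V := (one_le_div (by linarith)).2 a1
  have R2 : 1 ≤ R ^ 2 := one_le_pow₀ R1
  have hYV : (Y * r) ^ 2 ≤ z * H * (R ^ 2 * V) := by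
    calc _ = 1 * (Y ^ 2 * r ^ 2) := by ring
      _ ≤ z * (Y ^ 2 * R ^ 2) := by gcongr
      _ = _ := by rw [hV]; field_simp
  have m := (h2 Q ν (z * H) (Y * r) (-u) _ hQ hν (by positivity) (by positivity)
    fun ν' hν' s T hs hT => h3 ν' (z * H) (Y * r) (-u) (R ^ 2 * V) s T hν' (by positivity)
      (by positivity) (one_le_mul_of_one_le_of_one_le R2 V1) hYV hs hT).sharp (by positivity) t hn
  rw [abs_neg] at m
  set S := V ^ (1 / 6 : ℝ) with hS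
  have S1 : 1 ≤ S := Real.one_le_rpow V1 (by norm_num)
  have L1 : 1 ≤ (1 + |u|) ^ k := one_le_pow₀ (by linarith [abs_nonneg u])
  have XY : Y ≤ X * Y := le_mul_of_one_le_left Y0.le hX
  have E1 : 1 ≤ (X * Y) ^ e := Real.one_le_rpow (hY.trans XY) he.le
  have v1 : V ≤ Y := (Real.self_le_rpow_of_one_le V1 (by norm_num)).trans a2
  have RR : R ≤ R ^ 2 := le_self_pow₀ R1 two_ne_zero
  have p1 : (Y * r + R ^ 2 * V) ^ e ≤ 2 * R ^ 2 * (X * Y) ^ e := by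
    refine pw (by positivity) (by linarith) (by positivity) ?_ he he1
    calc _ ≤ X * Y * R ^ 2 + R ^ 2 * (X * Y) := by
          gcongr
          exacts [r1.trans RR, v1.trans XY]
      _ = _ := by ring
  have p2 : (R ^ 2 * V) ^ (1 / 6 : ℝ) ≤ R ^ 2 * S :=
    pw (by positivity) R2 (by positivity) le_rfl (by norm_num) (by norm_num)
  have p3 : (R ^ 2 * V) ^ (9 / 4 : ℝ) ≤ R ^ 6 * (Y * S) := by
    rw [Real.mul_rpow (by positivity) (by positivity)]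
    refine mul_le_mul ((Real.rpow_le_rpow_of_exponent_le R2 (by norm_num : (9 / 4 : ℝ) ≤ (3 : ℕ))).trans
      (le_of_eq (by rw [Real.rpow_natCast]; ring))) ?_ (by positivity) (by positivity)
    exact ((Real.rpow_le_rpow_of_exponent_le V1 (by norm_num)).trans a2).trans
      (le_mul_of_one_le_right Y0.le S1)
  have p4 : Y * r * (R ^ 2 * V) ^ (1 / 6 : ℝ) ≤ R ^ 6 * (Y * S) := by
    have : R ^ 3 ≤ R ^ 6 := pow_le_pow_right₀ R1 (by norm_num)
    calc _ ≤ Y * R * (R ^ 2 * S) := by gcongr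
      _ = R ^ 3 * (Y * S) := by ring
      _ ≤ _ := by gcongr
  have p5 : Y * r ≤ R * ((1 + |u|) ^ k * (X * Y) ^ e * (Y * S)) := by
    calc _ = r * (1 * 1 * (Y * 1)) := by ring
      _ ≤ _ := by gcongr
  simp only [DS_be hν _ Y0, ← hr]
  simp only [mul_pow (_ * _) ‖_‖]
  rw [← mul_sum, QB.DL.sq_K Y0, sqp Y0]
  calc _ ≤ (Y ^ σ) ^ 2 * Y⁻¹ * Real.exp 79 * (Real.exp a0 * (C₁ * (z * H) *
        (R * ((1 + |u|) ^ k * (X * Y) ^ e * (Y * S)) + C₂ * (1 + |u|) ^ k *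
          (2 * R ^ 2 * (X * Y) ^ e) * (R ^ 6 * (Y * S) + R ^ 6 * (Y * S))))) := by
        refine mul_le_mul (by gcongr) (m.trans (by gcongr)) (by positivity) (by positivity)
    _ = _ := by field_simp; ring

end DP

open DP in
theorem pD (hV : QW.S_VD) (h1 : S_Sep) (h2 : S_B1) (h3 : S_B2) : S_D := by
  intro Q h0 hQ ε hε
  set e := min (ε / 3) 1 with he
  have e0 : 0 < e := lt_min (by linarith) one_pos
  have e1 : e ≤ 1 := min_le_right _ _
  have e2 : e ≤ ε / 3 := min_le_left _ _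
  obtain ⟨A, hA, mA⟩ := momA hV h0 hQ e0 e1
  obtain ⟨B, k, hB, mB⟩ := momB h2 h3 h0 hQ e0 e1
  obtain ⟨C, hC, sp⟩ := h1 e (16 + k) e0
  obtain ⟨κ, hκ1, hκ⟩ := alg.gam.2.2.2.2.2.2.2.2.2.2.2
  refine ⟨4 * C * (1 + A * B), by positivity, fun T s F w M X Y D H hg hT hw hs => ?_⟩
  have ⟨hM, hX, hY, hD, eH, hH, a1, _⟩ := hg
  have X0 : 0 < X := by linarith
  have Y0 : 0 < Y := by linarith
  have D0 : 0 < D := by linarith
  have H0 : 0 < H := by linarith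
  have ha := QB.one_le_a0
  have hk : ∀ k ∈ cls, IsNu Q (nk Q k) := fun k hk =>
    ((QB.base alg).nu Q (cop Q) k hQ (isNu_cop Q) hk).1
  have XY : 1 ≤ X * Y := one_le_mul_of_one_le_of_one_le hX hY
  set E := (X * Y) ^ e with hE
  have E1 : 1 ≤ E := Real.one_le_rpow XY e0.le
  set S := (Y ^ 2 / H) ^ (1 / 12 : ℝ) with hS
  have S0 : 0 ≤ S := by positivity
  have S2 : (Y ^ 2 / H) ^ (1 / 6 : ℝ) = S ^ 2 := by
    rw [hS, ← Real.rpow_natCast (_ ^ _), ← Real.rpow_mul (by positivity)]; norm_num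
  have one : ∀ j ∈ cls, ∑ h ∈ s, ‖KS (fun x : O × O => th (nk Q j) h x * w (x.1 * x.2 ^ 3))
      (be (nk Q j) h Y) xx nr (a0 * M * N h)‖ ≤ C * (2 * E) * ((1 + A * B) * E ^ 2 * H * S) := by
    intro j hj
    refine (sp O (O × O) O s (fun h => N h) _ _ xx nr (a0 * M) H (X * D * Y)
      ((1 + A * B) * E ^ 2 * H * S) xx_pos nr_pos (by positivity) H0 (by positivity) ?_
      (by positivity) (fun h hh => ⟨one_le_N (ne_of_mem_of_not_mem hh hs), fun σ =>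
        ⟨sm_al (hk j hj) X0 hT hw h σ, sm_be (hk j hj) h Y0 σ⟩⟩)
      fun σ z u t s0 s1 z1 ht hn => ?_).trans ?_
    · have : X * D * Y = M * H := by rw [eH]; field_simp
      rw [this, mul_assoc]
      exact le_mul_of_one_le_left (by positivity) ha
    · have k1 := mA (nk Q j) T t F w M X Y D H σ z u (hk j hj) hg hT hw (fun h => hs (ht h))
        s0 s1 z1 hn
      have k2 := mB (nk Q j) t M X Y D H σ z u (hk j hj) hg s0 s1 z1 hn
      have z0 : 0 < z := by linarith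
      refine le_of_pow_le_pow_left₀ two_ne_zero (by positivity) ((sum_mul_sq_le_sq_mul_sq _ _ _).trans
        ((mul_le_mul k1 k2 (by positivity) (by positivity)).trans ?_))
      have L1 : 1 ≤ (1 + |u|) ^ (16 + k) := one_le_pow₀ (by linarith [abs_nonneg u])
      have c1 : A * B ≤ (1 + A * B) ^ 2 := by nlinarith [mul_pos hA hB]
      have c2 : (1 + |u|) ^ (16 + k) ≤ ((1 + |u|) ^ (16 + k)) ^ 2 := le_self_pow₀ L1 two_ne_zero
      have c3 : z ^ 5 ≤ z ^ 22 := pow_le_pow_right₀ z1 (by norm_num)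
      have c4 : E ^ 3 ≤ E ^ 4 := pow_le_pow_right₀ E1 (by norm_num)
      rw [S2, ← hE, Real.mul_rpow (mul_pos X0 D0).le Y0.le, Real.mul_rpow X0.le D0.le]
      calc _ = A * B * E ^ 3 * (1 + |u|) ^ (16 + k) * z ^ 5 *
            (X ^ σ * D ^ σ * Y ^ σ * H * S) ^ 2 := by ring
        _ ≤ (1 + A * B) ^ 2 * E ^ 4 * ((1 + |u|) ^ (16 + k)) ^ 2 * z ^ 22 *
            (X ^ σ * D ^ σ * Y ^ σ * H * S) ^ 2 := by gcongr
        _ = _ := by ring
    · have : (1 + H) ^ e ≤ 2 * E := pw (by positivity) one_le_two (by positivity) (by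
        have := ((le_mul_of_one_le_right H0.le hD).trans a1).trans (le_mul_of_one_le_right X0.le hY)
        linarith) e0 e1
      gcongr
  have E3 : E ^ 3 ≤ (X * Y) ^ ε := by
    rw [hE, ← Real.rpow_natCast, ← Real.rpow_mul (by positivity)]
    exact Real.rpow_le_rpow_of_exponent_le XY (by push_cast; linarith)
  calc _ ≤ ∑ h ∈ s, M * ∑ j ∈ cls, ‖κ j‖ *
        ‖KS (fun x : O × O => th (nk Q j) h x * w (x.1 * x.2 ^ 3)) (be (nk Q j) h Y) xx nr
          (a0 * M * N h)‖ := by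
        refine sum_le_sum fun h _ => ?_
        rw [DH_eq hQ hκ w hM Y0 h fun j hj => by simpa using sm_al (hk j hj) X0 hT hw h 0,
          norm_mul, Complex.norm_real, Real.norm_of_nonneg hM.le]
        exact mul_le_mul_of_nonneg_left (norm_sum_le_of_le _ fun j _ => (norm_mul _ _).le) hM.le
    _ ≤ M * (2 * (C * (2 * E) * ((1 + A * B) * E ^ 2 * H * S))) := by
        rw [← mul_sum, sum_comm]
        refine mul_le_mul_of_nonneg_left (le_trans (sum_le_sum fun j hj => ?_)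
          ((sum_mul _ _ _).symm.le.trans (mul_le_mul_of_nonneg_right hκ1 (by positivity)))) hM.le
        rw [← mul_sum]
        exact mul_le_mul_of_nonneg_left (one j hj) (norm_nonneg _)
    _ = 4 * C * (1 + A * B) * E ^ 3 * (M * H * S) := by ring
    _ ≤ _ := by gcongr

end Pool.Agent.P.MP_323ce2_nt.QM
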