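import Pool.Agent.P.MP_323ce2_nt.QM.St

/-! The main state on a principal row. -/

namespace Pool.Agent.P.MP_323ce2_nt.QM

open Finset Pool.Agent.P.MP_26a8c3_nt Pool.Agent.P.MP_26a8c3_nt.QO Pool.Agent.P.MP_26a8c3_nt.QA
open Pool.Agent.P.MP_323ce2_nt.QF Pool.Agent.P.MP_323ce2_nt.QX
open scoped Classical ComplexConjugate

namespace E0

lemma pw {c y : ℝ} (hc : 1 ≤ c) (h : c ^ 4 ≤ y) :
    c * y ^ (-(1 / 2) : ℝ) ≤ y ^ (-(1 / 5) : ℝ) := by
  have h1 : 1 ≤ y := (one_le_pow₀ hc).trans h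
  have h2 : c ≤ y ^ (3 / 10 : ℝ) := by
    calc c = (c ^ 4) ^ ((4 : ℕ) : ℝ)⁻¹ := (Real.pow_rpow_inv_natCast (by linarith) four_ne_zero).symm
      _ ≤ y ^ ((4 : ℕ) : ℝ)⁻¹ := by gcongr
      _ ≤ _ := Real.rpow_le_rpow_of_exponent_le h1 (by norm_num)
  rw [show (-(1 / 5) : ℝ) = 3 / 10 + -(1 / 2) by norm_num, Real.rpow_add (by linarith)]
  gcongr

lemma one_add_sum {ι : Type*} (s : Finset ι) (x : ι → ℝ) (h : ∀ i ∈ s, 0 ≤ x i) :
    1 + ∑ i ∈ s, x i ≤ ∏ i ∈ s, (1 + x i) := by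
  induction s using Finset.induction_on with
  | empty => simp
  | insert a s ha ih =>
    have h1 := ih fun i hi => h i (mem_insert_of_mem hi)
    have h2 := h a (mem_insert_self a s)
    have h3 : 0 ≤ ∑ i ∈ s, x i := sum_nonneg fun i hi => h i (mem_insert_of_mem hi)
    rw [sum_insert ha, prod_insert ha]
    nlinarith

lemma prod_diff {ι : Type*} (s : Finset ι) (F e f : ι → ℝ) {ζ : ℝ}
    (h : ∀ i ∈ s, 0 ≤ F i ∧ F i ≤ f i ∧ 0 ≤ e i ∧ e i ≤ ζ * f i) :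
    ∏ i ∈ s, (F i + e i) - ∏ i ∈ s, F i ≤ ((1 + ζ) ^ #s - 1) * ∏ i ∈ s, f i := by
  induction s using Finset.induction_on with
  | empty => simp
  | insert a s ha ih =>
    have h' : ∀ i ∈ s, _ := fun i hi => h i (mem_insert_of_mem hi)
    have h1 := ih h'
    obtain ⟨a1, a2, a3, a4⟩ := h a (mem_insert_self a s)
    have h2 : ∏ i ∈ s, F i ≤ ∏ i ∈ s, (F i + e i) :=
      prod_le_prod (fun i hi => (h' i hi).1) fun i hi => by linarith [(h' i hi).2.2.1]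
    have h3 : ∏ i ∈ s, F i ≤ ∏ i ∈ s, f i :=
      prod_le_prod (fun i hi => (h' i hi).1) fun i hi => (h' i hi).2.1
    have h4 : 0 ≤ ∏ i ∈ s, F i := prod_nonneg fun i hi => (h' i hi).1
    rw [prod_insert ha, prod_insert ha, prod_insert ha, card_insert_of_notMem ha, pow_succ]
    have b1 := mul_le_mul a2 h1 (sub_nonneg.2 h2) (a1.trans a2)
    have b2 := mul_le_mul a4 (show ∏ i ∈ s, (F i + e i) ≤ (1 + ζ) ^ #s * ∏ i ∈ s, f i by linarith)
      (h4.trans h2) (a3.trans a4)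
    linarith

/-- the mass of the detector on a principal row -/
noncomputable def Lr (Q m : O) (Y : ℝ) : ℝ :=
  ∑' n : O, if (SQ n ∧ IsCoprime n Q) ∧ IsCoprime n m then ‖W Y 0 (nr n)‖ else 0

lemma W_real (Y y : ℝ) : W Y 0 y = (‖W Y 0 y‖ : ℝ) := by
  rw [norm_W, W]; simp

lemma Ls_eq {Q m : O} (h : Tv Q m) (Y : ℝ) : Ls (cop Q) 1 m Y 0 = Lr Q m Y := by
  rw [Ls, Wsum, Lr, Complex.ofReal_tsum]
  refine tsum_congr fun n => ?_
  by_cases h1 : SQ n
  · rw [if_pos ⟨h1, isCoprime_one_right⟩, h.ph_eq h1.1, cop, cop]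
    by_cases h2 : IsCoprime n Q <;> by_cases h3 : IsCoprime n m <;>
      simp only [h1, h2, h3, if_true, if_false, and_self, and_true, and_false, mul_one, one_mul,
        mul_zero, zero_mul, Complex.ofReal_zero]
    exact W_real _ _
  · simp [h1]

lemma summable_Lr (Q m : O) {Y : ℝ} (hY : 0 < Y) : Summable fun n : O =>
    if (SQ n ∧ IsCoprime n Q) ∧ IsCoprime n m then ‖W Y 0 (nr n)‖ else 0 :=
  Summable.of_nonneg_of_le (fun n => by positivity) (fun n => by split_ifs <;> simp)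
    (QB.summable_W1 (u := fun _ => 1) (fun _ => by simp) hY 0)

lemma Lr_nonneg (Q m : O) (Y : ℝ) : 0 ≤ Lr Q m Y := tsum_nonneg fun n => by positivity

lemma Lr_le (Q m : O) {Y : ℝ} (hY : 0 < Y) : Lr Q m Y ≤ L0 Q Y :=
  (summable_Lr Q m hY).tsum_le_tsum (fun n => by
    split_ifs with h1 h2
    exacts [le_rfl, absurd h1.1 h2, norm_nonneg _, le_rfl]) (summable_L0 Q hY)

lemma le_Lr (hE : S_Eul) {Q m : O} (hQ : 36 ∣ Q) (hm : m ≠ 0) {Y : ℝ} (hY : 0 < Y) :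
    L0 Q Y ≤ Lr Q m Y + ∑ p ∈ pf Q m, L0 Q (Y / N p) := by
  set t : O → ℝ := fun n => if SQ n ∧ IsCoprime n Q then ‖W Y 0 (nr n)‖ else 0 with ht
  have t0 : ∀ n, 0 ≤ t n := fun n => by simp only [ht]; positivity
  have hs : ∀ p : O, Summable fun n => if p ∣ n then t n else 0 := fun p =>
    Summable.of_nonneg_of_le (f := t) (fun n => by split_ifs; exacts [t0 n, le_rfl])
      (fun n => by split_ifs; exacts [le_rfl, t0 n]) (summable_L0 Q hY)
  have h1 : L0 Q Y ≤ Lr Q m Y + ∑ p ∈ pf Q m, ∑' n, if p ∣ n then t n else 0 := by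
    rw [Lr, ← Summable.tsum_finsetSum fun p _ => hs p,
      ← (summable_Lr Q m hY).tsum_add (summable_sum fun p _ => hs p)]
    refine (summable_L0 Q hY).tsum_le_tsum (fun n => ?_)
      ((summable_Lr Q m hY).add (summable_sum fun p _ => hs p))
    have h0 : ∀ p ∈ pf Q m, 0 ≤ if p ∣ n then t n else 0 := fun p _ => by
      split_ifs; exacts [t0 n, le_rfl]
    by_cases h1 : SQ n ∧ IsCoprime n Q
    · by_cases h2 : IsCoprime n m
      · rw [if_pos h1, if_pos ⟨h1, h2⟩]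
        exact le_add_of_nonneg_right (sum_nonneg h0)
      · obtain ⟨p, p1, p2, p3, p4⟩ := (not_coprime_iff h1.1.ne_zero).1 fun e => h2 e.symm
        have hp : p ∈ pf Q m := (hE.1 Q m p hQ hm).2 ⟨p1,
          p2.primary fun e => h1.1.1.not_lam_dvd (e.trans p3), p4,
          fun e => p1.not_isUnit (h1.2.isUnit_of_dvd' p3 e)⟩
        have := single_le_sum h0 hp
        rw [if_pos p3] at this
        exact le_add_of_nonneg_of_le (by positivity) this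
    · rw [if_neg h1]
      exact add_nonneg (by positivity) (sum_nonneg h0)
  refine h1.trans (add_le_add le_rfl (sum_le_sum fun p hp => ?_))
  obtain ⟨p1, p2, -⟩ := (hE.1 Q m p hQ hm).1 hp
  have hN := N_pos_real p1.ne_zero
  rw [tsum_ite_dvd0 p1.ne_zero]
  refine ((summable_L0 Q hY).comp_injective (mul_right_injective₀ p1.ne_zero)).tsum_le_tsum
    (fun n => ?_) (summable_L0 Q (by positivity))
  show (if SQ (p * n) ∧ IsCoprime (p * n) Q then ‖W Y 0 (nr (p * n))‖ else 0) ≤ _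
  by_cases h : SQ (p * n) ∧ IsCoprime (p * n) Q
  · have hn := h.1.right p2
    rw [if_pos h, if_pos ⟨hn, h.2.of_mul_left_right⟩, QB.nr_mul p1.ne_zero hn.ne_zero,
      W_mul hY hN (nr_pos n), norm_mul, norm_cpow_I hN, one_mul]
  · rw [if_neg h]; positivity

/-- the value of a piece on a principal row -/
noncomputable def Fr (S : Finset O) (φ : O → ℝ) (m : O) : ℝ := ∑ p ∈ S, if p ∣ m then 0 else φ p

lemma F1_eq {Q m : O} (h : Tv Q m) {S : Finset O} (φ : O → ℝ)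
    (hS : ∀ p ∈ S, Prime p ∧ Primary p ∧ IsCoprime p Q) : F1 S φ m = Fr S φ m := by
  rw [F1, Fr, Complex.ofReal_sum]
  refine sum_congr rfl fun p hp => ?_
  obtain ⟨p1, p2, p3⟩ := hS p hp
  have e := h.ph_eq p2
  rw [ph, cop_of p3, one_mul, one_mul] at e
  rw [e, cop]
  by_cases hd : p ∣ m
  · simp [hd, p1.coprime_iff_not_dvd]
  · simp [hd, p1.coprime_iff_not_dvd]

end E0

open E0 in
theorem pE0 (hO : S_Om) (hE : S_Eul) (hC : S_Cp) (hU : S_U) (hS : S_Sf) : S_E0 := by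
  intro η J hη
  obtain ⟨ζ, hζ, hζJ⟩ : ∃ ζ : ℝ, 0 < ζ ∧ (1 + ζ) ^ (J + 1) = 1 + η :=
    ⟨(1 + η) ^ (((J + 1 : ℕ) : ℝ)⁻¹) - 1, sub_pos.2 (Real.one_lt_rpow (by linarith) (by positivity)),
      by rw [add_sub_cancel, Real.rpow_inv_natCast_pow (by linarith) (Nat.succ_ne_zero J)]⟩
  refine ⟨((J : ℝ) + 2) ^ 4, (2 / ζ) ^ 2, fun Q m θ lo P X Y B W₀ l S φ h hB hlo hJ hW => ?_⟩
  have hm := h.tv.1
  have hX := h.x0
  have hθ : 1 / 2 ≤ θ := by linarith [h.t0]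
  have hJ0 : (0 : ℝ) ≤ J := Nat.cast_nonneg J
  have hcard : #l.toFinset = l.length := List.toFinset_card_of_nodup h.nd
  have hB0 : 0 ≤ B := nonneg_of_mul_nonneg_left ((norm_nonneg _).trans (h.rc X hX le_rfl))
    (Real.rpow_pos_of_pos hX θ)
  have hp : ∀ p ∈ pf Q m, 1 ≤ (N p : ℝ) ∧
      ((J : ℝ) + 2) * (N p : ℝ) ^ (-(1 / 2) : ℝ) ≤ (N p : ℝ) ^ (-(1 / 5) : ℝ) := fun p hp => by
    obtain ⟨p1, -, -, p4⟩ := (hE.1 Q m p h.q hm).1 hp
    exact ⟨one_le_N p1.ne_zero, pw (by linarith) (not_le.1 fun e => p4 (hB p p1 e)).le⟩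
  have hΨ : Ep Q 2 θ m ≤ Ep Q 1 (1 / 5) m := by
    refine prod_le_prod (fun p _ => by positivity) fun p hp' => ?_
    obtain ⟨a1, a2⟩ := hp p hp'
    have a3 : (N p : ℝ) ^ (-θ) ≤ (N p : ℝ) ^ (-(1 / 2) : ℝ) :=
      Real.rpow_le_rpow_of_exponent_le a1 (by linarith)
    have a4 : 0 ≤ (N p : ℝ) ^ (-(1 / 2) : ℝ) := by positivity
    nlinarith
  have hΨ1 : 1 ≤ Ep Q 2 θ m := (hE.2.1 Q m m 2 θ hm hm zero_le_two).1
  set s : ℝ := ∑ p ∈ pf Q m, (N p : ℝ) ^ (-(1 / 2) : ℝ) with hs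
  have hs0 : 0 ≤ s := sum_nonneg fun p _ => by positivity
  have hE1 : 1 + ((J : ℝ) + 2) * s ≤ Ep Q 1 (1 / 5) m := by
    refine le_trans ?_ (one_add_sum _ _ fun p _ => by positivity)
    rw [hs, mul_sum]
    exact add_le_add le_rfl (sum_le_sum fun p hp' => by rw [one_mul]; exact (hp p hp').2)
  have hL0 : 0 ≤ L0 Q Y := (Lr_nonneg Q m Y).trans (Lr_le Q m h.y0)
  have hL : L0 Q Y * (1 - 2 * s) ≤ Lr Q m Y := by
    have a1 := le_Lr hE h.q hm h.y0
    have a2 : ∑ p ∈ pf Q m, L0 Q (Y / N p) ≤ 2 * L0 Q Y * s := by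
      rw [hs, mul_sum]
      exact sum_le_sum fun p hp' => h.rat _ (hp p hp').1
    linarith
  have hF : ∀ i ∈ l.toFinset, 0 ≤ Fr (S i) φ m ∧ Fr (S i) φ m ≤ ∑ p ∈ S i, φ p ∧
      0 ≤ ee (S i) φ θ 1 ∧ ee (S i) φ θ 1 ≤ ζ * ∑ p ∈ S i, φ p := fun i hi => by
    refine ⟨sum_nonneg fun p _ => ?_, sum_le_sum fun p _ => ?_, sum_nonneg fun p _ => ?_, ?_⟩
    · split_ifs; exacts [le_rfl, h.pc.w0 p]
    · split_ifs; exacts [h.pc.w0 p, le_rfl]
    · exact mul_nonneg (h.pc.w0 p) (by split_ifs <;> positivity)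
    · rw [mul_sum]
      refine sum_le_sum fun p hp' => ?_
      obtain ⟨p1, -, -, p4, -⟩ := h.pc.pr i hi p hp'
      rw [if_neg fun e => p1.not_isUnit (isUnit_of_dvd_one e), mul_comm]
      refine mul_le_mul_of_nonneg_right ?_ (h.pc.w0 p)
      have a1 : (N p : ℝ) ^ (-θ) ≤ (N p : ℝ) ^ (-(1 / 2) : ℝ) :=
        Real.rpow_le_rpow_of_exponent_le (one_le_N p1.ne_zero) (by linarith)
      have a2 : (N p : ℝ) ^ (-(1 / 2) : ℝ) ≤ ((2 / ζ) ^ 2) ^ (-(1 / 2) : ℝ) :=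
        Real.rpow_le_rpow_of_nonpos (by positivity) (hlo.trans p4) (by norm_num)
      rw [Real.rpow_neg (sq_nonneg _), ← Real.sqrt_eq_rpow, Real.sqrt_sq (by positivity),
        inv_div] at a2
      linarith
  have hF' : ∀ i ∈ l.toFinset, (1 - s) * ∑ p ∈ S i, φ p ≤ Fr (S i) φ m := fun i hi => by
    have f0 : 0 ≤ ∑ p ∈ S i, φ p := sum_nonneg fun p _ => h.pc.w0 p
    have a1 : ∑ p ∈ S i, φ p - Fr (S i) φ m = ∑ p ∈ (S i).filter (· ∣ m), φ p := by
      rw [Fr, ← sum_sub_distrib, sum_filter]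
      exact sum_congr rfl fun p _ => by split_ifs <;> simp
    have a2 : ∑ p ∈ (S i).filter (· ∣ m), φ p ≤
        ∑ p ∈ (S i).filter (· ∣ m), (N p : ℝ) ^ (-(1 / 2) : ℝ) * ∑ p ∈ S i, φ p :=
      sum_le_sum fun p hp' => by
        obtain ⟨p1, -, -, -, p5⟩ := h.pc.pr i hi p (mem_filter.1 hp').1
        have b0 := N_pos_real p1.ne_zero
        have b1 : (N p : ℝ) ^ (1 / 2 : ℝ) ≤ ∑ p ∈ S i, φ p :=
          ((Real.rpow_le_rpow b0.le p5 (by norm_num)).trans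
            (Real.rpow_le_rpow_of_exponent_le h.p1 hθ)).trans (h.ms i (List.mem_toFinset.1 hi))
        rw [Real.rpow_neg b0.le, ← div_eq_inv_mul]
        exact (h.pc.w1 p).trans ((one_le_div (by positivity)).2 b1)
    have a3 : ∑ p ∈ (S i).filter (· ∣ m), (N p : ℝ) ^ (-(1 / 2) : ℝ) ≤ s :=
      sum_le_sum_of_subset_of_nonneg (fun p hp' => by
        obtain ⟨p1, p2, p3, -⟩ := h.pc.pr i hi p (mem_filter.1 hp').1
        exact (hE.1 Q m p h.q hm).2 ⟨p1, p2, (mem_filter.1 hp').2,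
          p1.coprime_iff_not_dvd.1 p3⟩) fun p _ _ => by positivity
    rw [← sum_mul] at a2
    nlinarith [mul_le_mul_of_nonneg_right a3 f0]
  have f0 : 0 ≤ ∏ i ∈ l.toFinset, ∑ p ∈ S i, φ p :=
    prod_nonneg fun i _ => sum_nonneg fun p _ => h.pc.w0 p
  have g0 : 0 ≤ ∏ i ∈ l.toFinset, Fr (S i) φ m := prod_nonneg fun i hi => (hF i hi).1
  have g1 : ∏ i ∈ l.toFinset, Fr (S i) φ m ≤ ∏ i ∈ l.toFinset, ∑ p ∈ S i, φ p :=
    prod_le_prod (fun i hi => (hF i hi).1) fun i hi => (hF i hi).2.1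
  have hW0 : 0 ≤ W₀ := hW ▸ mul_nonneg f0 hL0
  have hw : (∏ i ∈ l.toFinset, Fr (S i) φ m) * Lr Q m Y ≤ W₀ :=
    hW ▸ mul_le_mul g1 (Lr_le Q m h.y0) (Lr_nonneg Q m Y) f0
  have hw0 := mul_nonneg g0 (Lr_nonneg Q m Y)
  refine ⟨(∏ i ∈ l.toFinset, Fr (S i) φ m) * Lr Q m Y, hw0, ?_, hw, ?_⟩
  · by_cases hc : 1 ≤ ((J : ℝ) + 2) * s
    · exact (mul_nonpos_of_nonneg_of_nonpos hW0 (by linarith)).trans hw0
    · have a0 : (0 : ℝ) ≤ J * s := by positivity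
      have a1 : (1 - s) ^ l.length * ∏ i ∈ l.toFinset, ∑ p ∈ S i, φ p ≤
          ∏ i ∈ l.toFinset, Fr (S i) φ m := by
        rw [← hcard, ← prod_const, ← prod_mul_distrib]
        exact prod_le_prod (fun i _ => mul_nonneg (by linarith)
          (sum_nonneg fun p _ => h.pc.w0 p)) hF'
      have a2 : 1 - J * s ≤ (1 - s) ^ l.length := by
        have := one_add_mul_le_pow (show (-2 : ℝ) ≤ -s by linarith) l.length
        have b : (l.length : ℝ) * s ≤ J * s := by gcongr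
        rw [← sub_eq_add_neg] at this
        linarith
      calc _ ≤ W₀ * ((1 - J * s) * (1 - 2 * s)) := by gcongr; nlinarith
        _ = ((1 - J * s) * ∏ i ∈ l.toFinset, ∑ p ∈ S i, φ p) * (L0 Q Y * (1 - 2 * s)) := by
            rw [hW]; ring
        _ ≤ _ := mul_le_mul ((mul_le_mul_of_nonneg_right a2 f0).trans a1) hL
            (mul_nonneg hL0 (by linarith)) g0
  · have hA : ∀ X' : ℝ, 0 < X' → X' ≤ X → ‖A (cop Q) 1 m X' 0 - A (cop Q) 1 1 X' 0‖ ≤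
        B * X' ^ θ * (Ep Q 2 θ m - 1) := fun X' a1 a2 => by
      rw [h.tv.A_eq, one_mul]
      exact hC Q _ m 1 B θ X 0 h.q (isNu_cop Q) hm hθ h.t1 h.rc X' a1 a2
    have h1 := hU Q 1 m lo P (B * Ep Q 2 θ m) θ X l S φ h.q primary_one h.nd h.pc hθ h.t1 hX
      fun X' a1 a2 => by
        have := norm_add_le_of_le (hA X' a1 a2) (h.rc X' a1 a2)
        rw [sub_add_cancel] at this
        linarith
    have e1 : ∀ i ∈ l.toFinset, F1 (S i) φ m = Fr (S i) φ m := fun i hi =>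
      F1_eq h.tv φ fun p hp' => let ⟨a, b, c, _⟩ := h.pc.pr i hi p hp'; ⟨a, b, c⟩
    have e2 : ∀ i ∈ l.toFinset, ‖F1 (S i) φ m‖ = Fr (S i) φ m := fun i hi => by
      rw [e1 i hi, Complex.norm_real, Real.norm_of_nonneg (hF i hi).1]
    rw [map_one, Nat.cast_one, div_one, cop_of isCoprime_one_left, one_mul, prod_neg, hcard,
      prod_congr rfl e1, ← Complex.ofReal_prod, prod_congr rfl e2,
      prod_congr rfl fun i hi => congrArg (· + ee (S i) φ θ 1) (e2 i hi)] at h1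
    have h2 := prod_diff _ _ _ _ hF
    have h3 : (1 + ζ) ^ #l.toFinset - 1 ≤ η := by
      have := pow_le_pow_right₀ (show 1 ≤ 1 + ζ by linarith)
        (show #l.toFinset ≤ J + 1 by omega)
      linarith
    have h4 := h1.trans (mul_le_mul_of_nonneg_left (h2.trans (mul_le_mul_of_nonneg_right h3 f0))
      (by positivity))
    have e3 : TS (uX Q S φ l X) (vY (cop Q) Y) m (1, 1, 1, 1) =
        Ug (uX Q S φ l X) 1 m * Lr Q m Y := by
      have := hS.1 Q _ 1 m Y (isNu_cop Q) one_ne_zero h.y0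
      rw [map_one, Nat.cast_one, div_one, cop_of isCoprime_one_left, one_mul, Ls_eq h.tv] at this
      simp [TS, val_one, hO.1, jj, pdiv_one, this]
    have e4 : ∀ a b c F L σ : ℂ, a * L - σ * (F * L) * c =
        (a - σ * F * b) * L + σ * (F * L * (b - c)) := fun a b c F L σ => by ring
    rw [e3, Complex.ofReal_mul, e4 _ (A (cop Q) 1 m X 0)]
    refine (norm_add_le _ _).trans ?_
    rw [norm_mul, norm_mul, norm_mul, ← Complex.ofReal_mul, Complex.norm_real, Complex.norm_real,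
      Real.norm_of_nonneg hw0, Real.norm_of_nonneg (Lr_nonneg Q m Y), norm_pow, norm_neg, norm_one,
      one_pow, one_mul]
    calc _ ≤ B * Ep Q 2 θ m * X ^ θ * (η * ∏ i ∈ l.toFinset, ∑ p ∈ S i, φ p) * L0 Q Y +
          W₀ * (B * X ^ θ * (Ep Q 2 θ m - 1)) :=
          add_le_add (mul_le_mul h4 (Lr_le Q m h.y0) (Lr_nonneg Q m Y) (by positivity))
            (mul_le_mul hw (hA X hX le_rfl) (norm_nonneg _) hW0)
      _ = B * X ^ θ * W₀ * (η + (1 + η) * (Ep Q 2 θ m - 1)) := by rw [hW]; ring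
      _ ≤ _ := by gcongr

end Pool.Agent.P.MP_323ce2_nt.QM
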