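import Pool.Agent.P.MP_323ce2_nt.QM.St

/-! The states other than the main one on a principal row. -/

namespace Pool.Agent.P.MP_323ce2_nt.QM

open Finset Pool.Agent.P.MP_26a8c3_nt Pool.Agent.P.MP_26a8c3_nt.QO Pool.Agent.P.MP_26a8c3_nt.QA
open Pool.Agent.P.MP_323ce2_nt.QF Pool.Agent.P.MP_323ce2_nt.QX
open scoped Classical ComplexConjugate

namespace E1P

variable {Q m : O} {θ lo P X Y B : ℝ} {l : List ℕ} {S : ℕ → Finset O} {φ : O → ℝ}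

lemma pw {x a b e θ : ℝ} (hx : 1 ≤ x) (ha : 1 ≤ a) (hb : 1 ≤ b) (he : 1 ≤ e) (h : 5 / 6 ≤ θ) :
    x ^ 2 * (√a * √b) * (x ^ 3 * a * e) ^ (-θ) * (b * e) ^ (-(1 / 2) : ℝ) ≤
      x ^ (-(1 / 2) : ℝ) * e ^ (-(4 / 3) : ℝ) := by
  have f : ∀ y : ℝ, 1 ≤ y → ∃ z : ℝ, 0 ≤ z ∧ y = Real.exp z := fun y hy =>
    ⟨_, Real.log_nonneg hy, (Real.exp_log (by linarith)).symm⟩
  obtain ⟨x, x0, rfl⟩ := f x hx
  obtain ⟨a, a0, rfl⟩ := f a ha
  obtain ⟨b, b0, rfl⟩ := f b hb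
  obtain ⟨e, e0, rfl⟩ := f e he
  simp only [Real.sqrt_eq_rpow, ← Real.exp_nat_mul, ← Real.exp_add, ← Real.exp_mul]
  refine Real.exp_le_exp.2 ?_
  push_cast
  nlinarith [mul_nonneg x0 (sub_nonneg.2 h), mul_nonneg a0 (sub_nonneg.2 h),
    mul_nonneg e0 (sub_nonneg.2 h)]

lemma loc {y θ : ℝ} (hy : 26 ^ 10 ≤ y) (h : 5 / 6 ≤ θ) :
    (1 + 2 * y ^ (-θ)) * ((1 + 2 * y ^ (-(2 / 5) : ℝ)) * (1 + 2 * y ^ (-(3 / 10) : ℝ))) ≤
      1 + 1 * y ^ (-(1 / 5) : ℝ) := by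
  have y1 : 1 ≤ y := le_trans (by norm_num) hy
  have y0 : 0 < y := by linarith
  have a1 : y ^ (-θ) ≤ y ^ (-(3 / 10) : ℝ) := Real.rpow_le_rpow_of_exponent_le y1 (by linarith)
  have a2 : y ^ (-(2 / 5) : ℝ) ≤ y ^ (-(3 / 10) : ℝ) :=
    Real.rpow_le_rpow_of_exponent_le y1 (by norm_num)
  have a3 : y ^ (-(1 / 10) : ℝ) ≤ 1 / 26 := by
    refine (Real.rpow_le_rpow_of_nonpos (by norm_num) hy (by norm_num)).trans (le_of_eq ?_)
    rw [← Real.rpow_natCast, ← Real.rpow_mul (by norm_num)]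
    norm_num [Real.rpow_neg_one]
  have a4 : y ^ (-(3 / 10) : ℝ) = y ^ (-(1 / 10) : ℝ) * y ^ (-(1 / 5) : ℝ) := by
    rw [← Real.rpow_add y0]
    norm_num
  have a5 : y ^ (-(3 / 10) : ℝ) ≤ 1 := Real.rpow_le_one_of_one_le_of_nonpos y1 (by norm_num)
  have a6 : 26 * y ^ (-(3 / 10) : ℝ) ≤ y ^ (-(1 / 5) : ℝ) := by
    have := mul_le_mul_of_nonneg_right a3 (Real.rpow_nonneg y0.le (-(1 / 5) : ℝ))
    linarith
  have a7 := Real.rpow_nonneg y0.le (-(3 / 10) : ℝ)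
  calc _ ≤ (1 + 2 * y ^ (-(3 / 10) : ℝ)) *
        ((1 + 2 * y ^ (-(3 / 10) : ℝ)) * (1 + 2 * y ^ (-(3 / 10) : ℝ))) := by gcongr
    _ ≤ _ := by
      generalize y ^ (-(3 / 10) : ℝ) = s at *
      nlinarith [mul_le_mul a5 a5 a7 zero_le_one, mul_nonneg a7 (sub_nonneg.2 a5),
        mul_nonneg (mul_nonneg a7 a7) (sub_nonneg.2 a5)]

lemma big_lt (hE : S_Eul) {C : ℝ} (hq : 36 ∣ Q) (hB : Big Q C) (h0 : m ≠ 0) {p : O}
    (hp : p ∈ pf Q m) : C < N p := by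
  obtain ⟨a, -, -, b⟩ := (hE.1 Q m p hq h0).1 hp
  exact not_le.1 fun c => b (hB p a c)

lemma euler (hE : S_Eul) (hq : 36 ∣ Q) (hB : Big Q (26 ^ 10)) (h0 : m ≠ 0) (h : 5 / 6 ≤ θ) :
    Ep Q 2 θ m * (Ep Q 2 (2 / 5) m * Ep Q 2 (3 / 10) m) ≤ Ep Q 1 (1 / 5) m := by
  simp only [Ep, ← prod_mul_distrib]
  exact prod_le_prod (fun p _ => by positivity) fun p hp => loc (big_lt hE hq hB h0 hp).le h

lemma f_nonneg (h : HT Q m θ lo P X Y B l S φ) (i : ℕ) : 0 ≤ ∑ p ∈ S i, φ p :=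
  sum_nonneg fun p _ => h.pc.w0 p

lemma B_nonneg (h : HT Q m θ lo P X Y B l S φ) : 0 ≤ B :=
  nonneg_of_mul_nonneg_left ((norm_nonneg _).trans (h.rc X h.x0 le_rfl))
    (Real.rpow_pos_of_pos h.x0 θ)

lemma one_le (h : HT Q m θ lo P X Y B l S φ) {J : ℕ} (hlo : (4 * J + 1) ^ 2 ≤ lo) {i : ℕ}
    (hi : i ∈ l.toFinset) (g : O) : ‖F1 (S i) φ m‖ + ee (S i) φ θ g ≤
      (∑ p ∈ S i, φ p) * (1 + 2 / (4 * J + 1)) * 3 ^ #((S i).filter (· ∣ g)) := by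
  have f0 := f_nonneg h i
  have t0 := h.t0
  have j0 : (0 : ℝ) < 4 * J + 1 := by positivity
  have a1 : ‖F1 (S i) φ m‖ ≤ ∑ p ∈ S i, φ p := norm_sum_le_of_le _ fun p _ => by
    rw [norm_mul, Complex.norm_real, Real.norm_of_nonneg (h.pc.w0 p)]
    exact mul_le_of_le_one_right (h.pc.w0 p) (norm_psi_le p m)
  have a2 : ee (S i) φ θ g ≤ ∑ p ∈ S i, (2 / (4 * J + 1) * φ p +
      if p ∣ g then 2 * ∑ p ∈ S i, φ p else 0) := by
    refine sum_le_sum fun p hp => ?_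
    obtain ⟨b1, -, -, b2, b3⟩ := h.pc.pr i hi p hp
    have b4 := one_le_N b1.ne_zero
    have b5 := h.pc.w0 p
    have b6 : 0 ≤ 2 / (4 * (J : ℝ) + 1) * φ p := by positivity
    split_ifs
    · have c1 : (N p : ℝ) ^ θ ≤ P ^ θ := Real.rpow_le_rpow (by positivity) b3 (by linarith)
      have c2 : 1 ≤ P ^ θ := Real.one_le_rpow h.p1 (by linarith)
      have c3 := h.ms i (List.mem_toFinset.1 hi)
      have c4 := mul_le_of_le_one_left (by positivity : 0 ≤ (N p : ℝ) ^ θ + 1) (h.pc.w1 p)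
      linarith
    · have c1 : (N p : ℝ) ^ (-θ) ≤ 1 / (4 * J + 1) := by
        refine (Real.rpow_le_rpow_of_exponent_le b4 (by linarith : -θ ≤ -(1 / 2))).trans
          ((Real.rpow_le_rpow_of_nonpos (by positivity) (hlo.trans b2) (by norm_num)).trans
            (le_of_eq ?_))
        rw [← Real.rpow_natCast, ← Real.rpow_mul j0.le]
        norm_num [Real.rpow_neg_one]
      rw [add_zero, mul_comm, ← mul_one_div]
      gcongr
  rw [sum_add_distrib, ← mul_sum, ← sum_filter, sum_const, nsmul_eq_mul] at a2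
  have a3 : 1 + (#((S i).filter (· ∣ g)) : ℝ) * 2 ≤ 3 ^ #((S i).filter (· ∣ g)) := by
    have := one_add_mul_le_pow (by norm_num : (-2 : ℝ) ≤ 2) #((S i).filter (· ∣ g))
    norm_num at this ⊢
    exact this
  refine le_trans ?_ (mul_le_mul_of_nonneg_left a3 (by positivity))
  have a4 : 0 ≤ (∑ p ∈ S i, φ p) * (2 / (4 * (J : ℝ) + 1)) * ((#((S i).filter (· ∣ g)) : ℝ) * 2) := by
    positivity
  linarith

lemma prod_le (hE : S_Eul) (h : HT Q m θ lo P X Y B l S φ) {J : ℕ} (hlo : (4 * J + 1) ^ 2 ≤ lo)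
    (hJ : l.length ≤ J) {g : O} (g0 : g ≠ 0) :
    ∏ i ∈ l.toFinset, (‖F1 (S i) φ m‖ + ee (S i) φ θ g) ≤
      2 * 3 ^ #(pf Q g) * ∏ i ∈ l.toFinset, ∑ p ∈ S i, φ p := by
  have a0 : ∀ i, 0 ≤ ee (S i) φ θ g := fun i => sum_nonneg fun p _ =>
    mul_nonneg (h.pc.w0 p) (by split_ifs <;> positivity)
  refine (prod_le_prod (fun i _ => add_nonneg (norm_nonneg _) (a0 i))
    fun i hi => one_le h hlo hi g).trans ?_
  rw [prod_mul_distrib, prod_mul_distrib, prod_const, prod_pow_eq_pow_sum, mul_assoc, mul_comm]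
  refine mul_le_mul_of_nonneg_right (mul_le_mul ?_ (pow_le_pow_right₀ (by norm_num) ?_)
    (by positivity) (by norm_num)) (prod_nonneg fun i _ => f_nonneg h i)
  · have j0 : (0 : ℝ) < 4 * J + 1 := by positivity
    have b1 : 1 + 2 / (4 * (J : ℝ) + 1) ≤ Real.exp (2 / (4 * J + 1)) := by
      linarith [Real.add_one_le_exp (2 / (4 * (J : ℝ) + 1))]
    have b2 : (#l.toFinset : ℝ) ≤ J := by exact_mod_cast (List.toFinset_card_le l).trans hJ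
    refine (pow_le_pow_left₀ (by positivity) b1 _).trans ?_
    rw [← Real.exp_nat_mul]
    refine (Real.le_log_iff_exp_le two_pos).1
      (le_trans ?_ (by linarith [Real.log_two_gt_d9] : 1 / 2 ≤ Real.log 2))
    rw [← mul_div_assoc, div_le_iff₀ j0]
    linarith
  · rw [← card_biUnion fun i hi j hj e =>
      (h.pc.dj i hi j hj e).mono (filter_subset _ _) (filter_subset _ _)]
    refine card_le_card fun p hp => ?_
    obtain ⟨i, hi, hp⟩ := mem_biUnion.1 hp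
    obtain ⟨b1, b2, b3, -⟩ := h.pc.pr i hi p (mem_filter.1 hp).1
    exact (hE.1 Q g p h.q g0).2 ⟨b1, b2, (mem_filter.1 hp).2, b1.coprime_iff_not_dvd.1 b3⟩

lemma ug_le (hE : S_Eul) (hC : S_Cp) (hU : S_U) (h : HT Q m θ lo P X Y B l S φ) {J : ℕ}
    (hlo : (4 * J + 1) ^ 2 ≤ lo) (hJ : l.length ≤ J) {g : O} (hg : Primary g) :
    ‖Ug (uX Q S φ l X) g m‖ ≤ 2 * B * Ep Q 2 θ m * X ^ θ * (∏ i ∈ l.toFinset, ∑ p ∈ S i, φ p) *
      (6 ^ #(pf Q g) * (N g : ℝ) ^ (-θ)) := by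
  have g0 := hg.ne_zero
  have t0 : 1 / 2 ≤ θ := by linarith [h.t0]
  have b0 := B_nonneg h
  have x0 := h.x0
  have n1 := one_le_N g0
  have e1 := (hE.2.1 Q m g 2 θ h.tv.1 g0 zero_le_two).1
  have a1 : ∀ X' : ℝ, 0 < X' → X' ≤ X →
      ‖A (cop Q) g m X' 0‖ ≤ B * (2 ^ #(pf Q g) * Ep Q 2 θ m) * X' ^ θ := fun X' h1 h2 => by
    have c1 := hC Q (cop Q) (g * m) 1 B θ X 0 h.q (isNu_cop Q) (mul_ne_zero g0 h.tv.1) t0 h.t1
      h.rc X' h1 h2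
    have c2 := norm_le_insert' (A (cop Q) (g * m) 1 X' 0) (A (cop Q) 1 1 X' 0)
    have c3 := h.rc X' h1 h2
    have c4 := mul_le_mul_of_nonneg_left ((hE.2.1 Q g m 2 θ g0 h.tv.1 zero_le_two).2.trans
      (mul_le_mul_of_nonneg_right (hE.2.2.1 Q g θ h.q g0 t0).1 (by linarith)))
      (by positivity : 0 ≤ B * X' ^ θ)
    rw [h.tv.A_eq]
    linarith
  have a2 := hU Q g m lo P _ θ X l S φ h.q hg h.nd h.pc t0 h.t1 x0 a1
  have a3 : ‖(∏ i ∈ l.toFinset, -F1 (S i) φ m) * (cop Q g * A (cop Q) g m (X / N g) 0)‖ ≤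
      (∏ i ∈ l.toFinset, ‖F1 (S i) φ m‖) * (B * (2 ^ #(pf Q g) * Ep Q 2 θ m) * (X / N g) ^ θ) := by
    rw [norm_mul, norm_prod, norm_mul]
    simp only [norm_neg]
    exact mul_le_mul_of_nonneg_left ((mul_le_of_le_one_left (norm_nonneg _)
      ((isNu_cop Q).le g)).trans (a1 _ (by positivity) (div_le_self x0.le n1))) (by positivity)
  have a4 := norm_le_insert' (Ug (uX Q S φ l X) g m)
    ((∏ i ∈ l.toFinset, -F1 (S i) φ m) * (cop Q g * A (cop Q) g m (X / N g) 0))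
  have a5 := mul_le_mul_of_nonneg_left (prod_le hE h hlo hJ g0)
    (by positivity : 0 ≤ B * (2 ^ #(pf Q g) * Ep Q 2 θ m) * (X / N g) ^ θ)
  refine le_trans (by linarith) (a5.trans (le_of_eq ?_))
  rw [Real.div_rpow x0.le (by positivity), Real.rpow_neg (by positivity),
    show (6 : ℝ) = 2 * 3 by norm_num, mul_pow]
  ring

lemma lg_le (hS : S_Sf) (h : HT Q m θ lo P X Y B l S φ) {g : O} (g0 : g ≠ 0) :
    ‖Lg (vY (cop Q) Y) g m‖ ≤ 2 * L0 Q Y * (N g : ℝ) ^ (-(1 / 2) : ℝ) := by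
  rw [hS.1 Q (cop Q) g m Y (isNu_cop Q) g0 h.y0, norm_mul]
  exact (mul_le_of_le_one_left (norm_nonneg _) ((isNu_cop Q).le g)).trans
    ((norm_Ls_le Q g m (div_pos h.y0 (N_pos_real g0))).trans (h.rat _ (one_le_N g0)))

/-- states that can contribute -/
def Ok (Q m : O) (σ : O × O × O × O) : Prop :=
  Val σ ∧ σ.1 ∣ m ∧ IsCoprime σ.1 Q ∧ IsCoprime σ.2.2.2 Q

lemma ok_of (hO : S_Om) {v : O → ℂ} {σ : O × O × O × O} (h : TS (uX Q S φ l X) v m σ ≠ 0) :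
    Ok Q m σ := by
  have h1 : Val σ := by
    by_contra e
    exact h (if_neg e)
  rw [TS, if_pos h1] at h
  have h2 : IsCoprime (σ.1 ^ 3 * σ.2.1 * σ.2.2.2) Q := by
    by_contra e
    refine h (mul_eq_zero_of_right _ (mul_eq_zero_of_left ?_ _))
    refine (tsum_congr fun c => ?_).trans tsum_zero
    rw [uX, cop_of_not fun f => e f.of_mul_left_left]
    simp
  refine ⟨h1, ((hO.2 _ _ _ m h1.1 h1.2.1 h1.2.2.1 h1.2.2.2.1).2 fun e => h ?_).1,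
    h2.of_isCoprime_of_dvd_left (((dvd_pow_self _ three_ne_zero).mul_right _).mul_right _),
    h2.of_mul_left_right⟩
  rw [e, zero_mul, zero_mul, zero_mul]

/-- the weight of the cube part -/
noncomputable def xx (Q E : O) : ℝ := 6 ^ #(pf Q E) * (N E : ℝ) ^ (-(1 / 2) : ℝ)

/-- the weight of the common part -/
noncomputable def yy (Q m e : O) : ℝ := ‖jj e m‖ * (6 ^ #(pf Q e) * (N e : ℝ) ^ (-(4 / 3) : ℝ))

lemma term_le (hO : S_Om) (hE : S_Eul) (hC : S_Cp) (hU : S_U) (hS : S_Sf)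
    (h : HT Q m θ lo P X Y B l S φ) {J : ℕ} (hlo : (4 * J + 1) ^ 2 ≤ lo) (hJ : l.length ≤ J)
    {σ : O × O × O × O} (hσ : Val σ) : ‖TS (uX Q S φ l X) (vY (cop Q) Y) m σ‖ ≤
      4 * B * X ^ θ * ((∏ i ∈ l.toFinset, ∑ p ∈ S i, φ p) * L0 Q Y) * Ep Q 2 θ m *
        (xx Q σ.1 * yy Q m σ.2.2.2) := by
  obtain ⟨E, a, b, e⟩ := σ
  obtain ⟨v1, v2, v3, v4, v5, -⟩ := id hσ
  simp only at v1 v2 v3 v4 v5
  have r0 := (sq_rd v1).ne_zero
  obtain ⟨a1, a2⟩ := (mem_pdiv r0).1 v3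
  have b1 := ((mem_pdiv r0).1 v4).1
  have hg : Primary (E ^ 3 * a * e) := ((v1.pow 3).mul a1).mul v5.1
  have c1 := (hO.2 E a b m v1 v2 v3 v4).1
  have c2 := ug_le hE hC hU h hlo hJ hg
  have c3 := lg_le hS h (mul_ne_zero b1.ne_zero v5.ne_zero)
  have c4 : #(pf Q (E ^ 3 * a * e)) ≤ #(pf Q E) + #(pf Q e) := by
    refine (card_le_card fun p hp => ?_).trans (card_union_le _ _)
    obtain ⟨p1, p2, p3, p4⟩ := (hE.1 Q _ p h.q hg.ne_zero).1 hp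
    rw [mem_union, hE.1 Q _ p h.q v1.ne_zero, hE.1 Q _ p h.q v5.ne_zero]
    rcases p1.dvd_or_dvd p3 with d | d
    · exact Or.inl ⟨p1, p2, (p1.dvd_or_dvd d).elim p1.dvd_of_dvd_pow
        fun d => d.trans (a2.trans (rd_dvd E)), p4⟩
    · exact Or.inr ⟨p1, p2, d, p4⟩
  have c5 : (6 : ℝ) ^ #(pf Q (E ^ 3 * a * e)) ≤ 6 ^ #(pf Q E) * 6 ^ #(pf Q e) := by
    rw [← pow_add]
    exact pow_le_pow_right₀ (by norm_num) c4
  have c6 := pw (one_le_N v1.ne_zero) (one_le_N a1.ne_zero) (one_le_N b1.ne_zero)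
    (one_le_N v5.ne_zero) h.t0
  have c7 := norm_mu_le b
  have b0 := B_nonneg h
  have x0 := h.x0
  have e1 : 0 ≤ Ep Q 2 θ m := zero_le_one.trans (hE.2.1 Q m m 2 θ h.tv.1 h.tv.1 zero_le_two).1
  have f0 : 0 ≤ ∏ i ∈ l.toFinset, ∑ p ∈ S i, φ p := prod_nonneg fun i _ => f_nonneg h i
  have l0 : 0 ≤ L0 Q Y := (norm_nonneg _).trans (norm_Ls_le Q 1 1 h.y0)
  simp only [map_mul, map_pow, Nat.cast_mul, Nat.cast_pow, ab_eq] at c1 c2 c3
  rw [TS, if_pos hσ]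
  simp only [norm_mul, Complex.norm_conj, xx, yy]
  generalize (∏ i ∈ l.toFinset, ∑ p ∈ S i, φ p) = f at *
  calc _ ≤ (N E : ℝ) ^ 2 * (√(N a) * √(N b)) * 1 * ‖jj e m‖ *
        (2 * B * Ep Q 2 θ m * X ^ θ * f * (6 ^ #(pf Q E) * 6 ^ #(pf Q e) *
          ((N E : ℝ) ^ 3 * N a * N e) ^ (-θ)) *
        (2 * L0 Q Y * ((N b : ℝ) * N e) ^ (-(1 / 2) : ℝ))) := by
        gcongr
        exact c2.trans (by gcongr)
    _ = 4 * B * X ^ θ * (f * L0 Q Y) * Ep Q 2 θ m * ‖jj e m‖ * (6 ^ #(pf Q E) * 6 ^ #(pf Q e)) *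
        ((N E : ℝ) ^ 2 * (√(N a) * √(N b)) * ((N E : ℝ) ^ 3 * N a * N e) ^ (-θ) *
          ((N b : ℝ) * N e) ^ (-(1 / 2) : ℝ)) := by ring
    _ ≤ _ := (mul_le_mul_of_nonneg_left c6 (by positivity)).trans (le_of_eq (by ring))

lemma sum_le (T : Finset (O × O × O × O)) (hT : ∀ σ ∈ T, Val σ) (x y : O → ℝ) (hx : ∀ E, 0 ≤ x E)
    (hy : ∀ e, 0 ≤ y e) : ∑ σ ∈ T, x σ.1 * y σ.2.2.2 ≤
      (∑ E ∈ T.image fun σ => σ.1, dv (rd E) ^ 2 * x E) * ∑ e ∈ T.image fun σ => σ.2.2.2, y e := by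
  rw [← sum_fiberwise_of_maps_to (g := fun σ : O × O × O × O => σ.1)
    (t := T.image fun σ => σ.1) fun σ h => mem_image_of_mem _ h, sum_mul]
  refine sum_le_sum fun E _ => ?_
  have h : T.filter (fun σ => σ.1 = E) ⊆
      {E} ×ˢ pdiv (rd E) ×ˢ pdiv (rd E) ×ˢ T.image fun σ => σ.2.2.2 := fun σ hσ => by
    obtain ⟨a, rfl⟩ := mem_filter.1 hσ
    exact mem_product.2 ⟨mem_singleton_self _, mem_product.2 ⟨(hT σ a).2.2.1,
      mem_product.2 ⟨(hT σ a).2.2.2.1, mem_image_of_mem _ a⟩⟩⟩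
  refine (sum_le_sum_of_subset_of_nonneg h fun σ _ _ => mul_nonneg (hx _) (hy _)).trans
    (le_of_eq ?_)
  simp only [sum_product, sum_singleton, sum_const, nsmul_eq_mul, ← mul_sum, dv]
  ring

end E1P

open E1P in
theorem pE1 (hO : S_Om) (hE : S_Eul) (h7 : S_Eu7) (hC : S_Cp) (hU : S_U) (hS : S_Sf) : S_E1 := by
  intro η J hη
  obtain ⟨C1, H1⟩ := h7 η hη
  obtain ⟨C2, H2⟩ := hE.2.2.2.2.2 24 (1 / 10) (by norm_num) (by norm_num)
  obtain ⟨C3, H3⟩ := hE.2.2.2.2.2 6 (1 / 30) (by norm_num) (by norm_num)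
  refine ⟨max (max C1 C2) (max C3 (26 ^ 10)), (4 * J + 1) ^ 2,
    fun Q m θ lo P X Y B W₀ l S φ T h hB hlo hJ hW hT => ?_⟩
  have mono : ∀ C, C ≤ max (max C1 C2) (max C3 (26 ^ 10)) → Big Q C := fun C hC p hp e =>
    hB p hp (e.trans hC)
  have B1 := mono C1 (by simp)
  have B2 := mono C2 (by simp)
  have B3 := mono C3 (by simp)
  have B4 := mono (26 ^ 10) (le_max_of_le_right (le_max_right _ _))
  have m0 := h.tv.1
  have pf1 : pf Q 1 = ∅ := eq_empty_of_forall_notMem fun p hp => by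
    obtain ⟨a, -, b, -⟩ := (hE.1 Q 1 p h.q one_ne_zero).1 hp
    exact a.not_dvd_one b
  have ok1 : Ok Q m (1, 1, 1, 1) := ⟨val_one, one_dvd _, isCoprime_one_left, isCoprime_one_left⟩
  have hT' : ∀ σ ∈ insert (1, 1, 1, 1) (T.filter (Ok Q m)), Ok Q m σ := fun σ hσ =>
    (mem_insert.1 hσ).elim (fun e => e ▸ ok1) fun e => (mem_filter.1 e).2
  have x0 : ∀ E, 0 ≤ xx Q E := fun E => by unfold xx; positivity
  have y0 : ∀ e, 0 ≤ yy Q m e := fun e => by unfold yy; positivity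
  have a1 := sum_le _ (fun σ hσ => (hT' σ hσ).1) (xx Q) (yy Q m) x0 y0
  have a2 : ∑ E ∈ (insert (1, 1, 1, 1) (T.filter (Ok Q m))).image fun σ => σ.1,
      dv (rd E) ^ 2 * xx Q E ≤ Ep Q 2 (2 / 5) m := by
    refine le_trans (sum_le_sum fun E hE' => ?_) (hE.2.2.2.2.1 Q m (2 / 5) _ h.q m0
      (fun p hp => ?_) fun E hE' => ?_)
    · obtain ⟨σ, hσ, rfl⟩ := mem_image.1 hE'
      obtain ⟨v, -, c, -⟩ := hT' σ hσ
      have n0 := N_pos_real v.1.ne_zero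
      rw [hE.2.2.2.1 Q _ h.q v.1 c, xx, ← mul_assoc, ← pow_mul, mul_comm _ 2, pow_mul, ← mul_pow,
        show (-(2 / 5) : ℝ) = 1 / 10 + -(1 / 2) by norm_num, Real.rpow_add n0]
      refine mul_le_mul_of_nonneg_right ?_ (by positivity)
      simpa only [show (2 : ℝ) ^ 2 * 6 = 24 by norm_num] using H2 Q _ B2 v.1.ne_zero
    · have c : (2 : ℝ) ^ 5 ≤ N p := le_trans (by norm_num) (big_lt hE h.q B4 m0 hp).le
      refine (Real.rpow_le_rpow_of_nonpos (by norm_num) c (by norm_num)).trans ?_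
      rw [← Real.rpow_natCast, ← Real.rpow_mul (by norm_num)]
      norm_num
    · obtain ⟨σ, hσ, rfl⟩ := mem_image.1 hE'
      obtain ⟨v, d, c, -⟩ := hT' σ hσ
      exact ⟨v.1, c, d⟩
  have a3 : ∑ e ∈ (insert (1, 1, 1, 1) (T.filter (Ok Q m))).image fun σ => σ.2.2.2,
      yy Q m e ≤ (1 + η) * Ep Q 2 (3 / 10) m := by
    refine le_trans (sum_le_sum fun e he => ?_) (H1 Q m _ h.q B1 m0 fun e he => ?_)
    · obtain ⟨σ, hσ, rfl⟩ := mem_image.1 he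
      have v := (hT' σ hσ).1.2.2.2.2.1.ne_zero
      rw [yy, show (-(13 / 10) : ℝ) = 1 / 30 + -(4 / 3) by norm_num, Real.rpow_add (N_pos_real v)]
      gcongr
      exact H3 Q _ B3 v
    · obtain ⟨σ, hσ, rfl⟩ := mem_image.1 he
      exact ⟨(hT' σ hσ).1.2.2.2.2.1, (hT' σ hσ).2.2.2⟩
  have a4 : xx Q 1 * yy Q m 1 = 1 := by simp [xx, yy, pf1, jj, pdiv_one]
  rw [sum_insert fun e => hT (mem_filter.1 e).1, a4] at a1
  have e1 := (hE.2.1 Q m m 2 θ m0 m0 zero_le_two).1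
  have e2 := (hE.2.1 Q m m 2 (2 / 5) m0 m0 zero_le_two).1
  have a5 := a1.trans (mul_le_mul a2 a3 (sum_nonneg fun e _ => y0 e) (by linarith))
  have a6 := mul_le_mul_of_nonneg_left (euler hE h.q B4 m0 h.t0) (by linarith : 0 ≤ 1 + η)
  have a7 := mul_le_mul_of_nonneg_left a5 (by linarith : 0 ≤ Ep Q 2 θ m)
  have a8 : Ep Q 2 θ m * ∑ σ ∈ T.filter (Ok Q m), xx Q σ.1 * yy Q m σ.2.2.2 ≤
      η + (1 + η) * (Ep Q 1 (1 / 5) m - 1) := by linarith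
  have b0 := B_nonneg h
  have x1 := h.x0
  have w0 : 0 ≤ W₀ := hW ▸ mul_nonneg (prod_nonneg fun i _ => f_nonneg h i)
    ((norm_nonneg _).trans (norm_Ls_le Q 1 1 h.y0))
  rw [← sum_filter_of_ne (p := Ok Q m) fun σ _ e => ok_of hO (norm_ne_zero_iff.1 e)]
  refine (sum_le_sum fun σ hσ => term_le hO hE hC hU hS h hlo hJ (mem_filter.1 hσ).2.1).trans ?_
  rw [← mul_sum, ← hW, mul_assoc]
  refine (mul_le_mul_of_nonneg_left a8 (by positivity)).trans (le_of_eq ?_)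
  ring

end Pool.Agent.P.MP_323ce2_nt.QM
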