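import Pool.Agent.P.MP_323ce2_nt.QM.St

/-! The bound for one row of the first moment. -/

namespace Pool.Agent.P.MP_323ce2_nt.QM

open Finset Pool.Agent.P.MP_26a8c3_nt Pool.Agent.P.MP_26a8c3_nt.QO Pool.Agent.P.MP_26a8c3_nt.QA
open Pool.Agent.P.MP_323ce2_nt.QF Pool.Agent.P.MP_323ce2_nt.QX
open scoped Classical ComplexConjugate

namespace Em

variable {Q g r m : O}

lemma one_add_sum (s : Finset O) {y : O → ℝ} (hy : ∀ p, 0 ≤ y p) :
    1 + ∑ p ∈ s, y p ≤ ∏ p ∈ s, (1 + y p) := by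
  induction s using Finset.induction_on with
  | empty => simp
  | insert a s ha ih =>
    rw [sum_insert ha, prod_insert ha]
    nlinarith [hy a, sum_nonneg fun p (_ : p ∈ s) => hy p]

lemma Ep_mono (hE : S_Eul) (hQ : 36 ∣ Q) (hg : g ≠ 0) (hr : r ≠ 0)
    (h : ∀ p, Prime p → p ∣ g → p ∣ r) (s : ℝ) : Ep Q 2 s g ≤ Ep Q 2 s r :=
  prod_le_prod_of_subset_of_one_le (fun p hp => by
    obtain ⟨h1, h2, h3, h4⟩ := (hE.1 Q g p hQ hg).1 hp
    exact (hE.1 Q r p hQ hr).2 ⟨h1, h2, h p h1 h3, h4⟩) (fun p _ => by positivity)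
    fun p _ _ => le_add_of_nonneg_right (by positivity)

lemma Ep_neg (hE : S_Eul) (hQ : 36 ∣ Q) (hr : r ≠ 0) {γ : ℝ} (hγ : 0 ≤ γ) :
    Ep Q 2 (-γ) r ≤ dv r ^ 2 * (N r : ℝ) ^ γ := by
  have h1 : ∏ p ∈ pf Q r, (N p : ℝ) ≤ N r := by
    have := N_le_of_dvd ((prod_dvd_prod_of_subset (pf Q r) _ id (filter_subset _ _)).trans
      (rd_dvd r)) hr
    rw [map_prod] at this
    exact_mod_cast this
  calc Ep Q 2 (-γ) r ≤ ∏ p ∈ pf Q r, 2 ^ 2 * (N p : ℝ) ^ γ := by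
        refine prod_le_prod (fun p _ => by positivity) fun p hp => ?_
        have := Real.one_le_rpow (one_le_N ((hE.1 Q r p hQ hr).1 hp).1.ne_zero) hγ
        rw [neg_neg]; linarith
    _ = (2 ^ #(pf Q r)) ^ 2 * (∏ p ∈ pf Q r, (N p : ℝ)) ^ γ := by
        rw [prod_mul_distrib, Real.finsetProd_rpow _ _ fun p _ => by positivity, prod_const,
          pow_right_comm]
    _ ≤ _ := by gcongr; exact (hE.2.2.1 Q r 1 hQ hr (by norm_num)).2

lemma prod_ee (hE : S_Eul) : ∃ C : ℝ, 1 ≤ C ∧ ∀ (Q g m : O) (lo P β : ℝ) (I : Finset ℕ)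
    (S : ℕ → Finset O) (φ : O → ℝ), 36 ∣ Q → g ≠ 0 → 1 ≤ P → Pc Q lo P I S φ → 1 / 2 ≤ β →
    ∏ i ∈ I, (‖F1 (S i) φ m‖ + ee (S i) φ β g) ≤
      C ^ #I * (∏ i ∈ I, (‖F1 (S i) φ m‖ + √P)) * Ep Q 2 (-(β - 1 / 2)) g := by
  obtain ⟨C, hC, h⟩ := sum_rpow_le_sharp (s := 1 / 2) (by norm_num) (by norm_num)
  refine ⟨1 + 2 * C, by linarith, fun Q g m lo P β I S φ hQ hg hP hc hβ => ?_⟩
  set y : O → ℝ := fun p => 2 * (N p : ℝ) ^ (-(-(β - 1 / 2))) with hy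
  have y0 : ∀ p, 0 ≤ y p := fun p => by positivity
  have hs := Real.sqrt_nonneg P
  have e0 : ∀ i, 0 ≤ ee (S i) φ β g := fun i => sum_nonneg fun p _ =>
    mul_nonneg (hc.w0 p) (by split_ifs <;> positivity)
  have e1 : ∀ i ∈ I, ee (S i) φ β g ≤ 2 * C * √P + √P * ∑ p ∈ (S i).filter (· ∣ g), y p := by
    intro i hi
    have h1 := h P (S i) (by linarith) fun p hp =>
      ⟨(hc.pr i hi p hp).1.ne_zero, (hc.pr i hi p hp).2.2.2.2⟩
    rw [show (1 : ℝ) - 1 / 2 = 1 / 2 by norm_num, ← Real.sqrt_eq_rpow] at h1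
    have h2 : ee (S i) φ β g ≤ ∑ p ∈ S i, (2 * (N p : ℝ) ^ (-(1 / 2 : ℝ)) +
        √P * if p ∣ g then y p else 0) := by
      refine sum_le_sum fun p hp => (mul_le_of_le_one_left (by split_ifs <;> positivity)
        (hc.w1 p)).trans ?_
      obtain ⟨h3, -, -, -, h4⟩ := hc.pr i hi p hp
      have h5 := one_le_N h3.ne_zero
      split_ifs
      · have h6 : (N p : ℝ) ^ β ≤ √P * (N p : ℝ) ^ (β - 1 / 2) := by
          rw [show β = 1 / 2 + (β - 1 / 2) by ring, Real.rpow_add (by linarith),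
            ← Real.sqrt_eq_rpow, add_sub_cancel_left]
          gcongr
        have h7 := Real.one_le_rpow h5 (by linarith : 0 ≤ β)
        have h8 : 0 ≤ (N p : ℝ) ^ (-(1 / 2 : ℝ)) := by positivity
        simp only [hy, neg_neg]
        linarith
      · have := Real.rpow_le_rpow_of_exponent_le h5 (neg_le_neg hβ)
        linarith
    rw [sum_add_distrib, ← mul_sum, ← mul_sum, ← sum_filter] at h2
    linarith
  calc _ ≤ ∏ i ∈ I, (1 + 2 * C) * (‖F1 (S i) φ m‖ + √P) * ∏ p ∈ (S i).filter (· ∣ g), (1 + y p) := by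
        refine prod_le_prod (fun i _ => add_nonneg (norm_nonneg _) (e0 i)) fun i hi => ?_
        refine le_trans ?_ (mul_le_mul_of_nonneg_left (one_add_sum _ y0) (by positivity))
        have h1 := e1 i hi
        have h2 := sum_nonneg fun p (_ : p ∈ (S i).filter (· ∣ g)) => y0 p
        have h3 := norm_nonneg (F1 (S i) φ m)
        nlinarith [mul_nonneg h2 h3, mul_nonneg hC.le h3, mul_nonneg hC.le (mul_nonneg h2 h3),
          mul_nonneg hC.le (mul_nonneg h2 hs)]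
    _ = (1 + 2 * C) ^ #I * (∏ i ∈ I, (‖F1 (S i) φ m‖ + √P)) *
          ∏ p ∈ I.biUnion fun i => (S i).filter (· ∣ g), (1 + y p) := by
        rw [prod_mul_distrib, prod_mul_distrib, prod_const, prod_biUnion fun i hi j hj hij =>
          (hc.dj i hi j hj hij).mono (filter_subset _ _) (filter_subset _ _)]
    _ ≤ _ := by
        refine mul_le_mul_of_nonneg_left (prod_le_prod_of_subset_of_one_le (fun p hp => ?_)
          (fun p _ => by positivity) fun p _ _ => le_add_of_nonneg_right (y0 p)) (by positivity)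
        obtain ⟨i, hi, hp⟩ := mem_biUnion.1 hp
        obtain ⟨h1, h2, h3, -⟩ := hc.pr i hi p (mem_filter.1 hp).1
        exact (hE.1 Q g p hQ hg).2 ⟨h1, h2, (mem_filter.1 hp).2, h1.coprime_iff_not_dvd.1 h3⟩

/-- the Moebius side -/
lemma norm_Ug (hE : S_Eul) (hC : S_Cp) (hU : S_U) : ∃ C : ℝ, 1 ≤ C ∧ ∀ (Q g r m : O)
    (lo P a β X : ℝ) (l : List ℕ) (S : ℕ → Finset O) (φ : O → ℝ), 36 ∣ Q → Primary g → r ≠ 0 →
    (∀ p, Prime p → p ∣ g → p ∣ r) → 1 ≤ P → 0 < X → l.Nodup → Pc Q lo P l.toFinset S φ →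
    1 / 2 ≤ β → β ≤ 1 → (∀ X' : ℝ, 0 < X' → X' ≤ X → ‖A (cop Q) 1 m X' 0‖ ≤ a * X' ^ β) →
    ‖Ug (uX Q S φ l X) g m‖ ≤ C ^ l.length * dv r ^ 3 * (∏ i ∈ l.toFinset, (‖F1 (S i) φ m‖ + √P)) *
      (a * X ^ β) * ((N r : ℝ) ^ (β - 1 / 2) / (N g : ℝ) ^ β) := by
  obtain ⟨C, hC1, h⟩ := prod_ee hE
  refine ⟨C, hC1, fun Q g r m lo P a β X l S φ hQ hg hr hp hP hX hl hc b1 b2 ha => ?_⟩
  have hg0 := hg.ne_zero
  have hN := one_le_N hg0
  have a0 : 0 ≤ a := nonneg_of_mul_nonneg_left ((norm_nonneg _).trans (ha X hX le_rfl))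
    (Real.rpow_pos_of_pos hX β)
  have h1 : ∀ X' : ℝ, 0 < X' → X' ≤ X → ‖A (cop Q) g m X' 0‖ ≤ a * dv r * X' ^ β := by
    intro X' h1 h2
    have h3 := hC Q (cop Q) g m a β X 0 hQ (isNu_cop Q) hg0 b1 b2 ha X' h1 h2
    have h4 : Ep Q 2 β g ≤ dv r := (Ep_mono hE hQ hg0 hr hp β).trans
      ((hE.2.2.1 Q r β hQ hr b1).1.trans (hE.2.2.1 Q r β hQ hr b1).2)
    have h5 := mul_le_mul_of_nonneg_left h4 (by positivity : 0 ≤ a * X' ^ β)
    linarith [norm_le_norm_add_norm_sub' (A (cop Q) g m X' 0) (A (cop Q) 1 m X' 0), ha X' h1 h2]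
  have h2 := hU Q g m lo P (a * dv r) β X l S φ hQ hg hl hc b1 b2 hX h1
  have h3 : ‖(∏ i ∈ l.toFinset, -F1 (S i) φ m) * (cop Q g * A (cop Q) g m (X / N g) 0)‖ ≤
      (∏ i ∈ l.toFinset, ‖F1 (S i) φ m‖) * (a * dv r * (X / N g) ^ β) := by
    rw [norm_mul, norm_mul, norm_prod]
    simp only [norm_neg]
    exact mul_le_mul_of_nonneg_left ((mul_le_of_le_one_left (norm_nonneg _)
      ((isNu_cop Q).le g)).trans (h1 _ (by positivity) (div_le_self hX.le hN))) (by positivity)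
  have h4 := (h Q g m lo P β _ S φ hQ hg0 hP hc b1).trans (mul_le_mul_of_nonneg_left
    ((Ep_mono hE hQ hg0 hr hp _).trans (Ep_neg hE hQ hr (sub_nonneg.2 b1))) (by positivity))
  have d0 := dv_nonneg r
  have h5 := mul_le_mul_of_nonneg_left h4 (by positivity : 0 ≤ a * dv r * (X / N g) ^ β)
  have h6 := norm_le_norm_add_norm_sub' (Ug (uX Q S φ l X) g m)
    ((∏ i ∈ l.toFinset, -F1 (S i) φ m) * (cop Q g * A (cop Q) g m (X / N g) 0))
  refine le_trans (by linarith) (h5.trans_eq ?_)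
  rw [List.toFinset_card_of_nodup hl, Real.div_rpow hX.le (by linarith)]
  ring

/-- the arithmetic of the exponents -/
lemma expo {k E a b e R β δ : ℝ} (hk : 1 ≤ k) (hE : 1 ≤ E) (ha : 1 ≤ a) (hb : 1 ≤ b) (he : 1 ≤ e)
    (hR : 1 ≤ R) (hβ : 1 / 2 ≤ β) (hδ : 0 ≤ δ) (h : k ^ 5 * R ≤ a * E ^ 3) :
    k * (√E ^ 3 * (√a * √b)) * ((R * e) ^ (β - 1 / 2) / (E ^ 3 * a * e) ^ β) /
      (b * e) ^ ((1 + δ) / 2) ≤ k ^ (7 / 2 - 5 * β) * e ^ (-(1 + δ / 2)) := by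
  have h1 := Real.log_le_log (by positivity) h
  rw [Real.log_mul (by positivity) (by positivity), Real.log_mul (by positivity) (by positivity),
    Real.log_pow, Real.log_pow] at h1
  rw [← Real.log_le_log_iff (by positivity) (by positivity)]
  simp (disch := positivity) only [Real.log_mul, Real.log_div, Real.log_rpow, Real.log_pow,
    Real.log_sqrt]
  push_cast at h1 ⊢
  nlinarith [mul_nonneg (sub_nonneg.2 hβ) (sub_nonneg.2 h1), mul_nonneg hδ (Real.log_nonneg hb)]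

end Em

open Em in
theorem pEm (hO : S_Om) (hE : S_Eul) (hC : S_Cp) (hU : S_U) (hS : S_Sf) (hL : S_Lam) : S_Em := by
  intro ε δ J hε hδ
  obtain ⟨C₁, hC₁, h1⟩ := norm_Ug hE hC hU
  obtain ⟨C₂, hC₂, h2⟩ := hS.2.2.2 δ hδ
  obtain ⟨C₃, hC₃, h3⟩ := hL.2.2 (ε / 2) (δ / 2) (by positivity) (by positivity)
  obtain ⟨C₄, hC₄, h4⟩ := dv_le (ε := ε / 14) (by positivity)
  refine ⟨C₁ ^ J * C₂ * C₃ * C₄ ^ 7, by positivity,
    fun Q m lo P X Y l S φ a β lam hQ hm hP hX hY hl hJ hc h => ?_⟩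
  set Pf := ∏ i ∈ l.toFinset, (‖F1 (S i) φ m‖ + √P) with hPf
  set Sg := ∑ k ∈ (pdiv m).filter (fun k => k ^ 6 ∣ m),
    (N k : ℝ) ^ (7 / 2 - 5 * β k) * (a k * X ^ β k * lam k) with hSg
  have P0 : 0 ≤ Pf := prod_nonneg fun i _ => by positivity
  have pos : ∀ k, Primary k → k ^ 6 ∣ m → 0 ≤ a k * X ^ β k ∧ 0 ≤ lam k := fun k k1 k2 =>
    ⟨(norm_nonneg _).trans ((h k k1 k2).2.2.1 X hX le_rfl), nonneg_of_mul_nonneg_left
      ((norm_nonneg _).trans ((h k k1 k2).2.2.2 Y hY le_rfl)) (by positivity)⟩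
  have pos' : ∀ k ∈ (pdiv m).filter (fun k => k ^ 6 ∣ m),
      0 ≤ (N k : ℝ) ^ (7 / 2 - 5 * β k) * (a k * X ^ β k * lam k) := fun k hk => by
    obtain ⟨p1, p2⟩ := pos k ((mem_pdiv hm).1 (mem_filter.1 hk).1).1 (mem_filter.1 hk).2
    positivity
  have S0 : 0 ≤ Sg := sum_nonneg pos'
  have d0 := dv_nonneg m
  set K := C₁ ^ J * C₂ * dv m ^ 4 * Y ^ ((1 + δ) / 2) * Pf * Sg with hK
  set w : O → ℝ := fun e => ‖jj e m‖ * dv e ^ 4 * (N e : ℝ) ^ (-(1 + δ / 2)) with hw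
  have w0 : ∀ e, 0 ≤ K * w e := fun e => by positivity
  have key : ∀ σ, TS (uX Q S φ l X) (vY (cop Q) Y) m σ ≠ 0 → σ.1 ∈ pdiv m ∧ σ.2.1 ∈ pdiv m ∧
      σ.2.2.1 ∈ pdiv m ∧ SQ σ.2.2.2 ∧ ‖TS (uX Q S φ l X) (vY (cop Q) Y) m σ‖ ≤ K * w σ.2.2.2 := by
    rintro ⟨E, a', b, e⟩ hσ
    rw [TS] at hσ ⊢
    split_ifs at hσ ⊢ with hv
    swap
    · exact absurd rfl hσ
    obtain ⟨v1, v2, v3, v4, v5, -⟩ := hv
    dsimp only at hσ v1 v2 v3 v4 v5 ⊢
    obtain ⟨o1, k, k1, k2, k3, k4⟩ := (hO.2 E a' b m v1 v2 v3 v4).2 fun h0 => hσ (by simp [h0])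
    have r0 := (sq_rd v1).ne_zero
    have e0 := v5.ne_zero
    have hR := (rd_dvd E).trans o1
    obtain ⟨a1, a2⟩ := (mem_pdiv r0).1 v3
    obtain ⟨b1, b2⟩ := (mem_pdiv r0).1 v4
    refine ⟨(mem_pdiv hm).2 ⟨v1, o1⟩, (mem_pdiv hm).2 ⟨a1, a2.trans hR⟩,
      (mem_pdiv hm).2 ⟨b1, b2.trans hR⟩, v5, ?_⟩
    obtain ⟨β1, β2, hA, hL'⟩ := h k k1 k2
    obtain ⟨p1, p2⟩ := pos k k1 k2
    have de := dv_nonneg e
    have dd : ∀ x, x ≠ 0 → x ∣ m → dv (x * e) ≤ dv m * dv e := fun x x0 hx =>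
      (dv_mul_le x0 e0).trans (mul_le_mul_of_nonneg_right (dv_mono hx hm) de)
    have u1 := h1 Q (E ^ 3 * a' * e) (rd E * e) m lo P (a k) (β k) X l S φ hQ
      (((v1.pow 3).mul a1).mul v5.1) (mul_ne_zero r0 e0) (fun p hp hd => by
        rcases hp.dvd_or_dvd hd with hd | hd
        · rcases hp.dvd_or_dvd hd with hd | hd
          · exact ((dvd_rd v1.ne_zero hp).2 (hp.dvd_of_dvd_pow hd)).mul_right e
          · exact (hd.trans a2).mul_right e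
        · exact hd.mul_left _) hP hX hl hc β1 β2 hA
    have be := mul_ne_zero b1.ne_zero e0
    have Nbe := one_le_N be
    have u2 : ‖conj (Lg (vY (cop Q) Y) (b * e) m)‖ ≤
        C₂ * (dv m * dv e) * lam k * (Y ^ ((1 + δ) / 2) / (N (b * e) : ℝ) ^ ((1 + δ) / 2)) := by
      rw [Complex.norm_conj, hS.1 Q _ _ m Y (isNu_cop Q) be hY, norm_mul,
        ← Real.div_rpow hY.le (by linarith)]
      refine (mul_le_of_le_one_left (norm_nonneg _) ((isNu_cop Q).le _)).trans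
        ((h2 Q _ _ m _ 0 (lam k) (isNu_cop Q) be (by positivity) fun Y' y1 y2 =>
          hL' Y' y1 (y2.trans (div_le_self hY.le Nbe))).trans ?_)
      gcongr
      exact dd b b1.ne_zero (b2.trans hR)
    have u3 := expo (one_le_N k1.ne_zero) (one_le_N v1.ne_zero) (one_le_N a1.ne_zero)
      (one_le_N b1.ne_zero) (one_le_N e0) (one_le_N r0) β1 hδ.le k3
    have u4 : (N k : ℝ) ^ (7 / 2 - 5 * β k) * (a k * X ^ β k * lam k) ≤ Sg :=
      single_le_sum pos' (mem_filter.2 ⟨(mem_pdiv hm).2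
        ⟨k1, (dvd_pow_self k (by norm_num)).trans k2⟩, k2⟩)
    simp only [ab_eq] at k4
    simp only [map_mul, map_pow, Nat.cast_mul, Nat.cast_pow] at u1 u2
    rw [norm_mul, norm_mul, norm_mul, norm_mul]
    calc _ ≤ N k * (√(N E) ^ 3 * (√(N a') * √(N b))) * 1 * ‖jj e m‖ *
          (C₁ ^ J * (dv m * dv e) ^ 3 * Pf * (a k * X ^ β k) *
            (((N (rd E) : ℝ) * N e) ^ (β k - 1 / 2) / ((N E : ℝ) ^ 3 * N a' * N e) ^ β k) *
          (C₂ * (dv m * dv e) * lam k *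
            (Y ^ ((1 + δ) / 2) / ((N b : ℝ) * N e) ^ ((1 + δ) / 2)))) := by
          gcongr
          · exact norm_mu_le b
          · refine u1.trans ?_
            have := dv_nonneg (rd E * e)
            gcongr
            exact dd _ r0 hR
      _ = C₁ ^ J * C₂ * dv m ^ 4 * Y ^ ((1 + δ) / 2) * Pf * (‖jj e m‖ * dv e ^ 4) *
          (a k * X ^ β k * lam k) * (N k * (√(N E) ^ 3 * (√(N a') * √(N b))) *
            (((N (rd E) : ℝ) * N e) ^ (β k - 1 / 2) / ((N E : ℝ) ^ 3 * N a' * N e) ^ β k) /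
              ((N b : ℝ) * N e) ^ ((1 + δ) / 2)) := by ring
      _ ≤ C₁ ^ J * C₂ * dv m ^ 4 * Y ^ ((1 + δ) / 2) * Pf * (‖jj e m‖ * dv e ^ 4) *
          (a k * X ^ β k * lam k) * ((N k : ℝ) ^ (7 / 2 - 5 * β k) * (N e : ℝ) ^ (-(1 + δ / 2))) :=
          mul_le_mul_of_nonneg_left u3 (by positivity)
      _ = C₁ ^ J * C₂ * dv m ^ 4 * Y ^ ((1 + δ) / 2) * Pf *
          ((N k : ℝ) ^ (7 / 2 - 5 * β k) * (a k * X ^ β k * lam k)) * w e := by
          simp only [hw]; ring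
      _ ≤ _ := by rw [hK]; gcongr
  have part : ∀ T : Finset (O × O × O × O), ∑ σ ∈ T, ‖TS (uX Q S φ l X) (vY (cop Q) Y) m σ‖ ≤
      dv m ^ 3 * (K * (C₃ * (N m : ℝ) ^ (ε / 2))) := by
    intro T
    set T' := T.filter fun σ => TS (uX Q S φ l X) (vY (cop Q) Y) m σ ≠ 0 with hT'
    calc _ = ∑ σ ∈ T', ‖TS (uX Q S φ l X) (vY (cop Q) Y) m σ‖ :=
          (sum_filter_of_ne fun σ _ h0 => norm_ne_zero_iff.1 h0).symm
      _ ≤ ∑ σ ∈ T', K * w σ.2.2.2 := sum_le_sum fun σ hσ => (key σ (mem_filter.1 hσ).2).2.2.2.2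
      _ ≤ ∑ σ ∈ pdiv m ×ˢ pdiv m ×ˢ pdiv m ×ˢ T'.image (·.2.2.2), K * w σ.2.2.2 := by
          refine sum_le_sum_of_subset_of_nonneg (fun σ hσ => ?_) fun σ _ _ => w0 _
          obtain ⟨s1, s2, s3, -⟩ := key σ (mem_filter.1 hσ).2
          simp only [mem_product]
          exact ⟨s1, s2, s3, mem_image_of_mem _ hσ⟩
      _ = dv m ^ 3 * (K * ∑ e ∈ T'.image (·.2.2.2), w e) := by
          simp only [sum_product, sum_const, nsmul_eq_mul, ← mul_sum, dv]; ring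
      _ ≤ _ := by
          gcongr
          refine h3 m _ hm fun e he => ?_
          obtain ⟨σ, hσ, rfl⟩ := mem_image.1 he
          exact (key σ (mem_filter.1 hσ).2).2.2.2.1
  have hs := summable_of_sum_le (fun σ => norm_nonneg _) part
  refine ((norm_tsum_le_tsum_norm hs).trans (hs.tsum_le_of_sum_le part)).trans ?_
  have hN := N_pos_real hm
  have h7 : dv m ^ 7 * (N m : ℝ) ^ (ε / 2) ≤ C₄ ^ 7 * (N m : ℝ) ^ ε := by
    refine (mul_le_mul_of_nonneg_right (pow_le_pow_left₀ d0 (h4 m hm) 7) (by positivity)).trans_eq ?_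
    rw [mul_pow, ← Real.rpow_mul_natCast hN.le, mul_assoc, ← Real.rpow_add hN]
    congr 2; push_cast; ring
  calc _ = C₁ ^ J * C₂ * C₃ * (dv m ^ 7 * (N m : ℝ) ^ (ε / 2)) * Y ^ ((1 + δ) / 2) * Pf * Sg := by
        rw [hK]; ring
    _ ≤ C₁ ^ J * C₂ * C₃ * (C₄ ^ 7 * (N m : ℝ) ^ ε) * Y ^ ((1 + δ) / 2) * Pf * Sg := by gcongr
    _ = _ := by ring

end Pool.Agent.P.MP_323ce2_nt.QM
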