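import Pool.Agent.P.MP_323ce2_nt.QM.St
import Pool.Agent.P.MP_26a8c3_nt.QO.Ker

/-! Finite Euler products. -/

namespace Pool.Agent.P.MP_323ce2_nt.QM

open Finset Pool.Agent.P.MP_26a8c3_nt Pool.Agent.P.MP_26a8c3_nt.QO
open scoped Classical

namespace Eul

lemma mem_pf {Q r p : O} (hQ : 36 ∣ Q) (hr : r ≠ 0) :
    p ∈ pf Q r ↔ Prime p ∧ Primary p ∧ p ∣ r ∧ ¬ p ∣ Q := by
  rw [pf, mem_filter, UniqueFactorizationMonoid.mem_primeFactors]
  constructor
  · rintro ⟨h, h'⟩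
    obtain ⟨h1, h2, h3⟩ := mem_nf h
    refine ⟨h1, h2.primary fun e => h' ?_, h3, h'⟩
    have e1 : p ∣ lam := (prime_lam.associated_of_dvd h1 e).symm.dvd
    exact e1.trans (lam_dvd_three.trans (Dvd.dvd.trans ⟨12, by norm_num⟩ hQ))
  · rintro ⟨h1, h2, h3, h4⟩
    exact ⟨(UniqueFactorizationMonoid.mem_normalizedFactors_iff' hr).2
      ⟨h1.irreducible, h2.normalize, h3⟩, h4⟩

lemma gd {Q r : O} (hQ : 36 ∣ Q) (hr : r ≠ 0) : Ker.Gd (pf Q r) := fun _ hp =>
  ⟨((mem_pf hQ hr).1 hp).1, ((mem_pf hQ hr).1 hp).2.1⟩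

lemma pr_dvd (Q r : O) : Ker.pr (pf Q r) ∣ r :=
  (prod_dvd_prod_of_subset _ _ (fun p => p) (filter_subset _ _)).trans (rd_dvd r)

lemma one_le {Q a : O} {c s : ℝ} (hc : 0 ≤ c) : 1 ≤ Ep Q c s a :=
  Finset.one_le_prod fun p _ => le_add_of_nonneg_right (by positivity)

lemma mul_le {Q a b : O} {c s : ℝ} (ha : a ≠ 0) (hb : b ≠ 0) (hc : 0 ≤ c) :
    Ep Q c s (a * b) ≤ Ep Q c s a * Ep Q c s b := by
  have e : pf Q (a * b) = pf Q a ∪ pf Q b := by
    ext p
    simp only [pf, mem_filter, mem_union, UniqueFactorizationMonoid.mem_primeFactors,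
      UniqueFactorizationMonoid.normalizedFactors_mul ha hb, Multiset.mem_add]
    tauto
  rw [Ep, Ep, Ep, e, ← prod_union_inter]
  refine le_mul_of_one_le_right (prod_nonneg fun p _ => by positivity) ?_
  exact Finset.one_le_prod fun p _ => le_add_of_nonneg_right (by positivity)

lemma four_le {p : O} (hp : Prime p) (h : Primary p) : (4 : ℝ) ≤ N p := by
  have h1 := two_le_N hp
  have h2 := h.N_mod
  exact_mod_cast (by omega : 4 ≤ N p)

lemma half {p : O} (hp : Prime p) (h : Primary p) {s : ℝ} (hs : 1 / 2 ≤ s) :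
    (N p : ℝ) ^ (-s) ≤ 1 / 2 := by
  have h4 := four_le hp h
  calc (N p : ℝ) ^ (-s) ≤ (N p : ℝ) ^ (-(1 / 2) : ℝ) :=
        Real.rpow_le_rpow_of_exponent_le (by linarith) (by linarith)
    _ ≤ (4 : ℝ) ^ (-(1 / 2) : ℝ) := Real.rpow_le_rpow_of_nonpos (by norm_num) h4 (by norm_num)
    _ = 1 / 2 := by
        rw [show (4 : ℝ) = 2 ^ (2 : ℝ) by norm_num, ← Real.rpow_mul (by norm_num)]
        norm_num

lemma dv_pr {A : Finset O} (h : Ker.Gd A) : dv (Ker.pr A) = 2 ^ #A := by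
  have e := Ker.sum_pdiv' h fun _ => 1
  simp only [sum_const, card_powerset, nsmul_eq_mul, mul_one] at e
  rw [dv]
  exact_mod_cast e

lemma smooth {s : ℝ} (A : Finset O) : Ker.Gd A → (∀ p ∈ A, (N p : ℝ) ^ (-s) ≤ 1 / 2) →
    ∀ T : Finset O, (∀ E ∈ T, Primary E ∧ ∀ p, Prime p → Primary p → p ∣ E → p ∈ A) →
      ∑ E ∈ T, (N E : ℝ) ^ (-s) ≤ ∏ p ∈ A, (1 + 2 * (N p : ℝ) ^ (-s)) := by
  induction A using Finset.induction_on with
  | empty =>
    intro _ _ T hT
    have e : T ⊆ {1} := fun E hE => mem_singleton.2 (by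
      by_contra h
      obtain ⟨p, h1, h2, h3⟩ := exists_primary_prime (hT E hE).1 h
      exact notMem_empty p ((hT E hE).2 p h1 h2 h3))
    refine (sum_le_sum_of_subset_of_nonneg e fun _ _ _ => by positivity).trans ?_
    simp
  | insert q A hq ih =>
    intro hA hy
    have ih := ih (hA.mono (subset_insert _ _)) fun p hp => hy p (mem_insert_of_mem hp)
    obtain ⟨q1, q2⟩ := hA q (mem_insert_self _ _)
    have y1 := hy q (mem_insert_self _ _)
    have y0 : (0 : ℝ) ≤ (N q : ℝ) ^ (-s) := by positivity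
    have P0 : (0 : ℝ) ≤ ∏ p ∈ A, (1 + 2 * (N p : ℝ) ^ (-s)) := prod_nonneg fun p _ => by positivity
    rw [prod_insert hq]
    suffices key : ∀ n : ℕ, ∀ T : Finset O, (∀ E ∈ T, N E ≤ n) →
        (∀ E ∈ T, Primary E ∧ ∀ p, Prime p → Primary p → p ∣ E → p ∈ insert q A) →
        ∑ E ∈ T, (N E : ℝ) ^ (-s) ≤
          (1 + 2 * (N q : ℝ) ^ (-s)) * ∏ p ∈ A, (1 + 2 * (N p : ℝ) ^ (-s)) from
      fun T hT => key (T.sup N) T (fun E hE => le_sup (f := N) hE) hT
    intro n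
    induction n with
    | zero =>
      intro T h hT
      have e : T = ∅ := eq_empty_of_forall_notMem fun E hE =>
        absurd (h E hE) (not_le.2 (N_pos (hT E hE).1.ne_zero))
      rw [e, sum_empty]
      positivity
    | succ n ihn =>
      intro T h hT
      have h0 := ih (T.filter fun E => ¬ q ∣ E) fun E hE => by
        obtain ⟨e1, e2⟩ := mem_filter.1 hE
        refine ⟨(hT E e1).1, fun p h1 h2 h3 => ?_⟩
        exact (mem_insert.1 ((hT E e1).2 p h1 h2 h3)).resolve_left fun e => e2 (e ▸ h3)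
      have h1 := ihn ((T.filter fun E => q ∣ E).image fun E => quo E q) (fun E' hE' => by
        obtain ⟨E, hE, rfl⟩ := mem_image.1 hE'
        obtain ⟨e1, e2⟩ := mem_filter.1 hE
        have e3 := h E e1
        have e4 := two_le_N q1
        have e5 := N_pos (hT E e1).1.ne_zero
        rw [← mul_quo e2, map_mul] at e3 e5
        have e6 : 0 < N (quo E q) := Nat.pos_of_mul_pos_left e5
        nlinarith) fun E' hE' => by
        obtain ⟨E, hE, rfl⟩ := mem_image.1 hE'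
        obtain ⟨e1, e2⟩ := mem_filter.1 hE
        have e3 := hT E e1
        rw [← mul_quo e2] at e3
        exact ⟨e3.1.of_mul q2, fun p h1 h2 h3 => e3.2 p h1 h2 (h3.mul_left q)⟩
      rw [sum_image fun a ha b hb e => by
        rw [← mul_quo (mem_filter.1 ha).2, ← mul_quo (mem_filter.1 hb).2]
        exact congrArg _ e] at h1
      have h2 : ∑ E ∈ T.filter fun E => q ∣ E, (N E : ℝ) ^ (-s) =
          (N q : ℝ) ^ (-s) * ∑ E ∈ T.filter fun E => q ∣ E, (N (quo E q) : ℝ) ^ (-s) := by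
        rw [mul_sum]
        refine sum_congr rfl fun E hE => ?_
        rw [← Real.mul_rpow (by positivity) (by positivity), ← Nat.cast_mul, ← map_mul,
          mul_quo (mem_filter.1 hE).2]
      rw [← sum_filter_add_sum_filter_not T fun E => q ∣ E, h2]
      have h3 := mul_le_mul_of_nonneg_left h1 y0
      have h4 := mul_nonneg (mul_nonneg y0 (sub_nonneg.2 y1)) P0
      nlinarith

lemma big {c η : ℝ} (hc : 0 ≤ c) (hη : 0 < η) {Q g : O} (hQ : Big Q (c ^ η⁻¹)) (hg : g ≠ 0) :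
    c ^ #(pf Q g) ≤ (N g : ℝ) ^ η := by
  have h1 : ∀ p ∈ pf Q g, c ≤ (N p : ℝ) ^ η := fun p hp => by
    obtain ⟨e1, e2⟩ := mem_filter.1 hp
    have e3 := (mem_nf (UniqueFactorizationMonoid.mem_primeFactors.1 e1)).1
    have e4 : c ^ η⁻¹ ≤ (N p : ℝ) := (not_le.1 fun e => e2 (hQ p e3 e)).le
    calc c = (c ^ η⁻¹) ^ η := (Real.rpow_inv_rpow hc hη.ne').symm
      _ ≤ _ := Real.rpow_le_rpow (by positivity) e4 hη.le
  calc c ^ #(pf Q g) = ∏ _p ∈ pf Q g, c := (prod_const c).symm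
    _ ≤ ∏ p ∈ pf Q g, (N p : ℝ) ^ η := prod_le_prod (fun _ _ => hc) h1
    _ = (N (Ker.pr (pf Q g)) : ℝ) ^ η := by
        rw [Ker.pr, map_prod, Nat.cast_prod, Real.finsetProd_rpow _ _ fun _ _ => by positivity]
    _ ≤ _ := Real.rpow_le_rpow (by positivity)
        (by exact_mod_cast N_le_of_dvd (pr_dvd Q g) hg) hη.le

end Eul

open Eul in
theorem pEul : S_Eul := by
  refine ⟨fun Q r p hQ hr => mem_pf hQ hr, fun Q a b c s ha hb hc => ⟨one_le hc, mul_le ha hb hc⟩,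
    fun Q r s hQ hr hs => ⟨?_, ?_⟩, fun Q E hQ hE hc => ?_, fun Q m s T hQ hm hy hT => ?_,
    fun c η hc hη => ⟨c ^ η⁻¹, fun Q g h hg => big hc hη h hg⟩⟩
  · rw [← prod_const]
    refine prod_le_prod (fun p _ => by positivity) fun p hp => ?_
    have := half (gd hQ hr p hp).1 (gd hQ hr p hp).2 hs
    linarith
  · rw [← dv_pr (gd hQ hr)]
    exact dv_mono (pr_dvd Q r) hr
  · have e : pf Q E = UniqueFactorizationMonoid.primeFactors E := filter_true_of_mem fun p hp h => by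
      obtain ⟨h1, -, h2⟩ := mem_nf (UniqueFactorizationMonoid.mem_primeFactors.1 hp)
      exact h1.not_isUnit (hc.isUnit_of_dvd' h2 h)
    rw [← dv_pr (gd hQ hE.ne_zero), e]
    rfl
  · refine smooth _ (gd hQ hm) hy T fun E hE => ⟨(hT E hE).1, fun p h1 h2 h3 => ?_⟩
    exact (mem_pf hQ hm).2 ⟨h1, h2, h3.trans (hT E hE).2.2,
      fun h => h1.not_isUnit ((hT E hE).2.1.isUnit_of_dvd' h3 h)⟩

end Pool.Agent.P.MP_323ce2_nt.QM
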