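import Pool.Agent.P.MP_323ce2_nt.QM.St
import Pool.Agent.P.MP_26a8c3_nt.QO.All

/-! The finite Fourier transform of a pair of symbols. -/

namespace Pool.Agent.P.MP_323ce2_nt.QM

open Finset Pool.Agent.P.MP_26a8c3_nt Pool.Agent.P.MP_26a8c3_nt.QO Pool.Agent.P.MP_26a8c3_nt.QA
open scoped Classical ComplexConjugate

namespace FK

lemma ft_cop_sq {g : O} (hg : SQ g) (m : O) : ft (cop g) (g ^ 2) m = N g * kk g (-m) := by
  have h0 : (N g : ℂ) ≠ 0 := by exact_mod_cast (N_pos hg.ne_zero).ne'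
  have e := ft_inv (pow_ne_zero 2 hg.ne_zero) (P2.per_kk g) (-m)
  simp only [P2.ft_kk hg, mul_assoc, sm_mul_left, neg_mul, neg_neg, mul_comm m] at e
  apply mul_left_cancel₀ h0
  rw [ft, e, map_pow]
  push_cast
  ring

end FK

open FK P2

theorem pFK : S_FK := by
  intro a b m ha hb
  have h4 := alg.r4
  have hG := alg.gam
  obtain ⟨g, a', b', rfl, rfl, hg, hc⟩ := exists_dec ha.1 b
  have sg : SQO g := ⟨ha.1.left hg, (od_mul.1 ha.2).1⟩
  have sa : SQO a' := ⟨ha.1.right hg, (od_mul.1 ha.2).2⟩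
  have sb : SQO b' := ⟨hb.1.right hg, (od_mul.1 hb.2).2⟩
  have ca := ha.1.coprime
  have cb := hb.1.coprime
  have cn : IsCoprime g (a' * b') := ca.mul_right cb
  have g0 := hg.ne_zero
  have a0 := sa.1.ne_zero
  have b0 := sb.1.ne_zero
  have n0 := mul_ne_zero a0 b0
  have f1 : (fun x => conj (psi (g * a') x) * psi (g * b') x) =
      fun x => cop g x * (conj (psi a' x) * psi b' x) := funext fun x => by
    rw [psi_mul_left g0 a0, psi_mul_left g0 b0, map_mul, ← psi_mul_conj g0]
    ring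
  have f2 : (fun x => cop g (x * (a' * b'))) = cop g := funext fun x => by
    rw [(isNu_cop g).mul, cop_of cn.symm, mul_one]
  have f3 : (fun x => conj (psi a' (x * g ^ 2)) * psi b' (x * g ^ 2)) =
      fun x => conj (chi g a') * chi g b' * conj (psi a' x * conj (psi b' x)) := funext fun x => by
    rw [psi_mul, psi_mul, psi_pow, psi_pow, psi_sq a0, psi_sq b0, alg.r1 a' g sa.1.1 hg,
      alg.r1 b' g sb.1.1 hg]
    simp only [map_mul, Complex.conj_conj]
    ring
  have f4 := conj_ft n0 (fun x => psi a' x * conj (psi b' x)) (-m)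
  rw [neg_neg] at f4
  have e1 := congrArg conj (h4.2.2.2 a' b' (-m) sa sb hc)
  have e2 : gam (g * a' * (g * b')) = gam (a' * b') := by
    rw [show g * a' * (g * b') = a' * b' * g ^ 2 by ring]; exact hG.2.2.2.1 _ _ sg.2
  have e3 := bb_mul_conj h4 sg
  have e4 := mu_sq sg.1.2
  have e5 := mu_sq sa.1.2
  have e6 := mu_sq sb.1.2
  have e7 := bb_mul_conj h4 sa
  have e8 := bb_mul_conj h4 sb
  have e9 : gam (a' * b') * conj (gam (a' * b')) = 1 := by
    rw [Complex.mul_conj, Complex.normSq_eq_norm_sq, hG.2.2.1 _ (od_mul.2 ⟨sa.2, sb.2⟩)]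
    simp
  have e10 := chi_mul_conj g0 a'
  have e11 := chi_mul_conj g0 b'
  rw [cop_of ca.symm] at e10
  rw [cop_of cb.symm] at e11
  rw [e2, f1, show g * a' * (g * b') = g ^ 2 * (a' * b') by ring,
    ft_crt (pow_ne_zero 2 g0) n0 cn.pow_left ((isNu_cop g).per.mono (dvd_pow_self g two_ne_zero))
      (fun x y e => by
        simp only [psi_congr ((dvd_mul_right a' b').trans e),
          psi_congr ((dvd_mul_left b' a').trans e)]),
    f2, f3, ft_mul_left, ← f4, ft_cop_sq sg.1, KK_eq ha.1 hb.1 hc, bb_mul h4 hg sa.1.1 ca,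
    bb_mul h4 hg sb.1.1 cb, mu_mul ca, mu_mul cb, ab_mul, ab_mul, ← ab_sqC]
  simp only [map_mul, conj_mu, Complex.conj_conj, Complex.conj_ofReal] at e1 ⊢
  push_cast
  generalize conj (ft (fun x => psi a' x * conj (psi b' x)) (a' * b') (-m)) = F at e1 ⊢
  have k1 : F = mu a' * mu b' * (ab a' * ab b' * conj (gam (a' * b')) * conj (bb a') * bb b' *
      (psi a' (-m) * conj (psi b' (-m)))) := by
    rw [← e1]
    linear_combination (-F * mu b' ^ 2) * e5 - F * e6
  calc _ = (chi g a' * conj (chi g a')) * (chi g b' * conj (chi g b')) * (bb g * conj (bb g)) *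
        (gam (a' * b') * conj (gam (a' * b'))) * (bb a' * conj (bb a')) * (bb b' * conj (bb b')) *
        (mu a' * mu b' * (ab g ^ 2 * ab a' * ab b') * (kk g (-m) *
          (psi a' (-m) * conj (psi b' (-m))))) := by rw [k1]; ring
    _ = _ := by
      rw [e10, e11, e3, e9, e7, e8]
      linear_combination (-(mu a' * mu b' * (ab g ^ 2 * ab a' * ab b') * (kk g (-m) *
          (psi a' (-m) * conj (psi b' (-m)))))) * e4

end Pool.Agent.P.MP_323ce2_nt.QM
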