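import Pool.Agent.P.MP_323ce2_nt.QM.St

/-! The choice of the parameters in the first moment inequality. -/

namespace Pool.Agent.P.MP_323ce2_nt.QM

open Finset Pool.Agent.P.MP_26a8c3_nt Pool.Agent.P.MP_26a8c3_nt.QO Pool.Agent.P.MP_26a8c3_nt.QA
open Pool.Agent.P.MP_323ce2_nt.QF Pool.Agent.P.MP_323ce2_nt.QX
open scoped Classical

namespace FinP

lemma big (C₀ : ℝ) : ∃ q : ℕ, 0 < q ∧ 36 ∣ q ∧ Big (q : O) C₀ := by
  refine ⟨36 * (⌈C₀⌉₊).factorial, by positivity, dvd_mul_right _ _, fun p hp h => ?_⟩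
  refine (dvd_N p).trans (Nat.cast_dvd_cast (Dvd.dvd.mul_left ?_ 36))
  refine Nat.dvd_factorial (N_pos hp.ne_zero) ?_
  exact_mod_cast h.trans (Nat.le_ceil C₀)

lemma large {a : ℝ} (ha : 0 < a) (y : ℝ) : ∃ Z₀ : ℝ, 2 ≤ Z₀ ∧ ∀ Z, Z₀ ≤ Z → y ≤ Z ^ a := by
  obtain ⟨Z₀, h⟩ := Filter.eventually_atTop.1 ((tendsto_rpow_atTop ha).eventually_ge_atTop y)
  exact ⟨max 2 Z₀, le_max_left _ _, fun Z hZ => h Z ((le_max_right _ _).trans hZ)⟩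

/-- the range conditions -/
lemma rg {Z η d : ℝ} (hZ : 1 ≤ Z) (h0 : 0 ≤ η) (h1 : η ≤ 1 / 50) (d0 : 21 / 100 ≤ d)
    (d1 : d ≤ 22 / 100) :
    Rg (Z ^ (1 - η)) (Z ^ (5 / 4 : ℝ)) (Z ^ (1 - η - 2 * d)) (Z ^ d) (Z ^ (5 / 4 - d)) := by
  have hZ0 : 0 < Z := by linarith
  have m := fun a b (h : a ≤ b) => Real.rpow_le_rpow_of_exponent_le hZ h
  refine ⟨by positivity, Real.one_le_rpow hZ (by norm_num), Real.one_le_rpow hZ (by linarith),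
    Real.one_le_rpow hZ (by linarith), ?_, Real.one_le_rpow hZ (by linarith), ?_, ?_, ?_, ?_, ?_⟩
  all_goals
    simp only [← Real.rpow_natCast, ← Real.rpow_mul hZ0.le, ← Real.rpow_add hZ0,
      ← Real.rpow_sub hZ0]
  · congr 1; ring
  all_goals
    refine m _ _ ?_
    push_cast
    linarith

/-- the final bookkeeping -/
lemma fin {Z η d e δ ε C₁ C₂ F T : ℝ} (hZ : 1 ≤ Z) (h0 : 0 ≤ η) (_h1 : η ≤ 1 / 50)
    (d0 : 21 / 100 ≤ d) (d1 : d ≤ 22 / 100) (he : 0 ≤ e) (hC₁ : 0 < C₁) (hC₂ : 0 < C₂) (hT : 0 ≤ T)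
    (hF : Z ^ (d - δ) ≤ F) (hε : 3 * e + δ + η ≤ ε) :
    C₁ * ((Z ^ (5 / 4 : ℝ) * Z ^ (1 - η - 2 * d)) ^ e * (Z ^ (1 - η) * Z ^ (5 / 4 - d) *
        ((Z ^ (1 - η - 2 * d)) ^ 2 / Z ^ (5 / 4 - d)) ^ (1 / 12 : ℝ)) +
      C₂ * Z ^ e * √(Z ^ (1 - η - 2 * d)) * (Z ^ (13 / 48 : ℝ) * (Z ^ (5 / 4 : ℝ) * Z ^ d) + T)) /
      ((Z ^ (1 - η)) ^ (1 / 6 : ℝ) * Z ^ (1 - η - 2 * d) * F) ≤
    C₁ * (1 + C₂) * Z ^ ε * ((Z ^ (5 / 4 : ℝ)) ^ (11 / 12 : ℝ) / (Z ^ d) ^ (1 / 4 : ℝ) +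
      Z ^ (-(2 / 3) : ℝ) * T) := by
  have hZ0 : 0 < Z := by linarith
  have m := fun a b (h : a ≤ b) => Real.rpow_le_rpow_of_exponent_le hZ h
  have hF0 : 0 < F := lt_of_lt_of_le (by positivity) hF
  rw [div_le_iff₀ (by positivity)]
  refine le_trans ?_ (mul_le_mul_of_nonneg_left (mul_le_mul_of_nonneg_left hF (by positivity))
    (by positivity))
  obtain ⟨W, hW⟩ : ∃ W, W = (Z ^ (1 - η)) ^ (1 / 6 : ℝ) * Z ^ (1 - η - 2 * d) * Z ^ (d - δ) :=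
    ⟨_, rfl⟩
  obtain ⟨U, hU⟩ : ∃ U, U = (Z ^ (5 / 4 : ℝ)) ^ (11 / 12 : ℝ) / (Z ^ d) ^ (1 / 4 : ℝ) := ⟨_, rfl⟩
  have e1 : (Z ^ (5 / 4 : ℝ) * Z ^ (1 - η - 2 * d)) ^ e * (Z ^ (1 - η) * Z ^ (5 / 4 - d) *
      ((Z ^ (1 - η - 2 * d)) ^ 2 / Z ^ (5 / 4 - d)) ^ (1 / 12 : ℝ)) ≤ Z ^ ε * U * W := by
    simp only [hU, hW, ← Real.rpow_natCast, ← Real.rpow_mul hZ0.le, ← Real.rpow_add hZ0,
      ← Real.rpow_sub hZ0]
    refine m _ _ ?_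
    push_cast
    nlinarith
  have e2 : Z ^ e * √(Z ^ (1 - η - 2 * d)) * (Z ^ (13 / 48 : ℝ) * (Z ^ (5 / 4 : ℝ) * Z ^ d)) ≤
      Z ^ ε * U * W := by
    simp only [hU, hW, Real.sqrt_eq_rpow, ← Real.rpow_mul hZ0.le, ← Real.rpow_add hZ0,
      ← Real.rpow_sub hZ0]
    exact m _ _ (by linarith)
  have e3 : Z ^ e * √(Z ^ (1 - η - 2 * d)) ≤ Z ^ ε * Z ^ (-(2 / 3) : ℝ) * W := by
    simp only [hW, Real.sqrt_eq_rpow, ← Real.rpow_mul hZ0.le, ← Real.rpow_add hZ0]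
    exact m _ _ (by linarith)
  rw [← hW, ← hU]
  have e4 := mul_le_mul_of_nonneg_right e3 hT
  have e5 : 0 ≤ Z ^ ε * Z ^ (-(2 / 3) : ℝ) * W * T := by rw [hW]; positivity
  calc _ ≤ C₁ * (Z ^ ε * U * W + C₂ * (Z ^ ε * U * W + Z ^ ε * Z ^ (-(2 / 3) : ℝ) * W * T) +
        Z ^ ε * Z ^ (-(2 / 3) : ℝ) * W * T) := by
        refine mul_le_mul_of_nonneg_left ?_ hC₁.le
        have := mul_le_mul_of_nonneg_left (add_le_add e2 e4) hC₂.le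
        linarith
    _ = _ := by ring

end FinP

open FinP

theorem pFM (h1 : S_Cor) (h2 : S_bE) : QX.S_FM := by
  refine ⟨0, fun θ hθ hθ' J hJ => ?_⟩
  obtain ⟨C₀, lo₀, h1⟩ := h1 J
  obtain ⟨q, hq0, hq, hb⟩ := big C₀
  refine ⟨q, hq0, hq, fun ε hε => ?_⟩
  have hQ0 : (q : O) ≠ 0 := Nat.cast_ne_zero.2 hq0.ne'
  have hQ : (36 : O) ∣ (q : O) := by exact_mod_cast Nat.cast_dvd_cast (α := O) hq
  have hJ0 : (0 : ℝ) < J := by exact_mod_cast hJ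
  obtain ⟨η, hη0, hη1, hη2⟩ : ∃ η : ℝ, 0 < η ∧ η ≤ 1 / 50 ∧ η ≤ ε / 4 :=
    ⟨min (1 / 50) (ε / 4), by positivity, min_le_left _ _, min_le_right _ _⟩
  obtain ⟨C₁, Y₀, hC₁, h1⟩ := h1 q hQ0 hQ hb (ε / 6) (by positivity)
  obtain ⟨C₂, hC₂, h2⟩ := h2 q hQ0 hQ (ε / 6) η J (by positivity) hη0
  obtain ⟨Z₁, hZ₁, hY₀⟩ := large (by norm_num : (0 : ℝ) < 1 / 2) Y₀
  obtain ⟨Z₂, -, hlo₀⟩ := large (by positivity : (0 : ℝ) < 1 / 10 / J) lo₀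
  refine ⟨η / J, max (max Z₁ Z₂) (C₁ * (1 + C₂)), by positivity,
    le_trans (by linarith) ((le_max_left Z₁ Z₂).trans (le_max_left _ _)), ?_⟩
  intro Z X lo P B B₀ S φ β Λ Φ hZ hX hP hD0 hD1 hPc hlo hms hB₀ hB hrec hrow
  have hZa : Z₁ ≤ Z := ((le_max_left _ _).trans (le_max_left _ _)).trans hZ
  have hZb : Z₂ ≤ Z := ((le_max_right _ _).trans (le_max_left _ _)).trans hZ
  have hZ1 : 1 < Z := by linarith
  have hZ0 : 0 < Z := by linarith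
  have m := fun a b (h : a ≤ b) => Real.rpow_le_rpow_of_exponent_le hZ1.le h
  obtain ⟨π, hπ⟩ : ∃ π : ℝ, Z ^ π = P := ⟨_, Real.rpow_logb hZ0 hZ1.ne' (by linarith)⟩
  have hD : P ^ J = Z ^ (π * J) := by rw [← hπ, ← Real.rpow_natCast, ← Real.rpow_mul hZ0.le]
  have d0 : 21 / 100 ≤ π * J := (Real.rpow_le_rpow_left_iff hZ1).1 (hD ▸ hD0)
  have d1 : π * J ≤ 22 / 100 := (Real.rpow_le_rpow_left_iff hZ1).1 (hD ▸ hD1)
  have p0 : 21 / 100 / J ≤ π := (div_le_iff₀ hJ0).2 d0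
  have p1 : η / J ≤ 1 / 50 / J := by gcongr
  have p2 : (21 / 100 / J : ℝ) = 21 / 2 * (1 / 50 / J) := by ring
  have p3 : (1 / 10 / J : ℝ) = 5 * (1 / 50 / J) := by ring
  have p4 : (0 : ℝ) < 1 / 50 / J := by positivity
  have dv : ∀ y, P ≤ Z ^ (η / J) * y → Z ^ (π - η / J) ≤ y := fun y h => by
    rw [Real.rpow_sub hZ0, hπ, div_le_iff₀' (by positivity)]; exact h
  have hrg := rg hZ1.le hη0.le hη1 d0 d1
  have hZ' : Z = Z ^ (1 : ℝ) := (Real.rpow_one Z).symm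
  have hb2 := h2 Z (Z ^ (1 - η)) X (Z ^ (1 - η - 2 * (π * J))) lo P B₀ S φ β Λ Φ
  have h := h1 θ (Z ^ (1 - η)) X (Z ^ (1 - η - 2 * (π * J))) (Z ^ (5 / 4 - π * J)) lo P B _
    (List.range J) S φ hθ (by linarith) List.nodup_range List.length_range
    (by rwa [List.toFinset_range]) ((hlo₀ Z hZb).trans ((m _ _ (by linarith)).trans (dv lo hlo))) hP
    (fun i hi => by
      refine le_trans ?_ (dv _ (hms i (List.mem_range.1 hi)))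
      rw [← hπ, ← Real.rpow_mul hZ0.le]
      exact m _ _ (by nlinarith))
    (Real.one_le_rpow hZ1.le (by linarith)) ((hY₀ Z hZa).trans (m _ _ (by linarith)))
    (by rw [hD, hX]; exact hrg) hrec fun s hs => hb2 s hZ1.le hrg.1 le_rfl (hX ▸ hrg.2.1)
      (by rw [hX, ← Real.rpow_two]; exact m _ _ (by norm_num)) hrg.2.2.1
      ((m _ _ (by nlinarith)).trans hZ'.ge) hP (hD1.trans ((m _ _ (by norm_num)).trans hZ'.ge))
      hPc hB₀ hrow hs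
  refine h.trans (add_le_add_right ?_ _)
  rw [List.toFinset_range, pow_zero, mul_one, hD, mul_right_comm (B₀ ^ (J + 2)),
    mul_comm _ (Z ^ (-(2 / 3) : ℝ))]
  have hT : 0 ≤ B₀ ^ (J + 2) * ∑ k ∈ (ball Z).erase 0, (N k : ℝ) *
      ∑ m ∈ Rows q (Z / (N k : ℝ) ^ 6), X ^ β m * (∏ i ∈ range J, Φ i m) * Λ m := by
    refine mul_nonneg (by positivity) (sum_nonneg fun k hk => mul_nonneg (Nat.cast_nonneg _)
      (sum_nonneg fun m hm => ?_))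
    obtain ⟨a1, a2, a3⟩ := mem_Rows.1 hm
    obtain ⟨-, -, b3, b4, -⟩ := hrow m (mem_Rows.2 ⟨a1.trans (div_le_self hZ0.le
      (one_le_pow₀ (one_le_N (mem_erase.1 hk).1))), a2, a3⟩)
    exact mul_nonneg (mul_nonneg (by rw [hX]; positivity) (prod_nonneg fun i hi =>
      (Real.sqrt_nonneg P).trans (b4 i (mem_range.1 hi)))) (by linarith)
  generalize B₀ ^ (J + 2) * ∑ k ∈ (ball Z).erase 0, (N k : ℝ) *
      ∑ m ∈ Rows q (Z / (N k : ℝ) ^ 6), X ^ β m * (∏ i ∈ range J, Φ i m) * Λ m = T at hT ⊢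
  rw [hX]
  refine (fin (δ := η) (ε := ε) (e := ε / 6) hZ1.le hη0.le hη1 d0 d1 (by positivity) hC₁ hC₂ hT ?_
    (by linarith)).trans ?_
  swap
  · gcongr
    exact le_max_right _ _
  calc _ = ∏ _i ∈ range J, Z ^ (π - η / J) := by
        rw [prod_const, card_range, ← Real.rpow_natCast, ← Real.rpow_mul hZ0.le]
        congr 1; field_simp
    _ ≤ _ := prod_le_prod (fun _ _ => by positivity) fun i hi => dv _ (hms i (mem_range.1 hi))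

end Pool.Agent.P.MP_323ce2_nt.QM
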