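import Pool.Agent.P.MP_323ce2_nt.QM.St
import Pool.Agent.P.MP_26a8c3_nt.QO.All
import Pool.Agent.P.MP_26a8c3_nt.QB.Base
import Pool.Agent.P.MP_26a8c3_nt.QB.PT

/-! The first moment is the dual sum. -/

namespace Pool.Agent.P.MP_323ce2_nt.QM

open Finset Pool.Agent.P.MP_26a8c3_nt Pool.Agent.P.MP_26a8c3_nt.QO Pool.Agent.P.MP_26a8c3_nt.QA
open Pool.Agent.P.MP_323ce2_nt.QF Pool.Agent.P.MP_323ce2_nt.QX
open scoped Classical ComplexConjugate

namespace IdP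

lemma tr {ι : Type} (K₁ K₂ : ι → O → ℂ) (b : ℝ) (s₁ : Summable fun z : O × ι => K₁ z.2 z.1)
    (s₂ : Summable fun z : ι × O => K₂ z.1 z.2) (he : ∀ y, ∑' m, K₁ y m = ∑' h, K₂ y h)
    (hb : ∀ s : Finset O, 0 ∉ s → ∑ h ∈ s, ‖∑' y, K₂ y h‖ ≤ b) :
    (Summable fun m => ∑' y, K₁ y m) ∧ ‖∑' m, ∑' y, K₁ y m‖ ≤ ‖∑' y, K₂ y 0‖ + b := by
  refine ⟨s₁.prod, ?_⟩
  have sD : Summable fun h => ‖∑' y, K₂ y h‖ :=
    summable_of_sum_le (fun _ => norm_nonneg _) (QB.PT.sum_le hb)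
  rw [← Summable.tsum_comm (f := fun m y => K₁ y m) s₁]
  simp only [he]
  rw [← Summable.tsum_comm (f := K₂) s₂]
  exact (norm_tsum_le_tsum_norm sD).trans (sD.tsum_le_of_sum_le (QB.PT.sum_le hb))

/-- the summand on the side of the rows -/
noncomputable def k1 (u v : O → ℂ) (y : (O × O) × O) (m : O) : ℂ :=
  if SQ y.1.1 ∧ Primary y.1.2 ∧ Od y.1.2 ∧ SQ y.2 then
    u (y.1.1 * y.1.2 ^ 3) * conj (v y.2) * ker y.1.1 y.1.2 y.2 m else 0

/-- the summand on the dual side -/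
noncomputable def k2 (u v : O → ℂ) (M : ℝ) (y : (O × O) × O) (h : O) : ℂ :=
  if SQ y.1.1 ∧ Primary y.1.2 ∧ SQ y.2 then
    ((M / (ab (y.1.1 * y.1.2 ^ 3) * ab y.2) : ℝ) : ℂ) * gam (y.1.1 * y.1.2 ^ 3 * y.2) *
      (bb y.1.1 * ang y.1.2 ^ 3 * ab y.1.2 * u (y.1.1 * y.1.2 ^ 3) *
        conj (psi (y.1.1 * y.1.2 ^ 3) h)) *
      conj (mu y.2 * bb y.2 * v y.2 * conj (psi y.2 h)) *
      (G (M * N h / (N (y.1.1 * y.1.2 ^ 3) * N y.2)) : ℝ) else 0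

/-- the summable majorant -/
noncomputable def ww (y : (O × O) × O) : ℝ :=
  ((N y.1.1 : ℝ) ^ 2)⁻¹ * ((N y.1.2 : ℝ) ^ 2)⁻¹ * ((N y.2 : ℝ) ^ 2)⁻¹

lemma ww_nonneg (y : (O × O) × O) : 0 ≤ ww y := by unfold ww; positivity

lemma summable_ww : Summable ww := by
  have h := summable_N_inv_pow (k := 2) le_rfl
  have h0 : ∀ c : O, 0 ≤ ((N c : ℝ) ^ 2)⁻¹ := fun c => by positivity
  exact (h.mul_of_nonneg h h0 h0).mul_of_nonneg h (fun x => mul_nonneg (h0 _) (h0 _)) h0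

lemma dec {u : O → ℂ} (h : Dec u) :
    ∃ K : ℝ, 0 ≤ K ∧ ∀ x, x ≠ 0 → ‖u x‖ * (N x : ℝ) ^ 2 ≤ K * ((N x : ℝ) ^ 2)⁻¹ := by
  obtain ⟨K, hK⟩ := h
  have h0 : 0 ≤ K := nonneg_of_mul_nonneg_left ((norm_nonneg _).trans (hK 0))
    (Real.rpow_pos_of_pos (nr_pos 0) _)
  refine ⟨K, h0, fun x hx => ?_⟩
  have h1 := one_le_N hx
  have h2 : nr x ^ (-(10 : ℝ)) ≤ ((N x : ℝ) ^ 4)⁻¹ := by
    rw [nr_eq hx, ← Real.rpow_natCast, ← Real.rpow_neg (by linarith)]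
    exact Real.rpow_le_rpow_of_exponent_le h1 (by norm_num)
  calc _ ≤ K * ((N x : ℝ) ^ 4)⁻¹ * (N x : ℝ) ^ 2 :=
        mul_le_mul_of_nonneg_right ((hK x).trans (mul_le_mul_of_nonneg_left h2 h0)) (by positivity)
    _ = _ := by field_simp

lemma wb {u v : O → ℂ} (hu : Dec u) (hv : Dec v) : ∃ K : ℝ, 0 ≤ K ∧ ∀ c E n : O, c ≠ 0 → E ≠ 0 →
    n ≠ 0 → ‖u (c * E ^ 3)‖ * ‖v n‖ * ((N (c * E ^ 3) : ℝ) * N n) ^ 2 ≤ K * ww ((c, E), n) := by
  obtain ⟨K, hK, H⟩ := dec hu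
  obtain ⟨K', hK', H'⟩ := dec hv
  refine ⟨K * K', by positivity, fun c E n hc hE hn => ?_⟩
  have h1 := one_le_N hc
  have h2 := one_le_N hE
  have h3 : ((N (c * E ^ 3) : ℝ) ^ 2)⁻¹ ≤ ((N c : ℝ) ^ 2)⁻¹ * ((N E : ℝ) ^ 2)⁻¹ := by
    rw [← mul_inv, ← mul_pow, map_mul, map_pow]
    push_cast
    gcongr
    exact le_self_pow₀ h2 three_ne_zero
  have h4 := (H _ (mul_ne_zero hc (pow_ne_zero 3 hE))).trans (mul_le_mul_of_nonneg_left h3 hK)
  calc _ = ‖u (c * E ^ 3)‖ * (N (c * E ^ 3) : ℝ) ^ 2 * (‖v n‖ * (N n : ℝ) ^ 2) := by ring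
    _ ≤ _ := mul_le_mul h4 (H' n hn) (by positivity) (by positivity)
    _ = _ := by unfold ww; ring

lemma dcp {c E : O} (hc : SQ c) (hE : Primary E) : gcd c (rd E) ∈ pdiv (rd E) ∧
    gcd c (rd E) * quo c (gcd c (rd E)) = c ∧ SQ (quo c (gcd c (rd E))) ∧
    IsCoprime (quo c (gcd c (rd E))) E := by
  have h1 := hc.1.gcd (rd E)
  have h2 := mul_quo (gcd_dvd_left c (rd E))
  have h3 : SQ (gcd c (rd E) * quo c (gcd c (rd E))) := by rw [h2]; exact hc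
  refine ⟨(mem_pdiv (sq_rd hE).ne_zero).2 ⟨h1, gcd_dvd_right _ _⟩, h2, h3.right h1,
    (cop_rd hE.ne_zero).1 (IsRelPrime.isCoprime fun d d1 d2 => ?_)⟩
  exact h3.coprime.isUnit_of_dvd' (dvd_gcd (d1.trans (Dvd.intro_left _ h2)) d2) d1

lemma ab_le {a E : O} (hE : Primary E) (h : a ∈ pdiv (rd E)) : ab a ≤ ab E := by
  rw [ab_eq, ab_eq]
  refine Real.sqrt_le_sqrt ?_
  exact_mod_cast N_le_of_dvd (((mem_pdiv (sq_rd hE).ne_zero).1 h).2.trans (rd_dvd E)) hE.ne_zero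

lemma norm_ker (hO : S_Om) {c E n : O} (hc : SQ c) (hE : Primary E) (ho : Od E) (hn : SQ n)
    (m : O) : ‖ker c E n m‖ ≤ N (c * E ^ 3) := by
  obtain ⟨a1, a2, a3, -⟩ := dcp hc hE
  obtain ⟨b1, -, b3, -⟩ := dcp hn hE
  have h1 := (hO.2 E _ _ m hE ho a1 b1).1
  have h2 := alg.k.2.2.2.2.1 _ _ m a3 b3
  have h3 : (N (quo c (gcd c (rd E))) : ℝ) ≤ N c := by
    exact_mod_cast N_le_of_dvd (Dvd.intro_left _ a2) hc.ne_zero
  have h4 : ab (gcd c (rd E)) * ab (gcd n (rd E)) ≤ N E := by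
    rw [← ab_sq, pow_two]
    exact mul_le_mul (ab_le hE a1) (ab_le hE b1) (ab_nonneg _) (ab_nonneg _)
  rw [ker, norm_mul]
  refine (mul_le_of_le_one_left (norm_nonneg _) (QB.norm_mul_le_one (norm_mu_le _)
    (QB.norm_mul_le_one (norm_mu_le _) (norm_mu_le _)))).trans ?_
  rw [norm_mul, map_mul, map_pow]
  push_cast
  calc _ ≤ (N E : ℝ) ^ 2 * N E * N c :=
        mul_le_mul (h1.trans (by gcongr)) (h2.trans h3) (norm_nonneg _) (by positivity)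
    _ = _ := by ring

lemma norm_k2 {u v : O → ℂ} (uo : ∀ x, u x ≠ 0 → Od x) (vo : ∀ x, v x ≠ 0 → Od x) {M : ℝ}
    (hM : 0 < M) (c E n h : O) : ‖k2 u v M ((c, E), n) h‖ ≤
      M * (‖u (c * E ^ 3)‖ * ‖v n‖) * G (M * N h / (N (c * E ^ 3) * N n)) := by
  have hG := QB.G_pos (M * N h / (N (c * E ^ 3) * N n))
  unfold k2
  dsimp only
  split_ifs with H
  swap
  · rw [norm_zero]; positivity
  obtain ⟨hc, hE, hn⟩ := H
  by_cases u0 : u (c * E ^ 3) = 0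
  · simp [u0]
  by_cases v0 : v n = 0
  · simp [v0]
  have o1 := uo _ u0
  have o2 := vo _ v0
  have g1 := alg.gam.2.2.1 _ (od_mul.2 ⟨o1, o2⟩)
  have g2 := P2.norm_bb alg.r4 ⟨hc, (od_mul.1 o1).1⟩
  have g3 := P2.norm_bb alg.r4 ⟨hn, o2⟩
  have a1 := QB.PT.one_le_ab hc.ne_zero
  have a2 := QB.PT.one_le_ab hE.ne_zero
  have a3 := QB.PT.one_le_ab hn.ne_zero
  have a4 : ab E ≤ ab (c * E ^ 3) * ab n := by
    rw [ab_mul, ab_pow]
    exact ((le_self_pow₀ a2 three_ne_zero).trans (le_mul_of_one_le_left (by positivity) a1)).trans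
      (le_mul_of_one_le_right (by positivity) a3)
  have a5 : 0 < ab (c * E ^ 3) * ab n := by linarith
  simp only [norm_mul, norm_pow, Complex.norm_real, Complex.norm_conj, g1, g2, g3,
    norm_ang hE.ne_zero, Real.norm_of_nonneg hG.le, Real.norm_of_nonneg (ab_nonneg E),
    Real.norm_of_nonneg (div_pos hM a5).le]
  refine mul_le_mul_of_nonneg_right ?_ hG.le
  have p1 := norm_psi_le (c * E ^ 3) h
  have p2 := norm_psi_le n h
  have p3 := norm_mu_le n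
  calc _ ≤ M / (ab (c * E ^ 3) * ab n) * 1 *
        (1 * 1 ^ 3 * (ab (c * E ^ 3) * ab n) * ‖u (c * E ^ 3)‖ * 1) * (1 * 1 * ‖v n‖ * 1) := by
        gcongr
    _ = _ := by
        generalize ab (c * E ^ 3) * ab n = x at a5
        field_simp

lemma loc (hL : S_Loc) {u v : O → ℂ} (uo : ∀ x, u x ≠ 0 → Od x) (vo : ∀ x, v x ≠ 0 → Od x) {M : ℝ}
    (hM : 0 < M) (y : (O × O) × O) :
    ∑' m : O, ((G (N m / M) : ℝ) : ℂ) * k1 u v y m = ∑' h, k2 u v M y h := by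
  obtain ⟨⟨c, E⟩, n⟩ := y
  unfold k1 k2
  dsimp only
  by_cases u0 : u (c * E ^ 3) = 0
  · simp [u0]
  by_cases v0 : v n = 0
  · simp [v0]
  have o1 := od_mul.1 (uo _ u0)
  have o2 := vo _ v0
  have oE : Od E := IsCoprime.of_isCoprime_of_dvd_left o1.2 (dvd_pow_self E three_ne_zero)
  by_cases H : SQ c ∧ Primary E ∧ SQ n
  swap
  · have H' : ¬ (SQ c ∧ Primary E ∧ Od E ∧ SQ n) := fun h => H ⟨h.1, h.2.1, h.2.2.2⟩
    simp [H, H']
  obtain ⟨hc, hE, hn⟩ := H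
  obtain ⟨a1, a2, a3, a4⟩ := dcp hc hE
  obtain ⟨b1, b2, b3, b4⟩ := dcp hn hE
  have K := hL E _ _ _ _ M hE oE a1 b1
    ⟨a3, IsCoprime.of_isCoprime_of_dvd_left o1.1 (Dvd.intro_left _ a2)⟩
    ⟨b3, IsCoprime.of_isCoprime_of_dvd_left o2 (Dvd.intro_left _ b2)⟩ a4 b4 hM
  rw [a2, b2] at K
  simp only [if_pos (show SQ c ∧ Primary E ∧ Od E ∧ SQ n from ⟨hc, hE, oE, hn⟩),
    if_pos (show SQ c ∧ Primary E ∧ SQ n from ⟨hc, hE, hn⟩)]
  have K' := congrArg (fun z => u (c * E ^ 3) * conj (v n) * mu n * z) K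
  simp only [← tsum_mul_left] at K'
  refine Eq.trans (tsum_congr fun m => ?_) (K'.symm.trans (tsum_congr fun h => ?_))
  · rw [ker]; ring
  · simp only [map_mul, conj_mu, Complex.conj_conj]; ring

lemma zero {u v : O → ℂ} {M : ℝ} (y : (O × O) × O) (hy : y ≠ ((1, 1), 1)) : k2 u v M y 0 = 0 := by
  obtain ⟨⟨c, E⟩, n⟩ := y
  unfold k2
  dsimp only
  split_ifs with H
  swap
  · rfl
  obtain ⟨hc, hE, hn⟩ := H
  by_cases h1 : IsCoprime 0 (c * E ^ 3)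
  · by_cases h2 : IsCoprime 0 n
    · have h3 := isCoprime_zero_left.1 h1
      have e1 := hc.1.eq_one_of_isUnit (isUnit_of_mul_isUnit_left h3)
      have e2 := hE.eq_one_of_isUnit
        ((isUnit_pow_iff three_ne_zero).1 (isUnit_of_mul_isUnit_right h3))
      have e3 := hn.1.eq_one_of_isUnit (isCoprime_zero_left.1 h2)
      exact absurd (by rw [e1, e2, e3]) hy
    · simp [(psi_eq_zero hn.ne_zero).2 h2]
  · simp [(psi_eq_zero (mul_ne_zero hc.ne_zero (pow_ne_zero 3 hE.ne_zero))).2 h1]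

end IdP

open IdP in
theorem pId (hL : S_Loc) (hO : S_Om) (hR : S_Reix) : S_Id := by
  intro u v M b hu hv uo vo hM hb
  obtain ⟨K, hK, HK⟩ := wb hu hv
  obtain ⟨C, hC, hg⟩ := (QB.base alg).gau
  have one : ∀ {c E n : O}, c ≠ 0 → E ≠ 0 → n ≠ 0 → (1 : ℝ) ≤ (N (c * E ^ 3) : ℝ) * N n :=
    fun hc hE hn => one_le_mul_of_one_le_of_one_le
      (one_le_N (mul_ne_zero hc (pow_ne_zero 3 hE))) (one_le_N hn)
  have b1 : ∀ y m, ‖k1 u v y m‖ ≤ K * ww y := by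
    rintro ⟨⟨c, E⟩, n⟩ m
    unfold k1
    dsimp only
    split_ifs with H
    swap
    · rw [norm_zero]; exact mul_nonneg hK (ww_nonneg _)
    obtain ⟨hc, hE, ho, hn⟩ := H
    refine le_trans ?_ (HK c E n hc.ne_zero hE.ne_zero hn.ne_zero)
    rw [norm_mul, norm_mul, Complex.norm_conj]
    refine mul_le_mul_of_nonneg_left ((norm_ker hO hc hE ho hn m).trans ?_) (by positivity)
    exact (le_mul_of_one_le_right (Nat.cast_nonneg _) (one_le_N hn.ne_zero)).trans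
      (le_self_pow₀ (one hc.ne_zero hE.ne_zero hn.ne_zero) two_ne_zero)
  have s₁ : Summable fun z : O × ((O × O) × O) =>
      ((G (N z.1 / M) : ℝ) : ℂ) * k1 u v z.2 z.1 := by
    refine Summable.of_norm_bounded (Summable.mul_of_nonneg (f := fun m : O => G (N m / M))
      (g := fun y => K * ww y) ((QB.base alg).summable_G hM) (summable_ww.mul_left K)
      (fun m => (QB.G_pos _).le) fun y => mul_nonneg hK (ww_nonneg y)) fun z => ?_
    rw [norm_mul, Complex.norm_real, Real.norm_of_nonneg (QB.G_pos _).le]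
    exact mul_le_mul_of_nonneg_left (b1 _ _) (QB.G_pos _).le
  have row : ∀ (y : (O × O) × O) (s : Finset O),
      ∑ h ∈ s, ‖k2 u v M y h‖ ≤ C * (M + 1) * K * ww y := by
    rintro ⟨⟨c, E⟩, n⟩ s
    by_cases H : SQ c ∧ Primary E ∧ SQ n
    swap
    · have := ww_nonneg ((c, E), n)
      simp only [k2, if_neg H, norm_zero, sum_const_zero]
      positivity
    obtain ⟨hc, hE, hn⟩ := H
    have h1 := one hc.ne_zero hE.ne_zero hn.ne_zero
    have h2 := HK c E n hc.ne_zero hE.ne_zero hn.ne_zero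
    refine (sum_le_sum fun h _ => norm_k2 uo vo hM c E n h).trans ?_
    generalize (N (c * E ^ 3) : ℝ) * N n = x at h1 h2
    have e : ∀ h : O, M * N h / x = (N h : ℝ) / (x / M) := fun h => by field_simp
    have h3 := hg (x / M) s (by positivity)
    have h4 : M * (1 + x / M) ≤ (M + 1) * x ^ 2 := by
      have h5 : x ≤ x ^ 2 := le_self_pow₀ h1 two_ne_zero
      have h6 : M * (1 + x / M) = M + x := by field_simp
      nlinarith
    simp only [e, ← mul_sum]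
    calc _ ≤ M * (‖u (c * E ^ 3)‖ * ‖v n‖) * (C * (1 + x / M)) := by gcongr
      _ = C * (‖u (c * E ^ 3)‖ * ‖v n‖) * (M * (1 + x / M)) := by ring
      _ ≤ C * (‖u (c * E ^ 3)‖ * ‖v n‖) * ((M + 1) * x ^ 2) := by gcongr
      _ = C * (M + 1) * (‖u (c * E ^ 3)‖ * ‖v n‖ * x ^ 2) := by ring
      _ ≤ C * (M + 1) * (K * ww ((c, E), n)) := by gcongr
      _ = _ := by ring
  have s₂ : Summable fun z : ((O × O) × O) × O => k2 u v M z.1 z.2 := by
    refine Summable.of_norm ((summable_prod_of_nonneg fun _ => norm_nonneg _).2 ?_)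
    have hr : ∀ y, Summable fun h : O => ‖k2 u v M y h‖ := fun y =>
      summable_of_sum_le (fun h => norm_nonneg _) (row y)
    exact ⟨hr, Summable.of_nonneg_of_le (fun y => tsum_nonneg fun h => norm_nonneg _)
      (fun y => (hr y).tsum_le_of_sum_le (row y)) (summable_ww.mul_left _)⟩
  have T := tr (fun y m => ((G (N m / M) : ℝ) : ℂ) * k1 u v y m) (k2 u v M) b s₁ s₂
    (loc hL uo vo hM) hb
  have e : ∀ m : O, ∑' y, ((G (N m / M) : ℝ) : ℂ) * k1 u v y m =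
      ((G (N m / M) : ℝ) : ℂ) * MS u v m := fun m => by
    rw [tsum_mul_left, ← (hR u v m hu hv).2]; rfl
  simp only [e] at T
  refine ⟨T.1, T.2.trans (add_le_add ?_ le_rfl)⟩
  rw [tsum_eq_single ((1, 1), 1) zero]
  have h1 := norm_k2 uo vo hM 1 1 1 0
  rw [one_pow, mul_one] at h1
  exact h1.trans (mul_le_of_le_one_right (by positivity) (QB.G_le_one (by positivity)))

end Pool.Agent.P.MP_323ce2_nt.QM
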