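import Pool.Agent.P.MP_323ce2_nt.QM.St
import Pool.Agent.P.MP_323ce2_nt.QZ.Cv

/-! The mass of the detector. -/

namespace Pool.Agent.P.MP_323ce2_nt.QM

open Finset Pool.Agent.P.MP_26a8c3_nt Pool.Agent.P.MP_26a8c3_nt.QO Pool.Agent.P.MP_26a8c3_nt.QA
open Pool.Agent.P.MP_323ce2_nt.QF Pool.Agent.P.MP_323ce2_nt.QX Pool.Agent.P.MP_323ce2_nt.QZ
open scoped Classical ComplexConjugate

namespace L0

lemma ph1 (Q n : O) : ph (cop Q) 1 n = cop Q n := by simp [ph]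

lemma W_real (Y y : ℝ) : W Y 0 y = (‖W Y 0 y‖ : ℝ) := by
  rw [norm_W, W]; push_cast; simp

lemma L0_eq (Q : O) (Y : ℝ) : Ls (cop Q) 1 1 Y 0 = (L0 Q Y : ℝ) := by
  unfold Ls Wsum L0
  rw [Complex.ofReal_tsum]
  refine tsum_congr fun n => ?_
  beta_reduce
  by_cases h1 : SQ n
  · by_cases h2 : IsCoprime n Q
    · rw [if_pos ⟨h1, isCoprime_one_right⟩, if_pos ⟨h1, h2⟩, ph1, cop_of h2, one_mul]
      exact W_real _ _
    · rw [if_pos ⟨h1, isCoprime_one_right⟩, if_neg fun h => h2 h.2, ph1, cop_of_not h2]; simp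
  · rw [if_neg fun h => h1 h.1, if_neg fun h => h1 h.1]; simp

lemma L0_nonneg (Q : O) (Y : ℝ) : 0 ≤ L0 Q Y := tsum_nonneg fun n => by positivity

lemma Wt_eq {y : ℝ} (hy : 0 < y) :
    Wt y 0 1 = ((√Real.pi * Real.exp (1 / 4) * y : ℝ) : ℂ) := by
  have h : Real.exp (Real.log y + 1 / 4) = Real.exp (1 / 4) * y := by
    rw [Real.exp_add, Real.exp_log hy, mul_comm]
  rw [mul_assoc, ← h, Wt]
  push_cast
  simp

lemma lm (h0 : QF.S_F0) (hL : S_Lam) {Q : O} (hQ : Q ≠ 0) (h36 : 36 ∣ Q) :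
    ∃ κ C : ℝ, 0 < κ ∧ 0 < C ∧ ∀ y : ℝ, 0 < y →
      ‖Lm (cop Q) 1 y 0 - (κ * y : ℝ)‖ ≤ C * y ^ (3 / 4 : ℝ) := by
  obtain ⟨δ, hδ⟩ := h0 Q hQ h36
  obtain ⟨C, k, hC, h⟩ := hδ 1 one_pos
  obtain ⟨C', hC', h'⟩ := hL.1
  obtain ⟨h1, -, h2⟩ := h 1 1 one_ne_zero (rad_self one_ne_zero (by simp))
  have hd : 0 < δ 1 := by
    rw [Real.one_rpow] at h1
    by_contra hn
    nlinarith [not_lt.1 hn]
  have hκ : 0 < δ 1 * (√Real.pi * Real.exp (1 / 4)) := by positivity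
  refine ⟨δ 1 * (√Real.pi * Real.exp (1 / 4)), C + C' + δ 1 * (√Real.pi * Real.exp (1 / 4)), hκ,
    by positivity, fun y hy => ?_⟩
  have hp : 0 < y ^ (3 / 4 : ℝ) := by positivity
  rcases le_total 1 y with h1y | h1y
  · have := h2 (cop Q) y 0 (isNu_cop Q) (fun n _ hn => by
      rw [ph1, cop_of (by simpa using hn)]) hy
    rw [Wt_eq hy, ← Complex.ofReal_mul, ← mul_assoc] at this
    have h3 : 1 ≤ y ^ (3 / 4 : ℝ) := Real.one_le_rpow h1y (by norm_num)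
    simp only [abs_zero, add_zero, one_pow, mul_one, Real.one_rpow] at this
    nlinarith [mul_pos hκ hp, mul_pos (lt_of_lt_of_le one_pos hC') hp]
  · have h3 : y ≤ y ^ (3 / 4 : ℝ) := by
      simpa using Real.rpow_le_rpow_of_exponent_ge hy h1y (show (3 / 4 : ℝ) ≤ 1 by norm_num)
    have h4 : ‖Lm (cop Q) 1 y 0‖ ≤ C' * y := h' _ y 0 (fun c => by
      unfold uL; split_ifs
      · exact (mul1_ph (isNu_cop Q) 1).le c
      · simp) hy
    refine (norm_sub_le _ _).trans ?_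
    rw [Complex.norm_real, Real.norm_of_nonneg (by positivity)]
    nlinarith [mul_pos hC hp, mul_le_mul_of_nonneg_left h3 hκ.le,
      mul_le_mul_of_nonneg_left h3 (zero_le_one.trans hC')]

lemma sm {u : O → ℂ} (hu : ∀ c, ‖u c‖ ≤ 1) :
    Summable fun d : O => ‖u d * (((nr d : ℝ) : ℂ) ^ 2)⁻¹‖ := by
  refine Summable.of_nonneg_of_le (fun _ => norm_nonneg _) (fun d => ?_)
    (QB.summable_nr (σ := 2) (by norm_num))
  rw [norm_mul, norm_inv, norm_pow, Complex.norm_real, Real.norm_of_nonneg (nr_pos d).le,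
    Real.rpow_neg (nr_pos d).le, Real.rpow_two]
  exact mul_le_of_le_one_left (by positivity) (hu d)

lemma b1M {φ : O → ℂ} (h : Mul1 φ) (c : O) : ‖uM φ c‖ ≤ 1 := by
  unfold uM; split_ifs
  · exact QB.norm_mul_le_one (norm_mu_le c) (h.le c)
  · simp

lemma ne0 {φ : O → ℂ} (h : Mul1 φ) : ∑' d : O, uM φ d * (((nr d : ℝ) : ℂ) ^ 2)⁻¹ ≠ 0 := by
  have hl : ∀ c, ‖uL φ c‖ ≤ 1 := fun c => by
    unfold uL; split_ifs
    · exact h.le c
    · simp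
  have h1 := pCv φ h (fun y => ((y : ℂ) ^ 2)⁻¹) (by
    have h2 := sm (u := fun _ => 1) (fun _ => by simp)
    refine (h2.mul_of_nonneg h2 (fun _ => norm_nonneg _) (fun _ => norm_nonneg _)).congr
      fun p => ?_
    rw [← norm_mul]; push_cast; congr 1; ring)
  have h2 := tsum_mul_tsum_of_summable_norm (sm (b1M h)) (sm hl)
  intro h0
  rw [h0, zero_mul] at h2
  have h3 : ∑' p : O × O, uM φ p.1 * (((nr p.1 : ℝ) : ℂ) ^ 2)⁻¹ * (uL φ p.2 * (((nr p.2 : ℝ) : ℂ) ^ 2)⁻¹)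
      = ∑' p : O × O, uM φ p.1 * uL φ p.2 * ((((nr p.1 * nr p.2 : ℝ)) : ℂ) ^ 2)⁻¹ :=
    tsum_congr fun p => by push_cast; ring
  rw [h3, h1] at h2
  simp at h2

lemma asym (h0 : QF.S_F0) (hS : S_Sf) (hL : S_Lam) {Q : O} (hQ : Q ≠ 0) (h36 : 36 ∣ Q) :
    ∃ c C : ℝ, 0 < c ∧ 0 < C ∧ ∀ Y : ℝ, 0 < Y → |L0 Q Y - c * Y| ≤ C * Y ^ (3 / 4 : ℝ) := by
  obtain ⟨κ, C, hκ, hC, h⟩ := lm h0 hL hQ h36
  have hφ := mul1_ph (isNu_cop Q) 1
  have hs := (sm (b1M hφ)).of_norm.hasSum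
  have hn := ne0 hφ
  generalize ∑' d : O, uM (ph (cop Q) 1) d * (((nr d : ℝ) : ℂ) ^ 2)⁻¹ = s at hs hn
  refine ⟨κ * ‖s‖, C * KO, mul_pos hκ (norm_pos_iff.2 hn),
    mul_pos hC (lt_of_lt_of_le one_pos one_le_KO), fun Y hY => ?_⟩
  have h1 := (hS.2.2.1 Q (cop Q) 1 Y 0 (isNu_cop Q) hY).sub (hs.mul_left ((κ * Y : ℝ) : ℂ))
  have h2 : ‖Ls (cop Q) 1 1 Y 0 - ((κ * Y : ℝ) : ℂ) * s‖ ≤ C * Y ^ (3 / 4 : ℝ) * KO := by
    rw [← h1.tsum_eq]
    refine tsum_of_norm_bounded (summable_KO.hasSum.mul_left _) fun d => ?_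
    have hd := nr_pos d
    by_cases hp : Primary d
    · have e1 : uM (ph (cop Q) 1) d = mu d * ph (cop Q) 1 d ^ 2 := by
        unfold uM
        split_ifs with h3
        · rw [ph1, cop]; split_ifs <;> simp
        · rw [mu, if_neg fun h4 => h3 ⟨hp, h4⟩, zero_mul]
      have e2 : (Y / nr d ^ 2) ^ (3 / 4 : ℝ) = Y ^ (3 / 4 : ℝ) * nr d ^ (-(3 / 2) : ℝ) := by
        rw [Real.div_rpow hY.le (by positivity), Real.rpow_neg hd.le, div_eq_mul_inv,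
          ← Real.rpow_two, ← Real.rpow_mul hd.le]
        norm_num
      have h5 := h (Y / nr d ^ 2) (by positivity)
      rw [if_pos hp, e1, ← nr_eq hp.ne_zero]
      have e3 : mu d * ph (cop Q) 1 d ^ 2 * (((nr d ^ 2 : ℝ) : ℂ) ^ (((0 : ℝ) : ℂ) * Complex.I) *
            Lm (cop Q) 1 (Y / nr d ^ 2) 0) -
          ((κ * Y : ℝ) : ℂ) * (mu d * ph (cop Q) 1 d ^ 2 * (((nr d : ℝ) : ℂ) ^ 2)⁻¹) =
          mu d * ph (cop Q) 1 d ^ 2 *
            (Lm (cop Q) 1 (Y / nr d ^ 2) 0 - ((κ * (Y / nr d ^ 2) : ℝ) : ℂ)) := by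
        push_cast; simp only [zero_mul, Complex.cpow_zero]; ring
      rw [e3, norm_mul, mul_assoc, ← e2]
      refine (mul_le_of_le_one_left (norm_nonneg _) ?_).trans h5
      rw [← e1]; exact b1M hφ d
    · rw [if_neg hp, uM, if_neg fun h3 => hp h3.1]
      simp only [zero_mul, mul_zero, sub_zero, norm_zero]
      positivity
  have h3 := (abs_norm_sub_norm_le _ _).trans h2
  rw [L0_eq, norm_mul, Complex.norm_real, Complex.norm_real, Real.norm_of_nonneg (L0_nonneg Q Y),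
    Real.norm_of_nonneg (by positivity)] at h3
  calc _ = |L0 Q Y - κ * Y * ‖s‖| := by congr 1; ring
    _ ≤ _ := h3.trans_eq (by ring)

end L0

theorem pL0 (h0 : QF.S_F0) (hS : S_Sf) (hL : S_Lam) : S_L0 := by
  intro Q hQ h36
  obtain ⟨c, C, hc, hC, h⟩ := L0.asym h0 hS hL hQ h36
  refine ⟨c / 2, (4 * C / c) ^ 4, by positivity, fun Y hY => ?_⟩
  have hY0 : 0 < Y := lt_of_lt_of_le (by positivity) hY
  have h1 : 4 * C / c ≤ Y ^ (1 / 4 : ℝ) := by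
    have := Real.rpow_le_rpow (by positivity) hY (show (0 : ℝ) ≤ 1 / 4 by norm_num)
    rwa [← Real.rpow_natCast, ← Real.rpow_mul (by positivity), show ((4 : ℕ) : ℝ) * (1 / 4) = 1 by
      norm_num, Real.rpow_one] at this
  have hp : 0 < Y ^ (3 / 4 : ℝ) := by positivity
  have h2 : C * Y ^ (3 / 4 : ℝ) ≤ c * Y / 4 := by
    have e : Y = Y ^ (1 / 4 : ℝ) * Y ^ (3 / 4 : ℝ) := by
      rw [← Real.rpow_add hY0]; norm_num
    rw [div_le_iff₀ hc] at h1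
    have := mul_le_mul_of_nonneg_right h1 hp.le
    nlinarith
  have h3 := (abs_le.1 (h Y hY0)).1
  have hcY : 0 < c * Y := by positivity
  refine ⟨by linarith, fun y hy => ?_⟩
  have hy0 : 0 < y := lt_of_lt_of_le one_pos hy
  have h4 := (abs_le.1 (h (Y / y) (by positivity))).2
  have hq : 0 < y ^ (-(1 / 2) : ℝ) := by positivity
  have h5 : y⁻¹ ≤ y ^ (-(1 / 2) : ℝ) := by
    rw [← Real.rpow_neg_one]; exact Real.rpow_le_rpow_of_exponent_le hy (by norm_num)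
  have h6 : (Y / y) ^ (3 / 4 : ℝ) ≤ Y ^ (3 / 4 : ℝ) * y ^ (-(1 / 2) : ℝ) := by
    rw [Real.div_rpow hY0.le hy0.le, div_eq_mul_inv, ← Real.rpow_neg hy0.le]
    exact mul_le_mul_of_nonneg_left (Real.rpow_le_rpow_of_exponent_le hy (by norm_num)) hp.le
  have h7 : c * (Y / y) ≤ c * Y * y ^ (-(1 / 2) : ℝ) := by
    rw [div_eq_mul_inv, ← mul_assoc]; exact mul_le_mul_of_nonneg_left h5 hcY.le
  have h8 := mul_le_mul_of_nonneg_left h6 hC.le
  have h9 := mul_le_mul_of_nonneg_right h2 hq.le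
  have h10 := mul_le_mul_of_nonneg_right (show 3 / 4 * (c * Y) ≤ L0 Q Y by linarith) hq.le
  nlinarith [mul_pos hcY hq]

end Pool.Agent.P.MP_323ce2_nt.QM
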