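import Pool.Agent.P.MP_323ce2_nt.QM.St

/-! Crude bounds for weighted sums and for the kernels. -/

namespace Pool.Agent.P.MP_323ce2_nt.QM

open Finset Pool.Agent.P.MP_26a8c3_nt Pool.Agent.P.MP_26a8c3_nt.QO Pool.Agent.P.MP_26a8c3_nt.QA
open Pool.Agent.P.MP_323ce2_nt.QF Pool.Agent.P.MP_323ce2_nt.QX
open scoped Classical ComplexConjugate

namespace Lam

lemma one (u : O → ℂ) (Y t : ℝ) (hu : ∀ c, ‖u c‖ ≤ 1) (hY : 0 < Y) : ‖Wsum u Y t‖ ≤ 208 * Y := by
  have hs := QB.summable_W1 hu hY t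
  refine (norm_tsum_le_tsum_norm hs).trans (hs.tsum_le_of_sum_le fun s => ?_)
  refine le_trans (sum_le_sum fun c _ => ?_) ((sum_W_le nr_pos (C := 16) (fun y s hy h => ?_) hY t
    s).trans (le_of_eq (by ring)))
  · rw [norm_mul]
    exact mul_le_of_le_one_left (norm_nonneg _) (hu c)
  · rcases s.eq_empty_or_nonempty with rfl | ⟨c, hc⟩
    · simpa using hy.le
    · have h1 : (s.card : ℝ) ≤ (ball y).card := by
        exact_mod_cast card_le_card fun x hx => mem_ball.2 ((QB.N_le_nr x).trans (h x hx))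
      linarith [card_ball_le hy.le, one_le_nr c, h c hc]

lemma three {ε δ : ℝ} (hε : 0 < ε) (hδ : 0 < δ) : ∃ C : ℝ, 0 < C ∧ ∀ (m : O) (T : Finset O),
    m ≠ 0 → (∀ e ∈ T, SQ e) →
    ∑ e ∈ T, ‖jj e m‖ * dv e ^ 4 * (N e : ℝ) ^ (-(1 + δ)) ≤ C * (N m : ℝ) ^ ε := by
  obtain ⟨C, hC, H⟩ := dv_le (show 0 < ε / 5 by positivity)
  have hs := summable_dv_pow 4 (show 1 < 1 + δ by linarith)
  have h0 : ∀ n : O, 0 ≤ dv n ^ 4 * (N n : ℝ) ^ (-(1 + δ)) := fun n => by positivity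
  set K := ∑' n : O, dv n ^ 4 * (N n : ℝ) ^ (-(1 + δ))
  have K0 : 0 ≤ K := tsum_nonneg h0
  refine ⟨C ^ 5 * (K + 1), by positivity, fun m T hm hT => ?_⟩
  have d0 := dv_nonneg m
  calc _ ≤ ∑ e ∈ T, ∑ f ∈ pdiv m, if f ∣ e then
        dv m ^ 4 * (dv (quo e f) ^ 4 * (N (quo e f) : ℝ) ^ (-(1 + δ))) else 0 := by
        refine sum_le_sum fun e he => ?_
        have e0 := (hT e he).ne_zero
        rw [mul_assoc, ← sum_filter]
        refine (mul_le_mul_of_nonneg_right (QB.norm_jj_le e m) (h0 e)).trans ?_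
        rw [sum_mul]
        refine (sum_le_sum fun f hf => ?_).trans (sum_le_sum_of_subset_of_nonneg (fun f hf => ?_)
          fun f _ _ => mul_nonneg (by positivity) (h0 _))
        · obtain ⟨h1, h2⟩ := mem_filter.1 hf
          obtain ⟨h3, c, rfl⟩ := (mem_pdiv e0).1 h1
          have f0 := h3.ne_zero
          have c0 := right_ne_zero_of_mul e0
          have f1 := one_le_N f0
          have a1 : dv (f * c) ≤ dv m * dv c := (dv_mul_le f0 c0).trans
            (mul_le_mul_of_nonneg_right (dv_mono ((dvd_pow_self f two_ne_zero).trans h2) hm)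
              (dv_nonneg c))
          have a2 : (N f : ℝ) * (N f : ℝ) ^ (-(1 + δ)) ≤ 1 := by
            rw [mul_comm, ← Real.rpow_add_one (by positivity)]
            exact Real.rpow_le_one_of_one_le_of_nonpos f1 (by linarith)
          have a3 := dv_nonneg (f * c)
          rw [quo_mul f0, map_mul, Nat.cast_mul, Real.mul_rpow (by positivity) (by positivity)]
          calc _ = (N f : ℝ) * (N f : ℝ) ^ (-(1 + δ)) * dv (f * c) ^ 4 *
                (N c : ℝ) ^ (-(1 + δ)) := by ring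
            _ ≤ 1 * (dv m * dv c) ^ 4 * (N c : ℝ) ^ (-(1 + δ)) := by gcongr
            _ = _ := by ring
        · obtain ⟨h1, h2⟩ := mem_filter.1 hf
          obtain ⟨h3, h4⟩ := (mem_pdiv e0).1 h1
          exact mem_filter.2 ⟨(mem_pdiv hm).2 ⟨h3, (dvd_pow_self f two_ne_zero).trans h2⟩, h4⟩
    _ ≤ ∑ _f ∈ pdiv m, dv m ^ 4 * K := by
        rw [sum_comm]
        refine sum_le_sum fun f _ => ?_
        rw [← sum_filter, ← mul_sum, ← sum_image (s := T.filter (f ∣ ·)) (g := fun e => quo e f)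
          (f := fun n => dv n ^ 4 * (N n : ℝ) ^ (-(1 + δ))) fun a ha b hb e => ?_]
        · exact mul_le_mul_of_nonneg_left (hs.sum_le_tsum _ fun n _ => h0 n) (by positivity)
        · rw [← mul_quo (mem_filter.1 ha).2, ← mul_quo (mem_filter.1 hb).2]
          exact congrArg _ e
    _ = dv m ^ 5 * K := by rw [sum_const, nsmul_eq_mul, ← dv]; ring
    _ ≤ (C * (N m : ℝ) ^ (ε / 5)) ^ 5 * (K + 1) := by gcongr; exacts [H m hm, by linarith]
    _ = _ := by
        rw [mul_pow, ← Real.rpow_natCast (_ ^ _), ← Real.rpow_mul (Nat.cast_nonneg _)]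
        norm_num
        ring

end Lam

theorem pLam (h : QF.S_F1) : S_Lam := by
  refine ⟨⟨208, by norm_num, Lam.one⟩, fun Q h0 hQ => ?_, fun ε δ => Lam.three⟩
  obtain ⟨C, k, hC, H⟩ := h Q h0 hQ 3
  refine ⟨C + 208, k, by positivity, fun ν m R Y t δ hν hm hR hE hY d0 d1 => ?_⟩
  have b1 : ‖Lm ν m Y t‖ ≤ 208 * Y := Lam.one _ Y t (mul1_ph hν m).uL hY
  have R1 := hR.one_le
  have t1 : 1 ≤ (1 + |t|) ^ k := one_le_pow₀ (by linarith [abs_nonneg t])
  have r1 : 1 ≤ R ^ (5 / 8 : ℝ) := Real.one_le_rpow R1 (by norm_num)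
  have fin : ∀ x : ℝ, 0 ≤ x → x ≤ R ^ (5 / 8 : ℝ) * Y ^ ((1 + δ) / 2) →
      ‖Lm ν m Y t‖ ≤ 208 * x ∨ ‖Lm ν m Y t‖ ≤ C * (1 + |t|) ^ k * x →
      ‖Lm ν m Y t‖ ≤ (C + 208) * (1 + |t|) ^ k * R ^ (5 / 8 : ℝ) * Y ^ ((1 + δ) / 2) := by
    intro x x0 x1 hx
    rw [mul_assoc]
    refine le_trans ?_ (mul_le_mul_of_nonneg_left x1 (by positivity))
    have := mul_nonneg (mul_nonneg hC.le (zero_le_one.trans t1)) x0
    have := mul_le_mul_of_nonneg_right t1 x0
    rcases hx with hx | hx <;> nlinarith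
  rcases le_total Y 1 with Y1 | Y1
  · refine fin Y hY.le ?_ (Or.inl b1)
    have := Real.rpow_le_rpow_of_exponent_ge hY Y1 (show (1 + δ) / 2 ≤ 1 by linarith)
    rw [Real.rpow_one] at this
    exact this.trans (le_mul_of_one_le_left (by positivity) r1)
  have y1 : √Y ≤ Y ^ ((1 + δ) / 2) := by
    rw [Real.sqrt_eq_rpow]
    exact Real.rpow_le_rpow_of_exponent_le Y1 (by linarith)
  have y0 := Real.sqrt_pos.2 hY
  have y2 := Real.sq_sqrt hY.le
  have r8 : (R ^ (5 / 8 : ℝ)) ^ 8 = R ^ 5 := by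
    rw [← Real.rpow_natCast, ← Real.rpow_mul (by linarith), ← Real.rpow_natCast]
    norm_num
  refine fin (R ^ (5 / 8 : ℝ) * √Y) (by positivity) (by gcongr) ?_
  rcases le_total √Y (R ^ (5 / 8 : ℝ)) with c | c
  · exact Or.inl (b1.trans (by nlinarith))
  · refine Or.inr ((H ν m R Y t hν hm hR hE Y1).trans ?_)
    rw [mul_assoc]
    refine mul_le_mul_of_nonneg_left ?_ (by positivity)
    rw [div_pow, ← mul_div_assoc, div_le_iff₀ (by positivity), ← pow_add]
    generalize √Y = y at *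
    rw [← r8, ← y2]
    calc _ = R ^ (5 / 8 : ℝ) * (R ^ (5 / 8 : ℝ)) ^ 7 := by ring
      _ ≤ R ^ (5 / 8 : ℝ) * y ^ 7 := by gcongr
      _ = _ := by ring

end Pool.Agent.P.MP_323ce2_nt.QM
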