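import Pool.Agent.P.MP_323ce2_nt.QM.St

/-! The weight with marked prime divisors as a sum over squarefree levels. -/

namespace Pool.Agent.P.MP_323ce2_nt.QM

open Finset Pool.Agent.P.MP_26a8c3_nt Pool.Agent.P.MP_26a8c3_nt.QO Pool.Agent.P.MP_26a8c3_nt.QA
open Pool.Agent.P.MP_323ce2_nt.QF Pool.Agent.P.MP_323ce2_nt.QX
open scoped Classical ComplexConjugate

namespace Lev

lemma main {Q : O} {lo P : ℝ} {S : ℕ → Finset O} {φ : O → ℝ} (hP : 1 ≤ P) (l : List ℕ)
    (hl : l.Nodup) (h : Pc Q lo P l.toFinset S φ) : ∃ (T : Finset O) (F : O → ℂ),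
    (∀ D ∈ T, (SQ D ∧ (N D : ℝ) ≤ P ^ l.length ∧ ‖F D‖ ≤ 1) ∧
      ∀ q, Prime q → Primary q → q ∣ D → ∃ j ∈ l, q ∈ S j) ∧ ∀ (X : ℝ) (x : O),
      wt S φ l X x = ∑ D ∈ T, if D ∣ x then F D * W (X * N D) 0 (nr x) else 0 := by
  induction l with
  | nil =>
    refine ⟨{1}, fun _ => 1, fun D hD => ?_, fun X x => by simp [wt]⟩
    rw [mem_singleton.1 hD]
    exact ⟨⟨sq_one, by simp, by simp⟩, fun q hq _ e => absurd (isUnit_of_dvd_one e) hq.not_isUnit⟩
  | cons i l ih =>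
    obtain ⟨hi, hl'⟩ := List.nodup_cons.1 hl
    have i0 : i ∈ (i :: l).toFinset := by simp
    obtain ⟨T, F, hT, hw⟩ := ih hl' (h.mono fun j hj => by simp [List.mem_toFinset.1 hj])
    have nd : ∀ p ∈ S i, ∀ D ∈ T, ¬ p ∣ D := fun p hp D hD e => by
      obtain ⟨j, hj, hq⟩ := (hT D hD).2 p (h.pr i i0 p hp).1 (h.pr i i0 p hp).2.1 e
      exact disjoint_left.1 (h.dj i i0 j (by simp [hj]) fun e => hi (e ▸ hj)) hp hq
    have co : ∀ p ∈ S i, ∀ D ∈ T, IsCoprime p D := fun p hp D hD =>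
      (h.pr i i0 p hp).1.coprime_iff_not_dvd.2 (nd p hp D hD)
    have inj : Set.InjOn (fun y : O × O => y.1 * y.2) ↑(S i ×ˢ T) := by
      rintro ⟨p, D⟩ h1 ⟨p', D'⟩ h2 e
      obtain ⟨a1, a2⟩ := mem_product.1 (mem_coe.1 h1)
      obtain ⟨b1, b2⟩ := mem_product.1 (mem_coe.1 h2)
      obtain ⟨c1, c2, -⟩ := h.pr i i0 p a1
      obtain ⟨d1, d2, -⟩ := h.pr i i0 p' b1
      simp only at e a1 a2 b1 b2
      have e1 : p = p' := c2.eq_of_associated d2 (c1.associated_of_dvd d1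
        ((c1.dvd_or_dvd (e ▸ dvd_mul_right p D)).resolve_right (nd p a1 D' b2)))
      subst e1
      rw [mul_left_cancel₀ c1.ne_zero e]
    set F' : O → ℂ := fun x => ∑ y ∈ S i ×ˢ T, if y.1 * y.2 = x then φ y.1 * F y.2 else 0 with hF'
    have val : ∀ y ∈ S i ×ˢ T, F' (y.1 * y.2) = φ y.1 * F y.2 := fun y hy => by
      simp only [hF']
      rw [sum_eq_single y (fun z hz hne => if_neg fun e => hne (inj hz hy e))
        fun e => absurd hy e, if_pos rfl]
    refine ⟨(S i ×ˢ T).image fun y => y.1 * y.2, F', fun D hD => ?_, fun X x => ?_⟩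
    · obtain ⟨y, hy, rfl⟩ := mem_image.1 hD
      obtain ⟨a1, a2⟩ := mem_product.1 hy
      obtain ⟨c1, c2, -, -, c3⟩ := h.pr i i0 _ a1
      obtain ⟨⟨d1, d2, d3⟩, d4⟩ := hT _ a2
      refine ⟨⟨SQ.mul ⟨c2, c1.squarefree⟩ d1 (co _ a1 _ a2), ?_, ?_⟩, fun q q1 q2 e => ?_⟩
      · rw [map_mul, Nat.cast_mul, List.length_cons, pow_succ']
        gcongr
      · rw [val y hy]
        refine QB.norm_mul_le_one ?_ d3
        rw [Complex.norm_real, Real.norm_of_nonneg (h.w0 _)]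
        exact h.w1 _
      · rcases q1.dvd_or_dvd e with e | e
        · exact ⟨i, List.mem_cons_self, q2.eq_of_associated c2 (q1.associated_of_dvd c1 e) ▸ a1⟩
        · obtain ⟨j, hj, hq⟩ := d4 q q1 q2 e
          exact ⟨j, List.mem_cons_of_mem i hj, hq⟩
    · rw [sum_image inj, sum_congr rfl fun y hy => by rw [val y hy], sum_product, wt]
      refine sum_congr rfl fun p hp => ?_
      by_cases h1 : p ∣ x
      · rw [if_pos h1, hw, mul_sum]
        refine sum_congr rfl fun D hD => ?_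
        by_cases h2 : D ∣ x
        · rw [if_pos h2, if_pos ((co p hp D hD).mul_dvd h1 h2), map_mul, Nat.cast_mul, mul_assoc,
            mul_assoc]
        · rw [if_neg h2, if_neg fun e => h2 ((dvd_mul_left D p).trans e), mul_zero]
      · rw [if_neg h1]
        exact (sum_eq_zero fun D _ => if_neg fun e => h1 ((dvd_mul_right p D).trans e)).symm

end Lev

theorem pLev : S_Lev := by
  intro Q lo P l S φ hP hl h
  obtain ⟨T, F, hT, hw⟩ := Lev.main hP l hl h
  refine ⟨⟨T, F, fun D hD => (hT D hD).1, hw⟩, fun X k x hX hk hx => ?_⟩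
  have h0 := nr_pos x
  rw [hw, ← sum_filter]
  refine (norm_sum_le_of_le _ (n := fun _ => Real.exp (k ^ 2 / 4) * (X * P ^ l.length) ^ k *
    nr x ^ (-k)) fun D hD => ?_).trans ?_
  · obtain ⟨d1, d2, d3⟩ := (hT D (mem_filter.1 hD).1).1
    have d4 := N_pos_real d1.ne_zero
    rw [norm_mul]
    refine (mul_le_of_le_one_left (norm_nonneg _) d3).trans
      ((norm_W_le (by positivity) h0 0 k).trans ?_)
    gcongr
  · rw [sum_const, nsmul_eq_mul]
    refine mul_le_mul_of_nonneg_right ?_ (by positivity)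
    unfold dv
    exact_mod_cast card_le_card fun D hD =>
      (mem_pdiv hx).2 ⟨(hT D (mem_filter.1 hD).1).1.1.1, (mem_filter.1 hD).2⟩

end Pool.Agent.P.MP_323ce2_nt.QM
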