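import Pool.Agent.P.MP_323ce2_nt.QM.St
import Pool.Agent.P.MP_26a8c3_nt.QO.All

/-! The identity for one pair of arguments. -/

namespace Pool.Agent.P.MP_323ce2_nt.QM

open Finset Pool.Agent.P.MP_26a8c3_nt Pool.Agent.P.MP_26a8c3_nt.QO Pool.Agent.P.MP_26a8c3_nt.QA
open scoped Classical ComplexConjugate

namespace Loc

variable {E a b c d : O}

lemma per_psi {n R : O} (h : ∀ p, Prime p → p ∣ n → p ∣ R) : Per R (psi n) := fun x y e => by
  rw [psi_ext n, psi_ext n]
  exact ext_congr fun p hp _ hn => psi_congr ((h p hp hn).trans e)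

lemma per_rho (hE : E ≠ 0) (ha : a ∣ rd E) (hb : b ∣ rd E) : Per (rd E) (rho E a b) :=
  (per_psi fun _ hp h => (hp.dvd_or_dvd h).elim
    (fun e => (dvd_rd hE hp).2 (hp.dvd_of_dvd_pow e)) fun e => e.trans ha).conj.mul
    (per_psi fun _ _ h => h.trans hb)

lemma rho_mul (E a b x y : O) : rho E a b (x * y) = rho E a b x * rho E a b y := by
  simp only [rho, psi_mul, map_mul]; ring

lemma KK_mul (hc : SQ c) (hd : SQ d) {t : O} (h1 : IsCoprime c t) (m : O) :
    KK c d (m * t) = psi c t * conj (psi d t) * KK c d m := by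
  obtain ⟨g, a', b', rfl, rfl, hg, h⟩ := P2.exists_dec hc d
  have e := psi_mul_conj hg.ne_zero t
  rw [cop_of h1.of_mul_left_left.symm] at e
  rw [P2.KK_eq hc hd h, P2.KK_eq hc hd h, P2.kk_mul h1.of_mul_left_left,
    psi_mul_left hg.ne_zero (right_ne_zero_of_mul hc.ne_zero),
    psi_mul_left hg.ne_zero (right_ne_zero_of_mul hd.ne_zero), psi_mul, psi_mul]
  simp only [map_mul]
  linear_combination (-(kk g m * psi a' m * psi a' t * conj (psi b' m) * conj (psi b' t))) * e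

lemma xi_sq {x y : O} (hx : Od x) (hy : Od y) : xi x y * xi x y = 1 ∧ conj (xi x y) = xi x y := by
  rcases alg.gam.2.2.2.2.2.1 x y hx hy with h | h <;> simp [h]

lemma recip (hE : Primary E) (oE : Od E) (ha : SQO a) (hb : SQO b) (hc : SQO c) :
    rho E a b c * xi (E ^ 3 * a * b) c = conj (psi c E) ^ 3 * conj (psi c a) * psi c b := by
  have o3 : Od (E ^ 3 * a) := od_mul.2 ⟨IsCoprime.pow_left oE, ha.2⟩
  obtain ⟨e1, e2⟩ := xi_sq o3 hc.2
  obtain ⟨e3, -⟩ := xi_sq hb.2 hc.2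
  have hs := alg.gam.2.2.2.2.1
  rw [rho, alg.qr.2.2 _ c ((hE.pow 3).mul ha.1.1) hc.1.1 o3 hc.2,
    alg.qr.2.2 b c hb.1.1 hc.1.1 hb.2 hc.2, hs (E ^ 3 * a * b) c,
    (alg.gam.2.2.2.2.2.2.1 c hc.2).mul, hs c b, hs c (E ^ 3 * a), psi_mul, psi_pow]
  simp only [map_mul, map_pow, e2]
  linear_combination (conj (psi c E) ^ 3 * conj (psi c a) * psi c b) *
    (xi b c * xi b c * e1 + e3)

lemma gam_mul {x y : O} (hx : Od x) (hy : Od y) : gam (x * y) = gam x * gam y * xi x y := by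
  have h1 : gam x ≠ 0 := norm_ne_zero_iff.1 (by rw [alg.gam.2.2.1 x hx]; exact one_ne_zero)
  have h2 : gam y ≠ 0 := norm_ne_zero_iff.1 (by rw [alg.gam.2.2.1 y hy]; exact one_ne_zero)
  rw [xi, if_pos (od_mul.2 ⟨hx, hy⟩)]
  field_simp

lemma scal (hE : Primary E) (oE : Od E) (ha : SQO a) (hb : SQO b) (hc : SQO c) (hd : SQO d)
    (h1 : IsCoprime c E) (h2 : IsCoprime d E) (h3 : a ∣ E) (h4 : b ∣ E) :
    gam (a * c * E ^ 3 * (b * d)) * bb (a * c) * conj (bb (b * d)) * rho E a b (c * d) *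
        (conj (psi c (rd E)) * psi d (rd E)) =
      gam (E ^ 3 * a * b) * bb a * conj (bb b) *
        (psi c (tt E a b) * conj (psi d (tt E a b))) * (gam (c * d) * bb c * conj (bb d)) := by
  have oy : Od (E ^ 3 * a * b) := od_mul.2 ⟨od_mul.2 ⟨IsCoprime.pow_left oE, ha.2⟩, hb.2⟩
  have ca : IsCoprime a c := h1.symm.of_isCoprime_of_dvd_left h3
  have cb : IsCoprime b d := h2.symm.of_isCoprime_of_dvd_left h4
  have c0 := hc.1.ne_zero
  have d0 := hd.1.ne_zero
  have r1 := recip hE oE ha hb hc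
  have r2 := recip hE oE ha hb hd
  have t1 := congrArg (psi c) (rd_mul_tt E a b)
  have t2 := congrArg (fun x => conj (psi d x)) (rd_mul_tt E a b)
  simp only [psi_mul, psi_pow, map_mul, map_pow] at t1 t2
  have u1 := psi_mul_conj c0 (rd E)
  have u2 := psi_mul_conj d0 (rd E)
  have u3 := psi_mul_conj c0 a
  have u4 := psi_mul_conj d0 b
  have u5 := psi_mul_conj c0 E
  have u6 := psi_six c0 E
  rw [cop_of ((cop_rd hE.ne_zero).2 h1).symm] at u1
  rw [cop_of ((cop_rd hE.ne_zero).2 h2).symm] at u2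
  rw [cop_of ca] at u3
  rw [cop_of cb] at u4
  rw [cop_of h1.symm] at u5 u6
  have u7 : conj (psi c E) ^ 3 = psi c E ^ 3 := by
    linear_combination (-conj (psi c E) ^ 3) * u6 + psi c E ^ 3 *
      ((psi c E * conj (psi c E)) ^ 2 + psi c E * conj (psi c E) + 1) * u5
  have k1 : chi a c * (rho E a b c * xi (E ^ 3 * a * b) c) * conj (psi c (rd E)) =
      psi c (tt E a b) := by
    rw [r1, u7, alg.r1 a c ha.1.1 hc.1.1, ← psi_sq c0]
    linear_combination (-conj (psi c (rd E))) * t1 + psi c (tt E a b) * u1 +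
      (psi c a * psi c E ^ 3 * psi c b * conj (psi c (rd E))) * u3
  have k2 : conj (chi b d) * (rho E a b d * xi (E ^ 3 * a * b) d) * psi d (rd E) =
      conj (psi d (tt E a b)) := by
    rw [r2, alg.r1 b d hb.1.1 hd.1.1, ← psi_sq d0, map_pow]
    linear_combination (-psi d (rd E)) * t2 + conj (psi d (tt E a b)) * u2 +
      (conj (psi d b) * conj (psi d E) ^ 3 * conj (psi d a) * psi d (rd E)) * u4
  rw [show a * c * E ^ 3 * (b * d) = E ^ 3 * a * b * (c * d) by ring,
    gam_mul oy (od_mul.2 ⟨hc.2, hd.2⟩), (alg.gam.2.2.2.2.2.2.1 _ oy).mul, rho_mul,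
    P2.bb_mul alg.r4 ha.1.1 hc.1.1 ca, P2.bb_mul alg.r4 hb.1.1 hd.1.1 cb, ← k1, ← k2]
  simp only [map_mul]
  ring

end Loc

open Loc in
theorem pLoc (h : S_FK) : S_Loc := by
  intro E a b c d M hE oE ha hb hc hd h1 h2 hM
  have E0 := hE.ne_zero
  have sR := sq_rd hE
  have R0 := sR.ne_zero
  obtain ⟨a1, a2⟩ := (mem_pdiv R0).1 ha
  obtain ⟨b1, b2⟩ := (mem_pdiv R0).1 hb
  have sa : SQO a := ⟨⟨a1, sR.2.squarefree_of_dvd a2⟩,
    IsCoprime.of_isCoprime_of_dvd_left oE (a2.trans (rd_dvd E))⟩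
  have sb : SQO b := ⟨⟨b1, sR.2.squarefree_of_dvd b2⟩,
    IsCoprime.of_isCoprime_of_dvd_left oE (b2.trans (rd_dvd E))⟩
  have a0 := a1.ne_zero
  have b0 := b1.ne_zero
  have c0 := hc.1.ne_zero
  have d0 := hd.1.ne_zero
  have ht := rd_mul_tt E a b
  have t0 : tt E a b ≠ 0 := fun e => by
    rw [e, mul_zero] at ht
    exact mul_ne_zero (mul_ne_zero (pow_ne_zero 3 E0) a0) b0 ht.symm
  have ct : IsCoprime c (tt E a b) := IsCoprime.of_isCoprime_of_dvd_right
    (((h1.pow_right (n := 3)).mul_right (h1.of_isCoprime_of_dvd_right (a2.trans (rd_dvd E)))).mul_right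
      (h1.of_isCoprime_of_dvd_right (b2.trans (rd_dvd E)))) (Dvd.intro_left _ ht)
  have cR : IsCoprime (rd E) (c * d) :=
    ((cop_rd E0).2 h1).symm.mul_right ((cop_rd E0).2 h2).symm
  have pR := per_rho E0 a2 b2
  have pc : Per (c * d) fun x => conj (psi c x) * psi d x := fun x y e => by
    simp only [psi_congr ((dvd_mul_right c d).trans e), psi_congr ((dvd_mul_left d c).trans e)]
  have nE := N_pos_real E0
  have na := N_pos_real a0
  have nb := N_pos_real b0
  have nc := N_pos_real c0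
  have nd := N_pos_real d0
  have nR := N_pos_real R0
  have nt : (N (tt E a b) : ℝ) = (N E : ℝ) ^ 3 * N a * N b / N (rd E) := by
    have := congrArg (fun x => (N x : ℝ)) ht
    simp only [map_mul, map_pow, Nat.cast_mul, Nat.cast_pow] at this
    rw [eq_div_iff nR.ne', mul_comm, this]
  have nx : (0 : ℝ) < N (a * c * E ^ 3) * N (b * d) := by
    simp only [map_mul, map_pow]; push_cast; positivity
  have hP := alg.poi (rd E * (c * d)) (fun x => rho E a b x * (conj (psi c x) * psi d x))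
    (N (a * c * E ^ 3) * N (b * d) / M) (mul_ne_zero R0 (mul_ne_zero c0 d0))
    ((pR.mono (dvd_mul_right _ _)).mul (pc.mono (dvd_mul_left _ _))) (div_pos nx hM)
  have e1 : ∀ x : O, conj (psi (a * c * E ^ 3) x) * psi (b * d) x *
      (G (M * N x / (N (a * c * E ^ 3) * N (b * d))) : ℝ) =
      rho E a b x * (conj (psi c x) * psi d x) *
        (G (N x / (N (a * c * E ^ 3) * N (b * d) / M)) : ℝ) := fun x => by
    rw [show a * c * E ^ 3 = E ^ 3 * a * c by ring,
      psi_mul_left (mul_ne_zero (pow_ne_zero 3 E0) a0) c0, psi_mul_left b0 d0, rho, map_mul,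
      div_div_eq_mul_div, mul_comm M]
    ring
  have e2 : ∀ m : O, om E a b m * KK c d m * (G (N m / M) : ℝ) = if tt E a b ∣ m then
      om E a b m * KK c d m * (G (N m / M) : ℝ) else 0 := fun m => by
    split_ifs with e
    · rfl
    · rw [om, if_neg e, zero_mul, zero_mul]
  simp only [e1]
  rw [hP, tsum_congr e2, tsum_ite_dvd0 t0, ← (Equiv.neg O).tsum_eq
    fun x => om E a b (tt E a b * x) * KK c d (tt E a b * x) * (G (N (tt E a b * x) / M) : ℝ),
    ← tsum_mul_left, ← tsum_mul_left, ← tsum_mul_left]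
  refine tsum_congr fun m => ?_
  have e3 : (N (a * c * E ^ 3) * N (b * d) / M * N m / N (rd E * (c * d)) : ℝ) =
      N (tt E a b * -m) / M := by
    have : N (-m) = N m := N_assoc (Associated.refl m).neg_left
    simp only [map_mul, map_pow, this]
    push_cast
    rw [nt]
    field_simp
  have e4 : ((M / (ab (a * c * E ^ 3) * ab (b * d)) : ℝ) : ℂ) * ab E *
      ((N (a * c * E ^ 3) * N (b * d) / M / N (rd E * (c * d)) : ℝ) : ℂ) * (ab c * ab d) =
      (((N E : ℝ) ^ 2 * (ab a * ab b) / N (rd E) : ℝ) : ℂ) := by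
    have := ab_pos E0
    have := ab_pos a0
    have := ab_pos b0
    have := ab_pos c0
    have := ab_pos d0
    norm_cast
    simp only [map_mul, map_pow, ab_mul, ab_pow]
    push_cast
    rw [← ab_sq a, ← ab_sq b, ← ab_sq c, ← ab_sq d, ← ab_sq E]
    field_simp
  have e5 := scal hE oE sa sb hc hd h1 h2 (a2.trans (rd_dvd E)) (b2.trans (rd_dvd E))
  have e6 := h c d m hc hd
  rw [Equiv.neg_apply, ft_crt' R0 (mul_ne_zero c0 d0) cR pR pc, e3, om,
    if_pos (dvd_mul_right _ _), quo_mul t0, neg_neg, mul_comm (tt E a b) (-m),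
    KK_mul hc.1 hd.1 ct, ← e4]
  simp only [rho_mul E a b (c * d), psi_mul _ (rd E), map_mul (starRingEnd ℂ)]
  have e7 : (fun x => conj (psi c (rd E)) * conj (psi c x) * (psi d (rd E) * psi d x)) =
      fun x => conj (psi c (rd E)) * psi d (rd E) * (conj (psi c x) * psi d x) := by
    funext x; ring
  rw [e7, ft_mul_left, ft_mul_left]
  generalize ((M / (ab (a * c * E ^ 3) * ab (b * d)) : ℝ) : ℂ) = x₁
  generalize ((N (a * c * E ^ 3) * N (b * d) / M / N (rd E * (c * d)) : ℝ) : ℂ) = x₂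
  generalize ((G (N (-m * tt E a b) / M) : ℝ) : ℂ) = x₃
  generalize ft (rho E a b) (rd E) m = x₄
  generalize ft (fun x => conj (psi c x) * psi d x) (c * d) m = x₅ at e6
  linear_combination (x₁ * x₂ * x₃ * x₄ * ang E ^ 3 * ab E) * (x₅ * e5 +
    gam (E ^ 3 * a * b) * bb a * conj (bb b) * (psi c (tt E a b) * conj (psi d (tt E a b))) * e6)

end Pool.Agent.P.MP_323ce2_nt.QM
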