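import Pool.Agent.P.MP_323ce2_nt.QM.St

/-! The row zero. -/

namespace Pool.Agent.P.MP_323ce2_nt.QM

open Finset Pool.Agent.P.MP_26a8c3_nt Pool.Agent.P.MP_26a8c3_nt.QO Pool.Agent.P.MP_26a8c3_nt.QA
open scoped Classical ComplexConjugate

namespace M0

lemma psi_zero {c : O} (hc : SQ c) (h : c ≠ 1) : psi c 0 = 0 :=
  (psi_eq_zero hc.ne_zero).2 fun e => h (hc.1.eq_one_of_isUnit (isCoprime_zero_left.1 e))

lemma Ug_zero (u : O → ℂ) (g : O) : ‖Ug u g 0‖ ≤ ‖u g‖ := by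
  rw [Ug, tsum_eq_single 1 fun c hc => by
    split_ifs with h
    · rw [psi_zero h.1 hc, mul_zero, zero_mul]
    · rfl]
  split_ifs
  · rw [mul_one, norm_mul]
    exact mul_le_of_le_one_left (norm_nonneg _)
      (QB.norm_mul_le_one (norm_mu_le _) (norm_psi_le _ _))
  · simp

lemma Lg_zero (v : O → ℂ) (g : O) : ‖Lg v g 0‖ ≤ ‖v g‖ := by
  rw [Lg, tsum_eq_single 1 fun c hc => by
    split_ifs with h
    · rw [psi_zero h.1 hc, zero_mul]
    · rfl]
  split_ifs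
  · rw [mul_one, norm_mul]
    exact mul_le_of_le_one_left (norm_nonneg _) (norm_psi_le _ _)
  · simp

/-- indicator of the divisors of the radical -/
noncomputable def ind (E a : O) : ℝ := if a ∈ pdiv (rd E) then 1 else 0

/-- the majorant -/
noncomputable def maj (s : ℝ) (σ : O × O × O × O) : ℝ :=
  (N σ.1 : ℝ) ^ (-s) * (ind σ.1 σ.2.1 * (ind σ.1 σ.2.2.1 * (dv σ.2.2.2 * (N σ.2.2.2 : ℝ) ^ (-s))))

lemma ind_nonneg (E a : O) : 0 ≤ ind E a := by unfold ind; positivity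

lemma maj_nonneg (s : ℝ) (σ : O × O × O × O) : 0 ≤ maj s σ := by
  have := ind_nonneg σ.1 σ.2.1
  have := ind_nonneg σ.1 σ.2.2.1
  have := dv_nonneg σ.2.2.2
  unfold maj; positivity

lemma sum_ind {E : O} (hE : E ≠ 0) (B : Finset O) : ∑ a ∈ B, ind E a ≤ dv E := by
  refine le_trans ?_ (dv_mono (rd_dvd E) hE)
  simp only [ind, sum_boole, dv, Nat.cast_le]
  exact card_le_card fun a ha => (mem_filter.1 ha).2

lemma sum_maj {s : ℝ} (hs : 1 < s) : ∃ C : ℝ, 0 < C ∧ ∀ T : Finset (O × O × O × O),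
    ∑ σ ∈ T, maj s σ ≤ C := by
  have h1 := summable_dv_pow 1 hs
  have h2 := summable_dv_pow 2 hs
  have n1 : ∀ (k : ℕ) (n : O), 0 ≤ dv n ^ k * (N n : ℝ) ^ (-s) := fun k n => by
    have := dv_nonneg n; positivity
  have t1 : 0 ≤ ∑' n : O, dv n ^ 1 * (N n : ℝ) ^ (-s) := tsum_nonneg (n1 1)
  have t2 : 0 ≤ ∑' n : O, dv n ^ 2 * (N n : ℝ) ^ (-s) := tsum_nonneg (n1 2)
  refine ⟨(∑' n : O, dv n ^ 2 * (N n : ℝ) ^ (-s)) * (∑' n : O, dv n ^ 1 * (N n : ℝ) ^ (-s)) + 1,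
    by positivity, fun T => ?_⟩
  have hT : T ⊆ T.image (·.1) ×ˢ T.image (·.2.1) ×ˢ T.image (·.2.2.1) ×ˢ T.image (·.2.2.2) :=
    fun σ h => by
      simp only [mem_product]
      exact ⟨mem_image_of_mem _ h, mem_image_of_mem _ h, mem_image_of_mem _ h, mem_image_of_mem _ h⟩
  refine (sum_le_sum_of_subset_of_nonneg hT fun σ _ _ => maj_nonneg s σ).trans ?_
  simp only [sum_product, maj, ← mul_sum, ← sum_mul]
  refine le_trans ?_ (le_add_of_nonneg_right zero_le_one)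
  have a1 : ∑ e ∈ T.image (·.2.2.2), dv e * (N e : ℝ) ^ (-s) ≤
      ∑' n : O, dv n ^ 1 * (N n : ℝ) ^ (-s) := by
    simpa only [pow_one] using h1.sum_le_tsum _ fun n _ => n1 1 n
  have a0 : 0 ≤ ∑ e ∈ T.image (·.2.2.2), dv e * (N e : ℝ) ^ (-s) :=
    sum_nonneg fun n _ => by simpa only [pow_one] using n1 1 n
  refine le_trans (sum_le_sum fun E _ => ?_) ((sum_mul _ _ _).ge.trans
    (mul_le_mul_of_nonneg_right (h2.sum_le_tsum _ fun n _ => n1 2 n) t1))
  rcases eq_or_ne E 0 with rfl | hE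
  · rw [map_zero, Nat.cast_zero, Real.zero_rpow (by linarith)]; simp
  have b1 := sum_ind hE (T.image (·.2.1))
  have b2 := sum_ind hE (T.image (·.2.2.1))
  have b3 : 0 ≤ ∑ a ∈ T.image (·.2.2.1), ind E a := sum_nonneg fun a _ => ind_nonneg E a
  have := dv_nonneg E
  refine (mul_le_mul_of_nonneg_left (mul_le_mul b1 (mul_le_mul b2 a1 a0 this)
    (mul_nonneg b3 a0) this) (by positivity)).trans (le_of_eq ?_)
  ring

lemma ab_le {a : O} (h : a ≠ 0) : ab a ≤ N a := by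
  have := QO.one_le_N h
  rw [ab_eq]; exact Real.sqrt_le_iff.2 ⟨by linarith, by nlinarith⟩

end M0

open M0 in
theorem pM0 (h : S_Om) : S_M0 := by
  intro ε hε
  obtain ⟨C, hC, H⟩ := sum_maj (s := 1 + ε) (by linarith)
  refine ⟨C, hC, fun u v K K' hu hv => ?_⟩
  have hK : 0 ≤ K := by simpa [nr] using (norm_nonneg _).trans (hu 0)
  have hK' : 0 ≤ K' := by simpa [nr] using (norm_nonneg _).trans (hv 0)
  have hs : Summable (maj (1 + ε)) := summable_of_sum_le (maj_nonneg _) H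
  refine (tsum_of_norm_bounded (hs.mul_left (K * K')).hasSum fun σ => ?_).trans ?_
  · obtain ⟨E, a, b, e⟩ := σ
    unfold TS
    split_ifs with hσ
    swap
    · rw [norm_zero]; exact mul_nonneg (mul_nonneg hK hK') (maj_nonneg _ _)
    obtain ⟨h1, h2, h3, h4, h5, -⟩ := hσ
    dsimp only at h1 h2 h3 h4 h5 ⊢
    have r0 := (sq_rd h1).ne_zero
    have E0 := h1.ne_zero
    have a0 := ((mem_pdiv r0).1 h3).1.ne_zero
    have b0 := ((mem_pdiv r0).1 h4).1.ne_zero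
    have e0 := h5.ne_zero
    have nE := QO.one_le_N E0
    have na := QO.one_le_N a0
    have nb := QO.one_le_N b0
    have ne := QO.one_le_N e0
    have c1 : ‖om E a b 0‖ ≤ (N E : ℝ) ^ 2 * (N a * N b) := (h.2 E a b 0 h1 h2 h3 h4).1.trans
      (by have := ab_nonneg b; have := ab_le a0; have := ab_le b0; gcongr)
    have c2 := QB.norm_jj_le' e0 0
    have c3 : ‖Ug u (E ^ 3 * a * e) 0‖ ≤
        K * ((N E : ℝ) ^ (-(1 + ε)) * ((N E : ℝ) ^ 2)⁻¹ * (N a : ℝ)⁻¹ * (N e : ℝ) ^ (-(1 + ε))) := by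
      refine (Ug_zero _ _).trans ((hu _).trans (mul_le_mul_of_nonneg_left ?_ hK))
      rw [nr_eq (mul_ne_zero (mul_ne_zero (pow_ne_zero _ E0) a0) e0), map_mul, map_mul, map_pow,
        pow_succ', Nat.cast_mul, Nat.cast_mul, Nat.cast_mul, Nat.cast_pow,
        Real.mul_rpow (by positivity) (by positivity), Real.mul_rpow (by positivity) (by positivity),
        Real.mul_rpow (by positivity) (by positivity), ← Real.rpow_neg_one, ← Real.rpow_neg_one]
      gcongr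
      · exact one_le_pow₀ nE
      all_goals linarith
    have c4 : ‖conj (Lg v (b * e) 0)‖ ≤ K' * ((N b : ℝ) * N e)⁻¹ := by
      rw [Complex.norm_conj]
      refine (Lg_zero _ _).trans ((hv _).trans (le_of_eq ?_))
      rw [nr_eq (mul_ne_zero b0 e0), map_mul, Nat.cast_mul]
    have := dv_nonneg e
    rw [norm_mul, norm_mul, norm_mul, norm_mul]
    calc _ ≤ (N E : ℝ) ^ 2 * (N a * N b) * 1 * (dv e * N e) * (K * ((N E : ℝ) ^ (-(1 + ε)) *
          ((N E : ℝ) ^ 2)⁻¹ * (N a : ℝ)⁻¹ * (N e : ℝ) ^ (-(1 + ε))) * (K' * ((N b : ℝ) * N e)⁻¹)) := by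
          gcongr
          exact norm_mu_le b
      _ = _ := by simp only [maj, ind, if_pos h3, if_pos h4]; field_simp
  · rw [tsum_mul_left, mul_assoc C, mul_comm C]
    exact mul_le_mul_of_nonneg_left (hs.tsum_le_of_sum_le H) (mul_nonneg hK hK')

end Pool.Agent.P.MP_323ce2_nt.QM
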