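import Pool.Agent.P.MP_323ce2_nt.QM.St
import Pool.Agent.P.MP_323ce2_nt.QW.Prm
import Pool.Agent.P.MP_26a8c3_nt.QO.All

/-! The size of the weights of the states. -/

namespace Pool.Agent.P.MP_323ce2_nt.QM

open Finset Pool.Agent.P.MP_26a8c3_nt Pool.Agent.P.MP_26a8c3_nt.QO Pool.Agent.P.MP_26a8c3_nt.QA
open scoped Classical ComplexConjugate

namespace Om

lemma pow_ind {P : O → Prop} (h1 : P 1) (h2 : ∀ (p a : O) (v : ℕ), Prime p → Primary p →
    Primary a → ¬ p ∣ a → P a → P (p ^ (v + 1) * a)) {E : O} (hE : Primary E) : P E := by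
  induction hn : N E using Nat.strong_induction_on generalizing E with
  | _ n ih =>
    have : E = 1 ∨ ∃ p a, Prime p ∧ Primary p ∧ Primary a ∧ E = p * a :=
      primary_ind (P := fun E => E = 1 ∨ ∃ p a, Prime p ∧ Primary p ∧ Primary a ∧ E = p * a)
        (Or.inl rfl) (fun p a k1 k2 k3 _ => Or.inr ⟨p, a, k1, k2, k3, rfl⟩) hE
    rcases this with rfl | ⟨p, a, k1, k2, k3, rfl⟩
    · exact h1
    obtain ⟨v, b, k4, rfl⟩ := WfDvdMonoid.max_power_factor k3.ne_zero k1.irreducible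
    have k5 := k3.of_mul (k2.pow v)
    rw [← mul_assoc, ← pow_succ']
    refine h2 p b v k1 k2 k5 k4 (ih _ ?_ k5 rfl)
    have k6 := N_le_of_dvd (dvd_mul_left b (p ^ v)) k3.ne_zero
    have k7 := two_le_N k1
    have k8 : 1 ≤ N b := by exact_mod_cast one_le_N k5.ne_zero
    rw [← hn, map_mul]
    nlinarith

lemma split {p R a : O} (hp : Prime p) (h1 : Primary p) (hR : R ≠ 0) (ha : a ∈ pdiv (p * R)) :
    ∃ (i : ℕ) (b : O), i ≤ 1 ∧ b ∈ pdiv R ∧ a = p ^ i * b := by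
  obtain ⟨k1, k2⟩ := (mem_pdiv (mul_ne_zero hp.ne_zero hR)).1 ha
  by_cases h : p ∣ a
  · obtain ⟨b, rfl⟩ := h
    exact ⟨1, b, le_rfl, (mem_pdiv hR).2 ⟨k1.of_mul h1,
      (mul_dvd_mul_iff_left hp.ne_zero).1 k2⟩, by rw [pow_one]⟩
  · exact ⟨0, a, zero_le_one, (mem_pdiv hR).2
      ⟨k1, (hp.coprime_iff_not_dvd.2 h).symm.dvd_of_dvd_mul_left k2⟩, by simp⟩

/-- the local factor -/
lemma loc {p : O} (hp : Prime p) (h1 : Primary p) (h2 : Od p) {v i j : ℕ} (hi : i ≤ 1) (hj : j ≤ 1)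
    (h : O) : ∃ κ e f : ℕ, κ ≤ v + 1 ∧ p ^ e ∣ h ∧ 6 * κ + 1 ≤ 3 * (v + 1) + i + j + e ∧
      5 * κ + 1 ≤ 3 * (v + 1) + i ∧ v + 1 + f ≤ 2 * κ + 2 ∧
      ‖ft (fun x => psi p x ^ (5 * (3 * (v + 1) + i) + j)) p h‖ ≤ ab p ^ f := by
  have p0 := hp.ne_zero
  obtain ⟨u, hu⟩ := Nat.even_or_odd' (v + 1)
  have hi' : i = 0 ∨ i = 1 := by omega
  have hj' : j = 0 ∨ j = 1 := by omega
  by_cases h6 : 6 ∣ 5 * (3 * (v + 1) + i) + j
  · obtain ⟨n, hn⟩ := h6
    have hv : v + 1 = 2 * u := by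
      rcases hu with hu | hu <;> rcases hi' with rfl | rfl <;> rcases hj' with rfl | rfl <;> omega
    have e : (fun x => psi p x ^ (5 * (3 * (v + 1) + i) + j)) = cop p := by
      funext x
      rw [hn, pow_mul, psi_six p0, cop]
      split_ifs
      · exact one_pow _
      · exact zero_pow (by omega)
    rw [e, alg.ft.2.2.2.2.1 p h hp]
    by_cases hd : p ∣ h
    · refine ⟨u, 1, 2, by omega, by simpa using hd, by omega, by omega, by omega, ?_⟩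
      have := one_le_N p0
      rw [if_pos hd, ab_sq, ← Complex.ofReal_natCast, ← Complex.ofReal_one, ← Complex.ofReal_sub,
        Complex.norm_real, Real.norm_of_nonneg (by linarith)]
      linarith
    · exact ⟨u - 1, 0, 0, by omega, by simp, by omega, by omega, by omega, by simp [hd]⟩
  · obtain ⟨k1, k2⟩ := alg.ft.2.2.2.2.2 p h _ hp ((isNu_psi p0).pow' (by omega))
      ((alg.ord p _ hp h1).2 h2 h6)
    refine ⟨u, 0, 1, by omega, by simp, ?_, by omega, by omega, ?_⟩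
    · rcases hu with hu | hu <;> rcases hi' with rfl | rfl <;> rcases hj' with rfl | rfl <;> omega
    rw [k1, norm_mul, k2, pow_one, Complex.norm_conj, norm_pow]
    exact mul_le_of_le_one_left (ab_nonneg p) (pow_le_one₀ (norm_nonneg _) (norm_psi_le _ _))

lemma key {E : O} (hE : Primary E) : Od E → ∀ a ∈ pdiv (rd E), ∀ b ∈ pdiv (rd E),
    IsNu (rd E) (rho E a b) ∧ ∀ h, ∃ k, Primary k ∧ k ∣ E ∧ k ^ 6 * rd E ∣ E ^ 3 * a * b * h ∧
      (N k : ℝ) ^ 5 * N (rd E) ≤ N a * (N E : ℝ) ^ 3 ∧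
      ab E * ‖ft (rho E a b) (rd E) h‖ ≤ N k * N (rd E) := by
  refine pow_ind (P := fun E => Od E → ∀ a ∈ pdiv (rd E), ∀ b ∈ pdiv (rd E),
    IsNu (rd E) (rho E a b) ∧ ∀ h, ∃ k, Primary k ∧ k ∣ E ∧ k ^ 6 * rd E ∣ E ^ 3 * a * b * h ∧
      (N k : ℝ) ^ 5 * N (rd E) ≤ N a * (N E : ℝ) ^ 3 ∧
      ab E * ‖ft (rho E a b) (rd E) h‖ ≤ N k * N (rd E)) ?_ ?_ hE
  · intro _ a ha b hb
    rw [rd_one] at ha hb ⊢
    have e : ∀ a ∈ pdiv 1, a = 1 := fun a ha =>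
      (((mem_pdiv one_ne_zero).1 ha).1).eq_one_of_isUnit
        (isUnit_of_dvd_one ((mem_pdiv one_ne_zero).1 ha).2)
    obtain rfl := e a ha
    obtain rfl := e b hb
    have r1 : ∀ x, rho 1 1 1 x = 1 := fun x => by simp [rho]
    exact ⟨(QW.PrmP.prim_one r1).nu, fun h => ⟨1, primary_one, dvd_rfl, by simp, by simp,
      by simp [QW.PrmP.ft_one r1]⟩⟩
  intro p E v hp h1 hE hpE ih ho a ha b hb
  have p0 := hp.ne_zero
  have E0 := hE.ne_zero
  have R0 := (sq_rd hE).ne_zero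
  obtain ⟨o1, o2⟩ := od_mul.1 ho
  have op : Od p := o1.of_isCoprime_of_dvd_left (dvd_pow_self p (by omega))
  have c := hp.coprime_iff_not_dvd.2 hpE
  have cR : IsCoprime p (rd E) := (cop_rd E0).2 c
  have eR : rd (p ^ (v + 1) * E) = p * rd E := by
    rw [rd_mul c.pow_left, rd, UniqueFactorizationMonoid.radical_pow_of_prime hp (by omega),
      h1.normalize]
  rw [eR] at ha hb ⊢
  replace ha := split hp h1 R0 ha
  replace hb := split hp h1 R0 hb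
  obtain ⟨i, a, hi, ha, rfl⟩ := ha
  obtain ⟨j, b, hj, hb, rfl⟩ := hb
  obtain ⟨n1, n2⟩ := ih o2 a ha b hb
  have a0 := ((mem_pdiv R0).1 ha).1.ne_zero
  have b0 := ((mem_pdiv R0).1 hb).1.ne_zero
  have e : rho (p ^ (v + 1) * E) (p ^ i * a) (p ^ j * b) =
      fun x => psi p x ^ (5 * (3 * (v + 1) + i) + j) * rho E a b x := by
    funext x
    rw [rho, rho, show (p ^ (v + 1) * E) ^ 3 * (p ^ i * a) = p ^ (3 * (v + 1) + i) * (E ^ 3 * a) by
      ring, psi_mul_left (pow_ne_zero _ p0) (mul_ne_zero (pow_ne_zero _ E0) a0),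
      psi_mul_left (pow_ne_zero _ p0) b0, psi_pow_left, psi_pow_left, map_mul, map_pow,
      conj_psi p0]
    ring
  have n0 := (isNu_psi p0).pow' (k := 5 * (3 * (v + 1) + i) + j) (by omega)
  rw [e]
  refine ⟨QW.PrmP.isNu_mul n0 n1, fun h => ?_⟩
  obtain ⟨k, k1, k2, k3, k4, k5⟩ := n2 h
  obtain ⟨κ, e, f, l1, l2, l3, l4, l5, l6⟩ := loc hp h1 op (v := v) hi hj h
  have x1 : (1 : ℝ) ≤ N p := one_le_N p0
  have x2 : 1 ≤ ab p := by rw [ab_eq]; exact Real.one_le_sqrt.2 x1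
  refine ⟨p ^ κ * k, (h1.pow κ).mul k1, mul_dvd_mul (pow_dvd_pow p l1) k2, ?_, ?_, ?_⟩
  · rw [show (p ^ κ * k) ^ 6 * (p * rd E) = p ^ (6 * κ + 1) * (k ^ 6 * rd E) by ring]
    refine IsCoprime.mul_dvd
      ((((c.of_isCoprime_of_dvd_right k2).pow_right).mul_right cR).pow_left) ?_ ?_
    · obtain ⟨y, rfl⟩ := l2
      exact (pow_dvd_pow p l3).trans ⟨E ^ 3 * a * b * y, by ring⟩
    · exact k3.trans ⟨p ^ (3 * (v + 1) + i + j), by ring⟩
  · simp only [map_mul, map_pow, Nat.cast_mul, Nat.cast_pow]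
    calc _ = (N p : ℝ) ^ (5 * κ + 1) * ((N k : ℝ) ^ 5 * N (rd E)) := by ring
      _ ≤ (N p : ℝ) ^ (3 * (v + 1) + i) * (N a * (N E : ℝ) ^ 3) := by gcongr
      _ = _ := by ring
  · rw [QW.PrmP.norm_ft_mul alg p0 R0 cR n0 n1, ab_mul, ab_pow]
    simp only [map_mul, map_pow, Nat.cast_mul, Nat.cast_pow]
    have := ab_nonneg E
    calc _ ≤ ab p ^ (v + 1) * ab E * (ab p ^ f * ‖ft (rho E a b) (rd E) h‖) := by gcongr
      _ = ab p ^ (v + 1 + f) * (ab E * ‖ft (rho E a b) (rd E) h‖) := by ring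
      _ ≤ ab p ^ (2 * κ + 2) * (N k * N (rd E)) := by gcongr
      _ = _ := by rw [← ab_sq p]; ring

end Om

theorem pOm : S_Om := by
  refine ⟨fun m => ?_, fun E a b m hE ho ha hb => ?_⟩
  · have e : tt 1 1 1 = 1 := by simpa [rd_one] using rd_mul_tt 1 1 1
    rw [om, e, if_pos (one_dvd _), rd_one, QW.PrmP.ft_one fun x => by simp [rho]]
    simp [alg.gam.1, bb, alg.r4.1]
  have hR := sq_rd hE
  have R0 := N_pos_real hR.ne_zero
  have so : ∀ a ∈ pdiv (rd E), SQO a := fun a ha => by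
    obtain ⟨k1, k2⟩ := (mem_pdiv hR.ne_zero).1 ha
    exact ⟨⟨k1, hR.2.squarefree_of_dvd k2⟩, ho.of_isCoprime_of_dvd_left (k2.trans (rd_dvd E))⟩
  obtain ⟨n1, n2⟩ := Om.key hE ho a ha b hb
  have a0 := ab_nonneg a
  have b0 := ab_nonneg b
  by_cases hm : tt E a b ∣ m
  swap
  · rw [om, if_neg hm, norm_zero]
    exact ⟨by positivity, fun h => absurd rfl h⟩
  have e : ‖om E a b m‖ = (N E : ℝ) ^ 2 * (ab a * ab b) / N (rd E) *
      ‖ft (rho E a b) (rd E) (-quo m (tt E a b))‖ := by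
    rw [om, if_pos hm, norm_mul, norm_mul, norm_mul, norm_mul, norm_mul, Complex.norm_conj, norm_pow,
      alg.gam.2.2.1 _ (od_mul.2 ⟨od_mul.2 ⟨IsCoprime.pow_left ho, (so a ha).2⟩, (so b hb).2⟩),
      norm_ang hE.ne_zero, P2.norm_bb alg.r4 (so a ha), P2.norm_bb alg.r4 (so b hb),
      Complex.norm_real, Real.norm_of_nonneg (by positivity)]
    ring
  refine ⟨?_, fun _ => ⟨dvd_trans ?_ hm, ?_⟩⟩
  · rw [e, div_mul_eq_mul_div, div_le_iff₀ R0]
    gcongr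
    simpa using norm_ft_le hR.ne_zero n1.le _
  · obtain ⟨y, hy⟩ := rd_dvd E
    refine ⟨y * E * a * b, mul_left_cancel₀ hR.ne_zero ?_⟩
    rw [rd_mul_tt]
    linear_combination (E ^ 2 * a * b) * hy
  · obtain ⟨k, k1, -, k3, k4, k5⟩ := n2 (-quo m (tt E a b))
    refine ⟨k, k1, ?_, k4, ?_⟩
    · rw [← rd_mul_tt, mul_assoc, mul_neg, mul_quo hm, mul_comm,
        mul_dvd_mul_iff_left hR.ne_zero, dvd_neg] at k3
      exact k3
    · have := ab_nonneg E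
      rw [e, div_mul_eq_mul_div, div_le_iff₀ R0, ← ab_sq E]
      calc _ = ab E ^ 3 * (ab a * ab b) * (ab E * ‖ft (rho E a b) (rd E) (-quo m (tt E a b))‖) := by
            ring
        _ ≤ ab E ^ 3 * (ab a * ab b) * (N k * N (rd E)) := by gcongr
        _ = _ := by ring

end Pool.Agent.P.MP_323ce2_nt.QM
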