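import Pool.Agent.P.MP_323ce2_nt.QM.St

/-! Separation of variables. -/

namespace Pool.Agent.P.MP_323ce2_nt.QM

open Finset Pool.Agent.P.MP_26a8c3_nt Pool.Agent.P.MP_26a8c3_nt.QO Pool.Agent.P.MP_26a8c3_nt.QA
open Pool.Agent.P.MP_323ce2_nt.QF Pool.Agent.P.MP_323ce2_nt.QX
open scoped Classical ComplexConjugate

theorem pSep : S_Sep := by
  intro ε k hε
  set e := min ε 1 with he
  have e0 : 0 < e := lt_min hε one_pos
  have g1 : 0 ≤ GK e k := GK_nonneg _ _
  have g2 : 0 ≤ GK 13 k := GK_nonneg _ _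
  refine ⟨GK e k + GK 13 k * (2 ^ 11 * 2) + 1, by positivity, ?_⟩
  intro H ι κ _ _ s n α β x y c V Λ b hx hy hc hV hΛ hle hb hs hD
  have term : ∀ j : ℕ, ((2 : ℝ) ^ j) ^ (-(13 : ℝ)) * (b * Λ ^ (13 : ℝ) * (2 ^ (j + 1)) ^ 11) =
      b * Λ ^ (13 : ℝ) * 2 ^ 11 * (1 / 4) ^ j := fun j => by
    have h4 : (1 / 4 : ℝ) ^ j = (((2 : ℝ) ^ j) ^ 2)⁻¹ := by
      rw [← pow_mul, mul_comm j, pow_mul, one_div, inv_pow]
      norm_num
    rw [Real.rpow_neg (by positivity), show (13 : ℝ) = ((13 : ℕ) : ℝ) by norm_num,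
      Real.rpow_natCast, Real.rpow_natCast, h4, pow_succ (2 : ℝ) j]
    field_simp
  have geo := hasSum_geometric_of_lt_one (r := (1 / 4 : ℝ)) (by norm_num) (by norm_num)
  have main := sep_dyadic (α := α) (β := β) hx hy (ε := e) (σ := 13) (b0 := b * Λ ^ e)
    (b := fun j => b * Λ ^ (13 : ℝ) * (2 ^ (j + 1)) ^ 11) (k := k) e0 (by norm_num) hc hV s
    (N := n) (fun h hh => (hs h hh).1) (fun h hh => ((hs h hh).2 _).1)
    (fun h hh => ((hs h hh).2 _).2) (fun h hh => ((hs h hh).2 _).1)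
    (fun h hh => ((hs h hh).2 _).2)
    (fun t ht hl u => by
      simpa using hD e 1 u t e0.le ((min_le_right _ _).trans (by norm_num)) le_rfl ht
        fun h hh => by simpa using hl h hh)
    (fun j t ht hl u => hD 13 _ u t (by norm_num) le_rfl (one_le_pow₀ one_le_two) ht
      fun h hh => (hl h hh).2)
    (by simp only [term]; exact geo.summable.mul_left _)
  simp only [term] at main
  rw [tsum_mul_left, geo.tsum_eq] at main
  have v1 : 1 ≤ (1 + V) ^ ε := Real.one_le_rpow (by linarith) hε.le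
  have a1 : c ^ (-e) * (b * Λ ^ e) ≤ (1 + V) ^ ε * b := by
    have h1 : Λ ^ e ≤ c ^ e * (1 + V) ^ ε := by
      refine (Real.rpow_le_rpow hΛ.le hle e0.le).trans ?_
      rw [Real.mul_rpow hc.le hV.le]
      exact mul_le_mul_of_nonneg_left ((Real.rpow_le_rpow hV.le (by linarith) e0.le).trans
        (Real.rpow_le_rpow_of_exponent_le (by linarith) (min_le_left _ _))) (by positivity)
    have h2 := Real.rpow_pos_of_pos hc e
    calc _ ≤ c ^ (-e) * (b * (c ^ e * (1 + V) ^ ε)) := by gcongr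
      _ = _ := by rw [Real.rpow_neg hc.le]; field_simp
  have a2 : (c * V) ^ (-(13 : ℝ)) * (b * Λ ^ (13 : ℝ) * 2 ^ 11 * (1 - 1 / 4)⁻¹) ≤
      2 ^ 11 * 2 * ((1 + V) ^ ε * b) := by
    have h1 : Λ ^ (13 : ℝ) ≤ (c * V) ^ (13 : ℝ) := Real.rpow_le_rpow hΛ.le hle (by norm_num)
    have h2 := Real.rpow_pos_of_pos (mul_pos hc hV) (13 : ℝ)
    calc _ ≤ (c * V) ^ (-(13 : ℝ)) * (b * (c * V) ^ (13 : ℝ) * 2 ^ 11 * 2) := by
          gcongr
          norm_num
      _ = 2 ^ 11 * 2 * (1 * b) := by rw [Real.rpow_neg (by positivity)]; field_simp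
      _ ≤ _ := by gcongr
  have a3 := mul_le_mul_of_nonneg_left a1 g1
  have a4 := mul_le_mul_of_nonneg_left a2 g2
  have a5 : 0 ≤ (1 + V) ^ ε * b := by positivity
  nlinarith

end Pool.Agent.P.MP_323ce2_nt.QM
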