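import Pool.Agent.P.MP_323ce2_nt.QM.St
import Pool.Agent.P.MP_26a8c3_nt.QB.Rx
import Pool.Agent.P.MP_26a8c3_nt.QO.Cnt

/-! Sums over squarefree arguments. -/

namespace Pool.Agent.P.MP_323ce2_nt.QM

open Finset Pool.Agent.P.MP_26a8c3_nt Pool.Agent.P.MP_26a8c3_nt.QO Pool.Agent.P.MP_26a8c3_nt.QA
open Pool.Agent.P.MP_323ce2_nt.QF Pool.Agent.P.MP_323ce2_nt.QX Pool.Agent.P.MP_323ce2_nt.QZ
open Pool.Agent.P.MP_26a8c3_nt.QB.Rx (Wsum_dvd norm_coef sq_mul_iff)
open scoped Classical ComplexConjugate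

namespace Sf

variable {Q : O} {ν : O → ℂ}

lemma ph_mul (hν : IsNu Q ν) (m : O) {a b : O} (ha : a ≠ 0) (hb : b ≠ 0) :
    ph ν m (a * b) = ph ν m a * ph ν m b := by
  rw [ph, ph, ph, hν.mul, psi_mul_left ha hb]; ring

lemma ph_le (hν : IsNu Q ν) (m n : O) : ‖ph ν m n‖ ≤ 1 := (mul1_ph hν m).le n

lemma uL_le (hν : IsNu Q ν) (m n : O) : ‖uL (ph ν m) n‖ ≤ 1 := by
  rw [uL]
  split_ifs
  exacts [ph_le hν m n, by simp]

lemma uL_zero (φ : O → ℂ) : uL φ 0 = 0 := if_neg fun h => h.ne_zero rfl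

lemma uL_mul (hν : IsNu Q ν) (m : O) {d : O} (hd : Primary d) (c : O) :
    uL (ph ν m) (d * c) = ph ν m d * uL (ph ν m) c := by
  rw [uL, uL]
  by_cases hc : Primary c
  · rw [if_pos hc, if_pos (hd.mul hc), ph_mul hν m hd.ne_zero hc.ne_zero]
  · rw [if_neg hc, if_neg fun h => hc (h.of_mul hd), mul_zero]

/-- the part of the complete sum on the multiples of `d` -/
lemma part (hν : IsNu Q ν) (m : O) {d : O} (hd : Primary d) (z : ℂ) {Y : ℝ} (hY : 0 < Y) (t : ℝ) :
    Wsum (fun n => if d ∣ n then z * uL (ph ν m) n else 0) Y t =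
      z * ph ν m d * ((N d : ℝ) : ℂ) ^ ((t : ℂ) * Complex.I) * Lm ν m (Y / N d) t :=
  Wsum_dvd hd.ne_zero (fun _ hc => if_neg hc)
    (fun c => by rw [if_pos (dvd_mul_right d c), uL_mul hν m hd, mul_assoc]) (uL_zero _) hY t

lemma sq_sqf (g : O) : g ≠ 0 → ∃ a b : O, b ^ 2 * a = g ∧ Squarefree a := by
  induction g using (wellFounded_dvdNotUnit (α := O)).induction with
  | _ g ih =>
  intro h0
  by_cases h : Squarefree g
  · exact ⟨g, 1, by simp, h⟩
  simp only [Squarefree, not_forall] at h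
  obtain ⟨x, ⟨y, e⟩, hx⟩ := h
  have hy : y ≠ 0 := fun h => h0 (by rw [e, h, mul_zero])
  obtain ⟨a, b, e1, ha⟩ :=
    ih y ⟨hy, x * x, fun h => hx (isUnit_of_mul_isUnit_left h), by rw [e, mul_comm]⟩ hy
  exact ⟨a, x * b, by rw [e, ← e1]; ring, ha⟩

lemma sum_sq {n : O} (hn : Primary n) :
    ∑ d ∈ pdiv n, (if d ^ 2 ∣ n then mu d else 0) = if Squarefree n then 1 else 0 := by
  obtain ⟨a, b, e, ha⟩ := sq_sqf n hn.ne_zero
  have h1 : ∑ d ∈ pdiv n, (if d ^ 2 ∣ n then mu d else 0) = cop n b := by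
    rw [cop_eq_sum hn]
    refine sum_congr rfl fun d _ => ?_
    by_cases hd : Squarefree d
    · refine if_congr ⟨fun h => (hd.dvd_pow_iff_dvd two_ne_zero).1
        (ha.dvd_of_squarefree_of_mul_dvd_mul_right (by rwa [← pow_two, mul_comm, e])), fun h => ?_⟩
        rfl rfl
      rw [← e]
      exact (pow_dvd_pow_of_dvd h 2).mul_right a
    · simp [mu, hd]
  rw [h1, cop]
  refine if_congr ⟨fun h => ?_, fun h => ?_⟩ rfl rfl
  · have hb : IsUnit b := h.isUnit_of_dvd' dvd_rfl ⟨b * a, by rw [← e]; ring⟩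
    rw [← e]
    exact ha.squarefree_of_dvd ((hb.pow 2).mul_left_dvd.2 dvd_rfl)
  · have hb : IsUnit b := h b ⟨a, by rw [← e]; ring⟩
    exact isCoprime_one_left.of_isCoprime_of_dvd_left hb.dvd

lemma three (hν : IsNu Q ν) (m : O) {Y : ℝ} (hY : 0 < Y) (t : ℝ) :
    HasSum (fun d : O => if Primary d then mu d * ph ν m d ^ 2 *
      ((((N d : ℝ) ^ 2 : ℝ) : ℂ) ^ ((t : ℂ) * Complex.I) * Lm ν m (Y / (N d : ℝ) ^ 2) t) else 0)
      (Ls ν 1 m Y t) := by
  set f : O × O → ℂ := fun x => (if Primary x.1 ∧ x.1 ^ 2 ∣ x.2 then mu x.1 * uL (ph ν m) x.2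
    else 0) * W Y t (nr x.2) with hf
  have s2 := QB.summable_nr one_lt_two
  have p2 : ∀ c : O, 0 ≤ nr c ^ (-2 : ℝ) := fun c => Real.rpow_nonneg (nr_pos c).le _
  have hs : Summable f := by
    refine Summable.of_norm_bounded ((s2.mul_of_nonneg s2 p2 p2).mul_left
      (Real.exp (4 ^ 2 / 4) * Y ^ (4 : ℝ))) fun x => ?_
    have q1 := p2 x.1
    have q2 := p2 x.2
    simp only [hf]
    split_ifs with h
    · by_cases h0 : x.2 = 0
      · rw [h0, uL_zero, mul_zero, zero_mul, norm_zero, ← h0]; positivity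
      have h1 : nr x.1 ≤ nr x.2 := by
        rw [nr_eq h.1.ne_zero, nr_eq h0]
        exact_mod_cast N_le_of_dvd ((dvd_pow_self _ two_ne_zero).trans h.2) h0
      rw [norm_mul]
      refine (mul_le_of_le_one_left (norm_nonneg _) (QB.norm_mul_le_one (norm_mu_le _)
        (uL_le hν m _))).trans ((norm_W_le hY (nr_pos _) t 4).trans ?_)
      rw [show (-4 : ℝ) = -2 + -2 by norm_num, Real.rpow_add (nr_pos _)]
      exact mul_le_mul_of_nonneg_left (mul_le_mul_of_nonneg_right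
        (Real.rpow_le_rpow_of_nonpos (nr_pos _) h1 (by norm_num)) q2) (by positivity)
    · rw [zero_mul, norm_zero]; positivity
  have e1 : ∑' x, f x = Ls ν 1 m Y t := by
    rw [hs.tsum_prod, ← hs.tsum_comm (f := fun d n => f (d, n))]
    refine tsum_congr fun n => ?_
    simp only [hf]
    rw [tsum_mul_right]
    congr 1
    by_cases hn : Primary n
    · rw [tsum_eq_sum (s := pdiv n) fun d hd => if_neg fun h => hd ((mem_pdiv hn.ne_zero).2
        ⟨h.1, (dvd_pow_self _ two_ne_zero).trans h.2⟩), uL, if_pos hn]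
      have := congrArg (· * ph ν m n) (sum_sq hn)
      simp only [sum_mul, ite_mul, zero_mul, one_mul] at this
      refine (sum_congr rfl fun d hd => ?_).trans (this.trans ?_)
      · exact if_congr (and_iff_right ((mem_pdiv hn.ne_zero).1 hd).1) rfl rfl
      · exact if_congr ⟨fun h => ⟨⟨hn, h⟩, isCoprime_one_right⟩, fun h => h.1.2⟩ rfl rfl
    · simp [uL, hn, SQ]
  rw [← e1]
  refine hs.hasSum.prod_fiberwise fun d => (hs.prod_factor d).hasSum_iff.2 ?_
  simp only [hf]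
  split_ifs with hd
  · have := part hν m (hd.pow 2) (mu d) hY t
    rw [pow_two d, ph_mul hν m hd.ne_zero hd.ne_zero, ← pow_two, ← pow_two, map_pow,
      Nat.cast_pow] at this
    simp only [hd, true_and]
    rw [← mul_assoc]
    exact this
  · simp [hd]

lemma six (m r : O) {n : O} (hn : n ≠ 0) :
    ph ν (m * r ^ 6) n = cop n r * ph ν m n := by
  rw [ph, ph, psi_mul, psi_pow, psi_six hn]; ring

lemma Lm_six (hν : IsNu Q ν) (m : O) {r : O} (hr : r ≠ 0) {Y : ℝ} (hY : 0 < Y) (t : ℝ) :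
    ‖Lm ν (m * r ^ 6) Y t‖ ≤ ∑ g ∈ pdiv r, ‖Lm ν m (Y / N g) t‖ := by
  have e : Lm ν (m * r ^ 6) Y t =
      ∑ g ∈ pdiv r, Wsum (fun n => if g ∣ n then mu g * uL (ph ν m) n else 0) Y t := by
    simp only [Lm, Wsum]
    rw [← Summable.tsum_finsetSum fun g _ => QB.summable_Wc (fun n => ?_) hY t]
    · refine tsum_congr fun n => ?_
      rw [← sum_mul]
      congr 1
      by_cases hn : Primary n
      · rw [uL, uL, if_pos hn, if_pos hn, six m r hn.ne_zero, ← mu_sum hn, pdiv_filter_dvd hn.ne_zero,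
          gcd_comm, ← pdiv_filter_dvd hr, sum_filter, sum_mul]
        simp only [ite_mul, zero_mul]
      · simp [uL, hn]
    · split_ifs
      exacts [QB.norm_mul_le_one (norm_mu_le _) (uL_le hν m _), by simp]
  rw [e]
  refine norm_sum_le_of_le _ fun g hg => ?_
  have g1 := ((mem_pdiv hr).1 hg).1
  rw [part hν m g1 _ hY, norm_mul]
  exact mul_le_of_le_one_left (norm_nonneg _)
    (norm_coef (QB.norm_mul_le_one (norm_mu_le _) (ph_le hν m g)) g1.ne_zero t)

end Sf

open Sf in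
theorem pSf : S_Sf := by
  refine ⟨fun Q ν g m Y hν hg hY => ?_, fun Q ν e m Y t hν he hY => ?_,
    fun Q ν m Y t hν hY => three hν m hY t, fun δ hδ => ⟨zt (1 + δ),
      one_pos.trans_le (one_le_zt (by linarith)), fun Q ν r m Y t lam hν hr hY h => ?_⟩⟩
  · rw [Lg, Ls, Wsum, ← tsum_mul_left]
    refine tsum_congr fun n => ?_
    split_ifs with h
    · rw [vY, hν.mul, QB.nr_mul hg h.1.ne_zero, W_mul hY (N_pos_real hg) (nr_pos n), ph]
      simp only [Complex.ofReal_zero, zero_mul, Complex.cpow_zero]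
      ring
    · simp
  · rw [Wsum_dvd he.ne_zero (v := fun n => if SQ n ∧ IsCoprime n e then ph ν m n else 0) (z := ν e)
      (fun c hc => by rw [QB.ps, if_neg hc, mul_zero]) (fun c => ?_)
      (if_neg fun h => h.1.ne_zero rfl) hY, norm_mul]
    · exact mul_le_of_le_one_left (norm_nonneg _) (norm_coef (hν.le e) he.ne_zero t)
    · rw [QB.ps, if_pos (dvd_mul_right e c), quo_mul he.ne_zero, sq]
      by_cases h : SQ c ∧ IsCoprime c e
      · rw [if_pos h, if_pos ((sq_mul_iff he).2 h), hν.mul, ph, mul_assoc]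
      · rw [if_neg h, if_neg (mt (sq_mul_iff he).1 h), zero_mul, mul_zero]
  · have l0 : 0 ≤ lam := nonneg_of_mul_nonneg_left ((norm_nonneg _).trans (h Y hY le_rfl))
      (Real.rpow_pos_of_pos hY _)
    have e : Ls ν r m Y t = Ls ν 1 (m * r ^ 6) Y t := by
      unfold Ls
      congr 1
      funext n
      by_cases hn : SQ n
      · rw [six m r hn.ne_zero, cop]
        by_cases hc : IsCoprime r n
        · simp [hn, hc, hc.symm, isCoprime_one_right]
        · simp [hc, mt IsCoprime.symm hc]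
      · simp [hn]
    have k : ∀ Y' : ℝ, 0 < Y' → Y' ≤ Y → ‖Lm ν (m * r ^ 6) Y' t‖ ≤
        dv r * lam * Y' ^ ((1 + δ) / 2) := fun Y' h1 h2 => by
      refine (Lm_six hν m hr h1 t).trans ((sum_le_card_nsmul _ _ (lam * Y' ^ ((1 + δ) / 2))
        fun g hg => ?_).trans (by rw [nsmul_eq_mul, dv, mul_assoc]))
      have g1 := one_le_N ((mem_pdiv hr).1 hg).1.ne_zero
      have g2 := div_le_self h1.le g1
      refine (h _ (by positivity) (g2.trans h2)).trans ?_
      gcongr
    have d0 := dv_nonneg r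
    rw [e, ← (three hν (m * r ^ 6) hY t).tsum_eq]
    refine (tsum_of_norm_bounded ((QB.summable_N' (t := 1 + δ) (by linarith)).hasSum.mul_right
      (dv r * lam * Y ^ ((1 + δ) / 2))) fun d => ?_).trans_eq (by rw [zt]; ring)
    split_ifs with hd
    · have d1 := one_le_N hd.ne_zero
      have d2 : (0 : ℝ) < (N d : ℝ) ^ 2 := by positivity
      rw [norm_mul, norm_mul _ (Lm _ _ _ _), norm_cpow_I d2, one_mul]
      refine (mul_le_of_le_one_left (norm_nonneg _) (QB.norm_mul_le_one (norm_mu_le _) ?_)).trans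
        ((k _ (by positivity) (div_le_self hY.le (one_le_pow₀ d1))).trans_eq ?_)
      · rw [norm_pow]
        exact pow_le_one₀ (norm_nonneg _) (ph_le hν _ d)
      · rw [Real.div_rpow hY.le d2.le, ← Real.rpow_natCast, ← Real.rpow_mul (by positivity),
          Real.rpow_neg (by positivity), show ((2 : ℕ) : ℝ) * ((1 + δ) / 2) = 1 + δ by push_cast; ring]
        ring
    · rw [norm_zero]; positivity

end Pool.Agent.P.MP_323ce2_nt.QM
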