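import Pool.Agent.P.MP_323ce2_nt.QM.St
import Pool.Agent.P.MP_323ce2_nt.QR.Cnt
import Pool.Agent.P.MP_26a8c3_nt.QB.Base

/-! Counting the principal rows. -/

namespace Pool.Agent.P.MP_323ce2_nt.QM

open Finset Pool.Agent.P.MP_26a8c3_nt Pool.Agent.P.MP_26a8c3_nt.QO Pool.Agent.P.MP_26a8c3_nt.QA
open Pool.Agent.P.MP_323ce2_nt.QF Pool.Agent.P.MP_323ce2_nt.QX
open scoped Classical ComplexConjugate

namespace Trv

lemma dec0 {Q a k : O} (h36 : 36 ∣ Q) (ha : a ≠ 0) (hk : k ≠ 0)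
    (hf : ∀ p, Prime p → ¬ p ^ 6 ∣ a) (hE : QR.EX Q (a * k ^ 6)) : a ∣ Q ^ 5 := by
  have h3 : (3 : O) ∣ Q := Dvd.dvd.trans ⟨12, by norm_num⟩ h36
  have key : ∀ p, Prime p → p ∣ a → p ∣ Q := fun p hp hpa => by
    by_contra hpQ
    have e1 := normalize_associated p
    have hq : Prime (normalize p) := e1.symm.prime hp
    have hqQ : ¬ normalize p ∣ Q := fun e => hpQ (e1.symm.dvd.trans e)
    have h1 : Primary (normalize p) := (nrm_normalize hp.ne_zero).primary fun e =>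
      hqQ ((prime_lam.associated_of_dvd hq e).symm.dvd.trans (lam_dvd_three.trans h3))
    have hqa : normalize p ∣ a := e1.dvd.trans hpa
    generalize normalize p = q at hq hqQ h1 hqa
    obtain ⟨i, b, hb, rfl⟩ := WfDvdMonoid.max_power_factor ha hq.irreducible
    obtain ⟨j, c, hc, rfl⟩ := WfDvdMonoid.max_power_factor hk hq.irreducible
    have e : q ^ i * b * (q ^ j * c) ^ 6 = q ^ (i + 6 * j) * (b * c ^ 6) := by ring
    rw [e] at hE
    have h6 := QR.cnt_six h36 hq h1 hqQ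
      (fun e => (hq.dvd_or_dvd e).elim hb fun e => hc (hq.dvd_of_dvd_pow e)) hE
    have i6 : i < 6 := by
      by_contra h
      exact hf q hq ((pow_dvd_pow q (not_lt.1 h)).mul_right b)
    have i0 : i = 0 := by omega
    rw [i0, pow_zero, one_mul] at hqa
    exact hb hqa
  refine (UniqueFactorizationMonoid.dvd_iff_emultiplicity_le ha).2 fun p hp => ?_
  by_cases hpa : p ∣ a
  · have h5 : ((5 : ℕ) : ℕ∞) ≤ emultiplicity p (Q ^ 5) :=
      le_emultiplicity_of_pow_dvd (pow_dvd_pow_of_dvd (key p hp hpa) 5)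
    have h6 : emultiplicity p a < ((6 : ℕ) : ℕ∞) := emultiplicity_lt_iff_not_dvd.2 (hf p hp)
    exact le_trans (Order.le_of_lt_add_one (by exact_mod_cast h6)) h5
  · rw [emultiplicity_eq_zero.2 hpa]; exact zero_le

lemma dec {Q m : O} (hQ : Q ≠ 0) (h : Tv Q m) : ∃ a k : O, m = a * k ^ 6 ∧ a ∣ 36 ^ 5 := by
  obtain ⟨a, k, rfl, hf⟩ := QR.cnt_free h.1
  have hk : k ≠ 0 := by rintro rfl; exact h.1 (by simp)
  refine ⟨a, k, rfl, dec0 (k := k * Q) dvd_rfl (left_ne_zero_of_mul h.1) (mul_ne_zero hk hQ) hf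
    ⟨cop 36, isNu_cop 36, fun n hn hc => ?_⟩⟩
  rw [mul_pow, ← mul_assoc a] at hc ⊢
  have c1 := hc.of_mul_right_left
  have c2 := hc.of_mul_right_right.of_mul_right_left
  have c3 : IsCoprime n Q := hc.of_mul_right_right.of_mul_right_right.of_isCoprime_of_dvd_right
    (dvd_pow_self Q (by norm_num))
  have e := h.2 n hn (c3.mul_right c2)
  rw [ph, cop_of c3, one_mul] at e
  rw [ph, cop_of c1, psi_mul, e, psi_pow, psi_six hn.ne_zero, cop_of c3.symm]
  simp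

lemma G_six {x y : ℝ} (hy : 0 ≤ y) (h : y ^ 6 ≤ x) : G x ≤ G (-1) * G y := by
  rw [← G_add]
  refine G_anti (le_trans ?_ h)
  rcases le_total y 1 with h1 | h1
  · exact le_trans (by linarith) (pow_nonneg hy 6)
  · exact le_trans (by linarith) (le_self_pow₀ h1 (by norm_num))

/-- the constant of the count -/
noncomputable def C1 : ℝ := 16 * N ((36 : O) ^ 5) * (G (-1) * th)

lemma ne36 : (36 : O) ^ 5 ≠ 0 := pow_ne_zero 5 (by decide)

lemma C1_pos : 0 < C1 := by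
  have h1 := N_pos_real ne36
  have h2 := G_pos (-1)
  have h3 := one_le_th
  unfold C1; positivity

lemma cnt {Q : O} (hQ : Q ≠ 0) (h36 : 36 ∣ Q) {t s : Finset O}
    (ht : ∀ p ∈ t, Prime p ∧ Primary p ∧ ¬ p ∣ Q) (hs : ∀ m ∈ s, Tv Q m ∧ ∀ p ∈ t, p ∣ m)
    {V : ℝ} (hV : 0 < V) : ∑ m ∈ s, G (N m / V ^ 6) ≤ C1 * V * ∏ p ∈ t, (N p : ℝ)⁻¹ := by
  set g : O := ∏ p ∈ t, p with hg
  have g0 : g ≠ 0 := prod_ne_zero_iff.2 fun p hp => (ht p hp).1.ne_zero
  have gN := N_pos_real g0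
  have e : ∏ p ∈ t, (N p : ℝ)⁻¹ = (N g : ℝ)⁻¹ := by
    rw [prod_inv_distrib, hg, map_prod, Nat.cast_prod]
  set A := (ball (N ((36 : O) ^ 5))).erase 0
  set J := (ball (∑ m ∈ s, (N m : ℝ))).erase 0
  have hsub : s ⊆ (A ×ˢ J).image fun z => z.1 * (g * z.2) ^ 6 := fun m hm => by
    obtain ⟨h1, h2⟩ := hs m hm
    obtain ⟨a, k, rfl, hd⟩ := dec hQ h1
    obtain ⟨j, rfl⟩ : g ∣ k := by
      refine prod_dvd_of_coprime (fun p hp q hq hne => ?_) fun p hp => ?_
      · obtain ⟨p1, p2, -⟩ := ht p hp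
        obtain ⟨q1, q2, -⟩ := ht q hq
        exact p1.coprime_iff_not_dvd.2 fun e =>
          hne (p2.eq_of_associated q2 (p1.associated_of_dvd q1 e))
      · obtain ⟨p1, -, p3⟩ := ht p hp
        exact p1.dvd_of_dvd_pow ((p1.dvd_or_dvd (h2 p hp)).resolve_left fun e =>
          p3 ((p1.dvd_of_dvd_pow (e.trans hd)).trans h36))
    have hj : j ≠ 0 := by rintro rfl; exact h1.1 (by simp)
    refine mem_image.2 ⟨(a, j), mem_product.2 ⟨?_, ?_⟩, rfl⟩
    · exact mem_erase.2 ⟨left_ne_zero_of_mul h1.1,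
        mem_ball.2 (by exact_mod_cast N_le_of_dvd hd ne36)⟩
    · refine mem_erase.2 ⟨hj, mem_ball.2 (le_trans ?_
        (single_le_sum (f := fun m => (N m : ℝ)) (fun _ _ => Nat.cast_nonneg _) hm))⟩
      exact_mod_cast N_le_of_dvd
        (((dvd_mul_left j g).trans (dvd_pow_self _ (by norm_num))).mul_left a) h1.1
  have hU : 0 < V / N g := by positivity
  have hJ : ∑ j ∈ J, G (N j / (V / N g)) ≤ th * (V / N g) := by
    refine le_trans ?_ (tsum_G_ne_le hU)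
    refine le_trans (le_of_eq ?_) ((summable_G_ne hU).sum_le_tsum J fun h _ => by
      split_ifs; exacts [le_rfl, (G_pos _).le])
    exact sum_congr rfl fun j hj => (if_neg (mem_erase.1 hj).1).symm
  have h1 := (G_pos (-1)).le
  calc ∑ m ∈ s, G (N m / V ^ 6)
      ≤ ∑ z ∈ A ×ˢ J, G (N (z.1 * (g * z.2) ^ 6) / V ^ 6) :=
        (sum_le_sum_of_subset_of_nonneg hsub fun _ _ _ => (G_pos _).le).trans
          (sum_image_le_of_nonneg (f := fun m : O => G (N m / V ^ 6)) fun _ _ => (G_pos _).le)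
    _ ≤ ∑ z ∈ A ×ˢ J, G (-1) * G (N z.2 / (V / N g)) := by
        refine sum_le_sum fun z hz => G_six (by positivity) ?_
        have := one_le_N (mem_erase.1 (mem_product.1 hz).1).1
        rw [div_div_eq_mul_div, div_pow, map_mul, map_pow, map_mul, mul_comm (N z.2 : ℝ)]
        push_cast
        gcongr
        exact le_mul_of_one_le_left (by positivity) this
    _ = #A * (G (-1) * ∑ j ∈ J, G (N j / (V / N g))) := by
        rw [sum_product, mul_sum]; simp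
    _ ≤ 16 * N ((36 : O) ^ 5) * (G (-1) * (th * (V / N g))) :=
        mul_le_mul (card_ball_erase_le (Nat.cast_nonneg _)) (mul_le_mul_of_nonneg_left hJ h1)
          (mul_nonneg h1 (sum_nonneg fun _ _ => (G_pos _).le)) (by positivity)
    _ = _ := by rw [e, C1]; ring

lemma prod_sub (s : Finset O) (f : O → ℝ) :
    ∏ p ∈ s, (1 + f p) - 1 = ∑ t ∈ s.powerset.erase ∅, ∏ p ∈ t, f p := by
  rw [prod_one_add, ← add_sum_erase _ _ (empty_mem_powerset s), prod_empty]; ring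

lemma eul (h : S_Eul) {Q : O} (hQ : Q ≠ 0) (h36 : 36 ∣ Q) {C₀ : ℝ} (h0 : 0 < C₀) (hB : Big Q C₀)
    {s : Finset O} (hs : ∀ m ∈ s, Tv Q m) {V : ℝ} (hV : 0 < V) :
    ∑ m ∈ s, G (N m / V ^ 6) * (Ep Q 1 (1 / 5) m - 1) ≤
      C1 * (Real.exp (zt (11 / 10) * C₀ ^ (-(1 / 10) : ℝ)) - 1) * V := by
  set P := s.biUnion (pf Q)
  have hP : ∀ p ∈ P, Prime p ∧ Primary p ∧ ¬ p ∣ Q := fun p hp => by
    obtain ⟨m, hm, hp⟩ := mem_biUnion.1 hp
    obtain ⟨a, b, -, c⟩ := (h.1 Q m p h36 (hs m hm).1).1 hp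
    exact ⟨a, b, c⟩
  have e1 : ∀ m ∈ s, Ep Q 1 (1 / 5) m - 1 = ∑ t ∈ P.powerset.erase ∅,
      if t ⊆ pf Q m then ∏ p ∈ t, (N p : ℝ) ^ (-(1 / 5) : ℝ) else 0 := fun m hm => by
    rw [Ep, prod_sub, ← sum_filter]
    refine sum_congr ?_ fun _ _ => by simp only [one_mul]
    ext t
    simp only [mem_erase, mem_powerset, mem_filter]
    exact ⟨fun ⟨a, b⟩ => ⟨⟨a, b.trans (subset_biUnion_of_mem _ hm)⟩, b⟩, fun ⟨a, b⟩ => ⟨a.1, b⟩⟩
  have h2 : ∑ p ∈ P, (N p : ℝ) ^ (-(6 / 5) : ℝ) ≤ zt (11 / 10) * C₀ ^ (-(1 / 10) : ℝ) := by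
    refine (sum_rpow_tail_le (σ := 11 / 10) (s := 6 / 5) (by norm_num) (by norm_num) h0
      fun p hp => ?_).trans (le_of_eq (by norm_num))
    by_contra hc
    exact (hP p hp).2.2 (hB p (hP p hp).1 (not_le.1 hc).le)
  have hC := C1_pos
  calc _ = ∑ t ∈ P.powerset.erase ∅, (∑ m ∈ s.filter (fun m => t ⊆ pf Q m), G (N m / V ^ 6)) *
          ∏ p ∈ t, (N p : ℝ) ^ (-(1 / 5) : ℝ) := by
        rw [sum_congr rfl fun m hm => by rw [e1 m hm, mul_sum], sum_comm]
        refine sum_congr rfl fun t _ => ?_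
        rw [sum_filter, sum_mul]
        exact sum_congr rfl fun m _ => by split_ifs <;> simp
    _ ≤ ∑ t ∈ P.powerset.erase ∅, C1 * V * ∏ p ∈ t, (N p : ℝ) ^ (-(6 / 5) : ℝ) := by
        refine sum_le_sum fun t ht => ?_
        have ht' := fun p hp => hP p (mem_powerset.1 (mem_erase.1 ht).2 hp)
        refine (mul_le_mul_of_nonneg_right (cnt hQ h36 ht' (fun m hm => ?_) hV)
          (prod_nonneg fun _ _ => by positivity)).trans (le_of_eq ?_)
        · obtain ⟨m1, m2⟩ := mem_filter.1 hm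
          exact ⟨hs m m1, fun p hp => ((h.1 Q m p h36 (hs m m1).1).1 (m2 hp)).2.2.1⟩
        · rw [mul_assoc, ← prod_mul_distrib]
          congr 1
          refine prod_congr rfl fun p hp => ?_
          rw [← Real.rpow_neg_one, ← Real.rpow_add (N_pos_real (ht' p hp).1.ne_zero)]
          norm_num
    _ ≤ _ := by
        rw [← mul_sum, ← prod_sub, mul_right_comm]
        gcongr
        exact (Real.prod_one_add_le_exp_sum _ fun _ => by positivity).trans
          (Real.exp_le_exp.2 h2)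

lemma low {Q : O} {c V : ℝ} (hV : 1 ≤ V) (hc : c * V ≤ #((ball V).filter Primary)) :
    ∃ s : Finset O, (∀ m ∈ s, Tv Q m) ∧ c * G 1 * V ≤ ∑ m ∈ s, G (N m / V ^ 6) := by
  have inj : Set.InjOn (fun k : O => k ^ 6) ((ball V).filter Primary : Finset O) :=
    fun a ha b hb e => by
      have e' : a ^ 6 = b ^ 6 := e
      have u : ∀ {x y : O}, x ^ 6 = y ^ 6 → x ∣ y := fun e =>
        (UniqueFactorizationMonoid.pow_dvd_pow_iff_dvd (by norm_num)).1 (dvd_of_eq e)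
      exact (mem_filter.1 (mem_coe.1 ha)).2.eq_of_associated (mem_filter.1 (mem_coe.1 hb)).2
        (associated_of_dvd_dvd (u e') (u e'.symm))
  refine ⟨((ball V).filter Primary).image fun k => k ^ 6, fun m hm => ?_, ?_⟩
  · obtain ⟨k, hk, rfl⟩ := mem_image.1 hm
    refine ⟨pow_ne_zero 6 (mem_filter.1 hk).2.ne_zero, fun n hn hc => ?_⟩
    have c2 : IsCoprime n k :=
      hc.of_mul_right_right.of_isCoprime_of_dvd_right (dvd_pow_self k (by norm_num))
    rw [ph, cop_of hc.of_mul_right_left, psi_pow, psi_six hn.ne_zero, cop_of c2.symm, one_mul]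
  · rw [sum_image inj, mul_right_comm]
    refine (mul_le_mul_of_nonneg_right hc (G_pos _).le).trans ?_
    rw [← nsmul_eq_mul]
    refine card_nsmul_le_sum _ _ _ fun k hk => G_anti ?_
    rw [div_le_one (by positivity), map_pow, Nat.cast_pow]
    exact pow_le_pow_left₀ (Nat.cast_nonneg _) (mem_ball.1 (mem_filter.1 hk).1) 6

end Trv

theorem pTrv (h : S_Eul) : S_Trv := by
  obtain ⟨c, hc, hP⟩ := (QB.base alg).cntP
  refine ⟨c * G 1, Trv.C1, mul_pos hc (G_pos _), Trv.C1_pos, fun η hη => ?_⟩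
  have t : Filter.Tendsto (fun y : ℝ =>
      Trv.C1 * (Real.exp (zt (11 / 10) * y ^ (-(1 / 10) : ℝ)) - 1)) Filter.atTop
      (nhds (Trv.C1 * (Real.exp (zt (11 / 10) * 0) - 1))) :=
    (((Real.continuous_exp.tendsto _).comp
      ((tendsto_rpow_neg_atTop (by norm_num)).const_mul _)).sub_const _).const_mul _
  rw [mul_zero, Real.exp_zero, sub_self, mul_zero] at t
  obtain ⟨C₀, h1, h0⟩ := ((t.eventually (ge_mem_nhds hη)).and (Filter.eventually_gt_atTop 0)).exists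
  refine ⟨C₀, fun Q M hQ h36 hB hM => ?_⟩
  have hV : 1 ≤ M ^ (1 / 6 : ℝ) := Real.one_le_rpow hM (by norm_num)
  have e : (M ^ (1 / 6 : ℝ)) ^ 6 = M := by
    rw [← Real.rpow_natCast, ← Real.rpow_mul (by linarith)]; norm_num
  generalize M ^ (1 / 6 : ℝ) = V at hV e
  subst e
  have V0 : 0 < V := by linarith
  refine ⟨Trv.low hV (hP V hV), fun s hs => ⟨?_, ?_⟩⟩
  · simpa using Trv.cnt (t := ∅) hQ h36 (by simp) (fun m hm => ⟨hs m hm, by simp⟩) V0
  · exact (Trv.eul h hQ h36 h0 hB hs V0).trans (mul_le_mul_of_nonneg_right h1 V0.le)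

end Pool.Agent.P.MP_323ce2_nt.QM
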