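import Pool.Agent.P.MP_323ce2_nt.QM.St
import Pool.Agent.P.MP_26a8c3_nt.QB.Rx

/-! The Moebius side sum as a product of the pieces and a Moebius sum. -/

namespace Pool.Agent.P.MP_323ce2_nt.QM

open Finset Pool.Agent.P.MP_26a8c3_nt Pool.Agent.P.MP_26a8c3_nt.QO Pool.Agent.P.MP_26a8c3_nt.QA
open Pool.Agent.P.MP_323ce2_nt.QF Pool.Agent.P.MP_323ce2_nt.QX
open scoped Classical ComplexConjugate

namespace U

variable {Q g m p : O} {S : ℕ → Finset O} {φ : O → ℝ} {l : List ℕ}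

lemma wt_le (h : ∀ i ∈ l, ∀ q ∈ S i, Prime q) : ∃ K : ℝ, ∀ X : ℝ, 0 < X → ∀ x,
    ‖wt S φ l X x‖ ≤ K * X ^ (2 : ℝ) * nr x ^ (-(2 : ℝ)) := by
  induction l with
  | nil => exact ⟨_, fun X hX x => norm_W_le hX (nr_pos x) 0 2⟩
  | cons i l ih =>
    obtain ⟨K, hK⟩ := ih fun j hj => h j (List.mem_cons_of_mem _ hj)
    refine ⟨∑ q ∈ S i, |φ q| * (K * (N q : ℝ) ^ (2 : ℝ)), fun X hX x => ?_⟩
    rw [wt, sum_mul, sum_mul]
    refine norm_sum_le_of_le _ fun q hq => ?_
    have h0 := N_pos_real (h i List.mem_cons_self q hq).ne_zero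
    have h1 := hK (X * N q) (by positivity) x
    rw [Real.mul_rpow hX.le h0.le] at h1
    have h2 := mul_le_mul_of_nonneg_left h1 (abs_nonneg (φ q))
    split_ifs
    · rw [norm_mul, Complex.norm_real, Real.norm_eq_abs]
      exact h2.trans_eq (by ring)
    · rw [norm_zero]
      exact ((mul_nonneg (abs_nonneg _) (norm_nonneg _)).trans h2).trans_eq (by ring)

lemma wt_mul (hp : p ≠ 0) (h : ∀ i ∈ l, ∀ q ∈ S i, Prime q ∧ ¬ q ∣ p) {x : O} (hx : x ≠ 0) :
    ∀ X : ℝ, 0 < X → wt S φ l (X * N p) (p * x) = wt S φ l X x := by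
  have h0 := N_pos_real hp
  induction l with
  | nil =>
    intro X hX
    rw [wt, wt, QB.nr_mul hp hx, W_mul (by positivity) h0 (nr_pos x), mul_div_cancel_right₀ _ h0.ne']
    simp
  | cons i l ih =>
    intro X hX
    rw [wt, wt]
    refine sum_congr rfl fun q hq => ?_
    obtain ⟨q1, q2⟩ := h i List.mem_cons_self q hq
    have h1 := N_pos_real q1.ne_zero
    rw [mul_right_comm, ih (fun j hj => h j (List.mem_cons_of_mem _ hj)) _ (by positivity)]
    exact if_congr (q1.dvd_mul.trans (or_iff_right q2)) rfl rfl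

/-- the summand, over arguments prime to `r` -/
noncomputable def tm (Q g m : O) (S : ℕ → Finset O) (φ : O → ℝ) (l : List ℕ) (r : O) (X : ℝ)
    (c : O) : ℂ :=
  if SQ c ∧ IsCoprime c r then mu c * psi c m * uX Q S φ l X (g * c) else 0

lemma triv (hg : g ≠ 0) (h : ∀ i ∈ l, ∀ q ∈ S i, Prime q) : ∃ K : ℝ, ∀ (r : O) (X : ℝ), 0 < X →
    (∀ P : O → Prop, Summable fun c => if P c then tm Q g m S φ l r X c else 0) ∧
      ‖∑' c, tm Q g m S φ l r X c‖ ≤ K * X ^ (2 : ℝ) := by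
  obtain ⟨K, hK⟩ := wt_le (φ := φ) h
  have hs := (QB.summable_nr one_lt_two).comp_injective (mul_right_injective₀ hg)
  refine ⟨K * ∑' c, nr (g * c) ^ (-(2 : ℝ)), fun r X hX => ?_⟩
  have b : ∀ c, ‖tm Q g m S φ l r X c‖ ≤ K * X ^ (2 : ℝ) * nr (g * c) ^ (-(2 : ℝ)) := fun c => by
    refine le_trans ?_ (hK X hX (g * c))
    unfold tm uX
    split_ifs
    · rw [← mul_assoc, norm_mul]
      exact mul_le_of_le_one_left (norm_nonneg _) (QB.norm_mul_le_one
        (QB.norm_mul_le_one (norm_mu_le c) (norm_psi_le c m)) ((isNu_cop Q).le _))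
    · simp
  refine ⟨fun P => Summable.of_norm_bounded (hs.mul_left (K * X ^ (2 : ℝ))) fun c => ?_, ?_⟩
  · split_ifs
    · exact b c
    · rw [norm_zero]; exact (norm_nonneg _).trans (b c)
  · exact (tsum_of_norm_bounded (hs.hasSum.mul_left (K * X ^ (2 : ℝ))) b).trans_eq
      (by simp only [Function.comp]; ring)

lemma base (hg : g ≠ 0) {X : ℝ} (hX : 0 < X) :
    ∑' c, tm Q g m S φ [] g X c = cop Q g * A (cop Q) g m (X / N g) 0 := by
  rw [A, Wsum, ← tsum_mul_left]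
  refine tsum_congr fun c => ?_
  unfold tm uA uX
  split_ifs with h
  · rw [wt, QB.nr_mul hg h.1.ne_zero, W_mul hX (N_pos_real hg) (nr_pos c), (isNu_cop Q).mul]
    simp only [Complex.ofReal_zero, zero_mul, Complex.cpow_zero]
    ring
  · simp

lemma part (hg : g ≠ 0) (hp : Prime p) (h1 : Primary p) (hQ : IsCoprime p Q) (hr : ¬ p ∣ g)
    (h : ∀ i ∈ l, ∀ q ∈ S i, Prime q ∧ ¬ q ∣ p) {X : ℝ} (hX : 0 < X) :
    ∑' c, (if p ∣ c then tm Q g m S φ l g (X * N p) c else 0) =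
      -psi p m * ∑' c, tm Q g m S φ l (p * g) X c := by
  have hs : SQ p := ⟨h1, hp.squarefree⟩
  rw [tsum_ite_dvd0 hp.ne_zero, ← tsum_mul_left]
  refine tsum_congr fun c => ?_
  unfold tm uX
  by_cases h' : SQ c ∧ IsCoprime c (p * g)
  · have h2 := IsCoprime.mul_right_iff.1 h'.2
    rw [if_pos h', if_pos ⟨(QB.Rx.sq_mul_iff hs).2 ⟨h'.1, h2.1⟩,
      (hp.coprime_iff_not_dvd.2 hr).mul_left h2.2⟩, mu_mul h2.1.symm, mu_prime hp,
      psi_mul_left hp.ne_zero h'.1.ne_zero, mul_left_comm g, (isNu_cop Q).mul p, cop_of hQ,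
      wt_mul hp.ne_zero h (mul_ne_zero hg h'.1.ne_zero) X hX]
    ring
  · rw [if_neg h', mul_zero, if_neg]
    rintro ⟨h2, h3⟩
    have h4 := (QB.Rx.sq_mul_iff hs).1 h2
    exact h' ⟨h4.1, h4.2.mul_right h3.of_mul_left_right⟩

lemma recu (hg : g ≠ 0) (hp : Prime p) (h1 : Primary p) (hQ : IsCoprime p Q) (hr : ¬ p ∣ g)
    (h : ∀ i ∈ l, ∀ q ∈ S i, Prime q ∧ ¬ q ∣ p) {X : ℝ} (hX : 0 < X) :
    ∑' c, tm Q g m S φ l g X c = ∑' c, tm Q g m S φ l (p * g) X c +
      -psi p m * ∑' c, tm Q g m S φ l (p * g) (X / N p) c := by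
  have h0 := N_pos_real hp.ne_zero
  obtain ⟨K, hK⟩ := triv (Q := Q) (m := m) (φ := φ) hg fun i hi q hq => (h i hi q hq).1
  have s1 := (hK (p * g) X hX).1 fun _ => True
  simp only [if_true] at s1
  rw [← part hg hp h1 hQ hr h (div_pos hX h0), div_mul_cancel₀ _ h0.ne',
    ← s1.tsum_add ((hK g X hX).1 _)]
  refine tsum_congr fun c => ?_
  by_cases hc : p ∣ c
  · rw [if_pos hc, tm.eq_1 Q g m S φ l (p * g), if_neg, zero_add]
    exact fun h => hp.not_isUnit (h.2.isUnit_of_dvd' hc (dvd_mul_right p g))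
  · rw [if_neg hc, add_zero, tm, tm]
    refine if_congr (and_congr_right fun _ => ?_) rfl rfl
    rw [IsCoprime.mul_right_iff]
    exact ⟨fun h => ⟨(hp.coprime_iff_not_dvd.2 hc).symm, h⟩, fun h => h.2⟩

lemma expa (hg : g ≠ 0) {i : ℕ} (h0 : ∀ q ∈ S i, Prime q) (h : ∀ i ∈ l, ∀ q ∈ S i, Prime q)
    {X : ℝ} (hX : 0 < X) : ∑' c, tm Q g m S φ (i :: l) g X c =
      ∑ p ∈ S i, φ p * ∑' c, if p ∣ g * c then tm Q g m S φ l g (X * N p) c else 0 := by
  obtain ⟨K, hK⟩ := triv (Q := Q) (m := m) (φ := φ) hg h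
  simp_rw [← tsum_mul_left]
  rw [← Summable.tsum_finsetSum fun p hp => ((hK g _
    (mul_pos hX (N_pos_real (h0 p hp).ne_zero))).1 _).mul_left _]
  refine tsum_congr fun c => ?_
  unfold tm uX
  by_cases hc : SQ c ∧ IsCoprime c g
  · simp only [if_pos hc]
    rw [wt, mul_sum, mul_sum]
    refine sum_congr rfl fun q _ => ?_
    split_ifs <;> ring
  · simp [hc]

lemma main {lo P a β X₀ : ℝ} (hg : g ≠ 0) (hn : l.Nodup) (hP : Pc Q lo P l.toFinset S φ)
    (b0 : 1 / 2 ≤ β) (b1 : β ≤ 1) (h₀ : 0 < X₀)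
    (hA : ∀ X : ℝ, 0 < X → X ≤ X₀ → ‖A (cop Q) g m X 0‖ ≤ a * X ^ β) :
    ∀ d, d ∣ g → (∀ i ∈ l, ∀ q ∈ S i, ¬ q ∣ d) → ∀ X : ℝ, 0 < X → X ≤ X₀ * N d →
    ‖∑' c, tm Q g m S φ l g X c -
        (∏ i ∈ l.toFinset, -F1 (S i) φ m) * (cop Q g * A (cop Q) g m (X / N g) 0)‖ ≤
      a * (X / N g) ^ β * (∏ i ∈ l.toFinset, (‖F1 (S i) φ m‖ + ee (S i) φ β g) -
        ∏ i ∈ l.toFinset, ‖F1 (S i) φ m‖) := by
  have g0 := N_pos_real hg
  induction l with
  | nil => intro d _ _ X hX _; simp [base hg hX]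
  | cons i l ih =>
    obtain ⟨hi, hn'⟩ := List.nodup_cons.1 hn
    have hi' : i ∉ l.toFinset := by rwa [List.mem_toFinset]
    rw [List.toFinset_cons] at hP
    have pi := hP.pr i (mem_insert_self _ _)
    have pl := fun j (hj : j ∈ l) => hP.pr j (mem_insert_of_mem (List.mem_toFinset.2 hj))
    have nd : ∀ p ∈ S i, ∀ j ∈ l, ∀ q ∈ S j, Prime q ∧ ¬ q ∣ p := fun p hp j hj q hq => by
      refine ⟨(pl j hj q hq).1, fun e => ?_⟩
      obtain rfl := (pl j hj q hq).2.1.eq_of_associated (pi p hp).2.1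
        ((pl j hj q hq).1.associated_of_dvd (pi p hp).1 e)
      exact disjoint_left.1 (hP.dj i (mem_insert_self _ _) j
        (mem_insert_of_mem (List.mem_toFinset.2 hj)) fun e => hi (e ▸ hj)) hp hq
    replace ih := ih hn' (hP.mono (subset_insert _ _))
    simp only [List.toFinset_cons, prod_insert hi']
    generalize (∏ i ∈ l.toFinset, (‖F1 (S i) φ m‖ + ee (S i) φ β g)) = R at ih ⊢
    have e0 : ∏ i ∈ l.toFinset, ‖F1 (S i) φ m‖ = ‖∏ i ∈ l.toFinset, -F1 (S i) φ m‖ := by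
      simp only [norm_prod, norm_neg]
    rw [e0] at ih ⊢
    generalize (∏ i ∈ l.toFinset, -F1 (S i) φ m) = Z at ih ⊢
    have bd : ∀ d, d ∣ g → (∀ i ∈ l, ∀ q ∈ S i, ¬ q ∣ d) → ∀ X : ℝ, 0 < X → X ≤ X₀ * N d →
        ‖∑' c, tm Q g m S φ l g X c‖ ≤ a * R / (N g : ℝ) ^ β * X ^ β := fun d d1 d2 X hX h => by
      have h1 := hA (X / N g) (by positivity) ((div_le_iff₀ g0).2 (h.trans (by
        gcongr; exact N_le_of_dvd d1 hg)))
      have h2 : ‖Z * (cop Q g * A (cop Q) g m (X / N g) 0)‖ ≤ ‖Z‖ * (a * (X / N g) ^ β) := by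
        rw [norm_mul, norm_mul]
        exact mul_le_mul_of_nonneg_left ((mul_le_of_le_one_left (norm_nonneg _)
          ((isNu_cop Q).le g)).trans h1) (norm_nonneg _)
      refine (norm_le_norm_add_norm_sub' _ _).trans ((add_le_add h2 (ih d d1 d2 X hX h)).trans_eq ?_)
      rw [Real.div_rpow hX.le g0.le]; ring
    intro d d1 d2 X hX h
    have d3 := fun j (hj : j ∈ l) => d2 j (List.mem_cons_of_mem _ hj)
    obtain ⟨K, hK⟩ := triv (Q := Q) (m := m) (φ := φ) hg fun j hj q hq => (pl j hj q hq).1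
    have h1 := bd d d1 d3 X hX h
    have key : ∀ p ∈ S i, ‖(∑' c, if p ∣ g * c then tm Q g m S φ l g (X * N p) c else 0) +
        psi p m * ∑' c, tm Q g m S φ l g X c‖ ≤
        (if p ∣ g then (N p : ℝ) ^ β + 1 else 2 * (N p : ℝ) ^ (-β)) *
          (a * R / (N g : ℝ) ^ β * X ^ β) := fun p hp => by
      obtain ⟨p1, p2, p3, -⟩ := pi p hp
      have p0 := N_pos_real p1.ne_zero
      split_ifs with e
      · simp only [if_pos (e.mul_right _)]
        have h2 := bd (p * d) ((p1.coprime_iff_not_dvd.2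
          (d2 i List.mem_cons_self p hp)).mul_dvd e d1) (fun j hj q hq e' =>
          ((nd p hp j hj q hq).1.dvd_or_dvd e').elim (nd p hp j hj q hq).2 (d3 j hj q hq))
          (X * N p) (by positivity) (by rw [map_mul, Nat.cast_mul]; nlinarith)
        rw [Real.mul_rpow hX.le p0.le] at h2
        refine (norm_add_le_of_le h2 ((norm_mul _ _).trans_le ((mul_le_of_le_one_left
          (norm_nonneg _) (norm_psi_le p m)).trans h1))).trans_eq (by ring)
      · have p4 : (4 : ℝ) ≤ N p := by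
          have := two_le_N p1
          have := p2.N_mod
          exact_mod_cast (by omega : 4 ≤ N p)
        have h2 := geo (z := fun _ => -psi p m) (n := N p) (β := β) (X₀ := X₀ * N d)
          (V₀ := fun X => ∑' c, tm Q g m S φ l g X c) (K := |K| * (X₀ * N d) ^ (2 - β))
          (V₁ := fun X => ∑' c, tm Q g m S φ l (p * g) X c)
          (fun _ => by rw [norm_neg]; exact norm_psi_le p m) (by linarith) (by
            calc (N p : ℝ) ^ (-β) ≤ (4 : ℝ) ^ (-β) :=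
                  Real.rpow_le_rpow_of_nonpos (by norm_num) p4 (by linarith)
              _ ≤ 4 ^ (-(1 / 2) : ℝ) := Real.rpow_le_rpow_of_exponent_le (by norm_num) (by linarith)
              _ = 1 / 2 := by
                rw [show (4 : ℝ) = 2 ^ (2 : ℝ) by norm_num, ← Real.rpow_mul (by norm_num)]
                norm_num)
          (fun Y hY _ => recu hg p1 p2 p3 e (nd p hp) hY) (bd d d1 d3) (fun Y hY hY' => by
            refine (hK _ Y hY).2.trans ?_
            rw [show (2 : ℝ) = 2 - β + β by ring, Real.rpow_add hY, ← mul_assoc, add_sub_cancel_right]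
            gcongr
            · exact le_abs_self K
            · linarith) hX h
        simp only [p1.dvd_mul, e, false_or]
        rw [part hg p1 p2 p3 e (nd p hp) hX, neg_mul, ← sub_eq_neg_add, ← mul_sub, norm_mul,
          norm_sub_rev]
        exact (mul_le_of_le_one_left (norm_nonneg _) (norm_psi_le p m)).trans
          (h2.trans_eq (by ring))
    have h3 := ih d d1 d3 X hX h
    rw [expa hg (fun q hq => (pi q hq).1) (fun j hj q hq => (pl j hj q hq).1) hX]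
    generalize ∑' c, tm Q g m S φ l g X c = V at key h3
    have h4 := norm_sum_le_of_le (S i) fun p hp => (norm_mul (φ p : ℂ) _).trans_le
      (mul_le_mul (le_of_eq ((Complex.norm_real _).trans (Real.norm_of_nonneg (hP.w0 p))))
        (key p hp) (norm_nonneg _) (hP.w0 p))
    simp only [mul_add, sum_add_distrib, ← mul_assoc _ _ V, ← sum_mul,
      ← mul_assoc (φ _)] at h4
    have h5 := norm_sub_le_of_le h4 ((norm_mul (F1 (S i) φ m) _).trans_le
      (mul_le_mul_of_nonneg_left h3 (norm_nonneg _)))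
    rw [Real.div_rpow hX.le g0.le] at h5 ⊢
    refine (le_of_eq ?_).trans (h5.trans_eq ?_)
    · rw [F1]; congr 1; ring
    · rw [ee]; ring

end U

theorem pU (_h : S_Lev) : S_U := fun _ _ _ _ _ _ _ X _ _ _ _ hg hn hP b0 b1 hX hA =>
  U.main hg.ne_zero hn hP b0 b1 hX hA 1 (one_dvd _) (fun i hi q hq e =>
    (hP.pr i (List.mem_toFinset.2 hi) q hq).1.not_isUnit (isUnit_of_dvd_one e)) X hX (by simp)

end Pool.Agent.P.MP_323ce2_nt.QM
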