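import Pool.Agent.P.MP_323ce2_nt.QF.All
import Pool.Agent.P.MP_323ce2_nt.QM.B1
import Pool.Agent.P.MP_323ce2_nt.QM.B2
import Pool.Agent.P.MP_323ce2_nt.QM.BE
import Pool.Agent.P.MP_323ce2_nt.QM.Cor
import Pool.Agent.P.MP_323ce2_nt.QM.Cp
import Pool.Agent.P.MP_323ce2_nt.QM.D
import Pool.Agent.P.MP_323ce2_nt.QM.E0
import Pool.Agent.P.MP_323ce2_nt.QM.E1
import Pool.Agent.P.MP_323ce2_nt.QM.Em
import Pool.Agent.P.MP_323ce2_nt.QM.Eu7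
import Pool.Agent.P.MP_323ce2_nt.QM.Eul
import Pool.Agent.P.MP_323ce2_nt.QM.FK
import Pool.Agent.P.MP_323ce2_nt.QM.Fin
import Pool.Agent.P.MP_323ce2_nt.QM.Id
import Pool.Agent.P.MP_323ce2_nt.QM.L0
import Pool.Agent.P.MP_323ce2_nt.QM.Lam
import Pool.Agent.P.MP_323ce2_nt.QM.Lev
import Pool.Agent.P.MP_323ce2_nt.QM.Loc
import Pool.Agent.P.MP_323ce2_nt.QM.M0
import Pool.Agent.P.MP_323ce2_nt.QM.Om
import Pool.Agent.P.MP_323ce2_nt.QM.Reix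
import Pool.Agent.P.MP_323ce2_nt.QM.Sep
import Pool.Agent.P.MP_323ce2_nt.QM.Sf
import Pool.Agent.P.MP_323ce2_nt.QM.Trv
import Pool.Agent.P.MP_323ce2_nt.QM.U

/-! Assembly of the first moment layer. -/

namespace Pool.Agent.P.MP_323ce2_nt.QM

theorem fm (hV : QW.S_VD) : QX.S_FM :=
  have hL := pLam QF.f1
  have hC := pCp pEul
  have hU := pU pLev
  have hR := pReix pOm
  pFM (pCor (pId (pLoc pFK) pOm hR) hR pLev (pM0 pOm) (pD hV pSep pB1 (pB2 pSep pSf hL))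
    (pTrv pEul) (pL0 QF.f0 pSf hL) (pE0 pOm pEul hC hU pSf)
    (pE1 pOm pEul (pEu7 pEul) hC hU pSf)) (pBE (pEm pOm pEul hC hU pSf hL) hL)

end Pool.Agent.P.MP_323ce2_nt.QM
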