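import Pool.Agent.P.MP_323ce2_nt.QM.St

/-! The sum of the kernels when all primes are large. -/

namespace Pool.Agent.P.MP_323ce2_nt.QM

open Finset Pool.Agent.P.MP_26a8c3_nt Pool.Agent.P.MP_26a8c3_nt.QO Pool.Agent.P.MP_26a8c3_nt.QA
open Pool.Agent.P.MP_323ce2_nt.QF Pool.Agent.P.MP_323ce2_nt.QX
open scoped Classical ComplexConjugate

namespace Eu7

theorem big {Q e : O} {C₀ : ℝ} (hB : Big Q C₀) (h1 : Primary e) (h2 : IsCoprime e Q)
    (h3 : e ≠ 1) : C₀ ≤ N e := by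
  obtain ⟨p, p1, -, p3⟩ := exists_primary_prime h1 h3
  have h4 : (N p : ℝ) ≤ N e := by exact_mod_cast N_le_of_dvd p3 h1.ne_zero
  by_contra h
  exact p1.not_isUnit (h2.isUnit_of_dvd' p3 (hB p p1 (by linarith)))

theorem pairs (m : O) (hm : m ≠ 0) (Q : O) (T : Finset O) (hT : ∀ e ∈ T, SQ e ∧ IsCoprime e Q) :
    ∑ e ∈ T, ‖jj e m‖ * (N e : ℝ) ^ (-(13 / 10) : ℝ) ≤
      (∑ f ∈ (pdiv m).filter fun f => IsCoprime f Q, (N f : ℝ) ^ (-(3 / 10) : ℝ)) *
        ∑ e ∈ T.biUnion pdiv, (N e : ℝ) ^ (-(13 / 10) : ℝ) := by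
  set I := T.sigma fun e => (pdiv e).filter fun f => f ^ 2 ∣ m with hI
  have k : ∀ x ∈ I, x.1 ∈ T ∧ Primary x.2 ∧ x.2 ∣ x.1 ∧ x.2 ∣ m := fun x hx => by
    obtain ⟨h1, h2⟩ := mem_sigma.1 hx
    obtain ⟨h3, h4⟩ := mem_filter.1 h2
    obtain ⟨h5, h6⟩ := (mem_pdiv (hT _ h1).1.ne_zero).1 h3
    exact ⟨h1, h5, h6, (dvd_pow_self _ two_ne_zero).trans h4⟩
  calc _ ≤ ∑ x ∈ I, (N x.2 : ℝ) * (N x.1 : ℝ) ^ (-(13 / 10) : ℝ) := by
        rw [hI, sum_sigma]
        refine sum_le_sum fun e _ => ?_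
        dsimp only
        rw [← sum_mul]
        exact mul_le_mul_of_nonneg_right (QB.norm_jj_le e m) (by positivity)
    _ = ∑ x ∈ I, (N x.2 : ℝ) ^ (-(3 / 10) : ℝ) * (N (quo x.1 x.2) : ℝ) ^ (-(13 / 10) : ℝ) := by
        refine sum_congr rfl fun x hx => ?_
        have h0 := N_pos_real (k x hx).2.1.ne_zero
        conv_lhs => rw [← mul_quo (k x hx).2.2.1]
        rw [map_mul, Nat.cast_mul, Real.mul_rpow h0.le (Nat.cast_nonneg _), ← mul_assoc,
          show (-(3 / 10) : ℝ) = 1 + -(13 / 10) by norm_num, Real.rpow_add h0, Real.rpow_one]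
    _ = ∑ y ∈ I.image fun x => (x.2, quo x.1 x.2),
          (N y.1 : ℝ) ^ (-(3 / 10) : ℝ) * (N y.2 : ℝ) ^ (-(13 / 10) : ℝ) := by
        rw [sum_image fun x hx y hy e => ?_]
        obtain ⟨e1, e2⟩ := Prod.mk.inj e
        refine Sigma.ext ?_ (heq_of_eq e1)
        rw [← mul_quo (k x hx).2.2.1, ← mul_quo (k y hy).2.2.1, e2, e1]
    _ ≤ _ := by
        rw [sum_mul_sum, ← sum_product']
        refine sum_le_sum_of_subset_of_nonneg (fun y hy => ?_) fun _ _ _ => by positivity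
        obtain ⟨x, hx, rfl⟩ := mem_image.1 hy
        obtain ⟨h1, h2, h3, h4⟩ := k x hx
        have h5 := hT _ h1
        refine mem_product.2 ⟨mem_filter.2 ⟨(mem_pdiv hm).2 ⟨h2, h4⟩,
          h5.2.of_isCoprime_of_dvd_left h3⟩, mem_biUnion.2 ⟨x.1, h1, (mem_pdiv h5.1.ne_zero).2
            ⟨Primary.of_mul (by rw [mul_quo h3]; exact h5.1.1) h2, Dvd.intro_left _ (mul_quo h3)⟩⟩⟩

end Eu7

open Eu7 in
theorem pEu7 (h : S_Eul) : S_Eu7 := by
  intro η hη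
  have hz : 0 < zt (6 / 5) := one_pos.trans_le (one_le_zt (by norm_num))
  obtain ⟨C₀, c1, c2⟩ := (((tendsto_rpow_neg_atTop (show (0 : ℝ) < 1 / 10 by norm_num)).eventually
    (ge_mem_nhds (lt_min (div_pos hη hz) one_half_pos))).and (Filter.eventually_ge_atTop 1)).exists
  refine ⟨C₀, fun Q m T hQ hB hm hT => (pairs m hm Q T hT).trans ?_⟩
  rw [mul_comm]
  refine mul_le_mul ?_ (h.2.2.2.2.1 Q m _ _ hQ hm (fun p hp => ?_) fun f hf => ?_)
    (sum_nonneg fun _ _ => by positivity) (by positivity)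
  · have h1 := sum_rpow_tail_le (σ := 6 / 5) (s := 13 / 10) (S := (T.biUnion pdiv).erase 1)
      (by norm_num) (by norm_num) (one_pos.trans_le c2) fun e he => by
        obtain ⟨e1, e2⟩ := mem_erase.1 he
        obtain ⟨a, a1, a2⟩ := mem_biUnion.1 e2
        obtain ⟨e3, e4⟩ := (mem_pdiv (hT a a1).1.ne_zero).1 a2
        exact big hB e3 ((hT a a1).2.of_isCoprime_of_dvd_left e4) e1
    have h2 := (le_div_iff₀' hz).1 (c1.trans (min_le_left _ _))
    rw [show (6 / 5 - 13 / 10 : ℝ) = -(1 / 10) by norm_num] at h1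
    have h3 := sum_le_sum_of_subset_of_nonneg (insert_erase_subset 1 (T.biUnion pdiv))
      (f := fun e => (N e : ℝ) ^ (-(13 / 10) : ℝ)) fun _ _ _ => by positivity
    rw [sum_insert (notMem_erase _ _), map_one, Nat.cast_one, Real.one_rpow] at h3
    linarith
  · obtain ⟨p1, p2, -, p4⟩ := (h.1 Q m p hQ hm).1 hp
    have h1 := big hB p2 (p1.coprime_iff_not_dvd.2 p4) p1.ne_one
    exact (Real.rpow_le_rpow_of_exponent_le (c2.trans h1) (by norm_num)).trans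
      ((Real.rpow_le_rpow_of_nonpos (by linarith) h1 (by norm_num)).trans
        (c1.trans (min_le_right _ _)))
  · obtain ⟨f1, f2⟩ := mem_filter.1 hf
    exact ⟨((mem_pdiv hm).1 f1).1, f2, ((mem_pdiv hm).1 f1).2⟩

end Pool.Agent.P.MP_323ce2_nt.QM
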