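import Pool.Agent.P.MP_323ce2_nt.QR.Cnt

/-! The shape of the principal rows, with absolute constants. -/

namespace Pool.Agent.P.MP_323ce2_nt.QM

open Pool.Agent.P.MP_26a8c3_nt Pool.Agent.P.MP_26a8c3_nt.QO Pool.Agent.P.MP_26a8c3_nt.QA
open Pool.Agent.P.MP_323ce2_nt.QZ Pool.Agent.P.MP_323ce2_nt.QF Pool.Agent.P.MP_323ce2_nt.QR
open scoped Classical ComplexConjugate

lemma prin_six {Q p a : O} {j : ℕ} (hQ : Q ≠ 0) (h36 : 36 ∣ Q) (hp : Prime p) (h1 : Primary p)
    (h2 : Od p) (hpa : ¬ p ∣ a) (hE : Exc Q (cop Q) (p ^ j * a)) : 6 ∣ j := by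
  rcases Nat.eq_zero_or_pos j with rfl | hj
  · exact dvd_zero _
  obtain ⟨i, Q', hQ', rfl⟩ := WfDvdMonoid.max_power_factor hQ hp.irreducible
  have c3 : IsCoprime p 3 := by
    obtain ⟨t, ht⟩ := h1
    exact ⟨1, -t, by linear_combination ht⟩
  have c36 : IsCoprime (36 : O) (p ^ i) := by
    rw [show (36 : O) = (2 * 3) ^ 2 by norm_num]
    exact (IsCoprime.mul_right h2 c3).symm.pow
  refine cnt_six (c36.dvd_of_dvd_mul_left h36) hp h1 hQ' hpa
    ⟨cop Q', isNu_cop _, fun n hn hc => ?_⟩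
  have k1 := hc.of_mul_right_left
  have k2 := hc.of_mul_right_right
  have k3 : IsCoprime n (p ^ i * Q') :=
    ((IsCoprime.pow_right_iff hj).1 k2.of_mul_right_left).pow_right.mul_right k1
  have := hE n hn (k3.mul_right k2)
  rw [ph, cop_of k3] at this
  rwa [ph, cop_of k1]

/-- a principal row is a sixth power up to a divisor of `6 ^ 5` -/
theorem prin_dec {Q m : O} (hQ : Q ≠ 0) (h36 : 36 ∣ Q) (hm : m ≠ 0) (hE : Exc Q (cop Q) m) :
    ∃ a k : O, m = a * k ^ 6 ∧ a ∣ 6 ^ 5 := by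
  obtain ⟨a, k, rfl, hf⟩ := cnt_free hm
  have ha : a ≠ 0 := left_ne_zero_of_mul hm
  have hk : k ≠ 0 := by rintro rfl; simp at hm
  have key : ∀ p, Prime p → p ∣ a → p ∣ 6 := fun p hp hpa => by
    by_contra hpQ
    have e1 := normalize_associated p
    have hq : Prime (normalize p) := e1.symm.prime hp
    have hqQ : ¬ normalize p ∣ 6 := fun e => hpQ (e1.symm.dvd.trans e)
    have h1 : Primary (normalize p) := (nrm_normalize hp.ne_zero).primary fun e =>
      hqQ ((prime_lam.associated_of_dvd hq e).symm.dvd.trans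
        (lam_dvd_three.trans ⟨2, by norm_num⟩))
    have h2 : Od (normalize p) := hq.coprime_iff_not_dvd.2 fun e =>
      hqQ (e.trans ⟨3, by norm_num⟩)
    have hqa : normalize p ∣ a := e1.dvd.trans hpa
    generalize normalize p = q at hq hqQ h1 h2 hqa
    obtain ⟨i, b, hb, rfl⟩ := WfDvdMonoid.max_power_factor ha hq.irreducible
    obtain ⟨j, c, hc, rfl⟩ := WfDvdMonoid.max_power_factor hk hq.irreducible
    have e : q ^ i * b * (q ^ j * c) ^ 6 = q ^ (i + 6 * j) * (b * c ^ 6) := by ring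
    rw [e] at hE
    have h6 := prin_six hQ h36 hq h1 h2
      (fun e => (hq.dvd_or_dvd e).elim hb fun e => hc (hq.dvd_of_dvd_pow e)) hE
    have i6 : i < 6 := by
      by_contra h
      exact hf q hq ((pow_dvd_pow q (not_lt.1 h)).mul_right b)
    have i0 : i = 0 := by omega
    rw [i0, pow_zero, one_mul] at hqa
    exact hb hqa
  refine ⟨a, k, rfl, (UniqueFactorizationMonoid.dvd_iff_emultiplicity_le ha).2 fun p hp => ?_⟩
  by_cases hpa : p ∣ a
  · have h5 : ((5 : ℕ) : ℕ∞) ≤ emultiplicity p ((6 : O) ^ 5) :=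
      le_emultiplicity_of_pow_dvd (pow_dvd_pow_of_dvd (key p hp hpa) 5)
    have h6 : emultiplicity p a < ((6 : ℕ) : ℕ∞) := emultiplicity_lt_iff_not_dvd.2 (hf p hp)
    exact le_trans (Order.le_of_lt_add_one (by exact_mod_cast h6)) h5
  · rw [emultiplicity_eq_zero.2 hpa]; exact zero_le

end Pool.Agent.P.MP_323ce2_nt.QM
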