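import Pool.Agent.P.MP_323ce2_nt.QM.St
import Pool.Agent.P.MP_26a8c3_nt.QO.All
import Pool.Agent.P.MP_26a8c3_nt.QB.Rx

/-! Regrouping of the sum on the side of the rows by states. -/

namespace Pool.Agent.P.MP_323ce2_nt.QM

open Finset Pool.Agent.P.MP_26a8c3_nt Pool.Agent.P.MP_26a8c3_nt.QO Pool.Agent.P.MP_26a8c3_nt.QA
open scoped Classical ComplexConjugate

namespace Reix

variable {u v : O → ℂ} {m : O}

/-- the summand over states and cofactors -/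
noncomputable def FF (u v : O → ℂ) (m : O) (x : (O × O × O × O) × O × O) : ℂ :=
  if Val x.1 then om x.1.1 x.1.2.1 x.1.2.2.1 m * mu x.1.2.2.1 * jj x.1.2.2.2 m *
    ((if SQ x.2.1 ∧ IsCoprime x.2.1 (x.1.1 ^ 3 * x.1.2.1 * x.1.2.2.2) then
        mu x.2.1 * psi x.2.1 m * u (x.1.1 ^ 3 * x.1.2.1 * x.1.2.2.2 * x.2.1) else 0) *
      conj (if SQ x.2.2 ∧ IsCoprime x.2.2 (x.1.2.2.1 * x.1.2.2.2) then
        psi x.2.2 m * v (x.1.2.2.1 * x.1.2.2.2 * x.2.2) else 0)) else 0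

/-- the part of `c` prime to `E` -/
noncomputable def co (c E : O) : O := quo c (gcd c (rd E))

/-- the summand over arguments and common divisors -/
noncomputable def HH (u v : O → ℂ) (m : O) (z : ((O × O) × O) × O) : ℂ :=
  if (SQ z.1.1.1 ∧ Primary z.1.1.2 ∧ Od z.1.1.2 ∧ SQ z.1.2) ∧
      z.2 ∈ (pdiv (co z.1.1.1 z.1.1.2)).filter (· ∣ co z.1.2 z.1.1.2) then
    u (z.1.1.1 * z.1.1.2 ^ 3) * conj (v z.1.2) *
      (mu z.1.2 * (mu (co z.1.1.1 z.1.1.2) * mu (co z.1.2 z.1.1.2)) *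
        (om z.1.1.2 (gcd z.1.1.1 (rd z.1.1.2)) (gcd z.1.2 (rd z.1.1.2)) m *
          (mu z.2 * jj z.2 m * (psi (quo (co z.1.1.1 z.1.1.2) z.2) m *
            conj (psi (quo (co z.1.2 z.1.1.2) z.2) m))))) else 0

/-- the change of variables -/
def ii (x : (O × O × O × O) × O × O) : ((O × O) × O) × O :=
  (((x.1.2.1 * (x.1.2.2.2 * x.2.1), x.1.1), x.1.2.2.1 * (x.1.2.2.2 * x.2.2)), x.1.2.2.2)

/-- the domain of the change of variables -/
def Good (x : (O × O × O × O) × O × O) : Prop :=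
  Val x.1 ∧ (SQ x.2.1 ∧ IsCoprime x.2.1 x.1.1 ∧ IsCoprime x.2.1 x.1.2.2.2) ∧
    SQ x.2.2 ∧ IsCoprime x.2.2 x.1.1 ∧ IsCoprime x.2.2 x.1.2.2.2

lemma part {E a c : O} (hE : Primary E) (ha : a ∈ pdiv (rd E)) (h : IsCoprime c E) :
    SQ a ∧ IsCoprime a c ∧ gcd (a * c) (rd E) = a ∧ co (a * c) E = c := by
  obtain ⟨a1, r, hr⟩ := (mem_pdiv (sq_rd hE).ne_zero).1 ha
  have h1 := (cop_rd hE.ne_zero).2 h
  have e : gcd (a * c) (rd E) = a := by
    rw [hr] at h1 ⊢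
    rw [_root_.gcd_mul_left, a1.normalize, ← _root_.normalize_gcd,
      normalize_eq_one.2 ((gcd_isUnit_iff c r).2 h1.of_mul_right_right), mul_one]
  refine ⟨⟨a1, (sq_rd hE).2.squarefree_of_dvd ⟨r, hr⟩⟩,
    (h1.of_isCoprime_of_dvd_right ⟨r, hr⟩).symm, e, ?_⟩
  rw [co, e, quo_mul a1.ne_zero]

lemma split {E c : O} (hE : Primary E) (hc : SQ c) : gcd c (rd E) ∈ pdiv (rd E) ∧
    gcd c (rd E) * co c E = c ∧ SQ (co c E) ∧ IsCoprime (co c E) E := by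
  have e : gcd c (rd E) * co c E = c := mul_quo (gcd_dvd_left _ _)
  have h1 : SQ (gcd c (rd E) * co c E) := by rwa [e]
  refine ⟨(mem_pdiv (sq_rd hE).ne_zero).2 ⟨hc.1.gcd _, gcd_dvd_right _ _⟩, e,
    h1.right (hc.1.gcd _), ?_⟩
  by_contra h
  obtain ⟨p, hp, -, h2, h3⟩ := (not_coprime_iff hE.ne_zero).1 h
  exact hp.not_isUnit (h1.coprime.isUnit_of_dvd' (dvd_gcd (h3.trans (Dvd.intro_left _ e))
    ((dvd_rd hE.ne_zero hp).2 h2)) h3)

lemma key {x : (O × O × O × O) × O × O} (h : Good x) : HH u v m (ii x) = FF u v m x := by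
  obtain ⟨⟨E, a, b, e⟩, c, n⟩ := x
  obtain ⟨hV, ⟨c1, c2, c3⟩, n1, n2, n3⟩ := h
  obtain ⟨hE, oE, ha, hb, he, hc⟩ := id hV
  dsimp only at hE oE ha hb he hc c1 c2 c3 n1 n2 n3
  have s1 := he.mul c1 c3.symm
  have s2 := he.mul n1 n3.symm
  obtain ⟨a1, a2, a3, a4⟩ := part hE ha (hc.mul_left c2)
  obtain ⟨b1, b2, b3, b4⟩ := part hE hb (hc.mul_left n2)
  have e1 := mu_sq he.2
  have e2 := mu_sq s2.2
  unfold HH FF ii
  dsimp only
  rw [a3, a4, b3, b4, if_pos ⟨⟨a1.mul s1 a2, hE, oE, b1.mul s2 b2⟩, mem_filter.2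
      ⟨(mem_pdiv s1.ne_zero).2 ⟨he.1, dvd_mul_right _ _⟩, dvd_mul_right _ _⟩⟩, if_pos hV,
    if_pos ⟨c1, (c2.pow_right.mul_right a2.of_mul_right_right.symm).mul_right c3⟩,
    if_pos ⟨n1, b2.of_mul_right_right.symm.mul_right n3⟩, quo_mul he.ne_zero, quo_mul he.ne_zero,
    mu_mul b2, mu_mul c3.symm, show a * (e * c) * E ^ 3 = E ^ 3 * a * e * c by ring, ← mul_assoc b,
    map_mul]
  linear_combination (u (E ^ 3 * a * e * c) * conj (v (b * e * n)) * mu b * mu c * om E a b m *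
    jj e m * psi c m * conj (psi n m)) * (mu e ^ 2 * e2 + e1)

lemma good (h : S_Om) {x : (O × O × O × O) × O × O} (hx : FF u v m x ≠ 0) : Good x := by
  obtain ⟨⟨E, a, b, e⟩, c, n⟩ := x
  unfold FF at hx
  dsimp only at hx
  split_ifs at hx with hV h1 h2 <;> try simp at hx
  obtain ⟨hE, oE, ha, hb, -, -⟩ := id hV
  have h3 := ((h.2 E a b m hE oE ha hb).2 hx.1.1.1).1
  have h4 : IsCoprime m n := by_contra fun e => hx.2.2.1 ((psi_eq_zero h2.1.ne_zero).2 e)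
  exact ⟨hV, ⟨h1.1, (IsCoprime.pow_right_iff three_pos).1 h1.2.of_mul_right_left.of_mul_right_left,
    h1.2.of_mul_right_right⟩, h2.1, h4.symm.of_isCoprime_of_dvd_right h3, h2.2.of_mul_right_right⟩

lemma inj {x y : (O × O × O × O) × O × O} (hx : Good x) (hy : Good y) (h : ii x = ii y) :
    x = y := by
  obtain ⟨⟨E, a, b, e⟩, c, n⟩ := x
  obtain ⟨⟨E', a', b', e'⟩, c', n'⟩ := y
  simp only [ii, Prod.mk.injEq] at h
  obtain ⟨⟨⟨h1, rfl⟩, h2⟩, rfl⟩ := h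
  obtain ⟨⟨hE, -, ha, hb, he, hc⟩, ⟨-, c2, -⟩, -, n2, -⟩ := hx
  obtain ⟨⟨-, -, ha', hb', -, -⟩, ⟨-, d2, -⟩, -, m2, -⟩ := hy
  obtain ⟨-, -, a3, a4⟩ := part hE ha (hc.mul_left c2)
  obtain ⟨-, -, b3, b4⟩ := part hE hb (hc.mul_left n2)
  obtain ⟨-, -, a5, a6⟩ := part hE ha' (hc.mul_left d2)
  obtain ⟨-, -, b5, b6⟩ := part hE hb' (hc.mul_left m2)
  dsimp only at a3 a4 b3 b4 a5 a6 b5 b6
  rw [h1] at a3 a4
  rw [h2] at b3 b4
  rw [a3.symm.trans a5, b3.symm.trans b5, mul_left_cancel₀ he.ne_zero (a4.symm.trans a6),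
    mul_left_cancel₀ he.ne_zero (b4.symm.trans b6)]

lemma surj {z : ((O × O) × O) × O} (hz : HH u v m z ≠ 0) : ∃ x, Good x ∧ ii x = z := by
  obtain ⟨⟨⟨c, E⟩, n⟩, e⟩ := z
  unfold HH at hz
  dsimp only at hz
  obtain ⟨⟨hc, hE, oE, hn⟩, he⟩ := (ite_ne_right_iff.1 hz).1
  obtain ⟨c1, c2, c3, c4⟩ := split hE hc
  obtain ⟨n1, n2, n3, n4⟩ := split hE hn
  obtain ⟨e1, e2⟩ := mem_filter.1 he
  obtain ⟨e3, e4⟩ := (mem_pdiv c3.ne_zero).1 e1
  have q1 := mul_quo e4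
  have q2 := mul_quo e2
  rw [← q1] at c3 c4
  rw [← q2] at n3 n4
  refine ⟨((E, gcd c (rd E), gcd n (rd E), e), quo (co c E) e, quo (co n E) e),
    ⟨⟨hE, oE, c1, n1, c3.left e3, c4.of_mul_left_left⟩,
      ⟨c3.right e3, c4.of_mul_left_right, c3.coprime.symm⟩, n3.right e3, n4.of_mul_left_right,
      n3.coprime.symm⟩, ?_⟩
  simp only [ii, q1, q2, c2, n2]

lemma num {x a b e c n K K' : ℝ} (hx : 1 ≤ x) (ha : 1 ≤ a) (hb : 1 ≤ b) (he : 1 ≤ e) (hc : 1 ≤ c)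
    (hn : 1 ≤ n) (hK : 0 ≤ K) (hK' : 0 ≤ K') :
    x ^ 2 * (a * b) * (16 * e * e) * (K * (x ^ 3 * a * e * c) ^ (-(10 : ℝ)) *
      (K' * (b * e * n) ^ (-(10 : ℝ)))) ≤ 16 * K * K' *
      (x ^ (-(2 : ℝ)) * (a ^ (-(2 : ℝ)) * (b ^ (-(2 : ℝ)) * e ^ (-(2 : ℝ)))) *
        (c ^ (-(2 : ℝ)) * n ^ (-(2 : ℝ)))) := by
  have h : ∀ y : ℝ, 0 < y → y ^ (-(10 : ℝ)) = (y ^ 10)⁻¹ ∧ y ^ (-(2 : ℝ)) = (y ^ 2)⁻¹ :=
    fun y hy => by rw [Real.rpow_neg hy.le, Real.rpow_neg hy.le]; norm_cast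
  rw [(h _ (by positivity)).1, (h _ (by positivity)).1, (h x (by positivity)).2,
    (h a (by positivity)).2, (h b (by positivity)).2, (h e (by positivity)).2,
    (h c (by positivity)).2, (h n (by positivity)).2]
  have h1 : 1 ≤ x ^ 26 * a ^ 7 * b ^ 7 * e ^ 16 * c ^ 8 * n ^ 8 := by
    bound
  calc _ = 16 * K * K' * ((x ^ 2)⁻¹ * ((a ^ 2)⁻¹ * ((b ^ 2)⁻¹ * (e ^ 2)⁻¹)) *
        ((c ^ 2)⁻¹ * (n ^ 2)⁻¹)) / (x ^ 26 * a ^ 7 * b ^ 7 * e ^ 16 * c ^ 8 * n ^ 8) := by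
        field_simp
    _ ≤ _ := div_le_self (by positivity) h1

lemma summable_FF (h : S_Om) (hu : Dec u) (hv : Dec v) (m : O) :
    Summable fun x => ‖FF u v m x‖ := by
  obtain ⟨K, hK⟩ := hu
  obtain ⟨K', hK'⟩ := hv
  have p : ∀ (c : O) (s : ℝ), 0 < nr c ^ s := fun c s => Real.rpow_pos_of_pos (nr_pos c) s
  have K0 : 0 ≤ K := nonneg_of_mul_nonneg_left ((norm_nonneg _).trans (hK 0)) (p _ _)
  have K1 : 0 ≤ K' := nonneg_of_mul_nonneg_left ((norm_nonneg _).trans (hK' 0)) (p _ _)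
  have s := QB.summable_nr one_lt_two
  have s2 := s.mul_of_nonneg s (fun c => (p c _).le) fun c => (p c _).le
  have s3 := s.mul_of_nonneg s2 (fun c => (p c _).le) fun c => (mul_pos (p _ _) (p _ _)).le
  have s4 := s.mul_of_nonneg s3 (fun c => (p c _).le)
    fun c => (mul_pos (p _ _) (mul_pos (p _ _) (p _ _))).le
  have s6 := s4.mul_of_nonneg s2 (fun c => (mul_pos (p _ _) (mul_pos (p _ _)
    (mul_pos (p _ _) (p _ _)))).le) fun c => (mul_pos (p _ _) (p _ _)).le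
  refine Summable.of_nonneg_of_le (fun _ => norm_nonneg _) (fun x => ?_) (s6.mul_left (16 * K * K'))
  obtain ⟨⟨E, a, b, e⟩, c, n⟩ := x
  by_cases hx : FF u v m ((E, a, b, e), c, n) = 0
  · rw [hx, norm_zero]
    have := fun c => p c (-(2 : ℝ))
    exact mul_nonneg (by positivity) (mul_pos (mul_pos (p _ _) (mul_pos (p _ _)
      (mul_pos (p _ _) (p _ _)))) (mul_pos (p _ _) (p _ _))).le
  obtain ⟨hV, ⟨c1, -, -⟩, n1, -, -⟩ := good h hx
  obtain ⟨hE, oE, ha, hb, he, -⟩ := id hV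
  dsimp only at hE oE ha hb he c1 n1 ⊢
  have E0 := hE.ne_zero
  have a0 := ((mem_pdiv (sq_rd hE).ne_zero).1 ha).1.ne_zero
  have b0 := ((mem_pdiv (sq_rd hE).ne_zero).1 hb).1.ne_zero
  have e0 := he.ne_zero
  have c0 := c1.ne_zero
  have n0 := n1.ne_zero
  have ab1 : ∀ x : O, x ≠ 0 → ab x ≤ N x := fun x hx => by
    have := one_le_N hx
    rw [ab_eq, Real.sqrt_le_left (by linarith)]; nlinarith
  have h1 : ‖om E a b m‖ ≤ (N E : ℝ) ^ 2 * (N a * N b) := (h.2 E a b m hE oE ha hb).1.trans (by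
    have := ab_nonneg b
    gcongr
    exacts [ab1 a a0, ab1 b b0])
  have h2 : ‖jj e m‖ ≤ 16 * N e * N e := (QB.norm_jj_le' e0 m).trans (by
    gcongr; exact dv_le_N e0)
  have h3 := hK (E ^ 3 * a * e * c)
  have h4 := hK' (b * e * n)
  rw [nr_eq (by simp [E0, a0, e0, c0])] at h3
  rw [nr_eq (by simp [b0, e0, n0])] at h4
  simp only [map_mul, map_pow, Nat.cast_mul, Nat.cast_pow] at h3 h4
  rw [nr_eq E0, nr_eq a0, nr_eq b0, nr_eq e0, nr_eq c0, nr_eq n0]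
  refine le_trans ?_ (num (one_le_N E0) (one_le_N a0) (one_le_N b0) (one_le_N e0) (one_le_N c0)
    (one_le_N n0) K0 K1)
  unfold FF
  dsimp only
  rw [if_pos hV, norm_mul, norm_mul, norm_mul, norm_mul, Complex.norm_conj]
  refine mul_le_mul (mul_le_mul ((mul_le_of_le_one_right (norm_nonneg _) (norm_mu_le b)).trans h1)
    h2 (norm_nonneg _) (by positivity)) (mul_le_mul ?_ ?_ (norm_nonneg _)
      ((norm_nonneg _).trans h3)) (by positivity) (by positivity)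
  · split_ifs
    · rw [norm_mul]
      exact (mul_le_of_le_one_left (norm_nonneg _)
        (QB.norm_mul_le_one (norm_mu_le c) (norm_psi_le c m))).trans h3
    · rw [norm_zero]; exact (norm_nonneg _).trans h3
  · split_ifs
    · rw [norm_mul]
      exact (mul_le_of_le_one_left (norm_nonneg _) (norm_psi_le n m)).trans h4
    · rw [norm_zero]; exact (norm_nonneg _).trans h4

lemma summable_dec (hu : Dec u) {g : O} (hg : g ≠ 0) {f : O → ℂ}
    (hf : ∀ c, ‖f c‖ ≤ ‖u (g * c)‖) : Summable fun c => ‖f c‖ := by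
  obtain ⟨K, hK⟩ := hu
  exact Summable.of_nonneg_of_le (fun _ => norm_nonneg _) (fun c => (hf c).trans (hK _))
    (((QB.summable_nr (σ := 10) (by norm_num)).mul_left K).comp_injective
      (mul_right_injective₀ hg))

lemma tsum_FF (hu : Dec u) (hv : Dec v) (σ : O × O × O × O) :
    ∑' y, FF u v m (σ, y) = TS u v m σ := by
  unfold FF TS
  dsimp only
  split_ifs with hV
  · obtain ⟨hE, -, ha, hb, he, -⟩ := id hV
    have a0 := ((mem_pdiv (sq_rd hE).ne_zero).1 ha).1.ne_zero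
    have b0 := ((mem_pdiv (sq_rd hE).ne_zero).1 hb).1.ne_zero
    rw [tsum_mul_left, Ug, Lg, Complex.conj_tsum, tsum_mul_tsum_of_summable_norm]
    · refine summable_dec hu (mul_ne_zero (mul_ne_zero (pow_ne_zero 3 hE.ne_zero) a0) he.ne_zero)
        fun c => ?_
      split_ifs
      · rw [norm_mul]
        exact mul_le_of_le_one_left (norm_nonneg _)
          (QB.norm_mul_le_one (norm_mu_le c) (norm_psi_le c m))
      · simp
    · refine summable_dec hv (mul_ne_zero b0 he.ne_zero) fun c => ?_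
      rw [Complex.norm_conj]
      split_ifs
      · rw [norm_mul]
        exact mul_le_of_le_one_left (norm_nonneg _) (norm_psi_le c m)
      · simp
  · simp

end Reix

open Reix in
theorem pReix (h : S_Om) : S_Reix := by
  intro u v m hu hv
  have s := summable_FF h hu hv m
  refine ⟨Summable.of_nonneg_of_le (fun _ => norm_nonneg _) (fun σ => ?_) s.prod, ?_⟩
  · rw [← tsum_FF hu hv]
    exact norm_tsum_le_tsum_norm (s.prod_factor σ)
  have h1 : HasSum (HH u v m) (∑' x, FF u v m x) :=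
    (hasSum_iff_hasSum_of_ne_zero_bij (f := HH u v m) (g := FF u v m) (fun x => ii x.1)
      (fun x y e => Subtype.ext (inj (good h x.2) (good h y.2) e))
      (fun z hz => by
        obtain ⟨x, hx, rfl⟩ := surj hz
        exact ⟨⟨x, by rwa [Function.mem_support, ← key hx]⟩, rfl⟩)
      fun x => key (good h x.2)).2 s.of_norm.hasSum
  rw [MS, ← tsum_congr (tsum_FF hu hv), ← s.of_norm.tsum_prod, ← h1.tsum_eq, h1.summable.tsum_prod]
  refine tsum_congr fun y => ?_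
  rw [tsum_eq_sum (f := fun e => HH u v m (y, e))
    (s := (pdiv (co y.1.1 y.1.2)).filter (· ∣ co y.2 y.1.2))
    fun e he => if_neg fun c => he c.2]
  split_ifs with hy
  · rw [ker, ← co, ← co, alg.k.2.1 _ _ m (split hy.2.1 hy.1).2.2.1 (split hy.2.1 hy.2.2.2).2.2.1,
      mul_sum, mul_sum, mul_sum]
    exact sum_congr rfl fun e he => (if_pos ⟨hy, he⟩).symm
  · exact (sum_eq_zero fun e _ => if_neg fun c => hy c.1).symm

end Pool.Agent.P.MP_323ce2_nt.QM
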