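import Pool.Agent.P.MP_323ce2_nt.QX.Top
import Pool.Agent.P.MP_323ce2_nt.QW.St

/-! Definitions and statements of the first moment layer. -/

namespace Pool.Agent.P.MP_323ce2_nt.QM

open Finset Pool.Agent.P.MP_26a8c3_nt Pool.Agent.P.MP_26a8c3_nt.QO Pool.Agent.P.MP_26a8c3_nt.QA
open Pool.Agent.P.MP_323ce2_nt.QF Pool.Agent.P.MP_323ce2_nt.QX
open scoped Classical ComplexConjugate

noncomputable section

/-- the radical -/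
def rd (E : O) : O := UniqueFactorizationMonoid.radical E

/-- the character of the dual variable at the primes of `E` -/
def rho (E a b x : O) : ℂ := conj (psi (E ^ 3 * a) x) * psi b x

/-- the fixed divisor of the rows of a state -/
def tt (E a b : O) : O := quo (E ^ 3 * a * b) (rd E)

/-- the weight of a state -/
def om (E a b m : O) : ℂ :=
  if tt E a b ∣ m then gam (E ^ 3 * a * b) * ang E ^ 3 * bb a * conj (bb b) *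
    (((N E : ℝ) ^ 2 * (ab a * ab b) / N (rd E) : ℝ) : ℂ) *
      ft (rho E a b) (rd E) (-quo m (tt E a b)) else 0

/-- admissible states `(E, a, b, e)` -/
def Val (σ : O × O × O × O) : Prop :=
  Primary σ.1 ∧ Od σ.1 ∧ σ.2.1 ∈ pdiv (rd σ.1) ∧ σ.2.2.1 ∈ pdiv (rd σ.1) ∧ SQ σ.2.2.2 ∧
    IsCoprime σ.2.2.2 σ.1

/-- Moebius side sum over the multiples of `g` -/
def Ug (u : O → ℂ) (g m : O) : ℂ :=
  ∑' c : O, if SQ c ∧ IsCoprime c g then mu c * psi c m * u (g * c) else 0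

/-- detector side sum over the multiples of `g` -/
def Lg (v : O → ℂ) (g m : O) : ℂ :=
  ∑' n : O, if SQ n ∧ IsCoprime n g then psi n m * v (g * n) else 0

/-- the term of a state -/
def TS (u v : O → ℂ) (m : O) (σ : O × O × O × O) : ℂ :=
  if Val σ then om σ.1 σ.2.1 σ.2.2.1 m * mu σ.2.2.1 * jj σ.2.2.2 m *
    (Ug u (σ.1 ^ 3 * σ.2.1 * σ.2.2.2) m * conj (Lg v (σ.2.2.1 * σ.2.2.2) m)) else 0

/-- the sum over the states -/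
def MS (u v : O → ℂ) (m : O) : ℂ := ∑' σ, TS u v m σ

/-- the kernel on the side of the rows -/
def ker (c E n m : O) : ℂ :=
  mu n * (mu (quo c (gcd c (rd E))) * mu (quo n (gcd n (rd E)))) *
    (om E (gcd c (rd E)) (gcd n (rd E)) m * KK (quo c (gcd c (rd E))) (quo n (gcd n (rd E))) m)

/-- the dual sum; the index is `((c, E), n)` -/
def DH (u v : O → ℂ) (M : ℝ) (h : O) : ℂ :=
  ∑' y : (O × O) × O, if SQ y.1.1 ∧ Primary y.1.2 ∧ SQ y.2 then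
    ((M / (ab (y.1.1 * y.1.2 ^ 3) * ab y.2) : ℝ) : ℂ) * gam (y.1.1 * y.1.2 ^ 3 * y.2) *
      (bb y.1.1 * ang y.1.2 ^ 3 * ab y.1.2 * u (y.1.1 * y.1.2 ^ 3) *
        conj (psi (y.1.1 * y.1.2 ^ 3) h)) *
      conj (mu y.2 * bb y.2 * v y.2 * conj (psi y.2 h)) *
      (G (M * N h / (N (y.1.1 * y.1.2 ^ 3) * N y.2)) : ℝ) else 0

/-- fast decay -/
def Dec (u : O → ℂ) : Prop := ∃ K : ℝ, ∀ x, ‖u x‖ ≤ K * nr x ^ (-(10 : ℝ))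

/-- the weight with one prime divisor marked in each piece -/
def wt (S : ℕ → Finset O) (φ : O → ℝ) : List ℕ → ℝ → O → ℂ
  | [], X, x => W X 0 (nr x)
  | i :: l, X, x => ∑ p ∈ S i, if p ∣ x then (φ p : ℂ) * wt S φ l (X * N p) x else 0

/-- the weight on the Moebius side -/
def uX (Q : O) (S : ℕ → Finset O) (φ : O → ℝ) (l : List ℕ) (X : ℝ) (x : O) : ℂ :=
  cop Q x * wt S φ l X x

/-- the weight of the detector -/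
def vY (ν : O → ℂ) (Y : ℝ) (n : O) : ℂ := ν n * W Y 0 (nr n)

/-- the sum over squarefree arguments prime to `r` -/
def Ls (ν : O → ℂ) (r m : O) (Y t : ℝ) : ℂ :=
  Wsum (fun n => if SQ n ∧ IsCoprime n r then ph ν m n else 0) Y t

/-- the dual of the detector -/
def Bm (ν : O → ℂ) (h : O) (Y t : ℝ) : ℂ := Wsum (fun n => mu n * uB ν h n) Y t

/-- a character restricted to squarefree primary elements -/
def sq (ν : O → ℂ) (c : O) : ℂ := if SQ c then ν c else 0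

/-- the prime factors of `r` that do not divide `Q` -/
def pf (Q r : O) : Finset O := (UniqueFactorizationMonoid.primeFactors r).filter fun p => ¬ p ∣ Q

/-- a finite Euler product -/
def Ep (Q : O) (c s : ℝ) (r : O) : ℝ := ∏ p ∈ pf Q r, (1 + c * (N p : ℝ) ^ (-s))

/-- the error attached to one piece -/
def ee (S : Finset O) (φ : O → ℝ) (β : ℝ) (g : O) : ℝ :=
  ∑ p ∈ S, φ p * if p ∣ g then (N p : ℝ) ^ β + 1 else 2 * (N p : ℝ) ^ (-β)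

/-- all small primes divide `Q` -/
def Big (Q : O) (C₀ : ℝ) : Prop := ∀ p : O, Prime p → (N p : ℝ) ≤ C₀ → p ∣ Q

/-- principal rows -/
def Tv (Q m : O) : Prop := m ≠ 0 ∧ Exc Q (cop Q) m

/-- the mass of the detector -/
def L0 (Q : O) (Y : ℝ) : ℝ := ∑' n : O, if SQ n ∧ IsCoprime n Q then ‖W Y 0 (nr n)‖ else 0

/-- the mass of the detector decays along dilations -/
def Rat (Q : O) (Y : ℝ) : Prop := ∀ y : ℝ, 1 ≤ y → L0 Q (Y / y) ≤ 2 * L0 Q Y * y ^ (-(1 / 2) : ℝ)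

/-- the range of the parameters on the dual side, `H = X D Y / M` -/
def Rg (M X Y D H : ℝ) : Prop :=
  0 < M ∧ 1 ≤ X ∧ 1 ≤ Y ∧ 1 ≤ D ∧ H = X * D * Y / M ∧ 1 ≤ H ∧ H * D ≤ X ∧ D ^ 3 * X ≤ H ^ 2 ∧
    D ^ 4 ≤ X ∧ H ≤ Y ^ 2 ∧ (Y ^ 2 / H) ^ (5 / 2 : ℝ) ≤ Y

end

/-! ### the identity -/

/-- the finite Fourier transform of a pair of symbols -/
def S_FK : Prop :=
  ∀ a b m : O, SQO a → SQO b →
    gam (a * b) * bb a * conj (bb b) * ft (fun x => conj (psi a x) * psi b x) (a * b) m =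
      mu a * mu b * (ab a * ab b) * KK a b (-m)

/-- the identity for one pair of arguments -/
def S_Loc : Prop :=
  ∀ (E a b c d : O) (M : ℝ), Primary E → Od E → a ∈ pdiv (rd E) → b ∈ pdiv (rd E) → SQO c →
    SQO d → IsCoprime c E → IsCoprime d E → 0 < M →
    ((M / (ab (a * c * E ^ 3) * ab (b * d)) : ℝ) : ℂ) * gam (a * c * E ^ 3 * (b * d)) *
      (bb (a * c) * ang E ^ 3 * ab E) * conj (bb (b * d)) *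
      ∑' h : O, conj (psi (a * c * E ^ 3) h) * psi (b * d) h *
        (G (M * N h / (N (a * c * E ^ 3) * N (b * d))) : ℝ) =
    mu c * mu d * ∑' m : O, om E a b m * KK c d m * (G (N m / M) : ℝ)

/-- the size of the weights -/
def S_Om : Prop :=
  (∀ m, om 1 1 1 m = 1) ∧
  ∀ E a b m : O, Primary E → Od E → a ∈ pdiv (rd E) → b ∈ pdiv (rd E) →
    ‖om E a b m‖ ≤ (N E : ℝ) ^ 2 * (ab a * ab b) ∧ (om E a b m ≠ 0 → E ∣ m ∧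
      ∃ k, Primary k ∧ k ^ 6 ∣ m ∧ (N k : ℝ) ^ 5 * N (rd E) ≤ N a * (N E : ℝ) ^ 3 ∧
        ‖om E a b m‖ ≤ N k * (ab E ^ 3 * (ab a * ab b)))

/-- regrouping by states -/
def S_Reix : Prop :=
  ∀ (u v : O → ℂ) (m : O), Dec u → Dec v → (Summable fun σ => ‖TS u v m σ‖) ∧
    ∑' y : (O × O) × O, (if SQ y.1.1 ∧ Primary y.1.2 ∧ Od y.1.2 ∧ SQ y.2 then
      u (y.1.1 * y.1.2 ^ 3) * conj (v y.2) * ker y.1.1 y.1.2 y.2 m else 0) = MS u v m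

/-- the first moment is the dual sum -/
def S_Id : Prop :=
  ∀ (u v : O → ℂ) (M b : ℝ), Dec u → Dec v → (∀ x, u x ≠ 0 → Od x) → (∀ x, v x ≠ 0 → Od x) →
    0 < M → (∀ s : Finset O, 0 ∉ s → ∑ h ∈ s, ‖DH u v M h‖ ≤ b) →
    (Summable fun m : O => ((G (N m / M) : ℝ) : ℂ) * MS u v m) ∧
    ‖∑' m : O, ((G (N m / M) : ℝ) : ℂ) * MS u v m‖ ≤ M * (‖u 1‖ * ‖v 1‖) + b

/-! ### pointwise bounds -/

/-- the weight as a sum over levels -/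
def S_Lev : Prop :=
  ∀ (Q : O) (lo P : ℝ) (l : List ℕ) (S : ℕ → Finset O) (φ : O → ℝ), 1 ≤ P → l.Nodup →
    Pc Q lo P l.toFinset S φ → (∃ (T : Finset O) (F : O → ℂ),
      (∀ D ∈ T, SQ D ∧ (N D : ℝ) ≤ P ^ l.length ∧ ‖F D‖ ≤ 1) ∧ ∀ (X : ℝ) (x : O),
        wt S φ l X x = ∑ D ∈ T, if D ∣ x then F D * W (X * N D) 0 (nr x) else 0) ∧
    ∀ (X k : ℝ) (x : O), 0 < X → 0 ≤ k → x ≠ 0 → ‖wt S φ l X x‖ ≤
      dv x * (Real.exp (k ^ 2 / 4) * (X * P ^ l.length) ^ k * nr x ^ (-k))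

/-- finite Euler products -/
def S_Eul : Prop :=
  (∀ Q r p : O, 36 ∣ Q → r ≠ 0 → (p ∈ pf Q r ↔ Prime p ∧ Primary p ∧ p ∣ r ∧ ¬ p ∣ Q)) ∧
  (∀ (Q a b : O) (c s : ℝ), a ≠ 0 → b ≠ 0 → 0 ≤ c →
    1 ≤ Ep Q c s a ∧ Ep Q c s (a * b) ≤ Ep Q c s a * Ep Q c s b) ∧
  (∀ (Q r : O) (s : ℝ), 36 ∣ Q → r ≠ 0 → 1 / 2 ≤ s →
    Ep Q 2 s r ≤ 2 ^ #(pf Q r) ∧ (2 : ℝ) ^ #(pf Q r) ≤ dv r) ∧
  (∀ Q E : O, 36 ∣ Q → Primary E → IsCoprime E Q → dv (rd E) = 2 ^ #(pf Q E)) ∧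
  (∀ (Q m : O) (s : ℝ) (T : Finset O), 36 ∣ Q → m ≠ 0 →
    (∀ p ∈ pf Q m, (N p : ℝ) ^ (-s) ≤ 1 / 2) → (∀ E ∈ T, Primary E ∧ IsCoprime E Q ∧ E ∣ m) →
    ∑ E ∈ T, (N E : ℝ) ^ (-s) ≤ Ep Q 2 s m) ∧
  ∀ c η : ℝ, 0 ≤ c → 0 < η → ∃ C₀ : ℝ, ∀ Q g : O, Big Q C₀ → g ≠ 0 →
    c ^ #(pf Q g) ≤ (N g : ℝ) ^ η

/-- the sum of the kernels `jj` when all primes are large -/
def S_Eu7 : Prop :=
  ∀ η : ℝ, 0 < η → ∃ C₀ : ℝ, ∀ (Q m : O) (T : Finset O), 36 ∣ Q → Big Q C₀ → m ≠ 0 →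
    (∀ e ∈ T, SQ e ∧ IsCoprime e Q) →
    ∑ e ∈ T, ‖jj e m‖ * (N e : ℝ) ^ (-(13 / 10) : ℝ) ≤ (1 + η) * Ep Q 2 (3 / 10) m

/-- removal of a coprimality condition, pointwise -/
def S_Cp : Prop :=
  ∀ (Q : O) (ν : O → ℂ) (r m : O) (a β X₀ t : ℝ), 36 ∣ Q → IsNu Q ν → r ≠ 0 → 1 / 2 ≤ β → β ≤ 1 →
    (∀ X : ℝ, 0 < X → X ≤ X₀ → ‖A ν 1 m X t‖ ≤ a * X ^ β) →
    ∀ X : ℝ, 0 < X → X ≤ X₀ → ‖A ν r m X t - A ν 1 m X t‖ ≤ a * X ^ β * (Ep Q 2 β r - 1)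

/-- the Moebius side sum as a product of the pieces and a Moebius sum -/
def S_U : Prop :=
  ∀ (Q g m : O) (lo P a β X : ℝ) (l : List ℕ) (S : ℕ → Finset O) (φ : O → ℝ), 36 ∣ Q → Primary g →
    l.Nodup → Pc Q lo P l.toFinset S φ → 1 / 2 ≤ β → β ≤ 1 → 0 < X →
    (∀ X' : ℝ, 0 < X' → X' ≤ X → ‖A (cop Q) g m X' 0‖ ≤ a * X' ^ β) →
    ‖Ug (uX Q S φ l X) g m -
        (∏ i ∈ l.toFinset, -F1 (S i) φ m) * (cop Q g * A (cop Q) g m (X / N g) 0)‖ ≤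
      a * (X / N g) ^ β * (∏ i ∈ l.toFinset, (‖F1 (S i) φ m‖ + ee (S i) φ β g) -
        ∏ i ∈ l.toFinset, ‖F1 (S i) φ m‖)

/-- sums over squarefree arguments -/
def S_Sf : Prop :=
  (∀ (Q : O) (ν : O → ℂ) (g m : O) (Y : ℝ), IsNu Q ν → g ≠ 0 → 0 < Y →
    Lg (vY ν Y) g m = ν g * Ls ν g m (Y / N g) 0) ∧
  (∀ (Q : O) (ν : O → ℂ) (e m : O) (Y t : ℝ), IsNu Q ν → SQ e → 0 < Y →
    ‖Wsum (fun c => sq ν c * QB.ps e c m) Y t‖ ≤ ‖Ls ν e m (Y / N e) t‖) ∧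
  (∀ (Q : O) (ν : O → ℂ) (m : O) (Y t : ℝ), IsNu Q ν → 0 < Y →
    HasSum (fun d : O => if Primary d then mu d * ph ν m d ^ 2 *
      ((((N d : ℝ) ^ 2 : ℝ) : ℂ) ^ ((t : ℂ) * Complex.I) * Lm ν m (Y / (N d : ℝ) ^ 2) t) else 0)
      (Ls ν 1 m Y t)) ∧
  ∀ δ : ℝ, 0 < δ → ∃ C : ℝ, 0 < C ∧ ∀ (Q : O) (ν : O → ℂ) (r m : O) (Y t lam : ℝ), IsNu Q ν →
    r ≠ 0 → 0 < Y → (∀ Y' : ℝ, 0 < Y' → Y' ≤ Y → ‖Lm ν m Y' t‖ ≤ lam * Y' ^ ((1 + δ) / 2)) →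
    ‖Ls ν r m Y t‖ ≤ C * dv r * lam * Y ^ ((1 + δ) / 2)

/-- crude bounds -/
def S_Lam : Prop :=
  (∃ C : ℝ, 1 ≤ C ∧ ∀ (u : O → ℂ) (Y t : ℝ), (∀ c, ‖u c‖ ≤ 1) → 0 < Y → ‖Wsum u Y t‖ ≤ C * Y) ∧
  (∀ Q : O, Q ≠ 0 → 36 ∣ Q → ∃ (C : ℝ) (k : ℕ), 0 < C ∧ ∀ (ν : O → ℂ) (m : O) (R Y t δ : ℝ),
    IsNu Q ν → m ≠ 0 → Rad m R → ¬ Exc Q ν m → 0 < Y → 0 ≤ δ → δ ≤ 1 →
    ‖Lm ν m Y t‖ ≤ C * (1 + |t|) ^ k * R ^ (5 / 8 : ℝ) * Y ^ ((1 + δ) / 2)) ∧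
  ∀ ε δ : ℝ, 0 < ε → 0 < δ → ∃ C : ℝ, 0 < C ∧ ∀ (m : O) (T : Finset O), m ≠ 0 → (∀ e ∈ T, SQ e) →
    ∑ e ∈ T, ‖jj e m‖ * dv e ^ 4 * (N e : ℝ) ^ (-(1 + δ)) ≤ C * (N m : ℝ) ^ ε

/-- the bound for one row -/
def S_Em : Prop :=
  ∀ (ε δ : ℝ) (J : ℕ), 0 < ε → 0 < δ → ∃ C : ℝ, 0 < C ∧ ∀ (Q m : O) (lo P X Y : ℝ) (l : List ℕ)
    (S : ℕ → Finset O) (φ a β lam : O → ℝ), 36 ∣ Q → m ≠ 0 → 1 ≤ P → 0 < X → 0 < Y → l.Nodup →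
    l.length ≤ J → Pc Q lo P l.toFinset S φ →
    (∀ k, Primary k → k ^ 6 ∣ m → 1 / 2 ≤ β k ∧ β k ≤ 1 ∧
      (∀ X' : ℝ, 0 < X' → X' ≤ X → ‖A (cop Q) 1 m X' 0‖ ≤ a k * X' ^ β k) ∧
      ∀ Y' : ℝ, 0 < Y' → Y' ≤ Y → ‖Lm (cop Q) m Y' 0‖ ≤ lam k * Y' ^ ((1 + δ) / 2)) →
    ‖MS (uX Q S φ l X) (vY (cop Q) Y) m‖ ≤
      C * (N m : ℝ) ^ ε * Y ^ ((1 + δ) / 2) * (∏ i ∈ l.toFinset, (‖F1 (S i) φ m‖ + √P)) *
        ∑ k ∈ (pdiv m).filter (fun k => k ^ 6 ∣ m),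
          (N k : ℝ) ^ (7 / 2 - 5 * β k) * (a k * X ^ β k * lam k)

/-- the row zero -/
def S_M0 : Prop :=
  ∀ ε : ℝ, 0 < ε → ∃ C : ℝ, 0 < C ∧ ∀ (u v : O → ℂ) (K K' : ℝ),
    (∀ x, ‖u x‖ ≤ K * nr x ^ (-(1 + ε))) → (∀ x, ‖v x‖ ≤ K' * (nr x)⁻¹) →
    ‖MS u v 0‖ ≤ C * K * K'

/-! ### the dual side -/

/-- separation of variables -/
def S_Sep : Prop :=
  ∀ (ε : ℝ) (k : ℕ), 0 < ε → ∃ C : ℝ, 0 < C ∧ ∀ (H ι κ : Type) [Countable ι] [Countable κ]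
    (s : Finset H) (n : H → ℝ) (α : H → ι → ℂ) (β : H → κ → ℂ) (x : ι → ℝ) (y : κ → ℝ)
    (c V Λ b : ℝ), (∀ i, 0 < x i) → (∀ j, 0 < y j) → 0 < c → 0 < V → 0 < Λ → Λ ≤ c * V → 0 ≤ b →
    (∀ h ∈ s, 1 ≤ n h ∧ ∀ σ : ℝ, (Summable fun i => ‖α h i‖ * x i ^ σ) ∧
      Summable fun j => ‖β h j‖ * y j ^ σ) →
    (∀ (σ z u : ℝ) (t : Finset H), 0 ≤ σ → σ ≤ 13 → 1 ≤ z → t ⊆ s → (∀ h ∈ t, n h ≤ z * V) →
      ∑ h ∈ t, ‖DS (α h) x σ u‖ * ‖DS (β h) y σ u‖ ≤ b * Λ ^ σ * z ^ 11 * (1 + |u|) ^ k) →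
    ∑ h ∈ s, ‖KS (α h) (β h) x y (c * n h)‖ ≤ C * (1 + V) ^ ε * b

/-- Poisson summation back from the dual of the detector -/
def S_B1 : Prop :=
  ∃ C : ℝ, 0 < C ∧ ∀ (Q : O) (ν : O → ℂ) (P X t b : ℝ), 36 ∣ Q → IsNu Q ν → 0 < P → 0 < X →
    (∀ ν', IsNu Q ν' → ∀ s T : Finset O, 0 ∉ s → (∀ e ∈ T, SQ e) → ∑ m ∈ s, ∑ e ∈ T,
      ‖jj e m‖ * ‖QB.KD (fun c => sq ν' c * QB.ps e c m) X t (P * N m)‖ ≤ b) →
    QB.ML (fun h => Bm ν h X t) P (C * P * (X + b))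

/-- the short family -/
def S_B2 : Prop :=
  ∀ Q : O, Q ≠ 0 → 36 ∣ Q → ∀ ε : ℝ, 0 < ε → ∃ (C : ℝ) (k : ℕ), 0 < C ∧
    ∀ (ν : O → ℂ) (P X t V : ℝ) (s T : Finset O), IsNu Q ν → 0 < P → 0 < X → 1 ≤ V →
      X ^ 2 ≤ P * V → 0 ∉ s → (∀ e ∈ T, SQ e) → ∑ m ∈ s, ∑ e ∈ T,
        ‖jj e m‖ * ‖QB.KD (fun c => sq ν c * QB.ps e c m) X t (P * N m)‖ ≤
      C * (1 + |t|) ^ k * (X + V) ^ ε * (X * V ^ (1 / 6 : ℝ) + V ^ (9 / 4 : ℝ))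

/-- the dual bound -/
def S_D : Prop :=
  ∀ Q : O, Q ≠ 0 → 36 ∣ Q → ∀ ε : ℝ, 0 < ε → ∃ C : ℝ, 0 < C ∧
    ∀ (T s : Finset O) (F w : O → ℂ) (M X Y D H : ℝ), Rg M X Y D H →
      (∀ d ∈ T, SQ d ∧ (N d : ℝ) ≤ D ∧ ‖F d‖ ≤ 1) →
      (∀ x, w x = ∑ d ∈ T, if d ∣ x then F d * W (X * N d) 0 (nr x) else 0) → 0 ∉ s →
      ∑ h ∈ s, ‖DH (fun x => cop Q x * w x) (vY (cop Q) Y) M h‖ ≤
        C * (X * Y) ^ ε * (M * H * (Y ^ 2 / H) ^ (1 / 12 : ℝ))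

/-! ### the main term -/

/-- counting the principal rows -/
def S_Trv : Prop :=
  ∃ c C : ℝ, 0 < c ∧ 0 < C ∧ ∀ η : ℝ, 0 < η → ∃ C₀ : ℝ, ∀ (Q : O) (M : ℝ), Q ≠ 0 → 36 ∣ Q →
    Big Q C₀ → 1 ≤ M →
    (∃ s : Finset O, (∀ m ∈ s, Tv Q m) ∧ c * M ^ (1 / 6 : ℝ) ≤ ∑ m ∈ s, G (N m / M)) ∧
    ∀ s : Finset O, (∀ m ∈ s, Tv Q m) → ∑ m ∈ s, G (N m / M) ≤ C * M ^ (1 / 6 : ℝ) ∧
      ∑ m ∈ s, G (N m / M) * (Ep Q 1 (1 / 5) m - 1) ≤ η * M ^ (1 / 6 : ℝ)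

/-- the size of the mass of the detector -/
def S_L0 : Prop :=
  ∀ Q : O, Q ≠ 0 → 36 ∣ Q → ∃ c Y₀ : ℝ, 0 < c ∧ ∀ Y : ℝ, Y₀ ≤ Y → c * Y ≤ L0 Q Y ∧ Rat Q Y

/-- the hypotheses on a principal row -/
structure HT (Q m : O) (θ lo P X Y B : ℝ) (l : List ℕ) (S : ℕ → Finset O) (φ : O → ℝ) : Prop where
  q : 36 ∣ Q
  tv : Tv Q m
  t0 : 5 / 6 ≤ θ
  t1 : θ ≤ 1
  nd : l.Nodup
  pc : Pc Q lo P l.toFinset S φ
  p1 : 1 ≤ P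
  ms : ∀ i ∈ l, P ^ θ ≤ ∑ p ∈ S i, φ p
  x0 : 0 < X
  y0 : 0 < Y
  rat : Rat Q Y
  rc : ∀ X' : ℝ, 0 < X' → X' ≤ X → ‖A (cop Q) 1 1 X' 0‖ ≤ B * X' ^ θ

/-- the main state on a principal row -/
def S_E0 : Prop :=
  ∀ (η : ℝ) (J : ℕ), 0 < η → ∃ C₀ lo₀ : ℝ, ∀ (Q m : O) (θ lo P X Y B W₀ : ℝ) (l : List ℕ)
    (S : ℕ → Finset O) (φ : O → ℝ), HT Q m θ lo P X Y B l S φ → Big Q C₀ → lo₀ ≤ lo →
    l.length ≤ J → W₀ = (∏ i ∈ l.toFinset, ∑ p ∈ S i, φ p) * L0 Q Y →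
    ∃ w : ℝ, 0 ≤ w ∧ W₀ * (2 - Ep Q 1 (1 / 5) m) ≤ w ∧ w ≤ W₀ ∧
      ‖TS (uX Q S φ l X) (vY (cop Q) Y) m (1, 1, 1, 1) -
          (-1) ^ l.length * (w : ℂ) * A (cop Q) 1 1 X 0‖ ≤
        B * X ^ θ * W₀ * (η + (1 + η) * (Ep Q 1 (1 / 5) m - 1))

/-- the other states on a principal row -/
def S_E1 : Prop :=
  ∀ (η : ℝ) (J : ℕ), 0 < η → ∃ C₀ lo₀ : ℝ, ∀ (Q m : O) (θ lo P X Y B W₀ : ℝ) (l : List ℕ)
    (S : ℕ → Finset O) (φ : O → ℝ) (T : Finset (O × O × O × O)), HT Q m θ lo P X Y B l S φ →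
    Big Q C₀ → lo₀ ≤ lo → l.length ≤ J → W₀ = (∏ i ∈ l.toFinset, ∑ p ∈ S i, φ p) * L0 Q Y →
    (1, 1, 1, 1) ∉ T → ∑ σ ∈ T, ‖TS (uX Q S φ l X) (vY (cop Q) Y) m σ‖ ≤
      B * X ^ θ * W₀ * (4 * (η + (1 + η) * (Ep Q 1 (1 / 5) m - 1)))

/-- the first moment inequality with free parameters -/
def S_Cor : Prop :=
  ∀ J : ℕ, ∃ C₀ lo₀ : ℝ, ∀ Q : O, Q ≠ 0 → 36 ∣ Q → Big Q C₀ → ∀ ε : ℝ, 0 < ε →
    ∃ C Y₀ : ℝ, 0 < C ∧ ∀ (θ M X Y H lo P B b : ℝ) (l : List ℕ) (S : ℕ → Finset O) (φ : O → ℝ),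
      5 / 6 ≤ θ → θ ≤ 1 → l.Nodup → l.length = J → Pc Q lo P l.toFinset S φ → lo₀ ≤ lo → 1 ≤ P →
      (∀ i ∈ l, P ^ θ ≤ ∑ p ∈ S i, φ p) → 1 ≤ M → Y₀ ≤ Y → Rg M X Y (P ^ J) H →
      (∀ X' : ℝ, 0 < X' → X' ≤ X → ‖A (cop Q) 1 1 X' 0‖ ≤ B * X' ^ θ) →
      (∀ s : Finset O, (∀ m ∈ s, m ≠ 0 ∧ ¬ Exc Q (cop Q) m) →
        ∑ m ∈ s, G (N m / M) * ‖MS (uX Q S φ l X) (vY (cop Q) Y) m‖ ≤ b) →
      ‖A (cop Q) 1 1 X 0‖ ≤ B / 2 * X ^ θ +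
        C * ((X * Y) ^ ε * (M * H * (Y ^ 2 / H) ^ (1 / 12 : ℝ)) + b) /
          (M ^ (1 / 6 : ℝ) * Y * ∏ i ∈ l.toFinset, ∑ p ∈ S i, φ p)

/-- the sum over the rows that are not principal -/
def S_bE : Prop :=
  ∀ Q : O, Q ≠ 0 → 36 ∣ Q → ∀ (ε η : ℝ) (J : ℕ), 0 < ε → 0 < η → ∃ C : ℝ, 0 < C ∧
    ∀ (Z M X Y lo P B₀ : ℝ) (S : ℕ → Finset O) (φ β Λ : O → ℝ) (Φ : ℕ → O → ℝ) (s : Finset O),
      1 ≤ Z → 0 < M → M ≤ Z ^ (1 - η) → 1 ≤ X → X ≤ Z ^ 2 → 1 ≤ Y → Y ≤ Z → 1 ≤ P → P ^ J ≤ Z →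
      Pc Q lo P (range J) S φ → 1 ≤ B₀ →
      (∀ m ∈ Rows Q Z, 1 / 2 ≤ β m ∧ β m ≤ 1 ∧ 1 ≤ Λ m ∧ (∀ i < J, √P ≤ Φ i m) ∧
        ∀ k : O, k ≠ 0 → (N k : ℝ) ≤ Z ^ 10 →
          (∀ X' : ℝ, 0 < X' → X' ≤ X → ‖A (cop Q) 1 (m * k ^ 6) X' 0‖ ≤ B₀ * X' ^ β m) ∧
          (∀ i < J, ‖F1 (S i) φ (m * k ^ 6)‖ ≤ B₀ * Φ i m) ∧
          ∀ Y : ℝ, 0 < Y → Y ≤ Z → ‖Lm (cop Q) (m * k ^ 6) Y 0‖ ≤ B₀ * Λ m * √Y) →
      (∀ m ∈ s, m ≠ 0 ∧ ¬ Exc Q (cop Q) m) →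
      ∑ m ∈ s, G (N m / M) * ‖MS (uX Q S φ (List.range J) X) (vY (cop Q) Y) m‖ ≤
        C * Z ^ ε * √Y * (Z ^ (13 / 48 : ℝ) * (X * P ^ J) +
          B₀ ^ (J + 2) * ∑ k ∈ (ball Z).erase 0, (N k : ℝ) *
            ∑ m ∈ Rows Q (Z / (N k : ℝ) ^ 6), X ^ β m * (∏ i ∈ range J, Φ i m) * Λ m)

/-! ### small lemmas -/

lemma rd_dvd (E : O) : rd E ∣ E := UniqueFactorizationMonoid.radical_dvd_self

lemma rd_one : rd 1 = 1 := UniqueFactorizationMonoid.radical_of_isUnit isUnit_one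

lemma sq_rd {E : O} (h : Primary E) : SQ (rd E) := by
  refine ⟨?_, UniqueFactorizationMonoid.squarefree_radical⟩
  refine Finset.prod_induction _ Primary (fun a b => Primary.mul) primary_one fun p hp => ?_
  obtain ⟨-, h1, h2⟩ := mem_nf (UniqueFactorizationMonoid.mem_primeFactors.1 hp)
  exact h1.primary fun e => h.not_lam_dvd (e.trans h2)

lemma dvd_rd {E p : O} (h : E ≠ 0) (hp : Prime p) : p ∣ rd E ↔ p ∣ E :=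
  UniqueFactorizationMonoid.dvd_radical_iff_of_irreducible hp.irreducible h

lemma cop_rd {E c : O} (h : E ≠ 0) : IsCoprime c (rd E) ↔ IsCoprime c E := by
  refine ⟨fun e => ?_, fun e => e.of_isCoprime_of_dvd_right (rd_dvd E)⟩
  obtain ⟨n, hn⟩ := UniqueFactorizationMonoid.exists_dvd_radical_self_pow h
  exact (e.pow_right (n := n)).of_isCoprime_of_dvd_right hn

lemma rd_mul {a b : O} (h : IsCoprime a b) : rd (a * b) = rd a * rd b :=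
  UniqueFactorizationMonoid.radical_mul h.isRelPrime

lemma rd_mul_tt (E a b : O) : rd E * tt E a b = E ^ 3 * a * b :=
  mul_quo (((rd_dvd E).trans (dvd_pow_self E three_ne_zero)).mul_right a |>.mul_right b)

lemma val_one : Val (1, 1, 1, 1) := by
  have h : (1 : O) ∈ pdiv (rd 1) := by rw [rd_one]; exact one_mem_pdiv one_ne_zero
  exact ⟨primary_one, isCoprime_one_left, h, h, ⟨primary_one, squarefree_one⟩, isCoprime_one_left⟩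

lemma summable_L0 (Q : O) {Y : ℝ} (hY : 0 < Y) :
    Summable fun n : O => if SQ n ∧ IsCoprime n Q then ‖W Y 0 (nr n)‖ else 0 :=
  Summable.of_nonneg_of_le (fun n => by positivity) (fun n => by split_ifs <;> simp)
    (QB.summable_W1 (u := fun _ => 1) (fun _ => by simp) hY 0)

lemma norm_Ls_le (Q r m : O) {Y : ℝ} (hY : 0 < Y) : ‖Ls (cop Q) r m Y 0‖ ≤ L0 Q Y := by
  refine tsum_of_norm_bounded (summable_L0 Q hY).hasSum fun n => ?_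
  beta_reduce
  by_cases h : SQ n ∧ IsCoprime n r
  · by_cases h' : IsCoprime n Q
    · rw [if_pos h, if_pos ⟨h.1, h'⟩, norm_mul]
      exact mul_le_of_le_one_left (norm_nonneg _) ((mul1_ph (isNu_cop Q) m).le n)
    · simp [ph, cop_of_not h', h']
  · rw [if_neg h, zero_mul, norm_zero]; positivity

lemma Tv.ph_eq {Q m n : O} (h : Tv Q m) (hn : Primary n) :
    ph (cop Q) m n = cop Q n * cop m n := by
  by_cases h1 : IsCoprime n Q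
  · by_cases h2 : IsCoprime n m
    · rw [h.2 n hn (h1.mul_right h2), cop_of h1, cop_of h2, mul_one]
    · rw [ph, (psi_eq_zero hn.ne_zero).2 fun e => h2 e.symm, cop_of_not h2]
  · rw [ph, cop_of_not h1, zero_mul, zero_mul]

lemma Tv.A_eq {Q m : O} (h : Tv Q m) (g : O) (X t : ℝ) :
    A (cop Q) g m X t = A (cop Q) (g * m) 1 X t := by
  unfold A
  congr 1
  funext c
  unfold uA
  by_cases h1 : SQ c
  · have e := h.ph_eq h1.1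
    rw [ph] at e
    rw [mul_assoc, e]
    by_cases h2 : IsCoprime c g <;> by_cases h3 : IsCoprime c m <;>
      simp [h1, h2, h3, IsCoprime.mul_right_iff, cop]
  · simp [h1]

/-- solving a one step recursion in the scale -/
lemma geo {V₀ V₁ : ℝ → ℂ} {z : ℝ → ℂ} {n B K β X₀ : ℝ} (hz : ∀ X, ‖z X‖ ≤ 1) (hn : 1 ≤ n)
    (hβ : n ^ (-β) ≤ 1 / 2) (hr : ∀ X, 0 < X → X ≤ X₀ → V₀ X = V₁ X + z X * V₁ (X / n))
    (h0 : ∀ X, 0 < X → X ≤ X₀ → ‖V₀ X‖ ≤ B * X ^ β)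
    (hK : ∀ X, 0 < X → X ≤ X₀ → ‖V₁ X‖ ≤ K * X ^ β) {X : ℝ} (hX : 0 < X) (hX₀ : X ≤ X₀) :
    ‖V₁ X - V₀ X‖ ≤ 2 * n ^ (-β) * B * X ^ β := by
  have hn0 : 0 < n := by linarith
  have hB : 0 ≤ B := nonneg_of_mul_nonneg_left ((norm_nonneg _).trans (h0 X hX hX₀))
    (Real.rpow_pos_of_pos hX β)
  have hK0 : 0 ≤ K := nonneg_of_mul_nonneg_left ((norm_nonneg _).trans (hK X hX hX₀))
    (Real.rpow_pos_of_pos hX β)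
  have e : ∀ X : ℝ, 0 < X → (X / n) ^ β = n ^ (-β) * X ^ β := fun X hX => by
    rw [Real.div_rpow hX.le hn0.le, Real.rpow_neg hn0.le]; ring
  have key : ∀ j : ℕ, ∀ X, 0 < X → X ≤ X₀ → ‖V₁ X‖ ≤ (2 * B + K / 2 ^ j) * X ^ β := by
    intro j
    induction j with
    | zero => exact fun X hX h => (hK X hX h).trans (by gcongr; simp; linarith)
    | succ j ih =>
      intro X hX h
      have h1 := ih (X / n) (by positivity) ((div_le_self hX.le hn).trans h)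
      have h2 : V₁ X = V₀ X - z X * V₁ (X / n) := by rw [hr X hX h]; ring
      have h3 : ‖z X * V₁ (X / n)‖ ≤ (2 * B + K / 2 ^ j) * (1 / 2 * X ^ β) := by
        rw [norm_mul]
        refine (mul_le_of_le_one_left (norm_nonneg _) (hz X)).trans (h1.trans ?_)
        rw [e X hX]
        gcongr
      rw [h2]
      refine (norm_sub_le_of_le (h0 X hX h) h3).trans (le_of_eq ?_)
      rw [pow_succ]; field_simp; ring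
  have lim : ∀ X, 0 < X → X ≤ X₀ → ‖V₁ X‖ ≤ 2 * B * X ^ β := fun X hX h => by
    have t : Filter.Tendsto (fun j : ℕ => (2 * B + K / 2 ^ j) * X ^ β) Filter.atTop
        (nhds ((2 * B + 0) * X ^ β)) :=
      ((tendsto_const_nhds.div_atTop (tendsto_pow_atTop_atTop_of_one_lt one_lt_two)).const_add
        _).mul_const _
    rw [add_zero] at t
    exact ge_of_tendsto' t fun j => key j X hX h
  rw [hr X hX hX₀, sub_add_cancel_left, norm_neg, norm_mul]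
  refine (mul_le_of_le_one_left (norm_nonneg _) (hz X)).trans
    ((lim _ (by positivity) ((div_le_self hX.le hn).trans hX₀)).trans (le_of_eq ?_))
  rw [e X hX]; ring

end Pool.Agent.P.MP_323ce2_nt.QM
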